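import Pool.Agent.Helper53.TPR.Flags
import Pool.Agent.Helper53.CSC.Gener
import Pool.Agent.TPT.Newton
import Pool.Agent.TP.Indep

/-! The flags of the question are the flags of Newton matrices; transport by linear maps. -/

namespace Pool.TPC

open Module Pool.CSC Pool.TPR Polynomial

noncomputable section

variable {n : ℕ}

/-! ### transport by a linear equivalence -/

section transport

variable (e : (Fin n → ℂ) ≃ₗ[ℂ] (Fin n → ℂ))

/-- image of a subspace -/
def mp (H : Submodule ℂ (Fin n → ℂ)) : Submodule ℂ (Fin n → ℂ) :=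
  H.map (e : (Fin n → ℂ) →ₗ[ℂ] (Fin n → ℂ))

lemma finrank_mp (H : Submodule ℂ (Fin n → ℂ)) : finrank ℂ ↥(mp e H) = finrank ℂ ↥H :=
  LinearEquiv.finrank_map_eq e H

lemma mp_inf (A B : Submodule ℂ (Fin n → ℂ)) : mp e (A ⊓ B) = mp e A ⊓ mp e B :=
  Submodule.map_inf _ e.injective

lemma mem_mp {H : Submodule ℂ (Fin n → ℂ)} {v : Fin n → ℂ} : e v ∈ mp e H ↔ v ∈ H := by
  rw [mp]
  constructor
  · rintro ⟨w, hw, h⟩
    rwa [← e.injective h]
  · intro h
    exact ⟨v, h, rfl⟩

lemma mp_injective : Function.Injective (mp e) := by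
  intro A B h
  ext v
  rw [← mem_mp e, h, mem_mp e]

lemma schub_mp {k : ℕ} {lam : Fin k → ℕ} {F : ℕ → Submodule ℂ (Fin n → ℂ)}
    {H : Submodule ℂ (Fin n → ℂ)} :
    mp e H ∈ schub k n lam (fun j => mp e (F j)) ↔ H ∈ schub k n lam F := by
  have h : ∀ j, finrank ℂ ↥(mp e H ⊓ mp e (F j)) = finrank ℂ ↥(H ⊓ F j) := fun j => by
    rw [← mp_inf, finrank_mp]
  simp only [schub, Set.mem_ofPred_eq, finrank_mp, h]

/-- real linear equivalences -/
def RealEq : Prop := ∀ v : Fin n → ℂ,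
  e (fun i => (starRingEnd ℂ) (v i)) = fun i => (starRingEnd ℂ) (e v i)

variable {e}

lemma isReal_mp (he : RealEq e) {H : Submodule ℂ (Fin n → ℂ)} :
    IsReal n (mp e H) ↔ IsReal n H := by
  constructor
  · intro h v hv
    have h1 := h (e v) ((mem_mp e).2 hv)
    rw [← he v] at h1
    exact (mem_mp e).1 h1
  · rintro h _ ⟨v, hv, rfl⟩
    have h1 := (mem_mp e).2 (h v hv)
    rw [he v] at h1
    exact h1

variable (e)

/-- transport of transversality -/
lemma trans_mp {k m : ℕ} {lam : Fin m → Fin k → ℕ} {F : Fin m → ℕ → Submodule ℂ (Fin n → ℂ)}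
    {H : Submodule ℂ (Fin n → ℂ)}
    (h : ∀ φ : ↥(mp e H) →ₗ[ℂ] (Fin n → ℂ) ⧸ mp e H,
      (∀ l, TangentTo k n (lam l) (fun j => mp e (F l j)) (mp e H) φ) → φ = 0)
    (φ : ↥H →ₗ[ℂ] (Fin n → ℂ) ⧸ H) (hφ : ∀ l, TangentTo k n (lam l) (F l) H φ) : φ = 0 := by
  -- the quotient map
  let q : ((Fin n → ℂ) ⧸ H) →ₗ[ℂ] (Fin n → ℂ) ⧸ mp e H :=
    H.mapQ (mp e H) (e : (Fin n → ℂ) →ₗ[ℂ] (Fin n → ℂ)) (fun v hv => (mem_mp e).2 hv)
  have hq : ∀ v, q (H.mkQ v) = (mp e H).mkQ (e v) := fun v => rfl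
  have hqinj : Function.Injective q := by
    rw [← LinearMap.ker_eq_bot, LinearMap.ker_eq_bot']
    intro x hx
    obtain ⟨v, rfl⟩ := Submodule.mkQ_surjective H x
    rw [hq, Submodule.mkQ_apply, Submodule.Quotient.mk_eq_zero, mem_mp] at hx
    rw [Submodule.mkQ_apply, Submodule.Quotient.mk_eq_zero]
    exact hx
  -- the restriction of the inverse
  let r : ↥(mp e H) →ₗ[ℂ] ↥H :=
    ((e.symm : (Fin n → ℂ) →ₗ[ℂ] (Fin n → ℂ)) ∘ₗ (mp e H).subtype).codRestrict H (by
      rintro ⟨_, v, hv, rfl⟩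
      simpa using hv)
  have hr : ∀ (v : Fin n → ℂ) (hv : v ∈ H), r ⟨e v, (mem_mp e).2 hv⟩ = ⟨v, hv⟩ := by
    intro v hv
    ext1
    simp [r]
  have h0 : q ∘ₗ φ ∘ₗ r = 0 := by
    apply h
    intro l i hi x hx
    obtain ⟨v, hv, hvx⟩ := x.2
    have hx' : x = ⟨e v, (mem_mp e).2 hv⟩ := Subtype.ext hvx.symm
    rw [hx'] at hx ⊢
    have hx1 : v ∈ F l (sidx k n (lam l) i) := (mem_mp e).1 hx
    have hi' : finrank ℂ ↥(H ⊓ F l (sidx k n (lam l) i)) = (i : ℕ) + 1 := by
      rw [← hi, ← finrank_mp e, mp_inf]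
    obtain ⟨y, hy, hy'⟩ := hφ l i hi' ⟨v, hv⟩ hx1
    rw [LinearMap.comp_apply, LinearMap.comp_apply, hr v hv, ← hy', hq]
    exact ⟨e y, (mem_mp e).2 hy, rfl⟩
  ext1 ⟨v, hv⟩
  apply hqinj
  have h1 := LinearMap.congr_fun h0 ⟨e v, (mem_mp e).2 hv⟩
  rw [LinearMap.comp_apply, LinearMap.comp_apply, hr v hv] at h1
  rw [h1, LinearMap.zero_apply, LinearMap.zero_apply, map_zero]

end transport

/-! ### the coefficients of the polynomial of a vector -/

/-- coefficients of `fp n x` -/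
def PhiL (n : ℕ) : (Fin n → ℂ) →ₗ[ℂ] (Fin n → ℂ) where
  toFun x i := (fp n x).coeff i
  map_add' x y := by
    ext i
    simp
  map_smul' c x := by
    ext i
    simp

lemma PhiL_injective (n : ℕ) : Function.Injective (PhiL n) := by
  intro x y h
  apply fp_injective n
  ext j
  by_cases hj : j < n
  · exact congrFun h ⟨j, hj⟩
  · have h1 := fp_degree n x
    have h2 := fp_degree n y
    rw [mem_degreeLT] at h1 h2
    rw [coeff_eq_zero_of_degree_lt (h1.trans_le (by exact_mod_cast (not_lt.1 hj))),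
      coeff_eq_zero_of_degree_lt (h2.trans_le (by exact_mod_cast (not_lt.1 hj)))]

/-- coefficients of `fp n x`, as a linear equivalence -/
def Phi (n : ℕ) : (Fin n → ℂ) ≃ₗ[ℂ] (Fin n → ℂ) :=
  LinearEquiv.ofInjectiveEndo (PhiL n) (PhiL_injective n)

lemma Phi_apply (x : Fin n → ℂ) (i : Fin n) : Phi n x i = (fp n x).coeff i := rfl

lemma realEq_Phi (n : ℕ) : RealEq (Phi n) := by
  intro v
  ext i
  rw [Phi_apply, Phi_apply]
  have h1 : (i : ℕ) = n - 1 - ((⟨n - 1 - i, by have := i.2; omega⟩ : Fin n) : ℕ) := by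
    have := i.2
    simp only
    omega
  rw [h1, fp_coeff, fp_coeff, map_mul]
  simp

/-- the flags of the question are the flags of Newton matrices -/
theorem cosecant_flg (hn : 2 ≤ n) {I : Set ℝ} {F : ℕ → Submodule ℂ (Fin n → ℂ)}
    (hF : Cosecant n I F) :
    ∃ s : ℕ → ℝ, (∀ i, i + 1 < n → s i ∈ I) ∧
      ∀ j ≤ n, mp (Phi n) (F j) = TP.flg (TPT.gN n s) j := by
  have hfl := isFlag_cosecant (by omega) hF
  obtain ⟨hF0, s, hs, hsI, hFs⟩ := hF
  refine ⟨fun i => if h : i < n - 1 then s ⟨i, h⟩ else 0, ?_, ?_⟩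
  · intro i hi
    simp only
    rw [dif_pos (by omega)]
    exact hsI _
  intro j hj
  set s' : ℕ → ℝ := fun i => if h : i < n - 1 then s ⟨i, h⟩ else 0 with hs'
  have hdim : finrank ℂ ↥(mp (Phi n) (F j)) = j := by
    rw [finrank_mp]
    exact hfl.dim j hj
  have hdim' : finrank ℂ ↥(TP.flg (TPT.gN n s') j) = j :=
    (TP.isFlag_flg (TPT.isUnit_det_gN n s').ne_zero).dim j hj
  symm
  apply Submodule.eq_of_le_of_finrank_eq
  · intro v hv
    obtain ⟨w, hw, rfl⟩ := TP.mem_flg.1 hv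
    -- the polynomial of the vector
    set q : ℂ[X] := ∑ c : Fin n, C (w c) * cx (TPT.nwt s' c) with hq
    have hdeg : q ∈ degreeLT ℂ n := by
      refine Submodule.sum_mem _ fun c _ => ?_
      rw [mem_degreeLT]
      have h1 : (C (w c) * cx (TPT.nwt s' c)).degree ≤ ((c : ℕ) : WithBot ℕ) := by
        rw [← smul_eq_C_mul]
        refine (degree_smul_le _ _).trans ?_
        rw [cx_degree]
        refine degree_le_natDegree.trans ?_
        rw [TPT.nwt_natDegree]
      exact h1.trans_lt (by exact_mod_cast c.2)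
    obtain ⟨x, hx⟩ := fp_surj n hdeg
    refine ⟨x, ?_, ?_⟩
    · rcases Nat.eq_zero_or_pos j with rfl | hj0
      · have hw0 : w = 0 := by
          ext i
          exact hw i (by have := i.2; omega)
        have hq0 : q = 0 := by
          rw [hq]
          simp [hw0]
        have hx0 : x = 0 := fp_injective n (by rw [hx, hq0, map_zero])
        rw [hx0]
        exact Submodule.zero_mem _
      · have h1 := hFs (n - j) (by omega)
        rw [show n - (n - j) = j by omega] at h1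
        show x ∈ F j
        rw [h1, mem_flag (by omega)]
        intro i hi
        rw [hx, hq, eval_finsetSum]
        refine Finset.sum_eq_zero fun c _ => ?_
        rw [eval_mul, eval_C]
        rcases Nat.lt_or_ge (c : ℕ) (n - j) with hc | hc
        · rw [hw c hc, zero_mul]
        · rw [cx_eval]
          have h2 : (TPT.nwt s' c).eval (s i) = 0 := by
            rw [TPT.nwt, eval_prod]
            apply Finset.prod_eq_zero (Finset.mem_range.2 (show (i : ℕ) < c by omega))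
            simp only [hs', i.2, dif_pos, eval_sub, eval_X, eval_C, sub_self]
          rw [h2]
          simp
    · ext r
      show (fp n x).coeff r = _
      rw [hx, hq, finsetSum_coeff, Matrix.mulVec, dotProduct]
      refine Finset.sum_congr rfl fun c _ => ?_
      rw [coeff_C_mul, cx, coeff_map, mul_comm]
      rfl
  · rw [hdim, hdim']

/-! ### the order of the flags -/

/-- disjoint intervals are ordered -/
lemma lt_of_disj {A B : Set ℝ} (hA : A.OrdConnected) (hB : B.OrdConnected) (hAB : Disjoint A B)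
    {a b a' b' : ℝ} (ha : a ∈ A) (ha' : a' ∈ A) (hb : b ∈ B) (hb' : b' ∈ B) (h : b ≤ a) :
    b' < a' := by
  have hd := Set.disjoint_left.1 hAB
  by_contra hc
  rw [not_lt] at hc
  rcases le_total b a' with h1 | h1
  · exact hd ha' (hB.out hb hb' ⟨h1, hc⟩)
  · exact hd (hA.out ha' ha ⟨h1, h⟩) hb

/-- the flags can be ordered so that the nodes decrease -/
theorem exists_order {m : ℕ} (hn : 2 ≤ n) (I : Fin m → Set ℝ) (hI : ∀ l, (I l).OrdConnected)
    (hd : Pairwise fun l l' => Disjoint (I l) (I l')) (s : Fin m → ℕ → ℝ)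
    (hs : ∀ l, ∀ i, i + 1 < n → s l i ∈ I l) :
    ∃ σ : Equiv.Perm (Fin m), ∀ l l' : Fin m, l < l' → ∀ i j, i + 1 < n → j + 1 < n →
      s (σ l') j < s (σ l) i := by
  refine ⟨Tuple.sort fun l => -(s l 0), ?_⟩
  intro l l' hl i j hi hj
  have hmono := Tuple.monotone_sort (fun l => -(s l 0)) hl.le
  simp only [Function.comp_apply] at hmono
  set σ := Tuple.sort fun l => -(s l 0)
  have hne : σ l ≠ σ l' := fun h => hl.ne (σ.injective h)
  exact lt_of_disj (hI (σ l)) (hI (σ l')) (hd hne) (hs _ 0 (by omega)) (hs _ i hi)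
    (hs _ 0 (by omega)) (hs _ j hj) (by linarith)

/-- existence of cosecant flags along disjoint intervals -/
theorem exists_cosecant (hn : 2 ≤ n) (m : ℕ) : ∃ (I : Fin m → Set ℝ)
    (F : Fin m → ℕ → Submodule ℂ (Fin n → ℂ)), (∀ l, (I l).OrdConnected) ∧
      (Pairwise fun l l' => Disjoint (I l) (I l')) ∧ ∀ l, Cosecant n (I l) (F l) := by
  refine ⟨fun l => Set.Ico ((l : ℕ) : ℝ) ((l : ℕ) + 1),
    fun l j => if j = 0 then ⊥ else
      ⨅ (i : Fin (n - 1)) (_ : (i : ℕ) < n - j), osc n (((l : ℕ) : ℝ) + (i : ℕ) / n),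
    fun l => Set.ordConnected_Ico, ?_, ?_⟩
  · intro l l' hl
    rw [Set.disjoint_left]
    rintro x ⟨h1, h2⟩ ⟨h3, h4⟩
    apply hl
    have h5 : ((l : ℕ) : ℝ) < (l' : ℕ) + 1 := h1.trans_lt h4
    have h6 : ((l' : ℕ) : ℝ) < (l : ℕ) + 1 := h3.trans_lt h2
    have h7 : (l : ℕ) < (l' : ℕ) + 1 := by exact_mod_cast h5
    have h8 : (l' : ℕ) < (l : ℕ) + 1 := by exact_mod_cast h6
    exact Fin.ext (by omega)
  · intro l
    have hn0 : (0 : ℝ) < n := by
      have : 0 < n := by omega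
      exact_mod_cast this
    refine ⟨if_pos rfl, fun i => ((l : ℕ) : ℝ) + (i : ℕ) / n, ?_, ?_, ?_⟩
    · intro i i' h
      simp only [add_right_inj] at h
      rw [div_left_inj' hn0.ne'] at h
      exact Fin.ext (by exact_mod_cast h)
    · intro i
      have h1 : (0 : ℝ) ≤ (i : ℕ) / n := by positivity
      have h2 : ((i : ℕ) : ℝ) / n < 1 := by
        rw [div_lt_one hn0]
        have := i.2
        exact_mod_cast (by omega : (i : ℕ) < n)
      exact ⟨by linarith, by linarith⟩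
    · intro j hj
      have h1 : n - j ≠ 0 := by omega
      simp only
      rw [if_neg h1, show n - (n - j) = j by omega]

end

end Pool.TPC
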