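import Pool.Agent.TPC.Conj
import Pool.Agent.TPT.Pos

/-! Reality of the complex solutions of positive Schubert problems: notation.
A `k`-plane of `ℂ^n` is given by a frame `B : Fin k → Fin n → ℂ`. Pluecker coordinates `pl`, forms
`ev`: Plu.lean; conjugation `cj`: Conj.lean. -/

namespace Pool.TPC

open Matrix Module Pool.CSC Pool.TPT Filter Topology

noncomputable section

/-- frames: `k` vectors of `ℂ^n` -/
abbrev Fr (k n : ℕ) := Fin k → Fin n → ℂ

/-- index tuples -/
abbrev Ix (k n : ℕ) := Fin k → Fin n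

/-- coefficients of a linear form in the Pluecker coordinates -/
abbrev Cf (k n : ℕ) := (Fin k → Fin n) → ℂ

/-- real square matrices -/
abbrev RM (n : ℕ) := Matrix (Fin n) (Fin n) ℝ

variable {k n : ℕ}

/-- the weight of a (strictly increasing) index tuple: `∑ (s b - b)` -/
def wt (s : Ix k n) : ℕ := ∑ b, ((s b : ℕ) - (b : ℕ))

/-- complexification -/
def cx (u : RM n) : Matrix (Fin n) (Fin n) ℂ := u.map fun x => (x : ℂ)

/-- a matrix acts on frames -/
def act (g : Matrix (Fin n) (Fin n) ℂ) (B : Fr k n) : Fr k n := fun a => g *ᵥ B a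

/-- the span of a frame -/
abbrev sp (B : Fr k n) : Submodule ℂ (Fin n → ℂ) := Submodule.span ℂ (Set.range B)

/-- the contact order with the flag of `u` is at least `a` -/
def Ord (a : ℕ) (u : RM n) (B : Fr k n) : Prop :=
  ∀ s : Ix k n, StrictMono s → wt s < a → pl s (act (cx u⁻¹) B) = 0

/-- the flag of `u`: its `j`-dimensional member is spanned by the last `j` columns of `u` -/
def flg (u : RM n) (j : ℕ) : Submodule ℂ (Fin n → ℂ) :=
  Submodule.span ℂ {v | ∃ i : Fin n, n - j ≤ (i : ℕ) ∧ v = fun r => (u r i : ℂ)}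

/-- the tangent vector `B b ↦ Z b` at the span of `B` is tangent to the Schubert cell of the span
with respect to the flag of `u` -/
def CellT (u : RM n) (B Z : Fr k n) : Prop :=
  ∀ j : ℕ, ∀ c : Fin k → ℂ, (∑ b, c b • B b) ∈ flg u j → (∑ b, c b • Z b) ∈ sp B ⊔ flg u j

/-- positive lists of flags: unipotent matrices with positive quotients -/
def PL (L : List (RM n)) : Prop :=
  (∀ u ∈ L, Uni u) ∧ L.Pairwise fun u v => Pos n (u⁻¹ * v)

/-- a problem: order at least `m` at the flag of `u` for all `(u, m)` in the list. All solutions of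
the problem (order at least `n0` at the standard flag, and the list) are real. -/
def Good (k n n0 : ℕ) (L : List (RM n × ℕ)) : Prop :=
  ∀ B : Fr k n, LinearIndependent ℂ B → Ord n0 1 B → (∀ x ∈ L, Ord x.2 x.1 B) → IsReal n (sp B)

/-- the sum of the orders -/
def tot (L : List (RM n × ℕ)) : ℕ := (L.map Prod.snd).sum

/-- translate of a list of conditions -/
def tr (A : RM n) (L : List (RM n × ℕ)) : List (RM n × ℕ) := L.map fun x => (A * x.1, x.2)

/-- Pascal matrices -/
def Pas (n : ℕ) (t : ℝ) : RM n := Matrix.of fun i j => ((j : ℕ).choose (i : ℕ) : ℝ) * t ^ ((j : ℕ) - (i : ℕ))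

/-- the coefficient of the Pluecker coordinate `s` in the contact polynomial of the flags
`Pas n t` -/
def cc (s : Ix k n) : ℂ :=
  (-1) ^ wt s * (Matrix.of fun a b : Fin k => (((s b : ℕ).choose (a : ℕ) : ℕ) : ℂ)).det

/-- the `q`-th coefficient form of the contact polynomial -/
def fw (q : ℕ) (s : Ix k n) : ℂ := by
  classical
  exact if StrictMono s ∧ wt s = q then cc s else 0

/-- the base tuple `0, 1, ..., k - 1` -/
def s0 (hk : k ≤ n) : Ix k n := Fin.castLE hk

/-- coefficients of the form `B ↦ ev w (act g B)` -/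
def pull (g : Matrix (Fin n) (Fin n) ℂ) (w : Cf k n) : Cf k n :=
  fun f => ∑ s, w s * ∏ b, g (s b) (f b)

end

end Pool.TPC
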