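import Pool.Agent.TPT.Newton
import Pool.Agent.TPT.Main
import Pool.Agent.TPC.Defs

/-! Chains of totally positive flags, isolated common zeros of forms on the Grassmannian. -/

set_option autoImplicit false

open Matrix Filter Topology Pool.TPT Pool.CSC

namespace Pool.TPC

variable {k n : ℕ}

/-- isolated common zero -/
def Iso {ι : Type} (w : ι → (Fin k → Fin n) → ℂ) (B : Fin k → Fin n → ℂ) : Prop :=
  ∀ᶠ B' in 𝓝 B, (∀ a, ev (w a) B' = 0) → sp B' = sp B

theorem ev_smul (c : ℂ) (w : (Fin k → Fin n) → ℂ) (B : Fin k → Fin n → ℂ) :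
    ev (c • w) B = c * ev w B := by
  simp [ev, Finset.mul_sum, mul_assoc]

theorem ev_sum {α : Type*} (T : Finset α) (w : α → (Fin k → Fin n) → ℂ) (B : Fin k → Fin n → ℂ) :
    ev (∑ i ∈ T, w i) B = ∑ i ∈ T, ev (w i) B := by
  simp only [ev, Finset.sum_apply, Finset.sum_mul]
  exact Finset.sum_comm

/-- inserting an element after the position `i` -/
def ins {α : Type*} (f : ℕ → α) (i : ℕ) (x y : α) (l : ℕ) : α :=
  if l < i then f l else if l = i then x else if l = i + 1 then y else f (l - 1)

theorem sum_ins (f : ℕ → ℕ) (i : ℕ) (x y : ℕ) (hxy : x + y = f i) (d : ℕ) :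
    ∑ l ∈ Finset.range (i + d + 2), ins f i x y l = ∑ l ∈ Finset.range (i + d + 1), f l := by
  induction d with
  | zero =>
    rw [Finset.sum_range_succ, Finset.sum_range_succ, Finset.sum_range_succ f]
    have h1 : ∑ l ∈ Finset.range i, ins f i x y l = ∑ l ∈ Finset.range i, f l := by
      refine Finset.sum_congr rfl fun l hl => ?_
      rw [Finset.mem_range] at hl
      simp [ins, hl]
    have h2 : ins f i x y i = x := by simp [ins]
    have h3 : ins f i x y (i + 0 + 1) = y := by simp [ins]
    rw [h3]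
    simp only [add_zero] at *
    rw [h1, h2, add_assoc, hxy]
  | succ d ih =>
    rw [Finset.sum_range_succ, show i + (d + 1) + 1 = i + d + 2 by ring, ih,
      Finset.sum_range_succ _ (i + d + 1)]
    congr 1
    have h1 : ¬ (i + d + 2 < i) := by omega
    have h2 : ¬ (i + d + 2 = i) := by omega
    have h3 : ¬ (i + d + 2 = i + 1) := by omega
    simp only [ins, if_neg h1, if_neg h2, if_neg h3]
    congr 1

/-- a chain of totally positive flags `u 0 F₀, ..., u M F₀` -/
structure Chn (n M : ℕ) (u : ℕ → Matrix (Fin n) (Fin n) ℝ) : Prop where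
  uni : ∀ i ≤ M, Uni (u i)
  pos : ∀ i < M, Pos n ((u i)⁻¹ * u (i + 1))

theorem Chn.mono {M M' : ℕ} {u : ℕ → Matrix (Fin n) (Fin n) ℝ} (h : Chn n M u) (hM : M' ≤ M) :
    Chn n M' u :=
  ⟨fun i hi => h.uni i (hi.trans hM), fun i hi => h.pos i (lt_of_lt_of_le hi hM)⟩

/-- inserting `u i * p` after the position `i` -/
theorem Chn.ins {M : ℕ} {u : ℕ → Matrix (Fin n) (Fin n) ℝ} (h : Chn n M u) {i : ℕ} (hi : i ≤ M)
    {p : Matrix (Fin n) (Fin n) ℝ} (hp : Pos n p)
    (hq : i < M → Pos n (p⁻¹ * ((u i)⁻¹ * u (i + 1)))) :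
    Chn n (M + 1) (ins u i (u i) (u i * p)) := by
  refine ⟨fun l hl => ?_, fun l hl => ?_⟩
  · unfold TPC.ins
    split_ifs with h1 h2 h3
    · exact h.uni l (by omega)
    · exact h.uni i hi
    · exact (h.uni i hi).mul hp.uni
    · exact h.uni (l - 1) (by omega)
  · unfold TPC.ins
    rcases lt_trichotomy l i with h1 | h1 | h1
    · have e1 : (if l + 1 < i then u (l + 1) else if l + 1 = i then u i else
          if l + 1 = i + 1 then u i * p else u (l + 1 - 1)) = u (l + 1) := by
        split_ifs with h2 h3 h4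
        · rfl
        · rw [h3]
        · omega
        · omega
      rw [if_pos h1, e1]
      exact h.pos l (by omega)
    · subst h1
      rw [if_neg (lt_irrefl l), if_pos rfl, if_neg (by omega), if_neg (by omega), if_pos rfl,
        ← mul_assoc, Matrix.nonsing_inv_mul _ (h.uni l hi).isUnit, one_mul]
      exact hp
    · rw [if_neg (by omega), if_neg (by omega), if_neg (by omega : ¬ l + 1 < i),
        if_neg (by omega : ¬ l + 1 = i), if_neg (by omega : ¬ l + 1 = i + 1)]
      by_cases h2 : l = i + 1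
      · subst h2
        rw [if_pos rfl, show i + 1 + 1 - 1 = i + 1 by omega, Matrix.mul_inv_rev, mul_assoc]
        exact hq (by omega)
      · rw [if_neg h2]
        obtain ⟨l', rfl⟩ : ∃ l', l = l' + 1 := ⟨l - 1, by omega⟩
        exact h.pos l' (by omega)

end Pool.TPC
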