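import Mathlib

/-! Pluecker coordinates of frames: nonvanishing, determination of the span, change of frame,
orthonormal frames, compactness bound. -/

namespace Pool.TPC

open Matrix Filter Topology

section
variable {k n : ℕ}

/-- Pluecker coordinates -/
noncomputable def pl (s : Fin k → Fin n) (B : Fin k → Fin n → ℂ) : ℂ :=
  det (Matrix.of fun a b => B a (s b))

/-- a form -/
noncomputable def ev (w : (Fin k → Fin n) → ℂ) (B : Fin k → Fin n → ℂ) : ℂ :=
  ∑ s, w s * pl s B

/-- change of frame -/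
theorem pl_trans {B B' : Fin k → Fin n → ℂ} (g : Matrix (Fin k) (Fin k) ℂ)
    (h : ∀ a j, B' a j = ∑ b, g a b * B b j) (s : Fin k → Fin n) :
    pl s B' = g.det * pl s B := by
  rw [pl, pl, ← Matrix.det_mul]
  congr 1
  ext a b
  simp [Matrix.mul_apply, h]

theorem ev_trans {B B' : Fin k → Fin n → ℂ} (g : Matrix (Fin k) (Fin k) ℂ)
    (h : ∀ a j, B' a j = ∑ b, g a b * B b j) (w : (Fin k → Fin n) → ℂ) :
    ev w B' = g.det * ev w B := by
  rw [ev, ev, Finset.mul_sum]
  refine Finset.sum_congr rfl fun s _ => ?_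
  rw [pl_trans g h s]; ring

/-- a frame has a nonzero Pluecker coordinate -/
theorem exists_pl_ne {B : Fin k → Fin n → ℂ} (hB : LinearIndependent ℂ B) :
    ∃ s, pl s B ≠ 0 := by
  set S : Set (Fin k → ℂ) := Set.range fun (j : Fin n) (a : Fin k) => B a j with hS
  have htop : Submodule.span ℂ S = ⊤ := by
    by_contra hne
    obtain ⟨f, hf, hle⟩ := Submodule.exists_le_ker_of_lt_top _ (lt_top_iff_ne_top.2 hne)
    have h1 : ∀ j : Fin n, f (fun a => B a j) = 0 := by
      intro j
      have := hle (Submodule.subset_span (s := S) ⟨j, rfl⟩)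
      exact this
    have h2 : ∀ v : Fin k → ℂ, f v = ∑ a, v a * f (Pi.single a 1) := by
      intro v
      conv_lhs => rw [← Finset.univ_sum_single v]
      rw [map_sum]
      refine Finset.sum_congr rfl fun a _ => ?_
      have : (Pi.single a (v a) : Fin k → ℂ) = v a • Pi.single a 1 := by
        rw [← Pi.single_smul]; simp
      rw [this, map_smul, smul_eq_mul]
    have h3 : ∑ a, f (Pi.single a 1) • B a = 0 := by
      ext j
      have := h1 j
      rw [h2] at this
      rw [Finset.sum_apply, Pi.zero_apply, ← this]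
      refine Finset.sum_congr rfl fun a _ => ?_
      simp [mul_comm]
    have h4 := Fintype.linearIndependent_iff.1 hB (fun a => f (Pi.single a 1)) h3
    apply hf
    ext a
    simpa using h4 a
  obtain ⟨f, hf, -, hli⟩ := Submodule.exists_fun_fin_finrank_span_eq ℂ S
  have hfr : Module.finrank ℂ (Submodule.span ℂ S) = k := by
    rw [htop, finrank_top, Module.finrank_fin_fun]
  choose t ht using hf
  refine ⟨fun b => t (Fin.cast hfr.symm b), ?_⟩
  have h5 : LinearIndependent ℂ fun b : Fin k => f (Fin.cast hfr.symm b) :=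
    hli.comp _ (Fin.cast_injective _)
  have h6 : (Matrix.of fun a b => B a (t (Fin.cast hfr.symm b))).col =
      fun b : Fin k => f (Fin.cast hfr.symm b) := by
    funext b
    rw [← ht]
    rfl
  rw [← h6, Matrix.linearIndependent_cols_iff_isUnit, Matrix.isUnit_iff_isUnit_det] at h5
  exact h5.ne_zero

theorem pl_cons (s : Fin (k + 1) → Fin n) (v : Fin n → ℂ) (B : Fin k → Fin n → ℂ) :
    pl s (Fin.cons v B) = ∑ j : Fin (k + 1), (-1) ^ (j : ℕ) * v (s j) *
      pl (fun b => s (j.succAbove b)) B := by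
  rw [pl, Matrix.det_succ_row_zero]
  rfl

theorem span_le_of_pl {B B' : Fin k → Fin n → ℂ} (hB : LinearIndependent ℂ B)
    (hB' : LinearIndependent ℂ B') (c : ℂ) (h : ∀ s, pl s B' = c * pl s B) :
    Submodule.span ℂ (Set.range B') ≤ Submodule.span ℂ (Set.range B) := by
  have hc : c ≠ 0 := by
    obtain ⟨s, hs⟩ := exists_pl_ne hB'
    rw [h] at hs
    exact left_ne_zero_of_mul hs
  intro v hv
  by_contra hv2
  have h1 : LinearIndependent ℂ (Fin.cons v B : Fin (k + 1) → Fin n → ℂ) :=
    linearIndependent_finCons.2 ⟨hB, hv2⟩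
  obtain ⟨s, hs⟩ := exists_pl_ne h1
  have h2 : pl s (Fin.cons v B') = c * pl s (Fin.cons v B) := by
    rw [pl_cons, pl_cons, Finset.mul_sum]
    refine Finset.sum_congr rfl fun j _ => ?_
    rw [h]; ring
  have h3 : pl s (Fin.cons v B') ≠ 0 := by rw [h2]; exact mul_ne_zero hc hs
  have h4 : LinearIndependent ℂ (Fin.cons v B' : Fin (k + 1) → Fin n → ℂ) := by
    rw [Fintype.linearIndependent_iff]
    intro g hg
    have h5 : g ᵥ* (Matrix.of fun a b => (Fin.cons v B' : Fin (k + 1) → Fin n → ℂ) a (s b)) = 0 := by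
      ext b
      have := congrFun hg (s b)
      rw [Finset.sum_apply] at this
      simpa [Matrix.vecMul, dotProduct] using this
    exact congrFun (Matrix.eq_zero_of_vecMul_eq_zero h3 h5)
  exact (linearIndependent_finCons.1 h4).2 hv

/-- Pluecker coordinates determine the span -/
theorem span_eq_of_pl {B B' : Fin k → Fin n → ℂ} (hB : LinearIndependent ℂ B)
    (hB' : LinearIndependent ℂ B') (c : ℂ) (h : ∀ s, pl s B' = c * pl s B) :
    Submodule.span ℂ (Set.range B') = Submodule.span ℂ (Set.range B) := by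
  have hc : c ≠ 0 := by
    obtain ⟨s, hs⟩ := exists_pl_ne hB'
    rw [h] at hs
    exact left_ne_zero_of_mul hs
  refine le_antisymm (span_le_of_pl hB hB' c h) (span_le_of_pl hB' hB c⁻¹ fun s => ?_)
  rw [h, ← mul_assoc, inv_mul_cancel₀ hc, one_mul]

/-- coefficients with respect to a frame of a bigger span -/
theorem exists_coeff {B Q : Fin k → Fin n → ℂ}
    (h : Submodule.span ℂ (Set.range B) ≤ Submodule.span ℂ (Set.range Q)) :
    ∃ g : Matrix (Fin k) (Fin k) ℂ, ∀ a j, B a j = ∑ b, g a b * Q b j := by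
  have h1 : ∀ a, ∃ c : Fin k → ℂ, ∑ b, c b • Q b = B a := by
    intro a
    have := h (Submodule.subset_span ⟨a, rfl⟩)
    rwa [Submodule.mem_span_range_iff_exists_fun] at this
  choose g hg using h1
  refine ⟨Matrix.of g, fun a j => ?_⟩
  rw [← hg a, Finset.sum_apply]
  simp

/-- the change of frame is invertible -/
theorem det_ne_of_coeff {B Q : Fin k → Fin n → ℂ} (hB : LinearIndependent ℂ B)
    {g : Matrix (Fin k) (Fin k) ℂ} (h : ∀ a j, B a j = ∑ b, g a b * Q b j) : g.det ≠ 0 := by
  obtain ⟨s, hs⟩ := exists_pl_ne hB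
  rw [pl_trans g h s] at hs
  exact left_ne_zero_of_mul hs

/-- orthonormal frames -/
def Orth (Q : Fin k → Fin n → ℂ) : Prop :=
  ∀ a b, ∑ j, Q a j * starRingEnd ℂ (Q b j) = if a = b then 1 else 0

theorem Orth.linearIndependent {Q : Fin k → Fin n → ℂ} (hQ : Orth Q) :
    LinearIndependent ℂ Q := by
  rw [Fintype.linearIndependent_iff]
  intro g hg b
  have h1 : ∑ j, (∑ a, g a • Q a) j * starRingEnd ℂ (Q b j) = 0 := by
    rw [hg]; simp
  have h2 : ∑ j, (∑ a, g a • Q a) j * starRingEnd ℂ (Q b j) =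
      ∑ a, g a * ∑ j, Q a j * starRingEnd ℂ (Q b j) := by
    simp only [Finset.sum_apply, Pi.smul_apply, smul_eq_mul, Finset.sum_mul, Finset.mul_sum]
    rw [Finset.sum_comm]
    refine Finset.sum_congr rfl fun a _ => Finset.sum_congr rfl fun j _ => ?_
    ring
  rw [h2] at h1
  simpa [hQ _ b] using h1

theorem isCompact_orth : IsCompact {Q : Fin k → Fin n → ℂ | Orth Q} := by
  refine Metric.isCompact_of_isClosed_isBounded ?_ ?_
  · have : {Q : Fin k → Fin n → ℂ | Orth Q} = ⋂ a, ⋂ b,
        {Q | ∑ j, Q a j * starRingEnd ℂ (Q b j) = if a = b then 1 else 0} := by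
      ext Q; simp [Orth]
    rw [this]
    refine isClosed_iInter fun a => isClosed_iInter fun b => isClosed_eq ?_ continuous_const
    fun_prop
  · rw [isBounded_iff_forall_norm_le]
    refine ⟨1, fun Q hQ => ?_⟩
    rw [pi_norm_le_iff_of_nonneg zero_le_one]
    intro a
    rw [pi_norm_le_iff_of_nonneg zero_le_one]
    intro j
    have h1 := hQ a a
    rw [if_pos rfl] at h1
    have h2 : ∑ j, ‖Q a j‖ ^ 2 = 1 := by
      have h3 : ((∑ j, ‖Q a j‖ ^ 2 : ℝ) : ℂ) = 1 := by
        rw [← h1]
        push_cast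
        refine Finset.sum_congr rfl fun j _ => ?_
        rw [Complex.mul_conj, Complex.normSq_eq_norm_sq]
        push_cast; rfl
      exact_mod_cast h3
    have h3 : ‖Q a j‖ ^ 2 ≤ 1 := by
      rw [← h2]
      exact Finset.single_le_sum (f := fun j => ‖Q a j‖ ^ 2) (fun j _ => sq_nonneg _)
        (Finset.mem_univ j)
    exact (sq_le_one_iff₀ (norm_nonneg _)).1 h3

/-- orthonormalization -/
theorem exists_orth {B : Fin k → Fin n → ℂ} (hB : LinearIndependent ℂ B) :
    ∃ Q : Fin k → Fin n → ℂ, Orth Q ∧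
      Submodule.span ℂ (Set.range Q) = Submodule.span ℂ (Set.range B) ∧
      ∃ g : Matrix (Fin k) (Fin k) ℂ, g.det ≠ 0 ∧ ∀ a j, B a j = ∑ b, g a b * Q b j := by
  let e : (Fin n → ℂ) ≃ₗ[ℂ] EuclideanSpace ℂ (Fin n) := (WithLp.linearEquiv 2 ℂ (Fin n → ℂ)).symm
  have hB' : LinearIndependent ℂ fun a => e (B a) := hB.map' e.toLinearMap (LinearEquiv.ker e)
  set G := InnerProductSpace.gramSchmidtNormed ℂ fun a => e (B a) with hG
  have hon : Orthonormal ℂ G := InnerProductSpace.gramSchmidtNormed_orthonormal hB'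
  have hsp : Submodule.span ℂ (Set.range G) = Submodule.span ℂ (Set.range fun a => e (B a)) := by
    rw [hG, InnerProductSpace.span_gramSchmidtNormed_range, InnerProductSpace.span_gramSchmidt]
  refine ⟨fun a => e.symm (G a), fun a b => ?_, ?_, ?_⟩
  · have h1 := orthonormal_iff_ite.1 hon b a
    rw [EuclideanSpace.inner_eq_star_dotProduct] at h1
    have h2 : (if b = a then (1 : ℂ) else 0) = if a = b then 1 else 0 := by
      by_cases h : a = b
      · simp [h]
      · rw [if_neg h, if_neg (Ne.symm h)]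
    rw [← h2, ← h1]
    rfl
  · have h2 : (Set.range fun a => e.symm (G a)) = e.symm '' Set.range G := by
      rw [← Set.range_comp]; rfl
    have h3 : Set.range B = e.symm '' Set.range fun a => e (B a) := by
      rw [← Set.range_comp]
      congr 1
    have h4 := congrArg (Submodule.map e.symm.toLinearMap) hsp
    rw [Submodule.map_span, Submodule.map_span] at h4
    rw [h2, h3]
    exact h4
  · have hle : Submodule.span ℂ (Set.range B) ≤
        Submodule.span ℂ (Set.range fun a => e.symm (G a)) := by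
      have h2 : (Set.range fun a => e.symm (G a)) = e.symm '' Set.range G := by
        rw [← Set.range_comp]; rfl
      have h3 : Set.range B = e.symm '' Set.range fun a => e (B a) := by
        rw [← Set.range_comp]
        congr 1
      have h4 := congrArg (Submodule.map e.symm.toLinearMap) hsp
      rw [Submodule.map_span, Submodule.map_span] at h4
      rw [h2, h3]
      exact h4.symm.le
    obtain ⟨g, hg⟩ := exists_coeff hle
    exact ⟨g, det_ne_of_coeff hB hg, hg⟩

theorem continuous_pl (s : Fin k → Fin n) : Continuous (pl s) := by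
  refine Continuous.matrix_det ?_
  refine continuous_matrix fun a b => ?_
  simp only [Matrix.of_apply]
  fun_prop

theorem continuous_ev (w : (Fin k → Fin n) → ℂ) : Continuous (ev w) := by
  refine continuous_finsetSum _ fun s _ => ?_
  exact continuous_const.mul (continuous_pl s)

/-- On the solutions of a system of forms where `f` does not vanish, all Pluecker coordinates are
bounded by `f`. -/
theorem exists_bound {ι : Type*} (w : ι → (Fin k → Fin n) → ℂ) (f : (Fin k → Fin n) → ℂ)
    (h : ∀ B : Fin k → Fin n → ℂ, LinearIndependent ℂ B → (∀ a, ev (w a) B = 0) → ev f B ≠ 0) :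
    ∃ C : ℝ, ∀ B : Fin k → Fin n → ℂ, LinearIndependent ℂ B → (∀ a, ev (w a) B = 0) →
      ∀ s, ‖pl s B‖ ≤ C * ‖ev f B‖ := by
  set K : Set (Fin k → Fin n → ℂ) := {Q | Orth Q} ∩ {Q | ∀ a, ev (w a) Q = 0} with hK
  have hKc : IsCompact K := by
    refine isCompact_orth.inter_right ?_
    have : {Q : Fin k → Fin n → ℂ | ∀ a, ev (w a) Q = 0} = ⋂ a, {Q | ev (w a) Q = 0} := by
      ext Q; simp
    rw [this]
    exact isClosed_iInter fun a => isClosed_eq (continuous_ev _) continuous_const
  have hne : ∀ Q ∈ K, ev f Q ≠ 0 := fun Q hQ => h Q (hQ.1 : Orth Q).linearIndependent hQ.2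
  have hb : ∀ s, ∃ C : ℝ, ∀ Q ∈ K, ‖pl s Q / ev f Q‖ ≤ C := by
    intro s
    refine hKc.exists_bound_of_continuousOn ?_
    exact (continuous_pl s).continuousOn.div (continuous_ev f).continuousOn hne
  choose C hC using hb
  refine ⟨∑ s, |C s|, fun B hB hw s => ?_⟩
  obtain ⟨Q, hQ, -, g, hg, hgQ⟩ := exists_orth hB
  have hQK : Q ∈ K := by
    refine ⟨hQ, fun a => ?_⟩
    have := hw a
    rw [ev_trans g hgQ] at this
    exact (mul_eq_zero.1 this).resolve_left hg
  have h1 := hC s Q hQK
  rw [norm_div, div_le_iff₀ (norm_pos_iff.2 (hne Q hQK))] at h1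
  rw [pl_trans g hgQ, ev_trans g hgQ, norm_mul, norm_mul]
  have h2 : C s ≤ ∑ s, |C s| := (le_abs_self _).trans
    (Finset.single_le_sum (f := fun s => |C s|) (fun _ _ => abs_nonneg _) (Finset.mem_univ s))
  calc ‖g.det‖ * ‖pl s Q‖ ≤ ‖g.det‖ * ((∑ s, |C s|) * ‖ev f Q‖) := by
        refine mul_le_mul_of_nonneg_left (h1.trans ?_) (norm_nonneg _)
        exact mul_le_mul_of_nonneg_right h2 (norm_nonneg _)
    _ = _ := by ring

end

end Pool.TPC
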