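import Mathlib
import Pool.Agent.Helper53.CSC.Defs
import Pool.Agent.TPC.Plu

/-! Complex conjugation of frames, real planes, limits of real planes. -/

namespace Pool.TPC

open Filter Topology Pool.CSC

variable {k n : ℕ}

/-- the conjugate frame -/
noncomputable def cj (B : Fin k → Fin n → ℂ) : Fin k → Fin n → ℂ :=
  fun a j => (starRingEnd ℂ) (B a j)

theorem cj_apply (B : Fin k → Fin n → ℂ) (a : Fin k) (j : Fin n) :
    cj B a j = (starRingEnd ℂ) (B a j) := rfl

@[simp] theorem cj_cj (B : Fin k → Fin n → ℂ) : cj (cj B) = B := by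
  funext a j
  simp [cj]

theorem continuous_cj : Continuous (cj : (Fin k → Fin n → ℂ) → Fin k → Fin n → ℂ) := by
  unfold cj
  fun_prop

theorem tendsto_cj {ι : Type*} {l : Filter ι} {Bs : ι → Fin k → Fin n → ℂ}
    {B : Fin k → Fin n → ℂ} (h : Tendsto Bs l (𝓝 B)) : Tendsto (fun i => cj (Bs i)) l (𝓝 (cj B)) :=
  (continuous_cj.tendsto B).comp h

/-- minors of the conjugate frame -/
theorem det_cj (B : Fin k → Fin n → ℂ) (s : Fin k → Fin n) :
    (Matrix.of fun a b => cj B a (s b)).det
      = (starRingEnd ℂ) (Matrix.of fun a b => B a (s b)).det := by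
  rw [RingHom.map_det]
  congr 1

/-- a form with real coefficients takes conjugate values at conjugate frames -/
theorem sum_det_cj (B : Fin k → Fin n → ℂ) {w : (Fin k → Fin n) → ℂ}
    (hw : ∀ s, (starRingEnd ℂ) (w s) = w s) :
    ∑ s, w s * (Matrix.of fun a b => cj B a (s b)).det
      = (starRingEnd ℂ) (∑ s, w s * (Matrix.of fun a b => B a (s b)).det) := by
  rw [map_sum]
  refine Finset.sum_congr rfl fun s _ => ?_
  rw [map_mul, hw s, det_cj]

/-- Pluecker coordinates of the conjugate frame -/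
theorem pl_cj (s : Fin k → Fin n) (B : Fin k → Fin n → ℂ) :
    pl s (cj B) = (starRingEnd ℂ) (pl s B) := det_cj B s

/-- a form with real coefficients takes conjugate values at conjugate frames -/
theorem ev_cj {w : (Fin k → Fin n) → ℂ} (hw : ∀ s, (starRingEnd ℂ) (w s) = w s)
    (B : Fin k → Fin n → ℂ) : ev w (cj B) = (starRingEnd ℂ) (ev w B) := sum_det_cj B hw

theorem ev_cj_eq_zero {w : (Fin k → Fin n) → ℂ} (hw : ∀ s, (starRingEnd ℂ) (w s) = w s)
    {B : Fin k → Fin n → ℂ} : ev w (cj B) = 0 ↔ ev w B = 0 := by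
  rw [ev_cj hw, map_eq_zero]

theorem pl_cj_eq_zero {s : Fin k → Fin n} {B : Fin k → Fin n → ℂ} :
    pl s (cj B) = 0 ↔ pl s B = 0 := by
  rw [pl_cj, map_eq_zero]

/-- conjugation as a semilinear map -/
noncomputable def cjV (n : ℕ) : (Fin n → ℂ) →ₛₗ[starRingEnd ℂ] (Fin n → ℂ) where
  toFun v := fun i => (starRingEnd ℂ) (v i)
  map_add' v w := by funext i; simp
  map_smul' c v := by funext i; simp

theorem cjV_apply (v : Fin n → ℂ) (i : Fin n) : cjV n v i = (starRingEnd ℂ) (v i) := rfl

theorem cjV_cjV (v : Fin n → ℂ) : cjV n (cjV n v) = v := by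
  funext i; simp [cjV_apply]

theorem mem_span_cj {B : Fin k → Fin n → ℂ} {v : Fin n → ℂ}
    (hv : v ∈ Submodule.span ℂ (Set.range B)) :
    cjV n v ∈ Submodule.span ℂ (Set.range (cj B)) := by
  induction hv using Submodule.span_induction with
  | mem x hx =>
    obtain ⟨a, rfl⟩ := hx
    exact Submodule.subset_span ⟨a, rfl⟩
  | zero => rw [map_zero]; exact Submodule.zero_mem _
  | add x y _ _ hx hy => rw [map_add]; exact Submodule.add_mem _ hx hy
  | smul c x _ hx => rw [LinearMap.map_smulₛₗ]; exact Submodule.smul_mem _ _ hx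

theorem mem_span_cj_iff {B : Fin k → Fin n → ℂ} {v : Fin n → ℂ} :
    v ∈ Submodule.span ℂ (Set.range (cj B)) ↔ cjV n v ∈ Submodule.span ℂ (Set.range B) := by
  constructor
  · intro h
    have := mem_span_cj h
    rwa [cj_cj] at this
  · intro h
    have := mem_span_cj h
    rwa [cjV_cjV] at this

theorem li_cj {B : Fin k → Fin n → ℂ} (hB : LinearIndependent ℂ B) :
    LinearIndependent ℂ (cj B) := by
  rw [Fintype.linearIndependent_iff] at hB ⊢
  intro g hg i
  have h1 := hB (fun a => (starRingEnd ℂ) (g a)) (by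
    have h2 := congrArg (cjV n) hg
    rw [map_zero, map_sum] at h2
    rw [← h2]
    refine Finset.sum_congr rfl fun a _ => ?_
    rw [LinearMap.map_smulₛₗ]
    congr 1
    funext j
    simp [cjV_apply, cj_apply]) i
  exact (map_eq_zero (starRingEnd ℂ)).1 h1

/-- a plane is real when each row of a frame has its conjugate in the plane -/
theorem isReal_span_iff {B : Fin k → Fin n → ℂ} :
    IsReal n (Submodule.span ℂ (Set.range B)) ↔
      ∀ a, cj B a ∈ Submodule.span ℂ (Set.range B) := by
  constructor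
  · intro h a
    exact h (B a) (Submodule.subset_span ⟨a, rfl⟩)
  · intro h v hv
    have h1 : cjV n v ∈ Submodule.span ℂ (Set.range (cj B)) := mem_span_cj hv
    have h2 : Submodule.span ℂ (Set.range (cj B)) ≤ Submodule.span ℂ (Set.range B) := by
      rw [Submodule.span_le]
      rintro _ ⟨a, rfl⟩
      exact h a
    exact h2 h1

/-- real planes are the planes equal to their conjugates -/
theorem isReal_iff_span_cj {B : Fin k → Fin n → ℂ} :
    IsReal n (Submodule.span ℂ (Set.range B)) ↔
      Submodule.span ℂ (Set.range (cj B)) = Submodule.span ℂ (Set.range B) := by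
  constructor
  · intro h
    apply le_antisymm
    · rw [Submodule.span_le]
      rintro _ ⟨a, rfl⟩
      exact isReal_span_iff.1 h a
    · intro v hv
      rw [mem_span_cj_iff]
      exact h v hv
  · intro h
    rw [isReal_span_iff]
    intro a
    rw [← h]
    exact Submodule.subset_span ⟨a, rfl⟩

theorem span_cj_ne {B : Fin k → Fin n → ℂ} (h : ¬ IsReal n (Submodule.span ℂ (Set.range B))) :
    Submodule.span ℂ (Set.range (cj B)) ≠ Submodule.span ℂ (Set.range B) :=
  fun h' => h (isReal_iff_span_cj.2 h')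

/-- limits of real planes are real -/
theorem rlim' {ι : Type*} {l : Filter ι} {Bs : ι → Fin k → Fin n → ℂ} {B : Fin k → Fin n → ℂ}
    (hB : LinearIndependent ℂ B) (ht : Tendsto Bs l (𝓝 B))
    (hr : ∃ᶠ i in l, IsReal n (Submodule.span ℂ (Set.range (Bs i)))) :
    IsReal n (Submodule.span ℂ (Set.range B)) := by
  rw [isReal_span_iff]
  intro a
  by_contra hna
  have hli : LinearIndependent ℂ (Fin.snoc B (cj B a) : Fin (k + 1) → Fin n → ℂ) :=
    linearIndependent_finSnoc.2 ⟨hB, hna⟩
  have hopen : IsOpen {f : Fin (k + 1) → Fin n → ℂ | LinearIndependent ℂ f} :=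
    isOpen_setOfPred_linearIndependent
  have hcont : Tendsto (fun i => (Fin.snoc (Bs i) (cj (Bs i) a) : Fin (k + 1) → Fin n → ℂ)) l
      (𝓝 (Fin.snoc B (cj B a))) := by
    rw [tendsto_pi_nhds]
    intro x
    refine Fin.lastCases ?_ (fun x => ?_) x
    · simp only [Fin.snoc_last]
      exact ((continuous_apply a).tendsto _).comp (tendsto_cj ht)
    · simp only [Fin.snoc_castSucc]
      exact ((continuous_apply x).tendsto _).comp ht
  have hev : ∀ᶠ i in l,
      LinearIndependent ℂ (Fin.snoc (Bs i) (cj (Bs i) a) : Fin (k + 1) → Fin n → ℂ) :=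
    hcont.eventually (hopen.mem_nhds hli)
  obtain ⟨i, h1, h2⟩ := (hr.and_eventually hev).exists
  exact (linearIndependent_finSnoc.1 h2).2 (isReal_span_iff.1 h1 a)

/-- limits of real planes are real, for sequences -/
theorem rlim {Bs : ℕ → Fin k → Fin n → ℂ} {B : Fin k → Fin n → ℂ}
    (ht : Tendsto Bs atTop (𝓝 B)) (hB : LinearIndependent ℂ B)
    (hr : ∃ᶠ ν in atTop, IsReal n (Submodule.span ℂ (Set.range (Bs ν)))) :
    IsReal n (Submodule.span ℂ (Set.range B)) :=
  rlim' hB ht hr

end Pool.TPC
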