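import Pool.Agent.TPC.FinA
import Pool.Agent.TPC.Plu

/-! Row FIN, second part. Schubert type conditions on the Grassmannian: a point which is not
isolated among the solutions of a family of Pluecker linear equations forces a solution on every
hyperplane section. -/

namespace Pool.TPC

open Filter Topology Matrix


namespace FinG

variable {k n : ℕ}

/-- change of frame -/
noncomputable def act (A : Matrix (Fin k) (Fin k) ℂ) (B : Fin k → Fin n → ℂ) : Fin k → Fin n → ℂ :=
  fun a c => ∑ b, A a b * B b c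

lemma pl_act (A : Matrix (Fin k) (Fin k) ℂ) (B : Fin k → Fin n → ℂ) (s : Fin k → Fin n) :
    pl s (act A B) = A.det * pl s B := by
  rw [pl, pl, ← Matrix.det_mul]
  congr 1

lemma ev_act (A : Matrix (Fin k) (Fin k) ℂ) (B : Fin k → Fin n → ℂ)
    (w : (Fin k → Fin n) → ℂ) : ev w (act A B) = A.det * ev w B := by
  rw [ev, ev, Finset.mul_sum]
  refine Finset.sum_congr rfl fun s _ => ?_
  rw [pl_act]
  ring

lemma act_act (A A' : Matrix (Fin k) (Fin k) ℂ) (B : Fin k → Fin n → ℂ) :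
    act A (act A' B) = act (A * A') B := by
  have h : ∀ (A : Matrix (Fin k) (Fin k) ℂ) (B : Fin k → Fin n → ℂ),
      act A B = A * (Matrix.of B : Matrix (Fin k) (Fin n) ℂ) := fun A B => rfl
  rw [h, h, h]
  exact (Matrix.mul_assoc A A' (Matrix.of B)).symm

lemma act_one (B : Fin k → Fin n → ℂ) : act 1 B = B := by
  have h : ∀ (A : Matrix (Fin k) (Fin k) ℂ) (B : Fin k → Fin n → ℂ),
      act A B = A * (Matrix.of B : Matrix (Fin k) (Fin n) ℂ) := fun A B => rfl
  rw [h]
  exact Matrix.one_mul (Matrix.of B)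

lemma span_act_le (A : Matrix (Fin k) (Fin k) ℂ) (B : Fin k → Fin n → ℂ) :
    Submodule.span ℂ (Set.range (act A B)) ≤ Submodule.span ℂ (Set.range B) := by
  rw [Submodule.span_le]
  rintro _ ⟨a, rfl⟩
  have h : act A B a = ∑ b, A a b • B b := by
    funext c
    rw [Finset.sum_apply]
    rfl
  rw [SetLike.mem_coe, h]
  exact Submodule.sum_mem _ fun b _ => Submodule.smul_mem _ _ (Submodule.subset_span ⟨b, rfl⟩)

lemma span_act {A : Matrix (Fin k) (Fin k) ℂ} (hA : A.det ≠ 0) (B : Fin k → Fin n → ℂ) :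
    Submodule.span ℂ (Set.range (act A B)) = Submodule.span ℂ (Set.range B) := by
  refine le_antisymm (span_act_le A B) ?_
  have h := span_act_le A⁻¹ (act A B)
  rw [act_act, Matrix.nonsing_inv_mul _ (isUnit_iff_ne_zero.2 hA), act_one] at h
  exact h

lemma indep_of_pl {B : Fin k → Fin n → ℂ} {s : Fin k → Fin n} (h : pl s B ≠ 0) :
    LinearIndependent ℂ B := by
  let f : (Fin n → ℂ) →ₗ[ℂ] (Fin k → ℂ) := LinearMap.funLeft ℂ ℂ s
  refine LinearIndependent.of_comp f ?_
  have h1 : IsUnit (Matrix.of fun a b => B a (s b)) :=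
    (Matrix.isUnit_iff_isUnit_det _).2 (isUnit_iff_ne_zero.2 h)
  exact Matrix.linearIndependent_rows_iff_isUnit.2 h1

/-- the normalised frame -/
noncomputable def nrm (s : Fin k → Fin n) (B : Fin k → Fin n → ℂ) : Fin k → Fin n → ℂ :=
  act (Matrix.of fun a b => B a (s b))⁻¹ B

lemma nrm_apply {s : Fin k → Fin n} {B : Fin k → Fin n → ℂ} (a : Fin k) (c : Fin n) :
    nrm s B a c = (pl s B)⁻¹ * pl (Function.update s a c) B := by
  have h1 : nrm s B a c = ((Matrix.of fun a b => B a (s b))⁻¹ *ᵥ (fun b => B b c)) a := rfl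
  rw [h1, Matrix.inv_def, Matrix.smul_mulVec, ← Matrix.cramer_eq_adjugate_mulVec, Pi.smul_apply,
    Matrix.cramer_apply, smul_eq_mul, Ring.inverse_eq_inv']
  congr 1
  rw [pl]
  congr 1
  ext i j
  rw [Matrix.updateCol_apply, Matrix.of_apply, Matrix.of_apply, Function.update_apply]
  split_ifs <;> rfl

lemma nrm_self {s : Fin k → Fin n} {B : Fin k → Fin n → ℂ} (h : pl s B ≠ 0) (a b : Fin k) :
    nrm s B a (s b) = if a = b then 1 else 0 := by
  have h1 : nrm s B a (s b) = ((Matrix.of fun a b => B a (s b))⁻¹ *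
    (Matrix.of fun a b => B a (s b))) a b := rfl
  rw [h1, Matrix.nonsing_inv_mul _ (isUnit_iff_ne_zero.2 h), Matrix.one_apply]

lemma det_nrm (s : Fin k → Fin n) (B : Fin k → Fin n → ℂ) :
    ((Matrix.of fun a b => B a (s b))⁻¹).det = (pl s B)⁻¹ := by
  rw [Matrix.det_nonsing_inv, Ring.inverse_eq_inv']
  rfl

lemma span_nrm {s : Fin k → Fin n} {B : Fin k → Fin n → ℂ} (h : pl s B ≠ 0) :
    Submodule.span ℂ (Set.range (nrm s B)) = Submodule.span ℂ (Set.range B) := by
  refine span_act ?_ B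
  rw [det_nrm]
  exact inv_ne_zero h

/-- proportional Pluecker coordinates determine the plane -/
lemma span_eq {s : Fin k → Fin n} {B B' : Fin k → Fin n → ℂ} (h : pl s B ≠ 0)
    (h' : pl s B' ≠ 0) (he : ∀ t, pl t B' * pl s B = pl t B * pl s B') :
    Submodule.span ℂ (Set.range B') = Submodule.span ℂ (Set.range B) := by
  rw [← span_nrm h, ← span_nrm h']
  congr 2
  funext a c
  rw [nrm_apply, nrm_apply]
  have h1 := he (Function.update s a c)
  field_simp
  linear_combination h1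

/-- a lower bound on the normalised frames -/
lemma lower {ι : Type*} (w : ι → (Fin k → Fin n) → ℂ) (g : (Fin k → Fin n) → ℂ)
    (h : ∀ B, LinearIndependent ℂ B → (∀ i, ev (w i) B = 0) → ev g B ≠ 0) (s : Fin k → Fin n) :
    ∃ c : ℝ, 0 < c ∧ ∀ B : Fin k → Fin n → ℂ, (∀ a b, B a (s b) = if a = b then 1 else 0) →
      (∀ a c, ‖B a c‖ ≤ 1) → (∀ i, ev (w i) B = 0) → c ≤ ‖ev g B‖ := by
  let K : Set (Fin k → Fin n → ℂ) := {B | (∀ a b, B a (s b) = if a = b then 1 else 0) ∧
      (∀ a c, ‖B a c‖ ≤ 1) ∧ (∀ i, ev (w i) B = 0)}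
  have hent : ∀ (a : Fin k) (c : Fin n), Continuous fun B : Fin k → Fin n → ℂ => B a c :=
    fun a c => (continuous_apply c).comp (continuous_apply a)
  have hcl : IsClosed K := by
    have h1 : K = (⋂ a, ⋂ b, {B | B a (s b) = if a = b then 1 else 0}) ∩
        ((⋂ a, ⋂ c, {B | ‖B a c‖ ≤ 1}) ∩ ⋂ i, {B | ev (w i) B = 0}) := by
      ext B
      simp [K]
    rw [h1]
    refine IsClosed.inter ?_ (IsClosed.inter ?_ ?_)
    · exact isClosed_iInter fun a => isClosed_iInter fun b =>
        isClosed_eq (hent a (s b)) continuous_const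
    · exact isClosed_iInter fun a => isClosed_iInter fun c =>
        isClosed_le (hent a c).norm continuous_const
    · exact isClosed_iInter fun i => isClosed_eq (continuous_ev (w i)) continuous_const
  have hbd : Bornology.IsBounded K := by
    refine (Metric.isBounded_closedBall (x := (0 : Fin k → Fin n → ℂ)) (r := 1)).subset ?_
    intro B hB
    rw [mem_closedBall_zero_iff, pi_norm_le_iff_of_nonneg zero_le_one]
    intro a
    rw [pi_norm_le_iff_of_nonneg zero_le_one]
    exact fun c => hB.2.1 a c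
  have hK : IsCompact K := Metric.isCompact_of_isClosed_isBounded hcl hbd
  rcases K.eq_empty_or_nonempty with he | hne
  · refine ⟨1, one_pos, fun B h1 h2 h3 => ?_⟩
    have : B ∈ K := ⟨h1, h2, h3⟩
    rw [he] at this
    exact this.elim
  · obtain ⟨B0, hB0, hmin⟩ := hK.exists_isMinOn hne (continuous_ev g).norm.continuousOn
    refine ⟨‖ev g B0‖, ?_, fun B h1 h2 h3 => ?_⟩
    · rw [norm_pos_iff]
      refine h B0 (indep_of_pl (s := s) ?_) hB0.2.2
      have h4 : (Matrix.of fun a b => B0 a (s b)) = (1 : Matrix (Fin k) (Fin k) ℂ) := by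
        ext a b
        rw [Matrix.of_apply, hB0.1 a b, Matrix.one_apply]
      rw [pl, h4, Matrix.det_one]
      exact one_ne_zero
    · exact isMinOn_iff.1 hmin B ⟨h1, h2, h3⟩

/-- the Pluecker coordinates are bounded by the form `g` on the solutions -/
lemma bounded {ι : Type*} (w : ι → (Fin k → Fin n) → ℂ) (g : (Fin k → Fin n) → ℂ)
    (h : ∀ B, LinearIndependent ℂ B → (∀ i, ev (w i) B = 0) → ev g B ≠ 0) :
    ∃ C : ℝ, ∀ B : Fin k → Fin n → ℂ, (∀ i, ev (w i) B = 0) → ev g B = 1 →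
      ∀ t, ‖pl t B‖ ≤ C := by
  choose c hc0 hc using lower w g h
  refine ⟨∑ s, (c s)⁻¹, fun B hB hg t => ?_⟩
  have : Nonempty (Fin k → Fin n) := ⟨t⟩
  obtain ⟨s, hs⟩ := Finite.exists_max fun s : Fin k → Fin n => ‖pl s B‖
  have hD : pl s B ≠ 0 := by
    intro h0
    have h1 : ∀ t, pl t B = 0 := by
      intro t
      have h2 := hs t
      rw [h0, norm_zero] at h2
      exact norm_le_zero_iff.1 h2
    have h2 : ev g B = 0 := by
      rw [ev]
      refine Finset.sum_eq_zero fun t _ => ?_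
      rw [h1 t, mul_zero]
    rw [h2] at hg
    exact zero_ne_one hg
  have hpos : 0 < ‖pl s B‖ := norm_pos_iff.2 hD
  have h1 : c s ≤ ‖ev g (nrm s B)‖ := by
    refine hc s (nrm s B) (nrm_self hD) (fun a e => ?_) fun i => ?_
    · rw [nrm_apply, norm_mul, norm_inv, inv_mul_le_iff₀ hpos, mul_one]
      exact hs _
    · rw [nrm, ev_act, hB i, mul_zero]
  rw [nrm, ev_act, det_nrm, hg, mul_one, norm_inv] at h1
  have h2 : ‖pl s B‖ ≤ (c s)⁻¹ := by
    rw [le_inv_comm₀ hpos (hc0 s)]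
    exact h1
  have h3 : (c s)⁻¹ ≤ ∑ s, (c s)⁻¹ :=
    Finset.single_le_sum (f := fun s => (c s)⁻¹) (fun s _ => inv_nonneg.2 (hc0 s).le)
      (Finset.mem_univ s)
  exact (hs t).trans (h2.trans h3)

open MvPolynomial in
/-- the normalised Pluecker coordinates take finitely many values on the solutions -/
lemma finite_values {ι : Type*} (w : ι → (Fin k → Fin n) → ℂ) (g : (Fin k → Fin n) → ℂ)
    (h : ∀ B, LinearIndependent ℂ B → (∀ i, ev (w i) B = 0) → ev g B ≠ 0) (t : Fin k → Fin n) :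
    {z : ℂ | ∃ B : Fin k → Fin n → ℂ, (∀ i, ev (w i) B = 0) ∧ ev g B = 1 ∧
      pl t B = z}.Finite := by
  obtain ⟨C0, hC0⟩ := bounded w g h
  let plP : (Fin k → Fin n) → MvPolynomial (Fin k × Fin n) ℂ := fun s =>
    (Matrix.of fun a b => X (a, s b)).det
  let evP : ((Fin k → Fin n) → ℂ) → MvPolynomial (Fin k × Fin n) ℂ := fun w =>
    ∑ s, C (w s) * plP s
  have h1 : ∀ (x : Fin k × Fin n → ℂ) (s : Fin k → Fin n),
      eval x (plP s) = pl s (fun a c => x (a, c)) := by
    intro x s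
    simp only [plP, pl]
    rw [RingHom.map_det]
    congr 1
    ext a b
    simp
  have h2 : ∀ (x : Fin k × Fin n → ℂ) (w : (Fin k → Fin n) → ℂ),
      eval x (evP w) = ev w (fun a c => x (a, c)) := by
    intro x w
    simp only [evP, ev, map_sum, map_mul, eval_C, h1]
  let S : Set (MvPolynomial (Fin k × Fin n) ℂ) :=
    (Set.range fun i => evP (w i)) ∪ {evP g - 1}
  have hS : ∀ x : Fin k × Fin n → ℂ, (∀ p ∈ S, eval x p = 0) ↔
      (∀ i, ev (w i) (fun a c => x (a, c)) = 0) ∧ ev g (fun a c => x (a, c)) = 1 := by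
    intro x
    constructor
    · intro h0
      refine ⟨fun i => ?_, ?_⟩
      · rw [← h2]
        exact h0 _ (Or.inl ⟨i, rfl⟩)
      · have h3 := h0 _ (Or.inr rfl)
        rw [map_sub, h2, map_one, sub_eq_zero] at h3
        exact h3
    · rintro ⟨h3, h4⟩ p (⟨i, rfl⟩ | hp)
      · show eval x (evP (w i)) = 0
        rw [h2]
        exact h3 i
      · rw [Set.mem_singleton_iff] at hp
        rw [hp, map_sub, h2, map_one, h4, sub_self]
  refine (fin_values S (plP t) ⟨C0, fun x hx => ?_⟩).subset ?_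
  · obtain ⟨h3, h4⟩ := (hS x).1 hx
    rw [h1]
    exact hC0 _ h3 h4 t
  · rintro z ⟨B, hB, hg, rfl⟩
    exact ⟨fun y => B y.1 y.2, (hS _).2 ⟨hB, hg⟩, h1 _ _⟩

end FinG

open FinG in
/-- Row FIN. If a solution is not isolated then there is a solution on every hyperplane section. -/
theorem fin_gr {k n : ℕ} {ι : Type*} (w : ι → (Fin k → Fin n) → ℂ) (g : (Fin k → Fin n) → ℂ)
    {B : Fin k → Fin n → ℂ} (hB : LinearIndependent ℂ B) (hw : ∀ i, ev (w i) B = 0)
    (hI : ¬ ∀ᶠ B' in 𝓝 B, (∀ i, ev (w i) B' = 0) →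
      Submodule.span ℂ (Set.range B') = Submodule.span ℂ (Set.range B)) :
    ∃ B' : Fin k → Fin n → ℂ, LinearIndependent ℂ B' ∧ (∀ i, ev (w i) B' = 0) ∧ ev g B' = 0 := by
  by_contra hcon
  have h : ∀ B, LinearIndependent ℂ B → (∀ i, ev (w i) B = 0) → ev g B ≠ 0 := by
    intro B' h1 h2 h3
    exact hcon ⟨B', h1, h2, h3⟩
  apply hI
  have hgB : ev g B ≠ 0 := h B hB hw
  obtain ⟨s0, hs0⟩ : ∃ s, pl s B ≠ 0 := by
    by_contra h0
    push Not at h0
    apply hgB
    rw [ev]
    exact Finset.sum_eq_zero fun s _ => by rw [h0 s, mul_zero]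
  -- the ratios are in a finite set
  have key : ∀ t, ∀ᶠ B' in 𝓝 B, (∀ a, ev (w a) B' = 0) →
      pl t B' * (ev g B')⁻¹ = pl t B * (ev g B)⁻¹ := by
    intro t
    have hfin := finite_values w g h t
    set F := {z : ℂ | ∃ B : Fin k → Fin n → ℂ, (∀ i, ev (w i) B = 0) ∧ ev g B = 1 ∧
      pl t B = z} with hF
    have hmem : k ≠ 0 → ∀ B' : Fin k → Fin n → ℂ, (∀ i, ev (w i) B' = 0) → ev g B' ≠ 0 →
        pl t B' * (ev g B')⁻¹ ∈ F := by
      intro hk B' h1 h2
      let A : Matrix (Fin k) (Fin k) ℂ := Matrix.diagonal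
        (Function.update (fun _ => (1 : ℂ)) ⟨0, Nat.pos_of_ne_zero hk⟩ (ev g B')⁻¹)
      have hA : A.det = (ev g B')⁻¹ := by
        simp only [A]
        rw [Matrix.det_diagonal, Finset.prod_update_of_mem (Finset.mem_univ _)]
        simp
      refine ⟨act A B', fun i => ?_, ?_, ?_⟩
      · rw [ev_act, h1 i, mul_zero]
      · rw [ev_act, hA]
        exact inv_mul_cancel₀ h2
      · rw [pl_act, hA, mul_comm]
    have hcont : ContinuousAt (fun B' : Fin k → Fin n → ℂ => pl t B' * (ev g B')⁻¹) B :=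
      (continuous_pl t).continuousAt.mul ((continuous_ev g).continuousAt.inv₀ hgB)
    have hev : ∀ᶠ B' in 𝓝 B, pl t B' * (ev g B')⁻¹ ∉ F \ {pl t B * (ev g B)⁻¹} := by
      have hcl : IsClosed (F \ {pl t B * (ev g B)⁻¹}) := (hfin.subset Set.sdiff_subset).isClosed
      exact hcont.eventually (hcl.isOpen_compl.mem_nhds (by simp))
    have hne : ∀ᶠ B' in 𝓝 B, ev g B' ≠ 0 := (continuous_ev g).continuousAt.eventually_ne hgB
    filter_upwards [hev, hne] with B' h1 h2 h3
    rcases Nat.eq_zero_or_pos k with hk | hk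
    · subst hk
      have : B' = B := Subsingleton.elim _ _
      rw [this]
    · by_contra h4
      exact h1 ⟨hmem hk.ne' B' h3 h2, h4⟩
  have hne : ∀ᶠ B' in 𝓝 B, ev g B' ≠ 0 := (continuous_ev g).continuousAt.eventually_ne hgB
  have hpl : ∀ᶠ B' in 𝓝 B, pl s0 B' ≠ 0 := (continuous_pl s0).continuousAt.eventually_ne hs0
  filter_upwards [eventually_all.2 key, hne, hpl] with B' h1 h2 h3 h4
  refine span_eq hs0 h3 fun t => ?_
  have e1 := h1 t h4
  have e2 := h1 s0 h4
  field_simp at e1 e2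
  have e3 : (pl t B' * pl s0 B - pl t B * pl s0 B') * ev g B = 0 := by
    linear_combination pl s0 B * e1 - pl t B * e2
  rcases mul_eq_zero.1 e3 with h5 | h5
  · linear_combination h5
  · exact absurd h5 hgB

end Pool.TPC
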