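import Pool.Agent.CTG.CptA

/-! Compactness of the Grassmannian, in terms of sequences of frames. -/

namespace Pool.TPC

open Module Filter Topology Pool.CTG

/-- every sequence of `k`-planes has a subsequence which converges, in terms of frames -/
theorem lim_sub {k n : ℕ} (H : ℕ → Submodule ℂ (Fin n → ℂ)) (hH : ∀ v, finrank ℂ ↥(H v) = k) :
    ∃ (f : ℕ → ℕ) (Cs : ℕ → Fin k → Fin n → ℂ) (C : Fin k → Fin n → ℂ), StrictMono f ∧
      LinearIndependent ℂ C ∧ (∀ v, LinearIndependent ℂ (Cs v)) ∧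
      (∀ v, Submodule.span ℂ (Set.range (Cs v)) = H (f v)) ∧ Tendsto Cs atTop (𝓝 C) := by
  choose Bs hBs hsp using fun v => CpA.exists_frame (hH v)
  obtain ⟨B, hB, f, hf, hlim⟩ := (CpA.isCompact_K k n).tendsto_subseq hBs
  have hli : ∀ B : Fin k → EuclideanSpace ℂ (Fin n), B ∈ CpA.K k n →
      LinearIndependent ℂ fun a => CpA.eu n (B a) := by
    intro B hB
    have h1 := Orthonormal.linearIndependent hB
    exact h1.map' ((CpA.eu n : EuclideanSpace ℂ (Fin n) →L[ℂ] V n) :
      EuclideanSpace ℂ (Fin n) →ₗ[ℂ] V n) (LinearMap.ker_eq_bot.2 (CpA.eu n).injective)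
  refine ⟨f, fun v a => CpA.eu n (Bs (f v) a), fun a => CpA.eu n (B a), hf, hli B hB,
    fun v => hli _ (hBs _), fun v => hsp (f v), ?_⟩
  have hc : Continuous fun B : Fin k → EuclideanSpace ℂ (Fin n) => fun a => CpA.eu n (B a) :=
    continuous_pi fun a => (CpA.eu n).continuous.comp (continuous_apply a)
  exact (hc.tendsto B).comp hlim

/-- every sequence of frames has a subsequence with equivalent frames which converge to a frame -/
theorem lim_gr {k n : ℕ} (Bs : ℕ → Fin k → Fin n → ℂ) (hB : ∀ v, LinearIndependent ℂ (Bs v)) :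
    ∃ (f : ℕ → ℕ) (Cs : ℕ → Fin k → Fin n → ℂ) (C : Fin k → Fin n → ℂ), StrictMono f ∧
      LinearIndependent ℂ C ∧ (∀ v, LinearIndependent ℂ (Cs v)) ∧
      (∀ v, Submodule.span ℂ (Set.range (Cs v)) = Submodule.span ℂ (Set.range (Bs (f v)))) ∧
      Tendsto Cs atTop (𝓝 C) := by
  have hH : ∀ v, finrank ℂ ↥(Submodule.span ℂ (Set.range (Bs v))) = k := by
    intro v
    rw [finrank_span_eq_card (hB v), Fintype.card_fin]
  exact lim_sub (fun v => Submodule.span ℂ (Set.range (Bs v))) hH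

end Pool.TPC
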