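import Mathlib
import Pool.Agent.TPT.UL
import Pool.Agent.TPT.PersGr
import Pool.Agent.TPC.Conj
import Pool.Agent.TPC.LimGr
import Pool.Agent.TPC.FinGr
import Pool.Agent.TPC.Chn
import Pool.Agent.TPT.Mul

/-! The theorem `B_j`: all complex planes of order at least `N - j` at the first flag of a positive
list, which meet the remaining `j` flags, are real.  The proof is abstract: it uses forms `ct` with
the properties collected in `BJTools`. -/

namespace Pool.TPC.BJ

open Matrix Filter Topology Pool.TPT Pool.CSC Pool.TPC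

variable {k n : ℕ}

theorem ev_zero_of_span {B B' : Fin k → Fin n → ℂ} {w : (Fin k → Fin n) → ℂ}
    (h : Submodule.span ℂ (Set.range B') = Submodule.span ℂ (Set.range B)) (h0 : ev w B = 0) :
    ev w B' = 0 := by
  obtain ⟨g, hg⟩ := exists_coeff (le_of_eq h)
  rw [ev_trans g hg w, h0, mul_zero]

theorem continuous_ev2 : Continuous fun p : ((Fin k → Fin n) → ℂ) × (Fin k → Fin n → ℂ) =>
    ev p.1 p.2 := by
  unfold ev
  refine continuous_finsetSum _ fun s _ => ?_
  exact ((continuous_apply s).comp continuous_fst).mul ((continuous_pl s).comp continuous_snd)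

theorem ev_lim {W : ℕ → (Fin k → Fin n) → ℂ} {w : (Fin k → Fin n) → ℂ}
    {Bs : ℕ → Fin k → Fin n → ℂ} {B : Fin k → Fin n → ℂ} (hW : Tendsto W atTop (𝓝 w))
    (hB : Tendsto Bs atTop (𝓝 B)) : Tendsto (fun ν => ev (W ν) (Bs ν)) atTop (𝓝 (ev w B)) :=
  (continuous_ev2.tendsto (w, B)).comp (hW.prodMk_nhds hB)

theorem ev_lim_zero {W : ℕ → (Fin k → Fin n) → ℂ} {w : (Fin k → Fin n) → ℂ}
    {Bs : ℕ → Fin k → Fin n → ℂ} {B : Fin k → Fin n → ℂ} (hW : Tendsto W atTop (𝓝 w))
    (hB : Tendsto Bs atTop (𝓝 B)) (h : ∀ ν, ev (W ν) (Bs ν) = 0) : ev w B = 0 := by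
  have h1 := ev_lim hW hB
  simp only [h] at h1
  exact (tendsto_nhds_unique h1 tendsto_const_nhds)

theorem isReal_congr {B B' : Fin k → Fin n → ℂ} (h : sp B' = sp B) (hB : IsReal n (sp B)) :
    IsReal n (sp B') := by
  rw [h]
  exact hB

/-- the properties of the forms `ct` (Taylor coefficients of the incidence form along `u * P t`) -/
structure BJTools (k n : ℕ) (P : ℝ → Matrix (Fin n) (Fin n) ℝ)
    (ct : Matrix (Fin n) (Fin n) ℝ → ℕ → (Fin k → Fin n) → ℂ) : Prop where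
  P_pos : ∀ t : ℝ, 0 < t → Pos n (P t)
  P_lim : Tendsto P (𝓝 0) (𝓝 1)
  ct_cont : ∀ (As : ℕ → Matrix (Fin n) (Fin n) ℝ) (A : Matrix (Fin n) (Fin n) ℝ),
    (∀ ν, Uni (As ν)) → Uni A → Tendsto As atTop (𝓝 A) →
    Tendsto (fun ν => ct (As ν) 0) atTop (𝓝 (ct A 0))
  cte : ∀ (u : Matrix (Fin n) (Fin n) ℝ), Uni u → ∀ (t : ℝ) (B : Fin k → Fin n → ℂ),
    ev (ct (u * P t) 0) B = ∑ q ∈ Finset.range (k * (n - k) + 1), (t : ℂ) ^ q * ev (ct u q) B
  base : ∀ (u : Matrix (Fin n) (Fin n) ℝ) (B : Fin k → Fin n → ℂ), Uni u →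
    LinearIndependent ℂ B → (∀ q < k * (n - k), ev (ct u q) B = 0) → IsReal n (sp B)
  G : ∀ (M a : ℕ) (v : ℕ → Matrix (Fin n) (Fin n) ℝ) (B : Fin k → Fin n → ℂ),
    a + M = k * (n - k) → Chn n M v → LinearIndependent ℂ B → IsReal n (sp B) →
    (∀ q < a + 1, ev (ct (v 0) q) B = 0) → (∀ i, 1 ≤ i → i ≤ M → ev (ct (v i) 0) B = 0) → False
  luo : ∀ (M a : ℕ) (vs : ℕ → ℕ → Matrix (Fin n) (Fin n) ℝ) (v : ℕ → Matrix (Fin n) (Fin n) ℝ)
    (Bs : ℕ → Fin k → Fin n → ℂ) (B : Fin k → Fin n → ℂ),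
    a + M = k * (n - k) → Chn n M v → (∀ ν i, 1 ≤ i → i ≤ M → Uni (vs ν i)) →
    (∀ i, 1 ≤ i → i ≤ M → Tendsto (fun ν => vs ν i) atTop (𝓝 (v i))) →
    Tendsto Bs atTop (𝓝 B) → (∀ ν, LinearIndependent ℂ (Bs ν)) → LinearIndependent ℂ B →
    (∀ ν, ∀ q < a, ev (ct (v 0) q) (Bs ν) = 0) →
    (∀ ν i, 1 ≤ i → i ≤ M → ev (ct (vs ν i) 0) (Bs ν) = 0) → IsReal n (sp B) →
    ∀ᶠ ν in atTop, IsReal n (sp (Bs ν))
  lus : ∀ (M a : ℕ) (t : ℕ → ℝ) (vs : ℕ → ℕ → Matrix (Fin n) (Fin n) ℝ)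
    (v : ℕ → Matrix (Fin n) (Fin n) ℝ)
    (Bs : ℕ → Fin k → Fin n → ℂ) (B : Fin k → Fin n → ℂ),
    a + (M + 1) = k * (n - k) → Chn n M v → (∀ ν i, 1 ≤ i → i ≤ M → Uni (vs ν i)) →
    (∀ ν, 0 < t ν) → Tendsto t atTop (𝓝 0) →
    (∀ i, 1 ≤ i → i ≤ M → Tendsto (fun ν => vs ν i) atTop (𝓝 (v i))) →
    Tendsto Bs atTop (𝓝 B) → (∀ ν, LinearIndependent ℂ (Bs ν)) → LinearIndependent ℂ B →
    (∀ ν, ∀ q < a, ev (ct (v 0) q) (Bs ν) = 0) →
    (∀ ν, ev (ct (v 0 * P (t ν)) 0) (Bs ν) = 0) →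
    (∀ ν i, 1 ≤ i → i ≤ M → ev (ct (vs ν i) 0) (Bs ν) = 0) → IsReal n (sp B) →
    ∀ᶠ ν in atTop, IsReal n (sp (Bs ν))

/-- moving the flags `u 1, u 2, ..` by one matrix -/
noncomputable def mv (u : ℕ → Matrix (Fin n) (Fin n) ℝ) (A : Matrix (Fin n) (Fin n) ℝ) (i : ℕ) :
    Matrix (Fin n) (Fin n) ℝ := if i = 0 then u 0 else u 0 * A * ((u 1)⁻¹ * u i)

theorem inv_mul_mul {g x y : Matrix (Fin n) (Fin n) ℝ} (hg : IsUnit g.det) :
    (g * x)⁻¹ * (g * y) = x⁻¹ * y := by
  rw [Matrix.mul_inv_rev, Matrix.mul_assoc, ← Matrix.mul_assoc g⁻¹, Matrix.nonsing_inv_mul _ hg,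
    Matrix.one_mul]

theorem mv_zero (u : ℕ → Matrix (Fin n) (Fin n) ℝ) (A : Matrix (Fin n) (Fin n) ℝ) :
    mv u A 0 = u 0 := by simp [mv]

theorem mv_pos (u : ℕ → Matrix (Fin n) (Fin n) ℝ) (A : Matrix (Fin n) (Fin n) ℝ) {i : ℕ}
    (hi : 1 ≤ i) : mv u A i = u 0 * A * ((u 1)⁻¹ * u i) := by
  rw [mv, if_neg (by omega)]

theorem mv_one (u : ℕ → Matrix (Fin n) (Fin n) ℝ) (A : Matrix (Fin n) (Fin n) ℝ)
    (h1 : Uni (u 1)) : mv u A 1 = u 0 * A := by
  rw [mv_pos u A le_rfl, Matrix.nonsing_inv_mul _ h1.isUnit, Matrix.mul_one]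

theorem mv_self (u : ℕ → Matrix (Fin n) (Fin n) ℝ) (h0 : Uni (u 0)) (h1 : Uni (u 1)) (i : ℕ) :
    mv u ((u 0)⁻¹ * u 1) i = u i := by
  rcases Nat.eq_zero_or_pos i with rfl | hi
  · exact mv_zero u _
  · rw [mv_pos u _ hi, ← Matrix.mul_assoc (u 0), Matrix.mul_nonsing_inv _ h0.isUnit, Matrix.one_mul,
      ← Matrix.mul_assoc, Matrix.mul_nonsing_inv _ h1.isUnit, Matrix.one_mul]

theorem mv_uni {j : ℕ} (hj : 1 ≤ j) {u : ℕ → Matrix (Fin n) (Fin n) ℝ}
    {A : Matrix (Fin n) (Fin n) ℝ} (hU : ∀ i ≤ j, Uni (u i)) (hA : Uni A) :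
    ∀ i ≤ j, Uni (mv u A i) := by
  intro i hi
  rcases Nat.eq_zero_or_pos i with rfl | hi'
  · rw [mv_zero]; exact hU 0 hi
  · rw [mv_pos u A hi']
    exact ((hU 0 (Nat.zero_le _)).mul hA).mul ((hU 1 hj).inv.mul (hU i hi))

theorem mv_step {j : ℕ} {u : ℕ → Matrix (Fin n) (Fin n) ℝ}
    {A : Matrix (Fin n) (Fin n) ℝ} (hU : ∀ i ≤ j, Uni (u i))
    (hP : ∀ i < j, Pos n ((u i)⁻¹ * u (i + 1))) (hA : Pos n A) :
    ∀ i < j, Pos n ((mv u A i)⁻¹ * mv u A (i + 1)) := by
  intro i hi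
  have h0 := hU 0 (Nat.zero_le _)
  have h1 := hU 1 (by omega)
  rcases Nat.eq_zero_or_pos i with rfl | hi'
  · rw [mv_zero, zero_add, mv_one u A h1, ← Matrix.mul_assoc, Matrix.nonsing_inv_mul _ h0.isUnit,
      Matrix.one_mul]
    exact hA
  · rw [mv_pos u A hi', mv_pos u A (by omega),
      inv_mul_mul (h0.mul hA.uni).isUnit, inv_mul_mul h1.inv.isUnit]
    exact hP i hi

theorem continuous_mv (u : ℕ → Matrix (Fin n) (Fin n) ℝ) (i : ℕ) :
    Continuous fun A : Matrix (Fin n) (Fin n) ℝ => mv u A i := by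
  unfold mv
  split_ifs
  · exact continuous_const
  · exact (continuous_const.matrix_mul continuous_id).matrix_mul continuous_const

section

variable {P : ℝ → Matrix (Fin n) (Fin n) ℝ}
  {ct : Matrix (Fin n) (Fin n) ℝ → ℕ → (Fin k → Fin n) → ℂ}

/-- the solutions -/
def SolJ (ct : Matrix (Fin n) (Fin n) ℝ → ℕ → (Fin k → Fin n) → ℂ) (a j : ℕ)
    (u : ℕ → Matrix (Fin n) (Fin n) ℝ) (B : Fin k → Fin n → ℂ) : Prop :=
  LinearIndependent ℂ B ∧ (∀ q < a, ev (ct (u 0) q) B = 0) ∧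
    ∀ i, 1 ≤ i → i ≤ j → ev (ct (u i) 0) B = 0

theorem SolJ.congr {a j : ℕ} {u : ℕ → Matrix (Fin n) (Fin n) ℝ} {B B' : Fin k → Fin n → ℂ}
    (h : SolJ ct a j u B) (hB' : LinearIndependent ℂ B')
    (he : Submodule.span ℂ (Set.range B') = Submodule.span ℂ (Set.range B)) :
    SolJ ct a j u B' :=
  ⟨hB', fun q hq => ev_zero_of_span he (h.2.1 q hq), fun i h1 h2 => ev_zero_of_span he (h.2.2 i h1 h2)⟩

/-- the `N` equations as one family -/
def eqs (ct : Matrix (Fin n) (Fin n) ℝ → ℕ → (Fin k → Fin n) → ℂ) (a N : ℕ)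
    (u : ℕ → Matrix (Fin n) (Fin n) ℝ) (c : Fin N) : (Fin k → Fin n) → ℂ :=
  if (c : ℕ) < a then ct (u 0) c else ct (u (c - a + 1)) 0

theorem eqs_iff {a j N : ℕ} (hN : a + j = N) {u : ℕ → Matrix (Fin n) (Fin n) ℝ}
    {B : Fin k → Fin n → ℂ} (hB : LinearIndependent ℂ B) :
    (∀ c, ev (eqs ct a N u c) B = 0) ↔ SolJ ct a j u B := by
  constructor
  · intro h
    refine ⟨hB, fun q hq => ?_, fun i h1 h2 => ?_⟩
    · have := h ⟨q, by omega⟩
      rwa [eqs, if_pos hq] at this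
    · have := h ⟨a + (i - 1), by omega⟩
      rw [eqs, if_neg (by simp)] at this
      simp only at this
      rwa [show a + (i - 1) - a + 1 = i by omega] at this
  · rintro ⟨_, h1, h2⟩ c
    rw [eqs]
    split_ifs with hc
    · exact h1 _ hc
    · exact h2 _ (by omega) (by have := c.2; omega)

/-- **Theorem B_j** -/
theorem BJ_abs (T : BJTools k n P ct) : ∀ (j : ℕ), j ≤ k * (n - k) →
    ∀ (u : ℕ → Matrix (Fin n) (Fin n) ℝ), (∀ i ≤ j, Uni (u i)) →
    (∀ i < j, Pos n ((u i)⁻¹ * u (i + 1))) → ∀ B : Fin k → Fin n → ℂ,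
    SolJ ct (k * (n - k) - j) j u B → IsReal n (sp B) := by
  intro j
  induction j with
  | zero =>
    intro _ u hU _ B hB
    exact T.base (u 0) B (hU 0 le_rfl) hB.1 (fun q hq => hB.2.1 q (by omega))
  | succ j ih =>
    intro hj u hU hP B hB
    set N := k * (n - k) with hN
    set a := N - (j + 1) with ha
    have haN : a + (j + 1) = N := by omega
    have hU0 := hU 0 (Nat.zero_le _)
    have hU1 := hU 1 (by omega)
    -- isolated
    have hiso : ∀ A : Matrix (Fin n) (Fin n) ℝ, Pos n A → ∀ B : Fin k → Fin n → ℂ,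
        SolJ ct a (j + 1) (mv u A) B → ∀ᶠ B' in 𝓝 B,
          (∀ c, ev (eqs ct a N (mv u A) c) B' = 0) →
            Submodule.span ℂ (Set.range B') = Submodule.span ℂ (Set.range B) := by
      intro A hA B hB
      by_contra hcon
      obtain ⟨B', hB', h1, h2⟩ := fin_gr _ (ct (u 0) a) hB.1 ((eqs_iff haN hB.1).2 hB) hcon
      have h3 := (eqs_iff haN hB').1 h1
      have hord : ∀ q < a + 1, ev (ct (mv u A 0) q) B' = 0 := by
        intro q hq
        rcases Nat.lt_succ_iff_lt_or_eq.1 hq with h | h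
        · exact h3.2.1 q h
        · rw [mv_zero, h]; exact h2
      have hreal : IsReal n (sp B') := by
        refine ih (by omega) (mv u A) (fun i hi => mv_uni (by omega) hU hA.uni i (by omega))
          (fun i hi => mv_step hU hP hA i (by omega)) B' ⟨hB', fun q hq => hord q (by omega),
            fun i h4 h5 => h3.2.2 i h4 (by omega)⟩
      exact T.G (j + 1) a (mv u A) B' haN ⟨mv_uni (by omega) hU hA.uni, mv_step hU hP hA⟩ hB'
        hreal hord h3.2.2
    have hfc : FirstCountableTopology (Matrix (Fin n) (Fin n) ℝ) :=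
      inferInstanceAs (FirstCountableTopology (Fin n → Fin n → ℝ))
    -- the set of good parameters
    set S : Set {A : Matrix (Fin n) (Fin n) ℝ // Pos n A} :=
      {A | ∀ B : Fin k → Fin n → ℂ, SolJ ct a (j + 1) (mv u A.1) B → IsReal n (sp B)} with hS
    have hclosed : IsClosed S := by
      apply IsSeqClosed.isClosed
      intro As A hAs hlim B hB
      by_contra hnr
      have hlim' : Tendsto (fun ν => (As ν).1) atTop (𝓝 A.1) :=
        (continuous_subtype_val.tendsto A).comp hlim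
      have hw : Tendsto (fun ν => eqs ct a N (mv u (As ν).1)) atTop
          (𝓝 (eqs ct a N (mv u A.1))) := by
        rw [tendsto_pi_nhds]
        intro c
        unfold eqs
        split_ifs with hc
        · simp only [mv_zero]
          exact tendsto_const_nhds
        · exact T.ct_cont _ _ (fun ν => mv_uni (j := j + 1) (by omega) hU (As ν).2.uni _
            (by have := c.2; omega)) (mv_uni (j := j + 1) (by omega) hU A.2.uni _
            (by have := c.2; omega)) (((continuous_mv u _).tendsto _).comp hlim')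
      have hev := (eqs_iff haN hB.1).2 hB
      -- choose solutions close to `B`
      have hpers : ∀ m : ℕ, ∀ᶠ ν in atTop, ∃ B' ∈ Metric.ball B (1 / ((m : ℝ) + 1)),
          LinearIndependent ℂ B' ∧ ∀ c, ev (eqs ct a N (mv u (As ν).1) c) B' = 0 := by
        intro m
        have := Pool.Agent.TPT.pers_gr (k := k) (n := n) (κ := Fin N) (by simp [hN])
          (eqs ct a N (mv u A.1)) B hB.1 hev (hiso A.1 A.2 B hB)
          (Metric.ball_mem_nhds B (by positivity : (0 : ℝ) < 1 / ((m : ℝ) + 1)))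
        exact hw.eventually this
      have hB' : ∀ m : ℕ, ∃ B' : Fin k → Fin n → ℂ, B' ∈ Metric.ball B (1 / ((m : ℝ) + 1)) ∧ IsReal n (sp B') := by
        intro m
        obtain ⟨ν, B', h1, h2, h3⟩ := (hpers m).exists
        exact ⟨B', h1, hAs ν B' ((eqs_iff haN h2).1 h3)⟩
      choose Bs hBs1 hBs2 using hB'
      have hBlim : Tendsto Bs atTop (𝓝 B) := by
        rw [tendsto_iff_dist_tendsto_zero]
        refine squeeze_zero (fun _ => dist_nonneg) (fun m => (Metric.mem_ball.1 (hBs1 m)).le) ?_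
        exact tendsto_one_div_add_atTop_nhds_zero_nat
      exact hnr (rlim hBlim hB.1 (Frequently.of_forall hBs2))
    have hopen : IsOpen S := by
      rw [← isClosed_compl_iff]
      apply IsSeqClosed.isClosed
      intro As A hAs hlim hA
      have hlim' : Tendsto (fun ν => (As ν).1) atTop (𝓝 A.1) :=
        (continuous_subtype_val.tendsto A).comp hlim
      have h1 : ∀ ν, ∃ B : Fin k → Fin n → ℂ, SolJ ct a (j + 1) (mv u (As ν).1) B ∧ ¬ IsReal n (sp B) := by
        intro ν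
        have := hAs ν
        simp only [hS, Set.mem_compl_iff, Set.mem_ofPred_eq] at this
        push Not at this
        exact this
      choose Bs hBs1 hBs2 using h1
      obtain ⟨f, Cs, C, hf, hC, hCs, hsp, hClim⟩ := lim_gr Bs fun ν => (hBs1 ν).1
      have hsol : ∀ ν, SolJ ct a (j + 1) (mv u (As (f ν)).1) (Cs ν) := fun ν =>
        (hBs1 (f ν)).congr (hCs ν) (hsp ν)
      have hnr : ∀ ν, ¬ IsReal n (sp (Cs ν)) := fun ν h => hBs2 (f ν) (isReal_congr (hsp ν).symm h)
      have hlf : Tendsto (fun ν => (As (f ν)).1) atTop (𝓝 A.1) := hlim'.comp hf.tendsto_atTop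
      have hCsol : SolJ ct a (j + 1) (mv u A.1) C := by
        refine ⟨hC, fun q hq => ?_, fun i h1 h2 => ?_⟩
        · refine ev_lim_zero (W := fun _ => ct (mv u A.1 0) q) tendsto_const_nhds hClim fun ν => ?_
          have := (hsol ν).2.1 q hq
          rwa [mv_zero] at this ⊢
        · exact ev_lim_zero (T.ct_cont _ _ (fun ν => mv_uni (by omega) hU (As (f ν)).2.uni i h2)
            (mv_uni (by omega) hU A.2.uni i h2) (((continuous_mv u i).tendsto _).comp hlf))
            hClim fun ν => (hsol ν).2.2 i h1 h2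
      have hCr : IsReal n (sp C) := hA C hCsol
      have := T.luo (j + 1) a (fun ν => mv u (As (f ν)).1) (mv u A.1) Cs C haN
        ⟨mv_uni (by omega) hU A.2.uni, mv_step hU hP A.2⟩
        (fun ν i _ hi => mv_uni (by omega) hU (As (f ν)).2.uni i hi)
        (fun i _ _ => ((continuous_mv u i).tendsto _).comp hlf) hClim hCs hC
        (fun ν q hq => by
          have := (hsol ν).2.1 q hq
          rwa [mv_zero] at this ⊢) (fun ν => (hsol ν).2.2) hCr
      obtain ⟨ν, hν⟩ := this.exists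
      exact hnr ν hν
    have hne : S.Nonempty := by
      by_contra hempty
      rw [Set.not_nonempty_iff_eq_empty] at hempty
      have h1 : ∀ ν : ℕ, ∃ B : Fin k → Fin n → ℂ,
          SolJ ct a (j + 1) (mv u (P (1 / ((ν : ℝ) + 1)))) B ∧ ¬ IsReal n (sp B) := by
        intro ν
        have hpos : Pos n (P (1 / ((ν : ℝ) + 1))) := T.P_pos _ (by positivity)
        have : (⟨_, hpos⟩ : {A : Matrix (Fin n) (Fin n) ℝ // Pos n A}) ∉ S := by
          rw [hempty]; exact Set.notMem_empty _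
        simp only [hS, Set.mem_ofPred_eq] at this
        push Not at this
        exact this
      choose Bs hBs1 hBs2 using h1
      obtain ⟨f, Cs, C, hf, hC, hCs, hsp, hClim⟩ := lim_gr Bs fun ν => (hBs1 ν).1
      set t : ℕ → ℝ := fun ν => 1 / ((f ν : ℝ) + 1) with ht
      have htpos : ∀ ν, 0 < t ν := fun ν => by simp only [ht]; positivity
      have htlim : Tendsto t atTop (𝓝 0) :=
        (tendsto_one_div_add_atTop_nhds_zero_nat (𝕜 := ℝ)).comp hf.tendsto_atTop
      have hsol : ∀ ν, SolJ ct a (j + 1) (mv u (P (t ν))) (Cs ν) := fun ν =>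
        (hBs1 (f ν)).congr (hCs ν) (hsp ν)
      have hnr : ∀ ν, ¬ IsReal n (sp (Cs ν)) := fun ν h => hBs2 (f ν) (isReal_congr (hsp ν).symm h)
      have hPlim : Tendsto (fun ν => P (t ν)) atTop (𝓝 1) := T.P_lim.comp htlim
      have hmvU : ∀ ν, ∀ i ≤ j + 1, Uni (mv u (P (t ν)) i) := fun ν =>
        mv_uni (by omega) hU (T.P_pos _ (htpos ν)).uni
      -- the limit list
      set v : ℕ → Matrix (Fin n) (Fin n) ℝ := fun i => if i = 0 then u 0 else mv u 1 (i + 1) with hv
      have hv0 : v 0 = u 0 := by simp [hv]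
      have hvp : ∀ i, 1 ≤ i → v i = mv u 1 (i + 1) := fun i hi => by
        simp only [hv]; rw [if_neg (by omega)]
      have hvU : ∀ i ≤ j, Uni (v i) := by
        intro i hi
        rcases Nat.eq_zero_or_pos i with rfl | hi'
        · rw [hv0]; exact hU0
        · rw [hvp i hi']; exact mv_uni (by omega) hU Uni.one (i + 1) (by omega)
      have hvP : ∀ i < j, Pos n ((v i)⁻¹ * v (i + 1)) := by
        intro i hi
        rcases Nat.eq_zero_or_pos i with rfl | hi'
        · rw [hv0, hvp _ le_rfl, mv_pos u 1 (by omega), Matrix.mul_one, ← Matrix.mul_assoc,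
            Matrix.nonsing_inv_mul _ hU0.isUnit, Matrix.one_mul]
          exact hP 1 (by omega)
        · rw [hvp i hi', hvp (i + 1) (by omega), mv_pos u 1 (by omega), mv_pos u 1 (by omega),
            Matrix.mul_one, inv_mul_mul hU0.isUnit, inv_mul_mul hU1.inv.isUnit]
          exact hP (i + 1) (by omega)
      have hlo : ∀ ν, ∀ q < a, ev (ct (v 0) q) (Cs ν) = 0 := by
        intro ν q hq
        have := (hsol ν).2.1 q hq
        rwa [mv_zero, ← hv0] at this
      have hfirst : ∀ ν, ev (ct (v 0 * P (t ν)) 0) (Cs ν) = 0 := by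
        intro ν
        have := (hsol ν).2.2 1 le_rfl (by omega)
        rwa [mv_one u _ hU1, ← hv0] at this
      have hrest : ∀ ν i, 1 ≤ i → i ≤ j →
          ev (ct (mv u (P (t ν)) (i + 1)) 0) (Cs ν) = 0 := fun ν i h1 h2 =>
        (hsol ν).2.2 (i + 1) (by omega) (by omega)
      have hrlim : ∀ i, 1 ≤ i → i ≤ j →
          Tendsto (fun ν => mv u (P (t ν)) (i + 1)) atTop (𝓝 (v i)) := by
        intro i h1 _
        rw [hvp i h1]
        exact ((continuous_mv u (i + 1)).tendsto _).comp hPlim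
      -- the order of the limit
      have hlow : ∀ q < a, ev (ct (v 0) q) C = 0 := fun q hq =>
        ev_lim_zero (W := fun _ => ct (v 0) q) tendsto_const_nhds hClim fun ν => hlo ν q hq
      have hone : ev (ct (v 0) a) C = 0 := by
        have h2 : ∀ ν, ∑ q ∈ Finset.range (N + 1 - a), (t ν : ℂ) ^ q * ev (ct (v 0) (a + q)) (Cs ν)
            = 0 := by
          intro ν
          have h3 := T.cte (v 0) (hvU 0 (Nat.zero_le _)) (t ν) (Cs ν)
          rw [hfirst ν, ← hN] at h3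
          have h4 : ∑ q ∈ Finset.range (N + 1), (t ν : ℂ) ^ q * ev (ct (v 0) q) (Cs ν) =
              (t ν : ℂ) ^ a * ∑ q ∈ Finset.range (N + 1 - a),
                (t ν : ℂ) ^ q * ev (ct (v 0) (a + q)) (Cs ν) := by
            rw [show N + 1 = a + (N + 1 - a) by omega, Finset.sum_range_add, Finset.mul_sum,
              Finset.sum_eq_zero (fun q hq => by
                rw [hlo ν q (Finset.mem_range.1 hq), mul_zero]), zero_add,
              show a + (N + 1 - a) - a = N + 1 - a by omega]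
            refine Finset.sum_congr rfl fun q _ => ?_
            rw [pow_add, mul_assoc]
          rw [h4] at h3
          have h5 : (t ν : ℂ) ^ a ≠ 0 := pow_ne_zero _ (by
            exact_mod_cast (htpos ν).ne')
          exact (mul_eq_zero.1 h3.symm).resolve_left h5
        have h6 : Tendsto (fun ν => ∑ q ∈ Finset.range (N + 1 - a),
            (t ν : ℂ) ^ q * ev (ct (v 0) (a + q)) (Cs ν)) atTop
            (𝓝 (∑ q ∈ Finset.range (N + 1 - a), ((0 : ℝ) : ℂ) ^ q * ev (ct (v 0) (a + q)) C)) := by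
          refine tendsto_finsetSum _ fun q _ => ?_
          refine Tendsto.mul ?_ (((continuous_ev _).tendsto _).comp hClim)
          exact ((Complex.continuous_ofReal.tendsto 0).comp htlim).pow q
        simp only [h2] at h6
        have h7 := tendsto_nhds_unique h6 tendsto_const_nhds
        rw [show N + 1 - a = (N - a) + 1 by omega, Finset.sum_range_succ'] at h7
        simpa using h7
      have hord : ∀ q < a + 1, ev (ct (v 0) q) C = 0 := by
        intro q hq
        rcases Nat.lt_succ_iff_lt_or_eq.1 hq with h | h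
        · exact hlow q h
        · rw [h]; exact hone
      have hCr : IsReal n (sp C) := by
        refine ih (by omega) v hvU hvP C ⟨hC, fun q hq => hord q (by omega), fun i h1 h2 => ?_⟩
        exact ev_lim_zero (T.ct_cont _ _ (fun ν => hmvU ν (i + 1) (by omega)) (hvU i h2)
          (hrlim i h1 h2)) hClim fun ν => hrest ν i h1 h2
      obtain ⟨ν, hν⟩ := (T.lus j a t (fun ν i => mv u (P (t ν)) (i + 1)) v Cs C haN ⟨hvU, hvP⟩
        (fun ν i _ hi => hmvU ν (i + 1) (by omega)) htpos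
        htlim hrlim hClim hCs hC hlo hfirst hrest hCr).exists
      exact hnr ν hν
    -- conclusion
    have hpc : PreconnectedSpace {A : Matrix (Fin n) (Fin n) ℝ // Pos n A} :=
      isPreconnected_iff_preconnectedSpace.1 isPreconnected_Pos
    have huniv : S = Set.univ := IsClopen.eq_univ ⟨hclosed, hopen⟩ hne
    have hmem : (⟨(u 0)⁻¹ * u 1, hP 0 (by omega)⟩ :
        {A : Matrix (Fin n) (Fin n) ℝ // Pos n A}) ∈ S := by
      rw [huniv]; exact Set.mem_univ _
    refine hmem B ?_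
    have he : mv u ((u 0)⁻¹ * u 1) = u := funext fun i => mv_self u hU0 hU1 i
    simp only [he]
    exact hB

/-- Theorem `B_j` in the shape used by `Itf` -/
theorem bj (T : BJTools k n P ct) (j : ℕ) (u : ℕ → Matrix (Fin n) (Fin n) ℝ) (hu : Chn n j u)
    (hj : j ≤ k * (n - k)) (B : Fin k → Fin n → ℂ) (hB : LinearIndependent ℂ B)
    (h0 : ∀ q < k * (n - k) - j, ev (ct (u 0) q) B = 0)
    (h1 : ∀ i, 1 ≤ i → i ≤ j → ev (ct (u i) 0) B = 0) : IsReal n (sp B) :=
  BJ_abs T j hj u hu.uni hu.pos B ⟨hB, h0, h1⟩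

end

end Pool.TPC.BJ
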