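import Pool.Agent.TPC.Defs

/-! Row PAS: Pascal matrices. -/

namespace Pool.TPC

open Matrix Module Pool.CSC Pool.TPT Filter Topology

variable {n : ℕ}

theorem Pas_apply (t : ℝ) (i j : Fin n) :
    Pas n t i j = ((j : ℕ).choose (i : ℕ) : ℝ) * t ^ ((j : ℕ) - (i : ℕ)) := rfl

theorem Pas_zero : Pas n 0 = 1 := by
  ext i j
  rw [Pas_apply, Matrix.one_apply]
  by_cases h : i = j
  · subst h
    simp
  · rw [if_neg h]
    have hv : (i : ℕ) ≠ (j : ℕ) := fun h' => h (Fin.ext h')
    rcases lt_or_gt_of_ne hv with h1 | h1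
    · rw [zero_pow (by omega), mul_zero]
    · rw [Nat.choose_eq_zero_of_lt h1]
      simp

theorem uni_Pas (t : ℝ) : Uni (Pas n t) := by
  refine ⟨fun i => ?_, fun i j hij => ?_⟩
  · rw [Pas_apply]; simp
  · rw [Pas_apply, Nat.choose_eq_zero_of_lt hij]; simp

theorem continuous_Pas : Continuous (Pas n) := by
  refine continuous_matrix fun i j => ?_
  simp only [Pas_apply]
  fun_prop

theorem pas_sum (s t : ℝ) (i j n : ℕ) (hj : j < n) :
    ∑ l ∈ Finset.range n, ((l.choose i : ℝ) * s ^ (l - i)) * ((j.choose l : ℝ) * t ^ (j - l))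
      = (j.choose i : ℝ) * (s + t) ^ (j - i) := by
  by_cases hij : i ≤ j
  · have hsub : Finset.Ico i (j + 1) ⊆ Finset.range n := by
      intro l hl
      rw [Finset.mem_Ico] at hl
      rw [Finset.mem_range]
      omega
    rw [← Finset.sum_subset hsub]
    · rw [Finset.sum_Ico_eq_sum_range, add_pow, Finset.mul_sum]
      rw [show j + 1 - i = j - i + 1 by omega]
      refine Finset.sum_congr rfl fun m hm => ?_
      rw [Finset.mem_range] at hm
      have h1 : j.choose (i + m) * (i + m).choose i = j.choose i * (j - i).choose m := by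
        rw [Nat.choose_mul (n := j) (k := i + m) (s := i) (by omega)]
        congr 2
        omega
      have h2 : ((j.choose (i + m) : ℕ) : ℝ) * ((i + m).choose i : ℕ)
          = (j.choose i : ℕ) * ((j - i).choose m : ℕ) := by exact_mod_cast h1
      rw [show i + m - i = m by omega, show j - (i + m) = j - i - m by omega]
      calc _ = (((j.choose (i + m) : ℕ) : ℝ) * ((i + m).choose i : ℕ))
            * (s ^ m * t ^ (j - i - m)) := by ring
        _ = _ := by rw [h2]; ring
    · intro l _ hl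
      rw [Finset.mem_Ico, not_and_or] at hl
      rcases hl with hl | hl
      · rw [Nat.choose_eq_zero_of_lt (by omega : l < i)]; simp
      · rw [Nat.choose_eq_zero_of_lt (by omega : j < l)]; simp
  · rw [Nat.choose_eq_zero_of_lt (by omega : j < i)]
    rw [Nat.cast_zero, zero_mul]
    refine Finset.sum_eq_zero fun l _ => ?_
    by_cases hl : l < i
    · rw [Nat.choose_eq_zero_of_lt hl]; simp
    · rw [Nat.choose_eq_zero_of_lt (by omega : j < l)]; simp

theorem Pas_mul (s t : ℝ) : Pas n s * Pas n t = Pas n (s + t) := by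
  ext i j
  rw [Matrix.mul_apply, Pas_apply]
  rw [← pas_sum s t i j n j.2]
  rw [← Fin.sum_univ_eq_sum_range
    (fun l => ((l.choose (i : ℕ) : ℝ) * s ^ (l - (i : ℕ))) *
      (((j : ℕ).choose l : ℝ) * t ^ ((j : ℕ) - l)))]
  rfl

theorem Pas_inv (t : ℝ) : (Pas n t)⁻¹ = Pas n (-t) := by
  refine Matrix.inv_eq_right_inv ?_
  rw [Pas_mul, add_neg_cancel, Pas_zero]

theorem Pas_mul_neg (t : ℝ) : Pas n t * Pas n (-t) = 1 := by
  rw [Pas_mul, add_neg_cancel, Pas_zero]

theorem Pas_neg_mul (t : ℝ) : Pas n (-t) * Pas n t = 1 := by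
  rw [Pas_mul, neg_add_cancel, Pas_zero]

end Pool.TPC
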