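import Pool.Agent.TPC.Ech
import Pool.Agent.TPC.PasL
import Pool.Agent.TPC.BJ

/-! The plane of maximal order is real; the tools of `B_j` from contact orders. -/

namespace Pool.TPC.BJ

open Matrix Module Filter Topology Pool.TPT Pool.CSC Pool.TPC

variable {k n : ℕ}

theorem le_of_li {B : Fr k n} (hB : LinearIndependent ℂ B) : k ≤ n := by
  have h1 := hB.fintype_card_le_finrank
  simpa using h1

theorem cx_mul_cx_inv {u : RM n} (hu : Uni u) : cx u * cx u⁻¹ = 1 := by
  rw [← cx_mul', Matrix.mul_nonsing_inv _ hu.isUnit, cx_one']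

theorem act_act' (g h : Matrix (Fin n) (Fin n) ℂ) (B : Fr k n) :
    act g (act h B) = act (g * h) B := by
  funext a
  simp only [act, Matrix.mulVec_mulVec]

theorem act_one' (B : Fr k n) : act 1 B = B := by
  funext a
  simp only [act, Matrix.one_mulVec]

theorem act_inv_cancel {u : RM n} (hu : Uni u) (B : Fr k n) :
    act (cx u) (act (cx u⁻¹) B) = B := by
  rw [act_act', cx_mul_cx_inv hu, act_one']

theorem mem_sp_act {g : Matrix (Fin n) (Fin n) ℂ} {B : Fr k n} {v : Fin n → ℂ} (hv : v ∈ sp B) :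
    g *ᵥ v ∈ sp (act g B) := by
  rw [sp, Submodule.mem_span_range_iff_exists_fun] at hv ⊢
  obtain ⟨c, rfl⟩ := hv
  refine ⟨c, ?_⟩
  rw [Matrix.mulVec_sum]
  refine Finset.sum_congr rfl fun a _ => ?_
  rw [Matrix.mulVec_smul]
  rfl

theorem conj_mulVec (u : RM n) (v : Fin n → ℂ) :
    (fun i => (starRingEnd ℂ) ((cx u *ᵥ v) i)) = cx u *ᵥ fun i => (starRingEnd ℂ) (v i) := by
  funext i
  simp only [Matrix.mulVec, dotProduct, cx, Matrix.map_apply, map_sum, map_mul,
    Complex.conj_ofReal]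

theorem isReal_of_act {u : RM n} {B : Fr k n} (h : IsReal n (sp B)) :
    IsReal n (sp (act (cx u) B)) := by
  intro v hv
  rw [sp, Submodule.mem_span_range_iff_exists_fun] at hv
  obtain ⟨c, rfl⟩ := hv
  have h1 : ∑ a, c a • act (cx u) B a = cx u *ᵥ ∑ a, c a • B a := by
    rw [Matrix.mulVec_sum]
    refine Finset.sum_congr rfl fun a _ => ?_
    rw [Matrix.mulVec_smul]
    rfl
  rw [h1, conj_mulVec]
  refine mem_sp_act (h _ ?_)
  rw [sp, Submodule.mem_span_range_iff_exists_fun]
  exact ⟨c, rfl⟩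

theorem li_act {u : RM n} (hu : Uni u) {B : Fr k n} (hB : LinearIndependent ℂ B) :
    LinearIndependent ℂ (act (cx u⁻¹) B) := by
  rw [Fintype.linearIndependent_iff] at hB ⊢
  intro c hc
  refine hB c ?_
  have h1 : cx u *ᵥ (∑ a, c a • act (cx u⁻¹) B a) = ∑ a, c a • B a := by
    rw [Matrix.mulVec_sum]
    refine Finset.sum_congr rfl fun a _ => ?_
    rw [Matrix.mulVec_smul]
    congr 1
    exact congrFun (act_inv_cancel hu B) a
  rw [← h1, hc, Matrix.mulVec_zero]

/-- a plane of maximal order is real -/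
theorem real_of_ord_top {u : RM n} (hu : Uni u) {B : Fr k n} (hB : LinearIndependent ℂ B)
    (h : Ord (k * (n - k)) u B) : IsReal n (sp B) := by
  have h1 : Ord (k * (n - k)) 1 (act (cx u⁻¹) B) := by
    intro s hs hw
    rw [act_cx_one]
    exact h s hs hw
  have h2 := isReal_of_act (u := u) (real_of_top (le_of_li hB) (li_act hu hB) h1)
  rwa [act_inv_cancel hu B] at h2

end Pool.TPC.BJ
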