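import Pool.Agent.TPC.Plu

/-! Echelon bases and Pluecker coordinates. -/

set_option autoImplicit false

open Module Finset

namespace Pool.TPC

noncomputable section

variable {n k : ℕ}

/-- the span of the last `j` standard vectors -/
def E0 (n j : ℕ) : Submodule ℂ (Fin n → ℂ) where
  carrier := {v | ∀ i : Fin n, (i : ℕ) + j < n → v i = 0}
  zero_mem' := fun _ _ => rfl
  add_mem' := fun {v w} hv hw i hi => by
    show v i + w i = 0
    rw [hv i hi, hw i hi, add_zero]
  smul_mem' := fun c v hv i hi => by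
    show c * v i = 0
    rw [hv i hi, mul_zero]

theorem mem_E0 {j : ℕ} {v : Fin n → ℂ} : v ∈ E0 n j ↔ ∀ i : Fin n, (i : ℕ) + j < n → v i = 0 :=
  Iff.rfl

/-- the pivots of a subspace -/
def Piv (H : Submodule ℂ (Fin n → ℂ)) : Finset (Fin n) := by
  classical
  exact {i | ∃ v ∈ H, v i = 1 ∧ ∀ j < i, v j = 0}

theorem mem_Piv {H : Submodule ℂ (Fin n → ℂ)} {i : Fin n} :
    i ∈ Piv H ↔ ∃ v ∈ H, v i = 1 ∧ ∀ j < i, v j = 0 := by
  classical
  simp [Piv]

/-- the first nonzero entry of a vector of `H` is at a pivot -/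
theorem exists_lead {H : Submodule ℂ (Fin n → ℂ)} {v : Fin n → ℂ} (hv : v ∈ H) {i : Fin n}
    (hi : v i ≠ 0) : ∃ j ≤ i, j ∈ Piv H ∧ v j ≠ 0 := by
  classical
  have hne : (univ.filter fun j : Fin n => v j ≠ 0).Nonempty := ⟨i, by simp [hi]⟩
  set j := (univ.filter fun j : Fin n => v j ≠ 0).min' hne with hj
  have h1 : v j ≠ 0 := by
    have := min'_mem _ hne
    rw [← hj] at this
    simpa using this
  refine ⟨j, min'_le _ _ (by simp [hi]), ?_, h1⟩
  rw [mem_Piv]
  refine ⟨(v j)⁻¹ • v, H.smul_mem _ hv, ?_, fun l hl => ?_⟩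
  · show (v j)⁻¹ * v j = 1
    exact inv_mul_cancel₀ h1
  · show (v j)⁻¹ * v l = 0
    by_contra hc
    have h2 : v l ≠ 0 := fun h => hc (by rw [h, mul_zero])
    exact absurd (min'_le (univ.filter fun j : Fin n => v j ≠ 0) l (by simp [h2])) (not_le.2 hl)

/-- restriction to the pivots -/
def resP (H : Submodule ℂ (Fin n → ℂ)) : ↥H →ₗ[ℂ] (↥(Piv H) → ℂ) where
  toFun v := fun i => (v : Fin n → ℂ) i
  map_add' _ _ := rfl
  map_smul' _ _ := rfl

theorem resP_inj (H : Submodule ℂ (Fin n → ℂ)) : Function.Injective (resP H) := by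
  rw [← LinearMap.ker_eq_bot, LinearMap.ker_eq_bot']
  intro v hv
  by_contra hne
  have h1 : ∃ i, (v : Fin n → ℂ) i ≠ 0 := by
    by_contra hc
    push Not at hc
    exact hne (Subtype.ext (funext hc))
  obtain ⟨i, hi⟩ := h1
  obtain ⟨j, -, hj, hj2⟩ := exists_lead v.2 hi
  exact hj2 (congrFun hv ⟨j, hj⟩)

theorem resP_surj (H : Submodule ℂ (Fin n → ℂ)) : Function.Surjective (resP H) := by
  classical
  rw [← LinearMap.range_eq_top]
  have key : ∀ m : ℕ, ∀ i : ↥(Piv H), n ≤ (i : Fin n).val + m →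
      (Pi.single i 1 : ↥(Piv H) → ℂ) ∈ LinearMap.range (resP H) := by
    intro m
    induction m with
    | zero => intro i hi; exact absurd hi (by have := (i : Fin n).isLt; omega)
    | succ m ih =>
      intro i hi
      obtain ⟨v, hv, hv1, hv2⟩ := mem_Piv.1 i.2
      have h1 : (Pi.single i 1 : ↥(Piv H) → ℂ) = resP H ⟨v, hv⟩ -
          ∑ j : ↥(Piv H), if (i : Fin n) < j then v j • (Pi.single j 1 : ↥(Piv H) → ℂ) else 0 := by
        funext l
        rw [Pi.sub_apply, Finset.sum_apply]
        have h2 : ∑ j : ↥(Piv H), (if (i : Fin n) < j then v j • (Pi.single j 1 : ↥(Piv H) → ℂ) else 0) l =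
            if (i : Fin n) < l then v l else 0 := by
          rw [Finset.sum_eq_single l]
          · split_ifs <;> simp
          · intro b _ hb
            split_ifs
            · simp [hb.symm]
            · rfl
          · intro h; exact absurd (mem_univ _) h
        rw [h2]
        show (Pi.single i (1 : ℂ) : ↥(Piv H) → ℂ) l = v l - _
        rcases lt_trichotomy (i : Fin n) (l : Fin n) with h | h | h
        · rw [if_pos h, sub_self, Pi.single_eq_of_ne]
          rintro rfl
          exact lt_irrefl _ h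
        · have h3 : i = l := Subtype.ext h
          subst h3
          rw [if_neg (lt_irrefl _), sub_zero, Pi.single_eq_same, hv1]
        · rw [if_neg (not_lt.2 h.le), sub_zero, hv2 _ h, Pi.single_eq_of_ne]
          rintro rfl
          exact lt_irrefl _ h
      rw [h1]
      refine Submodule.sub_mem _ ⟨_, rfl⟩ (Submodule.sum_mem _ fun j _ => ?_)
      split_ifs with h
      · refine Submodule.smul_mem _ _ (ih j ?_)
        have h2 : (i : Fin n).val < (j : Fin n).val := h
        omega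
      · exact Submodule.zero_mem _
  rw [eq_top_iff]
  intro f _
  have h1 : f = ∑ i, f i • (Pi.single i 1 : ↥(Piv H) → ℂ) := by
    funext l
    rw [Finset.sum_apply, Finset.sum_eq_single l]
    · simp
    · intro b _ hb
      simp [hb.symm]
    · intro h; exact absurd (mem_univ _) h
  rw [h1]
  exact Submodule.sum_mem _ fun i _ => Submodule.smul_mem _ _ (key n i (Nat.le_add_left _ _))

theorem card_Piv (H : Submodule ℂ (Fin n → ℂ)) : (Piv H).card = finrank ℂ ↥H := by
  have h1 := (LinearEquiv.ofBijective (resP H) ⟨resP_inj H, resP_surj H⟩).finrank_eq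
  rw [h1, finrank_fintype_fun_eq_card, Fintype.card_coe]

/-- the reduced echelon basis -/
theorem exists_echelon {H : Submodule ℂ (Fin n → ℂ)} (hH : finrank ℂ ↥H = k) :
    ∃ (P : Fin k → Fin n) (b : Fin k → Fin n → ℂ), StrictMono P ∧ (∀ a, b a ∈ H) ∧
      (∀ a, ∀ i < P a, b a i = 0) ∧ ∀ a c, b a (P c) = if a = c then 1 else 0 := by
  classical
  have hc : (Piv H).card = k := (card_Piv H).trans hH
  let P : Fin k ↪o Fin n := (Piv H).orderEmbOfFin hc
  have hP : ∀ a, P a ∈ Piv H := fun a => orderEmbOfFin_mem _ _ _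
  choose b hb using fun a : Fin k => resP_surj H (Pi.single (⟨P a, hP a⟩ : ↥(Piv H)) 1)
  have hb2 : ∀ a (j : Fin n) (hj : j ∈ Piv H), (b a : Fin n → ℂ) j = if P a = j then 1 else 0 := by
    intro a j hj
    have h1 := congrFun (hb a) ⟨j, hj⟩
    have h2 : (b a : Fin n → ℂ) j =
      (Pi.single (⟨P a, hP a⟩ : ↥(Piv H)) 1 : ↥(Piv H) → ℂ) ⟨j, hj⟩ := h1
    rw [h2, Pi.single_apply]
    by_cases h3 : P a = j
    · rw [if_pos h3, if_pos (Subtype.ext h3.symm)]
    · rw [if_neg h3, if_neg (fun h => h3 (congrArg Subtype.val h).symm)]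
  refine ⟨P, fun a => b a, P.strictMono, fun a => (b a).2, fun a i hi => ?_, fun a c => ?_⟩
  · by_contra hne
    obtain ⟨j, hj, hj1, hj2⟩ := exists_lead (b a).2 hne
    apply hj2
    rw [hb2 a j hj1, if_neg]
    rintro rfl
    exact absurd hi (not_lt.2 hj)
  · show (b a : Fin n → ℂ) (P c) = _
    rw [hb2 a _ (hP c)]
    by_cases h : a = c
    · rw [if_pos h, if_pos (by rw [h])]
    · rw [if_neg h, if_neg (fun h' => h (P.injective h'))]


/-! ### Pluecker coordinates -/

/-- change of the frame -/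
theorem pl_change (g : Matrix (Fin k) (Fin k) ℂ) (B b : Fin k → Fin n → ℂ)
    (h : ∀ a, B a = ∑ c, g a c • b c) (s : Fin k → Fin n) : pl s B = g.det * pl s b := by
  unfold pl
  rw [← Matrix.det_mul]
  congr 1
  ext a c
  rw [Matrix.mul_apply, Matrix.of_apply, h a, Finset.sum_apply]
  rfl

theorem finrank_inf_le {H : Submodule ℂ (Fin n → ℂ)} {B : Fin k → Fin n → ℂ}
    (hB : H = Submodule.span ℂ (Set.range B)) {s : Fin k → Fin n} (hs : pl s B ≠ 0) (j : ℕ) :
    finrank ℂ ↥(H ⊓ E0 n j) ≤ (univ.filter fun c => n ≤ (s c : ℕ) + j).card := by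
  classical
  let S : Finset (Fin k) := univ.filter fun c => n ≤ (s c : ℕ) + j
  let T : ↥(H ⊓ E0 n j) →ₗ[ℂ] (↥S → ℂ) :=
    { toFun := fun v c => (v : Fin n → ℂ) (s c)
      map_add' := fun _ _ => rfl
      map_smul' := fun _ _ => rfl }
  have hT : Function.Injective T := by
    rw [← LinearMap.ker_eq_bot, LinearMap.ker_eq_bot']
    intro v hv
    have h1 : ∀ c, (v : Fin n → ℂ) (s c) = 0 := by
      intro c
      by_cases hc : n ≤ (s c : ℕ) + j
      · exact congrFun hv ⟨c, by simp [S, hc]⟩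
      · exact v.2.2 (s c) (not_le.1 hc)
    have h2 : (v : Fin n → ℂ) ∈ Submodule.span ℂ (Set.range B) := by
      rw [← hB]; exact v.2.1
    obtain ⟨x, hx⟩ := (Submodule.mem_span_range_iff_exists_fun ℂ).1 h2
    have h3 : Matrix.vecMul x (Matrix.of fun a b => B a (s b)) = 0 := by
      funext c
      rw [Matrix.vecMul, dotProduct, Pi.zero_apply, ← h1 c, ← hx, Finset.sum_apply]
      rfl
    have h4 : x = 0 := Matrix.eq_zero_of_vecMul_eq_zero hs h3
    refine Subtype.ext ?_
    rw [← hx, h4]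
    simp
  have h5 := LinearMap.finrank_le_finrank_of_injective hT
  rwa [finrank_fintype_fun_eq_card, Fintype.card_coe] at h5

theorem sum_card (s : Fin k → Fin n) :
    ∑ j ∈ range n, (univ.filter fun c => n ≤ (s c : ℕ) + j).card = ∑ c, (s c : ℕ) := by
  classical
  simp only [Finset.card_filter]
  rw [Finset.sum_comm]
  refine Finset.sum_congr rfl fun c _ => ?_
  rw [← Finset.card_filter]
  have h1 : (range n).filter (fun j => n ≤ (s c : ℕ) + j) = Finset.Ico (n - s c) n := by
    ext j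
    simp only [Finset.mem_filter, Finset.mem_range, Finset.mem_Ico]
    omega
  rw [h1, Nat.card_Ico]
  have := (s c).isLt
  omega

/-- the size of the position of `H` with respect to the flag `E0` -/
def sz0 (H : Submodule ℂ (Fin n → ℂ)) : ℕ := ∑ j ∈ range n, finrank ℂ ↥(H ⊓ E0 n j)

theorem sz0_le {H : Submodule ℂ (Fin n → ℂ)} {B : Fin k → Fin n → ℂ}
    (hB : H = Submodule.span ℂ (Set.range B)) {s : Fin k → Fin n} (hs : pl s B ≠ 0) :
    sz0 H ≤ ∑ c, (s c : ℕ) := by
  rw [← sum_card s]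
  exact Finset.sum_le_sum fun j _ => finrank_inf_le hB hs j

theorem pl_echelon {P : Fin k → Fin n} {b : Fin k → Fin n → ℂ}
    (h : ∀ a c, b a (P c) = if a = c then 1 else 0) : pl P b = 1 := by
  unfold pl
  have h1 : (Matrix.of fun a c => b a (P c)) = (1 : Matrix (Fin k) (Fin k) ℂ) := by
    ext a c
    rw [Matrix.of_apply, h, Matrix.one_apply]
  rw [h1, Matrix.det_one]

theorem li_of_pl {s : Fin k → Fin n} {B : Fin k → Fin n → ℂ} (h : pl s B ≠ 0) :
    LinearIndependent ℂ B := by
  rw [Fintype.linearIndependent_iff]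
  intro x hx
  have h3 : Matrix.vecMul x (Matrix.of fun a b => B a (s b)) = 0 := by
    funext c
    have h4 := congrFun hx (s c)
    rw [Finset.sum_apply] at h4
    exact h4
  exact congrFun (Matrix.eq_zero_of_vecMul_eq_zero h h3)

theorem span_echelon {H : Submodule ℂ (Fin n → ℂ)} (hH : finrank ℂ ↥H = k)
    {b : Fin k → Fin n → ℂ} (hb : ∀ a, b a ∈ H) (hli : LinearIndependent ℂ b) :
    H = Submodule.span ℂ (Set.range b) := by
  symm
  refine Submodule.eq_of_le_of_finrank_eq ?_ ?_
  · rw [Submodule.span_le]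
    rintro _ ⟨a, rfl⟩
    exact hb a
  · rw [finrank_span_eq_card hli, Fintype.card_fin, hH]

/-- the dimensions of the intersections are given by the pivots -/
theorem finrank_inf_eq {H : Submodule ℂ (Fin n → ℂ)} (hH : finrank ℂ ↥H = k) {P : Fin k → Fin n}
    {b : Fin k → Fin n → ℂ} (hb : ∀ a, b a ∈ H) (hz : ∀ a, ∀ i < P a, b a i = 0)
    (h1 : ∀ a c, b a (P c) = if a = c then 1 else 0) (j : ℕ) :
    finrank ℂ ↥(H ⊓ E0 n j) = (univ.filter fun a => n ≤ (P a : ℕ) + j).card := by
  classical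
  have hpl : pl P b ≠ 0 := by rw [pl_echelon h1]; exact one_ne_zero
  have hli := li_of_pl hpl
  refine le_antisymm (finrank_inf_le (span_echelon hH hb hli) hpl j) ?_
  have h2 : LinearIndependent ℂ (fun a : ↥(univ.filter fun a => n ≤ (P a : ℕ) + j) =>
      (⟨b a, hb a, fun i hi => hz a i (Fin.lt_def.2 (by
        have := (Finset.mem_filter.1 a.2).2
        omega))⟩ : ↥(H ⊓ E0 n j))) := by
    refine LinearIndependent.of_comp (H ⊓ E0 n j).subtype ?_
    exact hli.comp (fun a : ↥(univ.filter fun a => n ≤ (P a : ℕ) + j) => (a : Fin k))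
      Subtype.val_injective
  have h3 := h2.fintype_card_le_finrank
  rwa [Fintype.card_coe] at h3

theorem sz0_eq {H : Submodule ℂ (Fin n → ℂ)} (hH : finrank ℂ ↥H = k) {P : Fin k → Fin n}
    {b : Fin k → Fin n → ℂ} (hb : ∀ a, b a ∈ H) (hz : ∀ a, ∀ i < P a, b a i = 0)
    (h1 : ∀ a c, b a (P c) = if a = c then 1 else 0) : sz0 H = ∑ a, (P a : ℕ) := by
  rw [← sum_card P]
  exact Finset.sum_congr rfl fun j _ => finrank_inf_eq hH hb hz h1 j

/-- two frames of the same subspace -/
theorem exists_change {B b : Fin k → Fin n → ℂ} (hB : LinearIndependent ℂ B)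
    (h : Submodule.span ℂ (Set.range B) ≤ Submodule.span ℂ (Set.range b)) :
    ∃ g : Matrix (Fin k) (Fin k) ℂ, g.det ≠ 0 ∧ ∀ a, B a = ∑ c, g a c • b c := by
  choose g hg using fun a => (Submodule.mem_span_range_iff_exists_fun ℂ).1
    (h (Submodule.subset_span ⟨a, rfl⟩) : B a ∈ Submodule.span ℂ (Set.range b))
  refine ⟨g, fun hd => ?_, fun a => (hg a).symm⟩
  obtain ⟨x, hx0, hx⟩ := Matrix.exists_vecMul_eq_zero_iff.2 hd
  apply hx0
  have h2 : ∑ a, x a • B a = 0 := by
    have h3 : ∀ a, x a • B a = ∑ c, (x a * g a c) • b c := by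
      intro a
      rw [← hg a, Finset.smul_sum]
      exact Finset.sum_congr rfl fun c _ => smul_smul _ _ _
    rw [Finset.sum_congr rfl fun a _ => h3 a, Finset.sum_comm]
    refine Finset.sum_eq_zero fun c _ => ?_
    rw [← Finset.sum_smul]
    have h4 : ∑ a, x a * g a c = 0 := congrFun hx c
    rw [h4, zero_smul]
  exact funext (Fintype.linearIndependent_iff.1 hB x h2)

/-- some Pluecker coordinate of minimal weight is not zero -/
theorem exists_pl_min {H : Submodule ℂ (Fin n → ℂ)} {B : Fin k → Fin n → ℂ}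
    (hli : LinearIndependent ℂ B) (hB : H = Submodule.span ℂ (Set.range B)) :
    ∃ P : Fin k → Fin n, StrictMono P ∧ pl P B ≠ 0 ∧ ∑ c, (P c : ℕ) = sz0 H ∧
      ∀ j, finrank ℂ ↥(H ⊓ E0 n j) = (univ.filter fun a => n ≤ (P a : ℕ) + j).card := by
  have hH : finrank ℂ ↥H = k := by
    rw [hB, finrank_span_eq_card hli, Fintype.card_fin]
  obtain ⟨P, b, hP, hb, hz, h1⟩ := exists_echelon hH
  have hpl : pl P b ≠ 0 := by rw [pl_echelon h1]; exact one_ne_zero
  have hbs := span_echelon hH hb (li_of_pl hpl)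
  obtain ⟨g, hg, hgB⟩ := exists_change hli (show Submodule.span ℂ (Set.range B) ≤
    Submodule.span ℂ (Set.range b) by rw [← hB, ← hbs])
  refine ⟨P, hP, ?_, (sz0_eq hH hb hz h1).symm, finrank_inf_eq hH hb hz h1⟩
  rw [pl_change g B b hgB]
  exact mul_ne_zero hg hpl


/-! ### permutations of the columns -/

theorem pl_perm (s : Fin k → Fin n) (σ : Equiv.Perm (Fin k)) (B : Fin k → Fin n → ℂ) :
    pl (s ∘ σ) B = (Equiv.Perm.sign σ : ℂ) * pl s B := by
  unfold pl
  rw [← Matrix.det_permute' σ]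
  rfl

theorem pl_not_inj {s : Fin k → Fin n} (hs : ¬ Function.Injective s) (B : Fin k → Fin n → ℂ) :
    pl s B = 0 := by
  unfold Function.Injective at hs
  push Not at hs
  obtain ⟨a, c, h1, h2⟩ := hs
  unfold pl
  exact Matrix.det_zero_of_column_eq h2 fun i => by rw [Matrix.of_apply, Matrix.of_apply, h1]

theorem exists_sort {s : Fin k → Fin n} (hs : Function.Injective s) :
    ∃ σ : Equiv.Perm (Fin k), StrictMono (s ∘ σ) :=
  ⟨Tuple.sort s, (Tuple.monotone_sort s).strictMono_of_injective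
    (hs.comp (Tuple.sort s).injective)⟩

theorem sum_perm (s : Fin k → Fin n) (σ : Equiv.Perm (Fin k)) :
    ∑ c, ((s ∘ σ) c : ℕ) = ∑ c, (s c : ℕ) :=
  Equiv.sum_comp σ fun c => (s c : ℕ)

/-! ### the differential of the Pluecker coordinates -/

/-- the differential of `pl s` -/
def dpl (s : Fin k → Fin n) (B Z : Fin k → Fin n → ℂ) : ℂ :=
  ∑ a, pl s (Function.update B a (Z a))

theorem pl_update (s : Fin k → Fin n) (B : Fin k → Fin n → ℂ) (a : Fin k) (z : Fin n → ℂ) :
    pl s (Function.update B a z) = ∑ c, z (s c) * (Matrix.of fun a b => B a (s b)).adjugate c a := by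
  unfold pl
  have h1 : (Matrix.of fun a' b => Function.update B a z a' (s b) : Matrix (Fin k) (Fin k) ℂ) =
      Matrix.updateRow (Matrix.of fun a b => B a (s b)) a (fun b => z (s b)) := by
    ext a' b
    rw [Matrix.of_apply, Matrix.updateRow_apply]
    by_cases h : a' = a
    · rw [h, Function.update_self, if_pos rfl]
    · rw [Function.update_of_ne h, if_neg h, Matrix.of_apply]
  rw [h1, Matrix.det_eq_sum_mul_adjugate_row _ a]
  refine Finset.sum_congr rfl fun c _ => ?_
  rw [Matrix.updateRow_self, Matrix.adjugate_apply, Matrix.adjugate_apply,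
    Matrix.updateRow_idem]

theorem dpl_eq (s : Fin k → Fin n) (B Z : Fin k → Fin n → ℂ) :
    dpl s B Z = ((Matrix.of fun a b => Z a (s b)) *
      (Matrix.of fun a b => B a (s b)).adjugate).trace := by
  unfold dpl Matrix.trace
  refine Finset.sum_congr rfl fun a _ => ?_
  rw [pl_update, Matrix.diag_apply, Matrix.mul_apply]
  rfl

theorem dpl_add (s : Fin k → Fin n) (B Z W : Fin k → Fin n → ℂ) :
    dpl s B (Z + W) = dpl s B Z + dpl s B W := by
  rw [dpl_eq, dpl_eq, dpl_eq, ← Matrix.trace_add, ← Matrix.add_mul]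
  rfl

/-- change of the frame -/
theorem dpl_change (g : Matrix (Fin k) (Fin k) ℂ) {B b Z z : Fin k → Fin n → ℂ}
    (hB : ∀ a, B a = ∑ c, g a c • b c) (hZ : ∀ a, Z a = ∑ c, g a c • z c) (s : Fin k → Fin n) :
    dpl s B Z = g.det * dpl s b z := by
  have h1 : ∀ {B b : Fin k → Fin n → ℂ}, (∀ a, B a = ∑ c, g a c • b c) →
      (Matrix.of fun a b => B a (s b) : Matrix (Fin k) (Fin k) ℂ) =
        g * (Matrix.of fun a c => b a (s c)) := by
    intro B b h
    ext a c
    rw [Matrix.mul_apply, Matrix.of_apply, h a, Finset.sum_apply]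
    rfl
  rw [dpl_eq, dpl_eq, h1 hB, h1 hZ, Matrix.adjugate_mul_distrib, Matrix.trace_mul_comm,
    Matrix.mul_assoc, ← Matrix.mul_assoc g.adjugate, Matrix.adjugate_mul, Matrix.smul_mul,
    Matrix.one_mul, Matrix.mul_smul, Matrix.trace_smul, Matrix.trace_mul_comm, smul_eq_mul]

/-- tangent vectors inside the subspace -/
theorem dpl_self (m : Matrix (Fin k) (Fin k) ℂ) {B Z : Fin k → Fin n → ℂ}
    (hZ : ∀ a, Z a = ∑ c, m a c • B c) (s : Fin k → Fin n) :
    dpl s B Z = m.trace * pl s B := by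
  have h1 : (Matrix.of fun a b => Z a (s b) : Matrix (Fin k) (Fin k) ℂ) =
      m * (Matrix.of fun a c => B a (s c)) := by
    ext a c
    rw [Matrix.mul_apply, Matrix.of_apply, hZ a, Finset.sum_apply]
    rfl
  rw [dpl_eq, h1, Matrix.mul_assoc, Matrix.mul_adjugate, Matrix.mul_smul, Matrix.mul_one,
    Matrix.trace_smul, smul_eq_mul, mul_comm]
  rfl

theorem dpl_perm (s : Fin k → Fin n) (σ : Equiv.Perm (Fin k)) (B Z : Fin k → Fin n → ℂ) :
    dpl (s ∘ σ) B Z = (Equiv.Perm.sign σ : ℂ) * dpl s B Z := by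
  unfold dpl
  rw [Finset.mul_sum]
  exact Finset.sum_congr rfl fun a _ => pl_perm s σ _

theorem dpl_not_inj {s : Fin k → Fin n} (hs : ¬ Function.Injective s) (B Z : Fin k → Fin n → ℂ) :
    dpl s B Z = 0 :=
  Finset.sum_eq_zero fun _ _ => pl_not_inj hs _


/-! ### the cell lemma -/

theorem dpl_corner {P : Fin k → Fin n} {b z : Fin k → Fin n → ℂ}
    (h1 : ∀ a c, b a (P c) = if a = c then 1 else 0) (hz : ∀ a c, z a (P c) = 0) (a : Fin k)
    (q : Fin n) : dpl (Function.update P a q) b z = z a q := by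
  unfold dpl
  rw [Finset.sum_eq_single a]
  · unfold pl
    have h2 : (Matrix.of fun a' d => Function.update b a (z a) a' (Function.update P a q d) :
        Matrix (Fin k) (Fin k) ℂ) =
        Matrix.updateCol 1 a (fun c => if c = a then z a q else b c q) := by
      ext c d
      rw [Matrix.of_apply, Matrix.updateCol_apply]
      by_cases hd : d = a
      · subst hd
        rw [Function.update_self, if_pos rfl]
        by_cases hc : c = d
        · rw [hc, Function.update_self, if_pos rfl]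
        · rw [Function.update_of_ne hc, if_neg hc]
      · rw [Function.update_of_ne hd, if_neg hd, Matrix.one_apply]
        by_cases hc : c = a
        · rw [hc, Function.update_self, hz, if_neg (Ne.symm hd)]
        · rw [Function.update_of_ne hc, h1]
    rw [h2, ← Matrix.cramer_apply, Matrix.cramer_one]
    simp
  · intro c _ hc
    unfold pl
    refine Matrix.det_eq_zero_of_column_eq_zero c fun a' => ?_
    rw [Matrix.of_apply, Function.update_of_ne hc]
    by_cases h : a' = c
    · rw [h, Function.update_self, hz]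
    · rw [Function.update_of_ne h, h1, if_neg h]
  · intro h; exact absurd (mem_univ _) h

theorem sum_update (P : Fin k → Fin n) (a : Fin k) {q : Fin n} (hq : q < P a) :
    ∑ c, (Function.update P a q c : ℕ) < ∑ c, (P c : ℕ) := by
  refine Finset.sum_lt_sum (fun c _ => ?_) ⟨a, mem_univ _, ?_⟩
  · by_cases h : c = a
    · rw [h, Function.update_self]
      exact (Fin.lt_def.1 hq).le
    · rw [Function.update_of_ne h]
  · rw [Function.update_self]
    exact hq

/-- the cell lemma: a tangent vector which kills all Pluecker coordinates of weight smaller than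
the size of the position is tangent to the cell -/
theorem cell {H : Submodule ℂ (Fin n → ℂ)} {B Z : Fin k → Fin n → ℂ}
    (hli : LinearIndependent ℂ B) (hB : H = Submodule.span ℂ (Set.range B))
    (h : ∀ s : Fin k → Fin n, StrictMono s → ∑ c, (s c : ℕ) < sz0 H → dpl s B Z = 0)
    (φ : ↥H →ₗ[ℂ] (Fin n → ℂ) ⧸ H) (hφ : ∀ a (ha : B a ∈ H), φ ⟨B a, ha⟩ = H.mkQ (Z a)) (j : ℕ)
    (x : ↥H) (hx : (x : Fin n → ℂ) ∈ E0 n j) : φ x ∈ (E0 n j).map H.mkQ := by
  classical
  have hH : finrank ℂ ↥H = k := by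
    rw [hB, finrank_span_eq_card hli, Fintype.card_fin]
  obtain ⟨P, b, hP, hb, hz, h1⟩ := exists_echelon hH
  have hpl : pl P b ≠ 0 := by rw [pl_echelon h1]; exact one_ne_zero
  have hbs := span_echelon hH hb (li_of_pl hpl)
  obtain ⟨g, hg, hgB⟩ := exists_change hli (show Submodule.span ℂ (Set.range B) ≤
    Submodule.span ℂ (Set.range b) by rw [← hB, ← hbs])
  have hBH : ∀ a, B a ∈ H := fun a => by
    rw [hB]; exact Submodule.subset_span ⟨a, rfl⟩
  have hgi : g⁻¹ * g = 1 := Matrix.nonsing_inv_mul _ (isUnit_iff_ne_zero.2 hg)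
  have hgi2 : g * g⁻¹ = 1 := Matrix.mul_nonsing_inv _ (isUnit_iff_ne_zero.2 hg)
  -- the vectors for the echelon basis
  let z0 : Fin k → Fin n → ℂ := fun a => ∑ c, g⁻¹ a c • Z c
  have hcomb : ∀ (u v : Matrix (Fin k) (Fin k) ℂ) (y : Fin k → Fin n → ℂ) (a : Fin k),
      ∑ c, u a c • (∑ d, v c d • y d) = ∑ d, (u * v) a d • y d := by
    intro u v y a
    simp_rw [Finset.smul_sum, smul_smul]
    rw [Finset.sum_comm]
    refine Finset.sum_congr rfl fun d _ => ?_
    rw [← Finset.sum_smul, Matrix.mul_apply]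
  have hone : ∀ (y : Fin k → Fin n → ℂ) (a : Fin k),
      ∑ d, (1 : Matrix (Fin k) (Fin k) ℂ) a d • y d = y a := by
    intro y a
    rw [Finset.sum_eq_single a]
    · rw [Matrix.one_apply_eq, one_smul]
    · intro d _ hd
      rw [Matrix.one_apply_ne hd.symm, zero_smul]
    · intro h; exact absurd (mem_univ _) h
  have hZ0 : ∀ a, Z a = ∑ c, g a c • z0 c := by
    intro a
    rw [hcomb, hgi2, hone]
  have hb0 : ∀ a, b a = ∑ c, g⁻¹ a c • B c := by
    intro a
    have h3 : ∀ c, B c = ∑ d, g c d • b d := hgB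
    simp_rw [h3]
    rw [hcomb, hgi, hone]
  -- reduction
  let m : Matrix (Fin k) (Fin k) ℂ := Matrix.of fun a c => - z0 a (P c)
  let w : Fin k → Fin n → ℂ := fun a => ∑ c, m a c • b c
  let z : Fin k → Fin n → ℂ := z0 + w
  have hzP : ∀ a c, z a (P c) = 0 := by
    intro a c
    show z0 a (P c) + w a (P c) = 0
    have h3 : w a (P c) = m a c := by
      show (∑ d, m a d • b d) (P c) = m a c
      rw [Finset.sum_apply, Finset.sum_eq_single c]
      · show m a c * b c (P c) = m a c
        rw [h1, if_pos rfl, mul_one]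
      · intro d _ hd
        show m a d * b d (P c) = 0
        rw [h1, if_neg hd, mul_zero]
      · intro h; exact absurd (mem_univ _) h
    rw [h3]
    show z0 a (P c) + - z0 a (P c) = 0
    exact add_neg_cancel _
  have hd : ∀ s : Fin k → Fin n, ∑ c, (s c : ℕ) < sz0 H → dpl s b z = 0 := by
    intro s hs
    have h3 : dpl s b z = dpl s b z0 + dpl s b w := dpl_add s b z0 w
    have h4 : dpl s b w = 0 := by
      rw [dpl_self m (fun a => rfl) s]
      have h5 : pl s b = 0 := by
        by_contra hne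
        exact absurd (sz0_le hbs hne) (not_le.2 hs)
      rw [h5, mul_zero]
    have h5 : dpl s B Z = 0 := by
      by_cases hinj : Function.Injective s
      · obtain ⟨σ, hσ⟩ := exists_sort hinj
        have h6 := h (s ∘ σ) hσ (by rw [sum_perm]; exact hs)
        rw [dpl_perm] at h6
        refine (mul_eq_zero.1 h6).resolve_left ?_
        simp
      · exact dpl_not_inj hinj B Z
    rw [dpl_change g hgB hZ0 s] at h5
    rw [h3, h4, add_zero]
    exact (mul_eq_zero.1 h5).resolve_left hg
  have hsz := sz0_eq hH hb hz h1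
  have hzE : ∀ a, ∀ q < P a, z a q = 0 := by
    intro a q hq
    rw [← dpl_corner h1 hzP a q]
    exact hd _ (by rw [hsz]; exact sum_update P a hq)
  -- the values of φ
  have hφb : ∀ a, φ ⟨b a, hb a⟩ = H.mkQ (z a) := by
    intro a
    have h3 : (⟨b a, hb a⟩ : ↥H) = ∑ c, g⁻¹ a c • (⟨B c, hBH c⟩ : ↥H) := by
      refine Subtype.ext ?_
      rw [Submodule.coe_sum]
      exact hb0 a
    have h4 : H.mkQ (w a) = 0 := by
      rw [Submodule.mkQ_apply, Submodule.Quotient.mk_eq_zero]
      exact Submodule.sum_mem _ fun c _ => Submodule.smul_mem _ _ (hb c)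
    have h5 : H.mkQ (z a) = H.mkQ (z0 a) + H.mkQ (w a) := map_add H.mkQ (z0 a) (w a)
    have h6 : H.mkQ (z0 a) = ∑ c, g⁻¹ a c • H.mkQ (Z c) := by
      show H.mkQ (∑ c, g⁻¹ a c • Z c) = _
      rw [map_sum]
      exact Finset.sum_congr rfl fun c _ => map_smul _ _ _
    rw [h3, map_sum, h5, h4, add_zero, h6]
    exact Finset.sum_congr rfl fun c _ => by rw [map_smul, hφ c (hBH c)]
  have hxe : x = ∑ a, (x : Fin n → ℂ) (P a) • (⟨b a, hb a⟩ : ↥H) := by
    have h3 : (x : Fin n → ℂ) ∈ Submodule.span ℂ (Set.range b) := by rw [← hbs]; exact x.2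
    obtain ⟨y, hy⟩ := (Submodule.mem_span_range_iff_exists_fun ℂ).1 h3
    have h4 : ∀ a, (x : Fin n → ℂ) (P a) = y a := by
      intro a
      rw [← hy, Finset.sum_apply, Finset.sum_eq_single a]
      · show y a * b a (P a) = y a
        rw [h1, if_pos rfl, mul_one]
      · intro d _ hd
        show y d * b d (P a) = 0
        rw [h1, if_neg hd, mul_zero]
      · intro h; exact absurd (mem_univ _) h
    refine Subtype.ext ?_
    rw [Submodule.coe_sum]
    simp_rw [h4]
    exact hy.symm
  rw [hxe, map_sum]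
  refine Submodule.sum_mem _ fun a _ => ?_
  rw [map_smul, hφb]
  by_cases ha : (P a : ℕ) + j < n
  · rw [hx (P a) ha, zero_smul]
    exact Submodule.zero_mem _
  · refine Submodule.smul_mem _ _ ⟨z a, ?_, rfl⟩
    intro i hi
    exact hzE a i (Fin.lt_def.2 (by omega))


/-! ### pivots and Schubert conditions -/

theorem le_of_card_le {P s : Fin k → Fin n} (hP : StrictMono P) (hs : StrictMono s)
    (h : ∀ j, (univ.filter fun a => n ≤ (P a : ℕ) + j).card ≤
      (univ.filter fun a => n ≤ (s a : ℕ) + j).card) (c : Fin k) : P c ≤ s c := by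
  by_contra hc
  have hc' : (s c : ℕ) < P c := Fin.lt_def.1 (not_le.1 hc)
  have hPn := (P c).isLt
  have h1 : (univ.filter fun a => c ≤ a) ⊆ univ.filter fun a => n ≤ (P a : ℕ) + (n - P c) := by
    intro a ha
    rw [Finset.mem_filter] at ha ⊢
    have h2 : (P c : ℕ) ≤ P a := Fin.le_def.1 (hP.monotone ha.2)
    exact ⟨mem_univ _, by omega⟩
  have h2 : (univ.filter fun a => n ≤ (s a : ℕ) + (n - P c)) ⊆ univ.filter fun a => c < a := by
    intro a ha
    rw [Finset.mem_filter] at ha ⊢
    refine ⟨mem_univ _, ?_⟩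
    by_contra hac
    have h3 : (s a : ℕ) ≤ s c := Fin.le_def.1 (hs.monotone (not_lt.1 hac))
    omega
  have h3 := (Finset.card_le_card h1).trans ((h _).trans (Finset.card_le_card h2))
  have h4 : (univ.filter fun a => c < a) ⊂ (univ.filter fun a => c ≤ a) := by
    refine Finset.ssubset_iff_subset_ne.2 ⟨fun a ha => ?_, fun he => ?_⟩
    · rw [Finset.mem_filter] at ha ⊢
      exact ⟨ha.1, ha.2.le⟩
    · have h5 : c ∈ univ.filter fun a => c < a := by
        rw [he, Finset.mem_filter]
        exact ⟨mem_univ _, le_rfl⟩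
      exact absurd (Finset.mem_filter.1 h5).2 (lt_irrefl _)
  exact absurd h3 (not_le.2 (Finset.card_lt_card h4))

/-- the pivots: the minimal nonvanishing Pluecker coordinate -/
theorem exists_pivots {H : Submodule ℂ (Fin n → ℂ)} {B : Fin k → Fin n → ℂ}
    (hli : LinearIndependent ℂ B) (hB : H = Submodule.span ℂ (Set.range B)) :
    ∃ P : Fin k → Fin n, StrictMono P ∧ pl P B ≠ 0 ∧ ∑ c, (P c : ℕ) = sz0 H ∧
      (∀ j, finrank ℂ ↥(H ⊓ E0 n j) = (univ.filter fun a => n ≤ (P a : ℕ) + j).card) ∧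
      ∀ s : Fin k → Fin n, StrictMono s → pl s B ≠ 0 → ∀ c, P c ≤ s c := by
  obtain ⟨P, hP, h1, h2, h3⟩ := exists_pl_min hli hB
  refine ⟨P, hP, h1, h2, h3, fun s hs hne => le_of_card_le hP hs fun j => ?_⟩
  rw [← h3 j]
  exact finrank_inf_le hB hne j

theorem ge_self {P : Fin k → Fin n} (hP : StrictMono P) (c : Fin k) : (c : ℕ) ≤ P c := by
  obtain ⟨c, hc⟩ := c
  induction c with
  | zero => exact Nat.zero_le _
  | succ c ih =>
    have h1 := ih (Nat.lt_of_succ_lt hc)
    have h2 : P ⟨c, Nat.lt_of_succ_lt hc⟩ < P ⟨c + 1, hc⟩ := hP (Fin.lt_def.2 (Nat.lt_succ_self c))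
    have h3 : (P ⟨c, Nat.lt_of_succ_lt hc⟩ : ℕ) < P ⟨c + 1, hc⟩ := h2
    have h4 : c ≤ (P ⟨c, Nat.lt_of_succ_lt hc⟩ : ℕ) := h1
    show c + 1 ≤ (P ⟨c + 1, hc⟩ : ℕ)
    omega

/-- below the pivots there is an index set of every smaller weight -/
theorem exists_sub {P : Fin k → Fin n} (hP : StrictMono P) {a : ℕ}
    (ha : ∑ c : Fin k, (c : ℕ) + a ≤ ∑ c, (P c : ℕ)) :
    ∃ Q : Fin k → Fin n, StrictMono Q ∧ (∀ c, Q c ≤ P c) ∧ ∑ c, (Q c : ℕ) = ∑ c : Fin k, (c : ℕ) + a := by
  classical
  obtain ⟨e, he⟩ := Nat.exists_eq_add_of_le ha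
  induction e generalizing P with
  | zero => exact ⟨P, hP, fun _ => le_rfl, he⟩
  | succ e ih =>
    -- the first index which can be lowered
    have h1 : ∃ c : Fin k, (c : ℕ) < P c := by
      by_contra hc
      push Not at hc
      have h2 : ∑ c, (P c : ℕ) ≤ ∑ c : Fin k, (c : ℕ) := Finset.sum_le_sum fun c _ => hc c
      omega
    obtain ⟨c0, hc0⟩ := h1
    have hne : (univ.filter fun c : Fin k => (c : ℕ) < P c).Nonempty :=
      ⟨c0, Finset.mem_filter.2 ⟨mem_univ _, hc0⟩⟩
    obtain ⟨c, hc, hmin⟩ := Finset.exists_min_image (univ.filter fun c : Fin k => (c : ℕ) < P c)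
      (fun c => (c : ℕ)) hne
    rw [Finset.mem_filter] at hc
    have hcP := hc.2
    have hlow : ∀ d : Fin k, d < c → (P d : ℕ) = d := by
      intro d hd
      refine le_antisymm ?_ (ge_self hP d)
      by_contra hcd
      have h3 := hmin d (Finset.mem_filter.2 ⟨mem_univ _, not_le.1 hcd⟩)
      exact absurd (Fin.lt_def.1 hd) (not_lt.2 h3)
    let q : Fin n := ⟨P c - 1, by have := (P c).isLt; omega⟩
    have hq : (q : ℕ) = P c - 1 := rfl
    let P' : Fin k → Fin n := Function.update P c q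
    have hP' : StrictMono P' := by
      intro x y hxy
      have hxyv := Fin.lt_def.1 hxy
      show (Function.update P c q x) < (Function.update P c q y)
      by_cases hx : x = c
      · have hy : y ≠ c := fun h => absurd (hx.trans h.symm) hxy.ne
        rw [hx, Function.update_self, Function.update_of_ne hy]
        have h3 : P c < P y := hP (hx ▸ hxy)
        rw [Fin.lt_def] at h3 ⊢
        omega
      · by_cases hy : y = c
        · rw [hy, Function.update_self, Function.update_of_ne hx, Fin.lt_def]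
          have h3 := hlow x (hy ▸ hxy)
          have h4 : (x : ℕ) < c := hy ▸ hxyv
          omega
        · rw [Function.update_of_ne hx, Function.update_of_ne hy]
          exact hP hxy
    have hsum : ∑ d, (P' d : ℕ) + 1 = ∑ d, (P d : ℕ) := by
      have h3 : ∀ R : Fin k → Fin n, ∑ d, (R d : ℕ) = (R c : ℕ) + ∑ d ∈ univ.erase c, (R d : ℕ) :=
        fun R => (Finset.add_sum_erase univ (fun d => (R d : ℕ)) (mem_univ c)).symm
      rw [h3 P', h3 P]
      have h4 : ∑ d ∈ univ.erase c, (P' d : ℕ) = ∑ d ∈ univ.erase c, (P d : ℕ) := by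
        refine Finset.sum_congr rfl fun d hd => ?_
        show (Function.update P c q d : ℕ) = P d
        rw [Function.update_of_ne (Finset.ne_of_mem_erase hd)]
      have h5 : (P' c : ℕ) = P c - 1 := by
        show (Function.update P c q c : ℕ) = P c - 1
        rw [Function.update_self]
      rw [h4, h5]
      omega
    obtain ⟨Q, hQ, hQP, hQs⟩ := ih hP' (by omega) (by omega)
    refine ⟨Q, hQ, fun d => (hQP d).trans ?_, hQs⟩
    show Function.update P c q d ≤ P d
    by_cases hd : d = c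
    · rw [hd, Function.update_self, Fin.le_def]
      omega
    · rw [Function.update_of_ne hd]

theorem eq_of_le_of_sum {Q s : Fin k → Fin n} (h : ∀ c, Q c ≤ s c)
    (h2 : ∑ c, (s c : ℕ) ≤ ∑ c, (Q c : ℕ)) : s = Q := by
  by_contra hne
  have h3 : ∃ c, Q c ≠ s c := by
    by_contra hc
    push Not at hc
    exact hne (funext fun c => (hc c).symm)
  obtain ⟨c, hc⟩ := h3
  exact absurd h2 (not_le.2 (Finset.sum_lt_sum (fun c _ => Fin.le_def.1 (h c))
    ⟨c, mem_univ _, Fin.lt_def.1 (lt_of_le_of_ne (h c) hc)⟩))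

/-- size of the position and vanishing of the Pluecker coordinates of small weight -/
theorem le_sz0_iff {H : Submodule ℂ (Fin n → ℂ)} {B : Fin k → Fin n → ℂ}
    (hli : LinearIndependent ℂ B) (hB : H = Submodule.span ℂ (Set.range B)) (a : ℕ) :
    a ≤ sz0 H ↔ ∀ s : Fin k → Fin n, StrictMono s → ∑ c, (s c : ℕ) < a → pl s B = 0 := by
  constructor
  · intro h s _ hs
    by_contra hne
    exact absurd (sz0_le hB hne) (by omega)
  · intro h
    obtain ⟨P, hP, h1, h2, -, -⟩ := exists_pivots hli hB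
    by_contra hc
    exact h1 (h P hP (by omega))

end

end Pool.TPC
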