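import Pool.Agent.TPC.PasL
import Pool.Agent.TPC.Cell
import Pool.Agent.TP.Perm

/-! Row CONTACT: the contact polynomial of the flags `u * Pas n t`. -/

namespace Pool.TPC

open Matrix Module Pool.CSC Pool.TPT Filter Topology

variable {k n : ℕ}

theorem pl_perm_inj (s : Ix k n) (σ : Equiv.Perm (Fin k)) (B : Fr k n) :
    pl (s ∘ σ) B = ((Equiv.Perm.sign σ : ℤ) : ℂ) * pl s B := by
  have h1 := Matrix.det_permute' σ (Matrix.of fun a b => B a (s b))
  rw [pl, pl, ← h1]
  rfl

theorem pl_of_not_inj {s : Ix k n} (hs : ¬ Function.Injective s) (B : Fr k n) : pl s B = 0 := by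
  rw [Function.Injective] at hs
  push Not at hs
  obtain ⟨a, b, hab, hne⟩ := hs
  rw [pl]
  refine Matrix.det_zero_of_column_eq hne fun i => ?_
  simp only [Matrix.of_apply, hab]

theorem le_of_strictMono {s : Ix k n} (hs : StrictMono s) (b : Fin k) : (b : ℕ) ≤ (s b : ℕ) := by
  obtain ⟨b, hb⟩ := b
  induction b with
  | zero => exact Nat.zero_le _
  | succ b ih =>
    have h1 := ih (by omega)
    have h2 : s ⟨b, by omega⟩ < s ⟨b + 1, hb⟩ := hs (by rw [Fin.lt_def]; simp)
    rw [Fin.lt_def] at h2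
    simp only at h1 ⊢
    omega

theorem sum_eq_wt {s : Ix k n} (hs : StrictMono s) :
    ∑ b, (s b : ℕ) = wt s + ∑ b : Fin k, (b : ℕ) := by
  rw [wt, ← Finset.sum_add_distrib]
  refine Finset.sum_congr rfl fun b _ => ?_
  have := le_of_strictMono hs b
  omega

theorem wt_le_mul {s : Ix k n} (hs : StrictMono s) : wt s ≤ k * (n - k) := by
  have h1 : ∀ b : Fin k, (s b : ℕ) - (b : ℕ) ≤ n - k := by
    intro b
    have h2 : ∀ m : ℕ, ∀ hm : (b : ℕ) + m < k, (s b : ℕ) + m ≤ (s ⟨(b : ℕ) + m, hm⟩ : ℕ) := by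
      intro m
      induction m with
      | zero => intro _; exact le_rfl
      | succ m ih =>
        intro hm
        have h3 := ih (by omega)
        have h4 : s ⟨(b : ℕ) + m, by omega⟩ < s ⟨(b : ℕ) + (m + 1), hm⟩ := hs (by
          rw [Fin.lt_def]; simp only; omega)
        rw [Fin.lt_def] at h4
        omega
    have h3 := h2 (k - 1 - (b : ℕ)) (by omega)
    have h4 := (s ⟨(b : ℕ) + (k - 1 - (b : ℕ)), by omega⟩).2
    omega
  calc wt s ≤ ∑ _b : Fin k, (n - k) := Finset.sum_le_sum fun b _ => h1 b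
    _ = k * (n - k) := by simp

/-- the sum over the permutations of an increasing tuple -/
theorem sum_perm_choose (t : ℂ) {p : Ix k n} (hp : StrictMono p) :
    ∑ σ : Equiv.Perm (Fin k), (∏ b : Fin k, ((((p (σ b) : ℕ)).choose (b : ℕ) : ℕ) : ℂ) *
        t ^ ((p (σ b) : ℕ) - (b : ℕ))) * ((Equiv.Perm.sign σ : ℤ) : ℂ) =
      t ^ wt p * (Matrix.of fun a b : Fin k => (((p b : ℕ).choose (a : ℕ) : ℕ) : ℂ)).det := by
  rw [← Matrix.det_transpose, Matrix.det_apply, Finset.mul_sum]
  refine Finset.sum_congr rfl fun σ _ => ?_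
  rw [Finset.prod_mul_distrib, Units.smul_def, zsmul_eq_mul]
  simp only [Matrix.transpose_apply, Matrix.of_apply]
  by_cases h : ∀ b : Fin k, (b : ℕ) ≤ (p (σ b) : ℕ)
  · have h1 : ∑ b : Fin k, ((p (σ b) : ℕ) - (b : ℕ)) = wt p := by
      have h2 : ∑ b : Fin k, ((p (σ b) : ℕ) - (b : ℕ)) + ∑ b : Fin k, (b : ℕ) =
          wt p + ∑ b : Fin k, (b : ℕ) := by
        rw [← sum_eq_wt hp, ← Finset.sum_add_distrib, ← Equiv.sum_comp σ (fun b => (p b : ℕ))]
        refine Finset.sum_congr rfl fun b _ => ?_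
        have := h b
        omega
      omega
    rw [Finset.prod_pow_eq_pow_sum, h1]
    ring
  · push Not at h
    obtain ⟨b, hb⟩ := h
    rw [Finset.prod_eq_zero (Finset.mem_univ b)]
    · simp
    · rw [Nat.choose_eq_zero_of_lt hb, Nat.cast_zero]

/-- the determinant of the first `k` rows of the Pascal matrix times the frame -/
theorem det_pascal (t : ℂ) (B : Fr k n) :
    (Matrix.of fun a b : Fin k => ∑ j : Fin n, ((((j : ℕ)).choose (b : ℕ) : ℕ) : ℂ) *
      t ^ ((j : ℕ) - (b : ℕ)) * B a j).det =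
    ∑ q ∈ Finset.range (k * (n - k) + 1), (-t) ^ q * ev (fw q) B := by
  classical
  have h1 : (Matrix.of fun a b : Fin k => ∑ j : Fin n, ((((j : ℕ)).choose (b : ℕ) : ℕ) : ℂ) *
      t ^ ((j : ℕ) - (b : ℕ)) * B a j) = (Matrix.of B) * (Matrix.of fun (j : Fin n) (b : Fin k) =>
      ((((j : ℕ)).choose (b : ℕ) : ℕ) : ℂ) * t ^ ((j : ℕ) - (b : ℕ))) := by
    ext a b
    rw [Matrix.mul_apply, Matrix.of_apply]
    refine Finset.sum_congr rfl fun j _ => ?_
    simp only [Matrix.of_apply]
    ring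
  have h2 : ∀ s : Ix k n, ((Matrix.of B).submatrix id s).det = pl s B := fun _ => rfl
  rw [h1, Pool.TP.det_mul_expand]
  simp only [h2, Matrix.of_apply]
  rw [Pool.TP.sum_inj_perm _ (fun s hs => by rw [pl_of_not_inj hs, mul_zero])]
  have h3 : ∀ s : Ix k n, (if StrictMono s then ∑ σ : Equiv.Perm (Fin k),
      (∏ b : Fin k, ((((((s ∘ σ) b : Fin n) : ℕ)).choose (b : ℕ) : ℕ) : ℂ) *
        t ^ ((((s ∘ σ) b : Fin n) : ℕ) - (b : ℕ))) * pl (s ∘ σ) B else 0) =
      ∑ q ∈ Finset.range (k * (n - k) + 1), (-t) ^ q * (fw q s * pl s B) := by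
    intro s
    by_cases hs : StrictMono s
    · rw [if_pos hs, Finset.sum_eq_single_of_mem (wt s)
        (Finset.mem_range.2 (by have := wt_le_mul hs; omega))]
      · have h4 := sum_perm_choose t hs
        rw [fw, if_pos ⟨hs, rfl⟩, cc]
        have h5 : ∑ σ : Equiv.Perm (Fin k),
            (∏ b : Fin k, ((((((s ∘ σ) b : Fin n) : ℕ)).choose (b : ℕ) : ℕ) : ℂ) *
            t ^ ((((s ∘ σ) b : Fin n) : ℕ) - (b : ℕ))) * pl (s ∘ σ) B =
            (∑ σ : Equiv.Perm (Fin k), (∏ b : Fin k, ((((s (σ b) : ℕ)).choose (b : ℕ) : ℕ) : ℂ) *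
            t ^ ((s (σ b) : ℕ) - (b : ℕ))) * ((Equiv.Perm.sign σ : ℤ) : ℂ)) * pl s B := by
          rw [Finset.sum_mul]
          refine Finset.sum_congr rfl fun σ _ => ?_
          rw [pl_perm_inj]
          simp only [Function.comp]
          ring
        rw [h5, h4]
        have h6 : (-t) ^ wt s * ((-1 : ℂ) ^ wt s) = t ^ wt s := by
          rw [← mul_pow]
          congr 1
          ring
        rw [← h6]
        ring
      · intro q _ hq
        rw [fw, if_neg (fun h => hq h.2.symm)]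
        ring
    · rw [if_neg hs]
      symm
      refine Finset.sum_eq_zero fun q _ => ?_
      rw [fw, if_neg (fun h => hs h.1)]
      ring
  rw [Finset.sum_congr rfl fun s _ => h3 s, Finset.sum_comm]
  refine Finset.sum_congr rfl fun q _ => ?_
  rw [ev, Finset.mul_sum]

theorem cc_ne {s : Ix k n} (hs : StrictMono s) : cc s ≠ 0 := by
  rw [cc]
  refine mul_ne_zero (pow_ne_zero _ (by norm_num)) ?_
  rw [← Matrix.det_transpose]
  exact Pool.TP.det_choose_ne (Q := fun b => (s b : ℕ)) (fun a b hab => hs.injective (Fin.ext hab))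

/-- on a Schubert variety with pivots `p` the coefficient form of index `wt p` is the Pluecker
coordinate `p` -/
theorem ev_fw_piv {B : Fr k n} {p : Ix k n} (hp : StrictMono p)
    (h : ∀ s : Ix k n, StrictMono s → pl s B ≠ 0 → ∀ b, p b ≤ s b) :
    ev (fw (wt p)) B = cc p * pl p B := by
  classical
  rw [ev, Finset.sum_eq_single_of_mem p (Finset.mem_univ p)]
  · rw [fw, if_pos ⟨hp, rfl⟩]
  · intro s _ hs
    by_cases h1 : StrictMono s ∧ wt s = wt p
    · by_cases h2 : pl s B = 0
      · rw [h2, mul_zero]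
      · exfalso
        apply hs
        have h3 := h s h1.1 h2
        have h4 : ∑ b, (s b : ℕ) = ∑ b, (p b : ℕ) := by
          rw [sum_eq_wt h1.1, sum_eq_wt hp, h1.2]
        have h5 := (Finset.sum_eq_sum_iff_of_le (s := Finset.univ) (f := fun b => (p b : ℕ))
          (g := fun b => (s b : ℕ)) (fun b _ => (h3 b : (p b : ℕ) ≤ (s b : ℕ)))).1 h4.symm
        ext1 b
        exact Fin.ext (h5 b (Finset.mem_univ b)).symm
    · rw [fw, if_neg h1, zero_mul]

theorem ct_ev_pull (g : Matrix (Fin n) (Fin n) ℂ) (w : Cf k n) (B : Fr k n) :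
    ev (pull g w) B = ev w (act g B) := by
  have h1 : ∀ s : Ix k n, pl s (act g B) = ∑ f : Ix k n, (∏ b, g (s b) (f b)) * pl f B := by
    intro s
    have h2 : (Matrix.of fun a b => act g B a (s b)) =
        (Matrix.of B) * (Matrix.of fun (j : Fin n) (b : Fin k) => g (s b) j) := by
      ext a b
      rw [Matrix.mul_apply, Matrix.of_apply]
      simp only [act, Matrix.mulVec, dotProduct, Matrix.of_apply]
      exact Finset.sum_congr rfl fun j _ => mul_comm _ _
    rw [pl, h2, Pool.TP.det_mul_expand]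
    rfl
  simp only [ev, pull, h1, Finset.sum_mul, Finset.mul_sum]
  rw [Finset.sum_comm]
  exact Finset.sum_congr rfl fun s _ => Finset.sum_congr rfl fun f _ => by ring

theorem ct_act_act (g h : Matrix (Fin n) (Fin n) ℂ) (B : Fr k n) :
    act g (act h B) = act (g * h) B := by
  funext a
  simp only [act, Matrix.mulVec_mulVec]

theorem ct_cx_mul (u v : RM n) : cx (u * v) = cx u * cx v := by
  ext i j
  simp [cx, Matrix.mul_apply]

/-- the coefficient forms of the contact polynomial at the flag of `u` -/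
noncomputable def ctf (u : RM n) (q : ℕ) : Cf k n := pull (cx u⁻¹) (fw q)

theorem ev_ctf (u : RM n) (q : ℕ) (B : Fr k n) :
    ev (ctf u q) B = ev (fw q) (act (cx u⁻¹) B) := ct_ev_pull _ _ _

theorem ev_fw_zero (hk : k ≤ n) (B : Fr k n) : ev (fw 0) B = pl (s0 hk) B := by
  have h1 := det_pascal (k := k) (n := n) 0 B
  rw [Finset.sum_eq_single_of_mem 0 (Finset.mem_range.2 (Nat.succ_pos _))
    (fun q _ hq => by rw [neg_zero, zero_pow hq, zero_mul]), pow_zero, one_mul] at h1
  rw [← h1, pl]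
  congr 1
  ext a b
  simp only [Matrix.of_apply]
  rw [Finset.sum_eq_single_of_mem (s0 hk b) (Finset.mem_univ _)]
  · have h2 : ((s0 hk b : Fin n) : ℕ) = (b : ℕ) := rfl
    rw [h2]
    simp
  · intro j _ hj
    rcases lt_trichotomy (j : ℕ) (b : ℕ) with h | h | h
    · rw [Nat.choose_eq_zero_of_lt h]
      simp
    · exfalso
      apply hj
      ext
      exact h
    · have h2 : (j : ℕ) - (b : ℕ) ≠ 0 := by omega
      rw [zero_pow h2]
      ring

theorem contact (hk : k ≤ n) (t : ℝ) (B : Fr k n) :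
    pl (s0 hk) (act (cx (Pas n t)⁻¹) B) =
      ∑ q ∈ Finset.range (k * (n - k) + 1), (t : ℂ) ^ q * ev (fw q) B := by
  have h1 := det_pascal (k := k) (n := n) (-(t : ℂ)) B
  rw [neg_neg] at h1
  rw [← h1, pl, Pas_inv]
  congr 1
  ext a b
  simp only [Matrix.of_apply, act, Matrix.mulVec, dotProduct, cx, Matrix.map_apply, Pas_apply]
  refine Finset.sum_congr rfl fun j _ => ?_
  have h2 : ((s0 hk b : Fin n) : ℕ) = (b : ℕ) := rfl
  rw [h2]
  push_cast
  ring

theorem ct_not_strictMono (hk : ¬ k ≤ n) (s : Ix k n) : ¬ StrictMono s := by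
  intro hs
  have h1 := Fintype.card_le_of_injective s hs.injective
  rw [Fintype.card_fin, Fintype.card_fin] at h1
  exact hk h1

/-- the contact polynomial -/
theorem cte (u : RM n) (t : ℝ) (B : Fr k n) :
    ev (ctf (u * Pas n t) 0) B =
      ∑ q ∈ Finset.range (k * (n - k) + 1), (t : ℂ) ^ q * ev (ctf u q) B := by
  simp only [ev_ctf]
  rw [Matrix.mul_inv_rev, ct_cx_mul, ← ct_act_act]
  by_cases hk : k ≤ n
  · rw [ev_fw_zero hk, contact hk]
  · have h1 : ∀ (q : ℕ) (B' : Fr k n), ev (fw q) B' = 0 := by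
      intro q B'
      rw [ev]
      refine Finset.sum_eq_zero fun s _ => ?_
      rw [fw, if_neg (fun h => ct_not_strictMono hk s h.1), zero_mul]
    simp only [h1, mul_zero, Finset.sum_const_zero]

/-- orders in terms of the Pluecker coordinates and in terms of the coefficient forms -/
theorem ord_iff_fw {B : Fr k n} (hB : LinearIndependent ℂ B) (a : ℕ) :
    (∀ s : Ix k n, StrictMono s → wt s < a → pl s B = 0) ↔ ∀ q < a, ev (fw q) B = 0 := by
  classical
  constructor
  · intro h q hq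
    rw [ev]
    refine Finset.sum_eq_zero fun s _ => ?_
    by_cases hs : StrictMono s ∧ wt s = q
    · rw [h s hs.1 (by omega), mul_zero]
    · rw [fw, if_neg hs, zero_mul]
  · intro h s hs hw
    obtain ⟨p, hp, hne, -, -, hmin⟩ := exists_pivots hB rfl
    by_contra hc
    have h1 := hmin s hs hc
    have h2 : wt p ≤ wt s :=
      Finset.sum_le_sum fun c _ => Nat.sub_le_sub_right (Fin.le_def.1 (h1 c)) _
    have h3 := h (wt p) (by omega)
    rw [ev_fw_piv hp hmin] at h3
    exact mul_ne_zero (cc_ne hp) hne h3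

/-- order in terms of the coefficient forms -/
theorem Ord_iff_ctf {u : RM n} (B : Fr k n) (hB : LinearIndependent ℂ (act (cx u⁻¹) B)) (a : ℕ) :
    Ord a u B ↔ ∀ q < a, ev (ctf u q) B = 0 := by
  simp only [ev_ctf]
  exact ord_iff_fw hB a

/-- the coefficients of the forms are real -/
theorem fw_real (q : ℕ) (s : Ix k n) : (starRingEnd ℂ) (fw q s) = fw q s := by
  classical
  rw [fw]
  split_ifs
  · rw [cc, map_mul, map_pow, map_neg, map_one, RingHom.map_det]
    congr 2
    ext a b
    simp [Matrix.map_apply]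
  · exact map_zero _

theorem ctf_real (u : RM n) (q : ℕ) (s : Ix k n) : (starRingEnd ℂ) (ctf u q s) = ctf u q s := by
  simp only [ctf, pull, map_sum, map_mul, fw_real, map_prod]
  refine Finset.sum_congr rfl fun f _ => ?_
  congr 1
  refine Finset.prod_congr rfl fun b _ => ?_
  simp [cx]

/-- continuity in the flag -/
theorem tendsto_ctf {α : Type*} {l : Filter α} {u : α → RM n} {u0 : RM n} (hu0 : IsUnit u0.det)
    (hu : Tendsto u l (𝓝 u0)) (q : ℕ) (s : Ix k n) :
    Tendsto (fun x => ctf (u x) q s) l (𝓝 (ctf u0 q s)) := by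
  have h1 : Tendsto (fun x => (u x)⁻¹) l (𝓝 u0⁻¹) := by
    have h2 : ContinuousAt (fun A : RM n => A⁻¹) u0 := by
      refine continuousAt_matrix_inv u0 ?_
      exact NormedRing.inverse_continuousAt hu0.unit
    exact h2.tendsto.comp hu
  simp only [ctf, pull]
  refine tendsto_finsetSum _ fun f _ => ?_
  refine Tendsto.const_mul _ ?_
  refine tendsto_finsetProd _ fun b _ => ?_
  have h3 : Continuous fun A : RM n => (cx A) (f b) (s b) := by
    unfold cx
    fun_prop
  exact (h3.tendsto _).comp h1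

end Pool.TPC
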