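import Pool.Agent.TPC.Cell

/-! Combinatorics for the collision of two flags: every plane of order at least `a` lies in the
closure of a cell of codimension `a`. -/


open Module Finset

namespace Pool.TPC

variable {n k : ℕ}

/-- a plane whose Pluecker coordinates of weight less than `a` vanish lies in the Schubert variety
of some index set `Q` of weight `a` -/
theorem exists_index {B : Fin k → Fin n → ℂ} (hli : LinearIndependent ℂ B) {a : ℕ}
    (h : ∀ s : Fin k → Fin n, StrictMono s → ∑ c, (s c : ℕ) < ∑ c : Fin k, (c : ℕ) + a →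
      pl s B = 0) :
    ∃ Q : Fin k → Fin n, StrictMono Q ∧ ∑ c, (Q c : ℕ) = ∑ c : Fin k, (c : ℕ) + a ∧
      ∀ s : Fin k → Fin n, StrictMono s → ¬ (∀ c, Q c ≤ s c) → pl s B = 0 := by
  obtain ⟨P, hP, h1, h2, -, h4⟩ := exists_pivots hli rfl
  have h5 : ∑ c : Fin k, (c : ℕ) + a ≤ ∑ c, (P c : ℕ) := by
    by_contra hc
    exact h1 (h P hP (not_le.1 hc))
  obtain ⟨Q, hQ, hQP, hQs⟩ := exists_sub hP h5
  refine ⟨Q, hQ, hQs, fun s hs hn => ?_⟩
  by_contra hne
  exact hn fun c => (hQP c).trans (h4 s hs hne c)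

/-- a tangent vector of the Schubert variety of `Q` which also kills a form of weight `a` with a
nonzero coefficient at `Q` kills all Pluecker coordinates of weight at most `a` -/
theorem dpl_eq_zero_of_index {B Z : Fin k → Fin n → ℂ} {a : ℕ} {Q : Fin k → Fin n}
    (hQs : ∑ c, (Q c : ℕ) = ∑ c : Fin k, (c : ℕ) + a) (hQ : StrictMono Q)
    {w : (Fin k → Fin n) → ℂ} (hw : w Q ≠ 0)
    (hw2 : ∀ s : Fin k → Fin n, w s ≠ 0 → StrictMono s ∧
      ∑ c, (s c : ℕ) = ∑ c : Fin k, (c : ℕ) + a)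
    (h1 : ∀ s : Fin k → Fin n, StrictMono s → ¬ (∀ c, Q c ≤ s c) → dpl s B Z = 0)
    (h2 : ∑ s, w s * dpl s B Z = 0) (s : Fin k → Fin n) (hs : StrictMono s)
    (hsa : ∑ c, (s c : ℕ) < ∑ c : Fin k, (c : ℕ) + (a + 1)) : dpl s B Z = 0 := by
  classical
  by_cases hQs2 : ∀ c, Q c ≤ s c
  · have h3 : s = Q := eq_of_le_of_sum hQs2 (by omega)
    subst h3
    have h4 : ∑ t, w t * dpl t B Z = w s * dpl s B Z := by
      refine Finset.sum_eq_single s (fun t _ hts => ?_) (fun h => absurd (mem_univ _) h)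
      by_cases hwt : w t = 0
      · rw [hwt, zero_mul]
      · obtain ⟨ht, hts2⟩ := hw2 t hwt
        rw [h1 t ht, mul_zero]
        intro h5
        exact hts (eq_of_le_of_sum h5 (by omega))
    rw [h4] at h2
    exact (mul_eq_zero.1 h2).resolve_left hw
  · exact h1 s hs hQs2

/-- the collision form: the part of weight at least `a`, divided by `t ^ a` -/
noncomputable def psi (f : ℕ → (Fin k → Fin n) → ℂ) (N a : ℕ) (t : ℂ) : (Fin k → Fin n) → ℂ :=
  fun s => ∑ q ∈ range (N + 1 - a), t ^ q * f (a + q) s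

theorem ev_psi (f : ℕ → (Fin k → Fin n) → ℂ) (N a : ℕ) (t : ℂ) (B : Fin k → Fin n → ℂ) :
    ev (psi f N a t) B = ∑ q ∈ range (N + 1 - a), t ^ q * ev (f (a + q)) B := by
  simp only [ev, psi, Finset.sum_mul, Finset.mul_sum]
  rw [Finset.sum_comm]
  exact Finset.sum_congr rfl fun q _ => Finset.sum_congr rfl fun s _ => by ring

theorem ev_psi_eq_zero {f : ℕ → (Fin k → Fin n) → ℂ} {N a : ℕ} {t : ℂ} {B : Fin k → Fin n → ℂ}
    (ht : t ≠ 0) (ha : a ≤ N + 1) (h : ∑ q ∈ range (N + 1), t ^ q * ev (f q) B = 0)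
    (h0 : ∀ q < a, ev (f q) B = 0) : ev (psi f N a t) B = 0 := by
  have h1 : ∑ q ∈ range (N + 1), t ^ q * ev (f q) B = t ^ a * ev (psi f N a t) B := by
    obtain ⟨e, he⟩ := Nat.exists_eq_add_of_le ha
    rw [ev_psi, he, Finset.sum_range_add, Nat.add_sub_cancel_left, Finset.mul_sum]
    rw [Finset.sum_eq_zero fun q hq => by rw [h0 q (Finset.mem_range.1 hq), mul_zero], zero_add]
    exact Finset.sum_congr rfl fun q _ => by ring
  rw [h1] at h
  exact (mul_eq_zero.1 h).resolve_left (pow_ne_zero _ ht)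

theorem tendsto_psi {α : Type*} {l : Filter α} (f : ℕ → (Fin k → Fin n) → ℂ) {N a : ℕ}
    (ha : a ≤ N) {t : α → ℂ} (ht : Filter.Tendsto t l (nhds 0)) (s : Fin k → Fin n) :
    Filter.Tendsto (fun x => psi f N a (t x) s) l (nhds (f a s)) := by
  have h1 : Filter.Tendsto (fun x => ∑ q ∈ range (N + 1 - a), t x ^ q * f (a + q) s) l
      (nhds (∑ q ∈ range (N + 1 - a), (0 : ℂ) ^ q * f (a + q) s)) :=
    tendsto_finsetSum _ fun q _ => (ht.pow q).mul_const _
  have h2 : ∑ q ∈ range (N + 1 - a), (0 : ℂ) ^ q * f (a + q) s = f a s := by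
    have h3 : N + 1 - a = (N - a) + 1 := by omega
    rw [h3, Finset.sum_range_succ']
    simp
  rw [h2] at h1
  exact h1

end Pool.TPC
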