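import Pool.Agent.TPC.LUopen
import Pool.Agent.TPC.LUsmallA

/-! Local uniqueness when two flags collide: reality for a flag close to the fixed one. -/

namespace Pool.TPC

open Matrix Module Pool.CSC Pool.TPT Filter Topology

variable {k n : ℕ}

open LUo

/-- index sets of weight `a` -/
abbrev SubI (k n a : ℕ) : Type :=
  {Q : Ix k n // StrictMono Q ∧ ∑ c, (Q c : ℕ) = ∑ c : Fin k, (c : ℕ) + a}

theorem lus_dev_eq (w : Cf k n) (B Z : Fr k n) : dev w B Z = ∑ s, w s * dpl s B Z := by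
  simp only [dev, ev, dpl, Finset.mul_sum]
  rw [Finset.sum_comm]

theorem lus_psi_real {f : ℕ → Cf k n} (hf : ∀ q s, (starRingEnd ℂ) (f q s) = f q s) (N a : ℕ)
    (t : ℝ) (s : Ix k n) :
    (starRingEnd ℂ) (psi f N a (t : ℂ) s) = psi f N a (t : ℂ) s := by
  simp only [psi, map_sum, map_mul, map_pow, hf, Complex.conj_ofReal]

/-- **LU_small** -/
theorem lus (hk : k ≤ n) (M a : ℕ) (t : ℕ → ℝ) (vs : ℕ → ℕ → RM n) (v : ℕ → RM n)
    (Bs : ℕ → Fr k n) (B : Fr k n) (haM : a + (M + 1) = k * (n - k)) (hv : Chn n M v)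
    (_hvs : ∀ ν i, 1 ≤ i → i ≤ M → Uni (vs ν i))
    (ht : ∀ ν, 0 < t ν) (ht0 : Tendsto t atTop (𝓝 0))
    (hlim : ∀ i, 1 ≤ i → i ≤ M → Tendsto (fun ν => vs ν i) atTop (𝓝 (v i)))
    (hBs : Tendsto Bs atTop (𝓝 B)) (hli : ∀ ν, LinearIndependent ℂ (Bs ν))
    (hB : LinearIndependent ℂ B)
    (h0 : ∀ ν, ∀ q < a, ev (ctf (v 0) q) (Bs ν) = 0)
    (h1 : ∀ ν, ev (ctf (v 0 * Pas n (t ν)) 0) (Bs ν) = 0)
    (h2 : ∀ ν i, 1 ≤ i → i ≤ M → ev (ctf (vs ν i) 0) (Bs ν) = 0)
    (hr : IsReal n (sp B)) : ∀ᶠ ν in atTop, IsReal n (sp (Bs ν)) := by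
  classical
  have hu : ∀ i ≤ M, IsUnit (v i).det := fun i hi => (hv.uni i hi).isUnit
  have haN : a ≤ k * (n - k) := by omega
  have htc : ∀ ν, ((t ν : ℝ) : ℂ) ≠ 0 := fun ν => Complex.ofReal_ne_zero.2 (ht ν).ne'
  have htc0 : Tendsto (fun ν => ((t ν : ℝ) : ℂ)) atTop (𝓝 0) := by
    have h3 := (Complex.continuous_ofReal.tendsto (0 : ℝ)).comp ht0
    rw [Complex.ofReal_zero] at h3
    exact h3
  -- the conditions in terms of Pluecker coordinates
  have e0 : ∀ ν, ∀ s : Ix k n, StrictMono s → wt s < a → pl s (act (cx (v 0)⁻¹) (Bs ν)) = 0 := by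
    intro ν
    rw [ord_iff_fw (LUo.li_act (hu 0 (Nat.zero_le _)) (hli ν))]
    intro q hq
    rw [← ev_ctf]
    exact h0 ν q hq
  have hct : ∀ i, 1 ≤ i → i ≤ M → ∀ s, Tendsto (fun ν => ctf (vs ν i) 0 s) atTop
      (𝓝 (ctf (k := k) (v i) 0 s)) := fun i hi hi' s => tendsto_ctf (hu i hi') (hlim i hi hi') 0 s
  -- the collision form
  have e1 : ∀ ν, ev (psi (ctf (v 0)) (k * (n - k)) a ((t ν : ℝ) : ℂ)) (Bs ν) = 0 := by
    intro ν
    refine ev_psi_eq_zero (htc ν) (by omega) ?_ (h0 ν)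
    rw [← cte]
    exact h1 ν
  have hpsi : ∀ s, Tendsto (fun ν => psi (ctf (v 0)) (k * (n - k)) a ((t ν : ℝ) : ℂ) s) atTop
      (𝓝 (ctf (k := k) (v 0) a s)) := fun s => tendsto_psi _ haN htc0 s
  -- the conditions of the limit
  have f0 : ∀ s : Ix k n, StrictMono s → wt s < a + 1 → pl s (act (cx (v 0)⁻¹) B) = 0 := by
    rw [ord_iff_fw (LUo.li_act (hu 0 (Nat.zero_le _)) hB)]
    intro q hq
    rw [← ev_ctf]
    rcases Nat.lt_succ_iff_lt_or_eq.1 hq with hq | hq
    · exact ev_lim (W := fun _ => ctf (v 0) q) (fun s => tendsto_const_nhds) hBs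
        (fun ν => h0 ν q hq)
    · rw [hq]
      exact ev_lim hpsi hBs e1
  have f1 : ∀ i, 1 ≤ i → i ≤ M → pl (s0 hk) (act (cx (v i)⁻¹) B) = 0 := by
    intro i hi hi'
    rw [← ev_fw_zero hk, ← ev_ctf]
    exact ev_lim (hct i hi hi') hBs (fun ν => h2 ν i hi hi')
  -- local uniqueness
  refine LU_abs_fam (I := SubI k n a)
    (K := fun Q => {s : Ix k n // StrictMono s ∧ ¬ ∀ c, Q.1 c ≤ s c} ⊕ (Unit ⊕ Fin M))
    (fun _ ν x => Sum.elim (fun s => pull (cx (v 0)⁻¹) (one s.1))
      (fun y => Sum.elim (fun _ => psi (ctf (v 0)) (k * (n - k)) a ((t ν : ℝ) : ℂ))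
        (fun i : Fin M => ctf (vs ν (i + 1)) 0) y) x)
    (fun _ x => Sum.elim (fun s => pull (cx (v 0)⁻¹) (one s.1))
      (fun y => Sum.elim (fun _ => ctf (v 0) a)
        (fun i : Fin M => ctf (v (i + 1)) 0) y) x) ?_ ?_ hB hBs hr ?_ ?_
  · rintro Q (s | _ | i) r
    · simp only [Sum.elim_inl]
      exact tendsto_const_nhds
    · simp only [Sum.elim_inl, Sum.elim_inr]
      exact hpsi r
    · simp only [Sum.elim_inr]
      exact hct _ (by omega) (by have := i.isLt; omega) r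
  · rintro Q ν (s | _ | i) r
    · simp only [Sum.elim_inl]
      exact pull_real (one_real _) r
    · simp only [Sum.elim_inl, Sum.elim_inr]
      exact lus_psi_real (fun q s => ctf_real _ _ _) _ _ _ r
    · simp only [Sum.elim_inr]
      exact ctf_real _ _ _
  · refine Filter.Eventually.of_forall fun ν => ?_
    obtain ⟨Q, hQ, hQs, hQ2⟩ := exists_index (a := a)
      (LUo.li_act (hu 0 (Nat.zero_le _)) (hli ν)) (fun s hs hlt => e0 ν s hs (by
        rw [← wt_add hs] at hlt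
        omega))
    refine ⟨⟨Q, hQ, hQs⟩, ?_⟩
    rintro (s | _ | i)
    · simp only [Sum.elim_inl]
      rw [ct_ev_pull, ev_one]
      exact hQ2 s.1 s.2.1 s.2.2
    · simp only [Sum.elim_inl, Sum.elim_inr]
      exact e1 ν
    · simp only [Sum.elim_inr]
      exact h2 ν _ (by omega) (by have := i.isLt; omega)
  · rintro ⟨Q, hQ, hQs⟩ - Z hZ b
    have g0 : ∀ s : Ix k n, StrictMono s →
        ∑ c, (s c : ℕ) < ∑ c : Fin k, (c : ℕ) + (a + 1) →
        dpl s (act (cx (v 0)⁻¹) B) (act (cx (v 0)⁻¹) Z) = 0 := by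
      intro s hs hlt
      refine dpl_eq_zero_of_index (w := fw a) hQs hQ ?_ ?_ ?_ ?_ s hs hlt
      · have hwt : wt Q = a := by
          have h3 := wt_add hQ
          omega
        rw [fw, if_pos ⟨hQ, hwt⟩]
        exact cc_ne hQ
      · intro s hs
        rw [fw] at hs
        split_ifs at hs with h3
        · refine ⟨h3.1, ?_⟩
          rw [← wt_add h3.1]
          omega
        · exact absurd rfl hs
      · intro s hs hn
        have := hZ (Sum.inl ⟨s, hs, hn⟩)
        simp only [Sum.elim_inl] at this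
        rwa [dev_pull, dev_one] at this
      · have := hZ (Sum.inr (Sum.inl ()))
        simp only [Sum.elim_inl, Sum.elim_inr] at this
        rw [ctf, dev_pull, lus_dev_eq] at this
        exact this
    have g1 : ∀ i, 1 ≤ i → i ≤ M →
        dpl (s0 hk) (act (cx (v i)⁻¹) B) (act (cx (v i)⁻¹) Z) = 0 := by
      intro i hi hi'
      have := hZ (Sum.inr (Sum.inr ⟨i - 1, by omega⟩))
      simp only [Sum.elim_inr, Nat.sub_add_cancel hi] at this
      rwa [ctf, dev_pull, dev_fw_zero hk] at this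
    refine TC (m := M + 1) hk (g := fun i : Fin (M + 1) => v i)
      (fun i => hv.uni i (Nat.le_of_lt_succ i.isLt))
      (fun i j hij => by
        rw [← hij]
        exact hv.pos i (by have := j.isLt; omega))
      (mm := fun i : Fin (M + 1) => if (i : ℕ) = 0 then a + 1 else 1) ?_ hB hr ?_ ?_ b
    · rw [Fin.sum_univ_succ]
      simp only [Fin.val_zero, if_true, Fin.val_succ, Nat.add_eq_zero_iff, one_ne_zero, and_false,
        if_false, Finset.sum_const, Finset.card_univ, Fintype.card_fin, smul_eq_mul, mul_one]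
      omega
    · intro i s hs hlt
      by_cases hi : (i : ℕ) = 0
      · rw [if_pos hi, ← wt_add hs] at hlt
        rw [hi]
        exact f0 s hs (by omega)
      · rw [if_neg hi, ← wt_add hs] at hlt
        have := eq_s0 hk hs (by omega)
        rw [this]
        exact f1 i (by omega) (by have := i.isLt; omega)
    · intro i s hs hlt
      by_cases hi : (i : ℕ) = 0
      · rw [if_pos hi] at hlt
        rw [hi]
        exact g0 s hs hlt
      · rw [if_neg hi, ← wt_add hs] at hlt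
        have := eq_s0 hk hs (by omega)
        rw [this]
        exact g1 i (by omega) (by have := i.isLt; omega)

end Pool.TPC
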