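import Pool.Agent.TPC.Cell
import Pool.Agent.TPC.Transport

/-! Schubert conditions and Pluecker coordinates; the cell lemma for an arbitrary flag. -/

set_option autoImplicit false

open Module Finset

namespace Pool.TPC

noncomputable section

variable {n k : ℕ}

theorem card_gt (c : Fin k) : (univ.filter fun a : Fin k => c < a).card = k - 1 - c := by
  rw [Finset.filter_lt_eq_Ioi, Fin.card_Ioi]

theorem card_ge (c : Fin k) : (univ.filter fun a : Fin k => c ≤ a).card = k - c := by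
  rw [Finset.filter_le_eq_Ici, Fin.card_Ici]

/-- on the Schubert variety only the coordinates above the partition are not zero -/
theorem schub_pl {lam : Fin k → ℕ} (hk : k ≤ n) (hle : ∀ i, lam i ≤ n - k)
    {H : Submodule ℂ (Fin n → ℂ)} {B : Fin k → Fin n → ℂ}
    (hB : H = Submodule.span ℂ (Set.range B)) (hH : H ∈ Pool.CSC.schub k n lam (E0 n))
    {s : Fin k → Fin n} (hs : StrictMono s) (hne : pl s B ≠ 0) (c : Fin k) :
    (c : ℕ) + lam c.rev ≤ s c := by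
  by_contra hc
  have h1 := (hH.2 c.rev).trans (finrank_inf_le hB hne _)
  have hr : (c.rev : ℕ) = k - 1 - c := by
    rw [Fin.val_rev]; omega
  have hck := c.isLt
  have hl := hle c.rev
  have h2 : (univ.filter fun a => n ≤ (s a : ℕ) + Pool.CSC.sidx k n lam c.rev) ⊆
      univ.filter fun a => c < a := by
    intro a ha
    rw [Finset.mem_filter] at ha ⊢
    refine ⟨mem_univ _, ?_⟩
    by_contra hac
    have h3 : (s a : ℕ) ≤ s c := Fin.le_def.1 (hs.monotone (not_lt.1 hac))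
    have h4 := ha.2
    unfold Pool.CSC.sidx at h4
    omega
  have h3 := h1.trans (Finset.card_le_card h2)
  rw [card_gt, hr] at h3
  omega

theorem schub_of_pl {lam : Fin k → ℕ} (hk : k ≤ n) (hle : ∀ i, lam i ≤ n - k)
    {H : Submodule ℂ (Fin n → ℂ)} {B : Fin k → Fin n → ℂ} (hli : LinearIndependent ℂ B)
    (hB : H = Submodule.span ℂ (Set.range B))
    (h : ∀ s : Fin k → Fin n, StrictMono s → pl s B ≠ 0 → ∀ c : Fin k, (c : ℕ) + lam c.rev ≤ s c) :
    H ∈ Pool.CSC.schub k n lam (E0 n) := by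
  have hH : finrank ℂ ↥H = k := by
    rw [hB, finrank_span_eq_card hli, Fintype.card_fin]
  obtain ⟨P, hP, h1, -, h3, -⟩ := exists_pivots hli hB
  refine ⟨hH, fun i => ?_⟩
  rw [h3]
  have h4 : (univ.filter fun a => i.rev ≤ a) ⊆
      univ.filter fun a => n ≤ (P a : ℕ) + Pool.CSC.sidx k n lam i := by
    intro a ha
    rw [Finset.mem_filter] at ha ⊢
    refine ⟨mem_univ _, ?_⟩
    have h5 : (P i.rev : ℕ) ≤ P a := Fin.le_def.1 (hP.monotone ha.2)
    have h6 := h P hP h1 i.rev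
    rw [Fin.rev_rev] at h6
    have h7 := hle i
    have h8 := i.isLt
    have hr : (i.rev : ℕ) = k - 1 - i := by
      rw [Fin.val_rev]; omega
    unfold Pool.CSC.sidx
    omega
  refine le_trans ?_ (Finset.card_le_card h4)
  rw [card_ge, Fin.val_rev]
  have := i.isLt
  omega

/-- the size of the position on a Schubert variety -/
theorem sz0_ge_of_schub {lam : Fin k → ℕ} (hk : k ≤ n) (hle : ∀ i, lam i ≤ n - k)
    {H : Submodule ℂ (Fin n → ℂ)} (hH : H ∈ Pool.CSC.schub k n lam (E0 n)) :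
    ∑ c : Fin k, (c : ℕ) + ∑ i, lam i ≤ sz0 H := by
  obtain ⟨P, b, hP, hb, hz, h1⟩ := exists_echelon hH.1
  have hpl : pl P b ≠ 0 := by rw [pl_echelon h1]; exact one_ne_zero
  rw [sz0_eq hH.1 hb hz h1]
  have h2 : ∑ i, lam i = ∑ i : Fin k, lam i.rev :=
    (Equiv.sum_comp Fin.revPerm fun i => lam i).symm
  rw [h2, ← Finset.sum_add_distrib]
  exact Finset.sum_le_sum fun c _ =>
    schub_pl hk hle (span_echelon hH.1 hb (li_of_pl hpl)) hH hP hpl c

/-! ### an arbitrary flag -/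

section flag

variable (e : (Fin n → ℂ) ≃ₗ[ℂ] (Fin n → ℂ))

theorem mp_symm_mp (H : Submodule ℂ (Fin n → ℂ)) : mp e.symm (mp e H) = H := by
  ext v
  constructor
  · rintro ⟨w, ⟨x, hx, rfl⟩, rfl⟩
    have h : e.symm (e x) = x := e.symm_apply_apply x
    show e.symm (e x) ∈ H
    rwa [h]
  · intro h
    exact ⟨e v, ⟨v, h, rfl⟩, e.symm_apply_apply v⟩

theorem mp_mp_symm (H : Submodule ℂ (Fin n → ℂ)) : mp e (mp e.symm H) = H := by
  have h := mp_symm_mp e.symm H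
  rwa [LinearEquiv.symm_symm] at h

theorem finrank_inf_mp (H A : Submodule ℂ (Fin n → ℂ)) :
    finrank ℂ ↥(H ⊓ mp e A) = finrank ℂ ↥(mp e.symm H ⊓ A) := by
  rw [← finrank_mp e.symm (H ⊓ mp e A), mp_inf, mp_symm_mp]

theorem sz0_mp_symm (H : Submodule ℂ (Fin n → ℂ)) :
    sz0 (mp e.symm H) = ∑ j ∈ range n, finrank ℂ ↥(H ⊓ mp e (E0 n j)) :=
  Finset.sum_congr rfl fun _ _ => (finrank_inf_mp e _ _).symm

theorem span_mp_symm {H : Submodule ℂ (Fin n → ℂ)} {B : Fin k → Fin n → ℂ}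
    (hB : H = Submodule.span ℂ (Set.range B)) :
    mp e.symm H = Submodule.span ℂ (Set.range fun a => e.symm (B a)) := by
  rw [hB, mp, Submodule.map_span, ← Set.range_comp]
  rfl

theorem li_symm {B : Fin k → Fin n → ℂ} (hli : LinearIndependent ℂ B) :
    LinearIndependent ℂ (fun a => e.symm (B a)) :=
  hli.map' (e.symm : (Fin n → ℂ) →ₗ[ℂ] (Fin n → ℂ)) e.symm.ker

theorem schub_mp_symm {lam : Fin k → ℕ} {H : Submodule ℂ (Fin n → ℂ)} :
    H ∈ Pool.CSC.schub k n lam (fun j => mp e (E0 n j)) ↔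
      mp e.symm H ∈ Pool.CSC.schub k n lam (E0 n) := by
  rw [← schub_mp e.symm]
  simp only [mp_symm_mp]

/-- Schubert conditions for the flag `e (E0)` -/
theorem schub_iff {lam : Fin k → ℕ} (hk : k ≤ n) (hle : ∀ i, lam i ≤ n - k)
    {H : Submodule ℂ (Fin n → ℂ)} {B : Fin k → Fin n → ℂ} (hli : LinearIndependent ℂ B)
    (hB : H = Submodule.span ℂ (Set.range B)) :
    H ∈ Pool.CSC.schub k n lam (fun j => mp e (E0 n j)) ↔
      ∀ s : Fin k → Fin n, StrictMono s → pl s (fun a => e.symm (B a)) ≠ 0 →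
        ∀ c : Fin k, (c : ℕ) + lam c.rev ≤ s c := by
  rw [schub_mp_symm]
  constructor
  · intro h s hs hne c
    exact schub_pl hk hle (span_mp_symm e hB) h hs hne c
  · intro h
    exact schub_of_pl hk hle (li_symm e hli) (span_mp_symm e hB) h

/-- the size of the position on a Schubert variety -/
theorem size_ge_of_schub {lam : Fin k → ℕ} (hk : k ≤ n) (hle : ∀ i, lam i ≤ n - k)
    {H : Submodule ℂ (Fin n → ℂ)} (hH : H ∈ Pool.CSC.schub k n lam (fun j => mp e (E0 n j))) :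
    ∑ c : Fin k, (c : ℕ) + ∑ i, lam i ≤ ∑ j ∈ range n, finrank ℂ ↥(H ⊓ mp e (E0 n j)) := by
  rw [← sz0_mp_symm]
  exact sz0_ge_of_schub hk hle ((schub_mp_symm e).1 hH)

/-- size of the position and vanishing of coordinates -/
theorem le_size_iff {H : Submodule ℂ (Fin n → ℂ)} {B : Fin k → Fin n → ℂ}
    (hli : LinearIndependent ℂ B) (hB : H = Submodule.span ℂ (Set.range B)) (a : ℕ) :
    a ≤ ∑ j ∈ range n, finrank ℂ ↥(H ⊓ mp e (E0 n j)) ↔ ∀ s : Fin k → Fin n, StrictMono s →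
      ∑ c, (s c : ℕ) < a → pl s (fun a => e.symm (B a)) = 0 := by
  rw [← sz0_mp_symm]
  exact le_sz0_iff (li_symm e hli) (span_mp_symm e hB) a

/-- the cell lemma for the flag `e (E0)` -/
theorem cell_mp {H : Submodule ℂ (Fin n → ℂ)} {B Z : Fin k → Fin n → ℂ}
    (hli : LinearIndependent ℂ B) (hB : H = Submodule.span ℂ (Set.range B))
    (h : ∀ s : Fin k → Fin n, StrictMono s →
      ∑ c, (s c : ℕ) < ∑ j ∈ range n, finrank ℂ ↥(H ⊓ mp e (E0 n j)) →
      dpl s (fun a => e.symm (B a)) (fun a => e.symm (Z a)) = 0)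
    (φ : ↥H →ₗ[ℂ] (Fin n → ℂ) ⧸ H) (hφ : ∀ a (ha : B a ∈ H), φ ⟨B a, ha⟩ = H.mkQ (Z a)) (j : ℕ)
    (x : ↥H) (hx : (x : Fin n → ℂ) ∈ mp e (E0 n j)) : φ x ∈ (mp e (E0 n j)).map H.mkQ := by
  let H' := mp e.symm H
  -- the map of the transported subspaces
  let q : ((Fin n → ℂ) ⧸ H) →ₗ[ℂ] (Fin n → ℂ) ⧸ H' :=
    H.mapQ H' (e.symm : (Fin n → ℂ) →ₗ[ℂ] (Fin n → ℂ)) (fun v hv => ⟨v, hv, rfl⟩)
  have hr : ∀ y : ↥H', e y ∈ H := by
    rintro ⟨_, ⟨v, hv, rfl⟩⟩
    have h1 : e (e.symm v) = v := e.apply_symm_apply v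
    show e (e.symm v) ∈ H
    rwa [h1]
  let r : ↥H' →ₗ[ℂ] ↥H :=
    { toFun := fun y => ⟨e y, hr y⟩
      map_add' := fun y z => Subtype.ext (map_add e _ _)
      map_smul' := fun c y => Subtype.ext (map_smul e _ _) }
  have hq : ∀ v, q (H.mkQ v) = H'.mkQ (e.symm v) := fun v => rfl
  have h1 := cell (li_symm e hli) (span_mp_symm e hB)
    (Z := fun a => e.symm (Z a)) (by rw [sz0_mp_symm]; exact h) (q ∘ₗ φ ∘ₗ r) (by
      intro a ha
      have ha' : B a ∈ H := by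
        rw [hB]; exact Submodule.subset_span ⟨a, rfl⟩
      have h2 : r ⟨e.symm (B a), ha⟩ = ⟨B a, ha'⟩ := Subtype.ext (e.apply_symm_apply (B a))
      show q (φ (r ⟨e.symm (B a), ha⟩)) = _
      rw [h2, hφ a ha', hq]) j ⟨e.symm x, ⟨x, x.2, rfl⟩⟩ (by
      obtain ⟨v, hv, hvx⟩ := hx
      have h2 : e.symm (x : Fin n → ℂ) = v := by
        rw [← hvx]; exact e.symm_apply_apply v
      show e.symm (x : Fin n → ℂ) ∈ E0 n j
      rwa [h2])
  have h2 : r ⟨e.symm x, ⟨x, x.2, rfl⟩⟩ = x := Subtype.ext (e.apply_symm_apply _)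
  have h3 : q (φ x) ∈ (E0 n j).map H'.mkQ := by
    have h4 : (q ∘ₗ φ ∘ₗ r) ⟨e.symm x, ⟨x, x.2, rfl⟩⟩ = q (φ x) := by
      show q (φ (r ⟨e.symm x, ⟨x, x.2, rfl⟩⟩)) = q (φ x)
      rw [h2]
    rwa [h4] at h1
  obtain ⟨w, hw, hw2⟩ := h3
  obtain ⟨y, hy⟩ := H.mkQ_surjective (φ x)
  rw [← hy] at hw2 ⊢
  rw [hq] at hw2
  have h5 : w - e.symm y ∈ H' := by
    rw [← Submodule.ker_mkQ H', LinearMap.mem_ker, map_sub, hw2, sub_self]
  obtain ⟨v, hv, hv2⟩ := h5
  have hv3 : e.symm v = w - e.symm y := hv2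
  have h6 : v = e w - y := by
    have h7 := congrArg e hv3
    rw [map_sub, e.apply_symm_apply, e.apply_symm_apply] at h7
    exact h7
  refine ⟨e w, ⟨w, hw, rfl⟩, ?_⟩
  rw [← sub_eq_zero, ← map_sub, ← h6, ← LinearMap.mem_ker, Submodule.ker_mkQ]
  exact hv

end flag

end

end Pool.TPC
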