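import Pool.Agent.TP.Gtt
import Pool.Agent.TPC.CellU
import Pool.Agent.TPC.Chn

/-! Real planes and positive chains of flags: the sum of the orders is at most `k (n - k)`, and in
case of equality a tangent vector which is tangent to all cells is zero. -/


open Module Finset Matrix Pool.CSC

namespace Pool.TPC

noncomputable section

variable {n k : ℕ}

/-- the linear equivalence of a real matrix -/
def tcE (u : Matrix (Fin n) (Fin n) ℝ) (hu : IsUnit u.det) : (Fin n → ℂ) ≃ₗ[ℂ] (Fin n → ℂ) :=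
  LinearEquiv.ofLinear (Matrix.mulVecLin (Pool.TP.cm u)) (Matrix.mulVecLin (Pool.TP.cm u⁻¹))
    (by
      apply LinearMap.ext
      intro x
      rw [LinearMap.comp_apply, Matrix.mulVecLin_apply, Matrix.mulVecLin_apply,
        Matrix.mulVec_mulVec, ← Pool.TP.cm_mul, Matrix.mul_nonsing_inv _ hu, Pool.TP.cm,
        Matrix.map_one _ (map_zero _) (map_one _), Matrix.one_mulVec]
      rfl)
    (by
      apply LinearMap.ext
      intro x
      rw [LinearMap.comp_apply, Matrix.mulVecLin_apply, Matrix.mulVecLin_apply,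
        Matrix.mulVec_mulVec, ← Pool.TP.cm_mul, Matrix.nonsing_inv_mul _ hu, Pool.TP.cm,
        Matrix.map_one _ (map_zero _) (map_one _), Matrix.one_mulVec]
      rfl)

theorem tcE_apply (u : Matrix (Fin n) (Fin n) ℝ) (hu : IsUnit u.det) (x : Fin n → ℂ) :
    tcE u hu x = Pool.TP.cm u *ᵥ x := rfl

theorem tcE_symm_apply (u : Matrix (Fin n) (Fin n) ℝ) (hu : IsUnit u.det) (x : Fin n → ℂ) :
    (tcE u hu).symm x = Pool.TP.cm u⁻¹ *ᵥ x := rfl

theorem tc_Fl0 (j : ℕ) : Pool.TP.Fl0 n j = E0 n j := by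
  ext v
  rw [Pool.TP.mem_Fl0, mem_E0]
  constructor
  · intro h i hi
    exact h i (by omega)
  · intro h i hi
    exact h i (by omega)

theorem tc_flg (u : Matrix (Fin n) (Fin n) ℝ) (hu : IsUnit u.det) (j : ℕ) :
    Pool.TP.flg u j = mp (tcE u hu) (E0 n j) := by
  rw [Pool.TP.flg, tc_Fl0]
  rfl

/-- the partition of the position of a plane -/
theorem tc_lam (hk : k ≤ n) (e : (Fin n → ℂ) ≃ₗ[ℂ] (Fin n → ℂ)) {B : Fin k → Fin n → ℂ}
    (hli : LinearIndependent ℂ B) :
    ∃ lam : Fin k → ℕ, Antitone lam ∧ (∀ i, lam i ≤ n - k) ∧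
      Submodule.span ℂ (Set.range B) ∈ schub k n lam (fun j => mp e (E0 n j)) ∧
      ∑ c : Fin k, (c : ℕ) + ∑ i, lam i =
        ∑ j ∈ range n, finrank ℂ ↥(Submodule.span ℂ (Set.range B) ⊓ mp e (E0 n j)) := by
  obtain ⟨P, hP, h1, h2, -, h4⟩ := exists_pivots (li_symm e hli) (span_mp_symm e rfl)
  have hle : ∀ c : Fin k, (P c : ℕ) + (k - c) ≤ n := by
    intro c
    have h5 : ∀ d : ℕ, ∀ c : Fin k, (c : ℕ) + d = k - 1 → (P c : ℕ) + d + 1 ≤ n := by
      intro d
      induction d with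
      | zero => intro c _; have := (P c).isLt; omega
      | succ d ih =>
        intro c hc
        have h6 := ih ⟨(c : ℕ) + 1, by omega⟩ (by show (c : ℕ) + 1 + d = k - 1; omega)
        have h7 : P c < P ⟨(c : ℕ) + 1, by omega⟩ := hP (Fin.lt_def.2 (Nat.lt_succ_self _))
        rw [Fin.lt_def] at h7
        omega
    have hc := c.isLt
    have := h5 (k - 1 - c) c (by omega)
    omega
  have hge := ge_self hP
  have hmono : ∀ c d : Fin k, c ≤ d → (P c : ℕ) - c ≤ (P d : ℕ) - d := by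
    have h5 : ∀ m : ℕ, ∀ c d : Fin k, (c : ℕ) + m = d → (P c : ℕ) + m ≤ P d := by
      intro m
      induction m with
      | zero => intro c d h; have : c = d := Fin.ext (by omega); rw [this]; omega
      | succ m ih =>
        intro c d h
        have hd := d.isLt
        have h6 := ih c ⟨(c : ℕ) + m, by omega⟩ rfl
        have h7 : P ⟨(c : ℕ) + m, by omega⟩ < P d := hP (Fin.lt_def.2 (by
          show (c : ℕ) + m < d
          omega))
        rw [Fin.lt_def] at h7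
        omega
    intro c d hcd
    have hcd' : (c : ℕ) ≤ d := Fin.le_def.1 hcd
    have h6 := h5 (d - c) c d (by omega)
    have h7 := hge c
    have h8 := hge d
    omega
  refine ⟨fun i => (P i.rev : ℕ) - i.rev, fun i j hij => ?_, fun i => ?_, ?_, ?_⟩
  · exact hmono _ _ (Fin.rev_le_rev.2 hij)
  · have h5 := hle i.rev
    have h6 := i.rev.isLt
    show (P i.rev : ℕ) - i.rev ≤ n - k
    omega
  · rw [schub_iff e hk (fun i => ?_) hli rfl]
    · intro s hs hne c
      have h5 := h4 s hs hne c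
      have h6 := hge c
      rw [Fin.le_def] at h5
      show (c : ℕ) + ((P c.rev.rev : ℕ) - c.rev.rev) ≤ s c
      rw [Fin.rev_rev]
      omega
    · have h5 := hle i.rev
      have h6 := i.rev.isLt
      show (P i.rev : ℕ) - i.rev ≤ n - k
      omega
  · rw [← sz0_mp_symm, ← h2]
    have h5 : ∑ i : Fin k, ((P i.rev : ℕ) - i.rev) = ∑ i : Fin k, ((P i : ℕ) - i) :=
      Equiv.sum_comp Fin.revPerm fun i : Fin k => (P i : ℕ) - i
    rw [h5, ← Finset.sum_add_distrib]
    exact Finset.sum_congr rfl fun c _ => by have := hge c; omega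

/-- orders of a real frame along a chain -/
theorem tc_data {M : ℕ} {v : ℕ → Matrix (Fin n) (Fin n) ℝ} (hv : Chn n M v)
    {B : Fin k → Fin n → ℂ} (hB : LinearIndependent ℂ B) :
    ∃ lam : Fin (M + 1) → Fin k → ℕ, (∀ l, Antitone (lam l)) ∧ (∀ l i, lam l i ≤ n - k) ∧
      (∀ l : Fin (M + 1), Submodule.span ℂ (Set.range B) ∈
        schub k n (lam l) (Pool.TP.flg (v l))) ∧
      ∀ l : Fin (M + 1), ∀ hu : IsUnit (v l).det, ∑ c : Fin k, (c : ℕ) + ∑ i, lam l i =
        ∑ j ∈ range n, finrank ℂ ↥(Submodule.span ℂ (Set.range B) ⊓ mp (tcE (v l) hu) (E0 n j)) := by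
  have hk : k ≤ n := by
    have := hB.fintype_card_le_finrank
    simpa using this
  have h1 : ∀ l : Fin (M + 1), IsUnit (v l).det := fun l => by
    have h2 := (hv.uni l (Nat.le_of_lt_succ l.2))
    rw [Pool.TP.UU.det (g := v l) h2]
    exact isUnit_one
  choose lam ha hle hs he using fun l : Fin (M + 1) => tc_lam hk (tcE (v l) (h1 l)) hB
  refine ⟨lam, ha, hle, fun l => ?_, fun l hu => he l⟩
  have h2 : Pool.TP.flg (v l) = fun j => mp (tcE (v l) (h1 l)) (E0 n j) :=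
    funext fun j => tc_flg _ _ j
  rw [h2]
  exact hs l

theorem tc_pos {M : ℕ} {v : ℕ → Matrix (Fin n) (Fin n) ℝ} (hv : Chn n M v)
    (i j : Fin (M + 1)) (hij : (i : ℕ) + 1 = j) : TPT.Pos n ((v i)⁻¹ * v j) := by
  rw [← hij]
  exact hv.pos i (by have := j.2; omega)

/-- the sum of the orders of a real plane -/
theorem sum_orders_le {M : ℕ} {v : ℕ → Matrix (Fin n) (Fin n) ℝ} (hv : Chn n M v)
    {B : Fin k → Fin n → ℂ} (hB : LinearIndependent ℂ B)
    (hr : IsReal n (Submodule.span ℂ (Set.range B))) (m : ℕ → ℕ)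
    (ho : ∀ i ≤ M, ∀ s : Fin k → Fin n, StrictMono s →
      ∑ c, (s c : ℕ) < ∑ c : Fin k, (c : ℕ) + m i →
      pl s (fun a => Pool.TP.cm (v i)⁻¹ *ᵥ B a) = 0) :
    ∑ i ∈ range (M + 1), m i ≤ k * (n - k) := by
  obtain ⟨lam, ha, hle, hs, he⟩ := tc_data hv hB
  have hfr : finrank ℂ ↥(Submodule.span ℂ (Set.range B)) = k := by
    rw [finrank_span_eq_card hB, Fintype.card_fin]
  have h1 := Pool.TP.sum_lam_le (g := fun l : Fin (M + 1) => v l)
    (fun l => hv.uni l (Nat.le_of_lt_succ l.2)) (tc_pos hv) hr hfr ha hle hs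
  refine le_trans ?_ h1
  rw [← Fin.sum_univ_eq_sum_range]
  refine Finset.sum_le_sum fun l _ => ?_
  have h2 : IsUnit (v l).det := by
    rw [Pool.TP.UU.det (g := v l) (hv.uni l (Nat.le_of_lt_succ l.2))]
    exact isUnit_one
  have h3 := (le_size_iff (tcE (v l) h2) hB rfl (∑ c : Fin k, (c : ℕ) + m l)).2
    (ho l (Nat.le_of_lt_succ l.2))
  rw [← he l h2] at h3
  omega

/-- the tangent criterion -/
theorem tangent_crit {M : ℕ} {v : ℕ → Matrix (Fin n) (Fin n) ℝ} (hv : Chn n M v)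
    {B Z : Fin k → Fin n → ℂ} (hB : LinearIndependent ℂ B)
    (hr : IsReal n (Submodule.span ℂ (Set.range B))) (m : ℕ → ℕ)
    (hm : ∑ i ∈ range (M + 1), m i = k * (n - k))
    (ho : ∀ i ≤ M, ∀ s : Fin k → Fin n, StrictMono s →
      ∑ c, (s c : ℕ) < ∑ c : Fin k, (c : ℕ) + m i →
      pl s (fun a => Pool.TP.cm (v i)⁻¹ *ᵥ B a) = 0)
    (hZ : ∀ i ≤ M, ∀ s : Fin k → Fin n, StrictMono s →
      ∑ c, (s c : ℕ) < ∑ c : Fin k, (c : ℕ) + m i →
      dpl s (fun a => Pool.TP.cm (v i)⁻¹ *ᵥ B a) (fun a => Pool.TP.cm (v i)⁻¹ *ᵥ Z a) = 0)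
    (b : Fin k) : Z b ∈ Submodule.span ℂ (Set.range B) := by
  obtain ⟨lam, ha, hle, hs, he⟩ := tc_data hv hB
  have hfr : finrank ℂ ↥(Submodule.span ℂ (Set.range B)) = k := by
    rw [finrank_span_eq_card hB, Fintype.card_fin]
  have hdet : ∀ l : Fin (M + 1), IsUnit (v l).det := fun l => by
    rw [Pool.TP.UU.det (g := v l) (hv.uni l (Nat.le_of_lt_succ l.2))]
    exact isUnit_one
  have h1 := Pool.TP.sum_lam_le (g := fun l : Fin (M + 1) => v l)
    (fun l => hv.uni l (Nat.le_of_lt_succ l.2)) (tc_pos hv) hr hfr ha hle hs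
  have h2 : ∀ l : Fin (M + 1), m l ≤ ∑ i, lam l i := fun l => by
    have h3 := (le_size_iff (tcE (v l) (hdet l)) hB rfl (∑ c : Fin k, (c : ℕ) + m l)).2
      (ho l (Nat.le_of_lt_succ l.2))
    rw [← he l (hdet l)] at h3
    omega
  have h3 : ∑ l : Fin (M + 1), m l = k * (n - k) := by
    rw [Fin.sum_univ_eq_sum_range m]
    exact hm
  have h4 : ∑ l, ∑ i, lam l i = k * (n - k) :=
    le_antisymm h1 (h3 ▸ Finset.sum_le_sum fun l _ => h2 l)
  have h5 : ∀ l : Fin (M + 1), ∑ i, lam l i = m l := by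
    intro l
    have h6 := (Finset.sum_eq_sum_iff_of_le (fun l (_ : l ∈ univ) => h2 l)).1 (h3.trans h4.symm)
    exact (h6 l (mem_univ l)).symm
  let bas := Basis.span hB
  let φ : ↥(Submodule.span ℂ (Set.range B)) →ₗ[ℂ]
      (Fin n → ℂ) ⧸ (Submodule.span ℂ (Set.range B)) :=
    bas.constr ℂ fun a => (Submodule.span ℂ (Set.range B)).mkQ (Z a)
  have hφ : ∀ a (ha : B a ∈ Submodule.span ℂ (Set.range B)),
      φ ⟨B a, ha⟩ = (Submodule.span ℂ (Set.range B)).mkQ (Z a) := by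
    intro a ha
    have h6 : bas a = ⟨B a, ha⟩ := Basis.span_apply hB a
    rw [← h6]
    exact bas.constr_basis ℂ _ a
  have hφ0 : φ = 0 := by
    refine Pool.TP.trans_real (g := fun l : Fin (M + 1) => v l)
      (fun l => hv.uni l (Nat.le_of_lt_succ l.2)) (tc_pos hv) hr
      ⟨ha, hle, h4⟩ hfr hs φ fun l i _ x hx => ?_
    rw [tc_flg (v l) (hdet l)] at hx ⊢
    refine cell_mp (tcE (v l) (hdet l)) hB rfl ?_ φ hφ _ x hx
    intro s hs1 hs2
    rw [← he l (hdet l), h5 l] at hs2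
    exact hZ l (Nat.le_of_lt_succ l.2) s hs1 hs2
  have h6 : B b ∈ Submodule.span ℂ (Set.range B) := Submodule.subset_span ⟨b, rfl⟩
  have h7 := hφ b h6
  rw [hφ0, LinearMap.zero_apply] at h7
  rw [← Submodule.ker_mkQ (Submodule.span ℂ (Set.range B)), LinearMap.mem_ker]
  exact h7.symm

end

end Pool.TPC
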