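import Pool.Agent.TPC.BJBase
import Pool.Agent.TPC.Contact
import Pool.Agent.TPC.TCrit
import Pool.Agent.TPC.LUsmall

/-! The tools of theorem `B_j` for the contact forms `ctf`. -/

namespace Pool.TPC.BJ

open Matrix Module Filter Topology Pool.TPT Pool.CSC Pool.TPC

variable {k n : ℕ}

/-- the sum of the orders of a real plane along a chain -/
theorem gra_ctf (M : ℕ) (u : ℕ → Matrix (Fin n) (Fin n) ℝ) (nn : ℕ → ℕ) (hC : Chn n M u)
    (B : Fin k → Fin n → ℂ) (hB : LinearIndependent ℂ B) (hR : IsReal n (sp B))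
    (hord : ∀ i ≤ M, ∀ q < nn i, ev (ctf (u i) q) B = 0) :
    ∑ i ∈ Finset.range (M + 1), nn i ≤ k * (n - k) := by
  refine sum_orders_le hC hB hR nn fun i hi s hs hw => ?_
  have h1 := (Ord_iff_ctf B (li_act (hC.uni i hi) hB) (nn i)).2 (hord i hi) s hs (by
    have := wt_add hs
    omega)
  exact h1

theorem base_ctf (u : Matrix (Fin n) (Fin n) ℝ) (B : Fin k → Fin n → ℂ) (hu : Uni u)
    (hB : LinearIndependent ℂ B) (h : ∀ q < k * (n - k), ev (ctf u q) B = 0) :
    IsReal n (sp B) :=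
  real_of_ord_top hu hB ((Ord_iff_ctf B (li_act hu hB) _).2 h)

theorem G_ctf (M a : ℕ) (v : ℕ → Matrix (Fin n) (Fin n) ℝ) (B : Fin k → Fin n → ℂ)
    (haM : a + M = k * (n - k)) (hC : Chn n M v) (hB : LinearIndependent ℂ B)
    (hR : IsReal n (sp B)) (h0 : ∀ q < a + 1, ev (ctf (v 0) q) B = 0)
    (h1 : ∀ i, 1 ≤ i → i ≤ M → ev (ctf (v i) 0) B = 0) : False := by
  have h2 := gra_ctf M v (fun i => if i = 0 then a + 1 else 1) hC B hB hR (by
    intro i hi q hq
    rcases Nat.eq_zero_or_pos i with rfl | hi'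
    · exact h0 q (by simpa using hq)
    · simp only [show i ≠ 0 by omega, if_false] at hq
      obtain rfl : q = 0 := by omega
      exact h1 i hi' hi)
  rw [Finset.sum_range_succ'] at h2
  simp at h2
  omega

/-- the tools of `B_j` for the contact forms -/
theorem tools (hk : k ≤ n) : BJTools k n (Pas n) (ctf (k := k) (n := n)) where
  P_pos t ht := pos_Pas ht
  P_lim := by
    have h := (continuous_Pas (n := n)).tendsto 0
    rwa [Pas_zero] at h
  ct_cont As A _ hA h := by
    rw [tendsto_pi_nhds]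
    exact fun s => tendsto_ctf hA.isUnit h 0 s
  cte u _ t B := cte u t B
  base u B hu hB h := base_ctf u B hu hB h
  G := G_ctf
  luo := luo hk
  lus := lus hk

/-- Theorem `B_j` for the contact forms: the field `bj` of `Itf` -/
theorem bj_ctf (j : ℕ) (u : ℕ → Matrix (Fin n) (Fin n) ℝ) (hu : Chn n j u)
    (hj : j ≤ k * (n - k)) (B : Fin k → Fin n → ℂ) (hB : LinearIndependent ℂ B)
    (h0 : ∀ q < k * (n - k) - j, ev (ctf (u 0) q) B = 0)
    (h1 : ∀ i, 1 ≤ i → i ≤ j → ev (ctf (u i) 0) B = 0) : IsReal n (sp B) :=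
  bj (tools (le_of_li hB)) j u hu hj B hB h0 h1

end Pool.TPC.BJ
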