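import Pool.Agent.TPC.Defs

/-! Row BAS2: conjugation and continuity of frames and Pluecker coordinates. -/

namespace Pool.TPC

open Matrix Module Pool.CSC Pool.TPT Filter Topology

noncomputable section

variable {k n : ℕ}

theorem pl_cj (s : Ix k n) (B : Fr k n) : pl s (cj B) = (starRingEnd ℂ) (pl s B) := by
  rw [pl, pl, RingHom.map_det]
  rfl

theorem act_cj (u : RM n) (B : Fr k n) : act (cx u) (cj B) = cj (act (cx u) B) := by
  funext a i
  simp only [act, cj, cx, Matrix.mulVec, dotProduct, Matrix.map_apply, map_sum, map_mul,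
    Complex.conj_ofReal]

theorem Ord_cj {a : ℕ} {u : RM n} {B : Fr k n} (h : Ord a u B) : Ord a u (cj B) := by
  intro s hs hw
  rw [act_cj, pl_cj, h s hs hw, map_zero]

theorem li_cj {B : Fr k n} (hB : LinearIndependent ℂ B) : LinearIndependent ℂ (cj B) := by
  rw [Fintype.linearIndependent_iff] at hB ⊢
  intro g hg a
  have h1 : ∑ i, (starRingEnd ℂ) (g i) • B i = 0 := by
    funext j
    have h2 := congrArg (starRingEnd ℂ) (congrFun hg j)
    simp only [Finset.sum_apply, Pi.smul_apply, cj, smul_eq_mul, map_sum, map_mul,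
      Complex.conj_conj, Pi.zero_apply, map_zero] at h2 ⊢
    exact h2
  have h3 := hB _ h1 a
  have h4 := congrArg (starRingEnd ℂ) h3
  rwa [Complex.conj_conj, map_zero] at h4

/-- the conjugate of a vector of the span is in the span of the conjugate frame -/
theorem conj_mem_sp_cj {B : Fr k n} {v : Fin n → ℂ} (hv : v ∈ sp B) :
    (fun i => (starRingEnd ℂ) (v i)) ∈ sp (cj B) := by
  rw [sp, Submodule.mem_span_range_iff_exists_fun] at hv
  obtain ⟨c, rfl⟩ := hv
  rw [sp, Submodule.mem_span_range_iff_exists_fun]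
  refine ⟨fun i => (starRingEnd ℂ) (c i), ?_⟩
  funext j
  simp only [Finset.sum_apply, Pi.smul_apply, cj, smul_eq_mul, map_sum, map_mul]

theorem isReal_iff (B : Fr k n) : IsReal n (sp B) ↔ sp (cj B) = sp B := by
  constructor
  · intro h
    apply le_antisymm
    · rw [sp, Submodule.span_le]
      rintro _ ⟨a, rfl⟩
      exact h (B a) (Submodule.subset_span ⟨a, rfl⟩)
    · rw [sp, Submodule.span_le]
      rintro _ ⟨a, rfl⟩
      have h1 := h (B a) (Submodule.subset_span ⟨a, rfl⟩)
      have h2 := conj_mem_sp_cj h1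
      simp only [Complex.conj_conj] at h2
      exact h2
  · intro h v hv
    rw [← h]
    exact conj_mem_sp_cj hv

theorem isReal_act_aux (u : RM n) (B : Fr k n) (h : IsReal n (sp B)) :
    IsReal n (sp (act (cx u) B)) := by
  intro v hv
  rw [sp, Submodule.mem_span_range_iff_exists_fun] at hv
  obtain ⟨c, rfl⟩ := hv
  have h1 : ∑ a, c a • B a ∈ sp B :=
    Submodule.sum_mem _ fun a _ => Submodule.smul_mem _ _ (Submodule.subset_span ⟨a, rfl⟩)
  have h2 := h _ h1
  rw [sp, Submodule.mem_span_range_iff_exists_fun] at h2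
  obtain ⟨d, hd⟩ := h2
  rw [sp, Submodule.mem_span_range_iff_exists_fun]
  refine ⟨d, ?_⟩
  have h3 : ∑ a, d a • act (cx u) B a = cx u *ᵥ (∑ a, d a • B a) := by
    rw [Matrix.mulVec_sum]
    refine Finset.sum_congr rfl fun a _ => ?_
    rw [Matrix.mulVec_smul]
    rfl
  have h4 : ∑ a, c a • act (cx u) B a = cx u *ᵥ (∑ a, c a • B a) := by
    rw [Matrix.mulVec_sum]
    refine Finset.sum_congr rfl fun a _ => ?_
    rw [Matrix.mulVec_smul]
    rfl
  rw [h3, hd, h4]
  funext i
  simp only [cx, Matrix.mulVec, dotProduct, Matrix.map_apply, map_sum, map_mul,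
    Complex.conj_ofReal]

theorem isReal_act {u : RM n} (hu : IsUnit u.det) (B : Fr k n) :
    IsReal n (sp (act (cx u) B)) ↔ IsReal n (sp B) := by
  refine ⟨fun h => ?_, isReal_act_aux u B⟩
  have h1 := isReal_act_aux u⁻¹ _ h
  have h2 : act (cx u⁻¹) (act (cx u) B) = B := by
    funext a
    change cx u⁻¹ *ᵥ (cx u *ᵥ B a) = B a
    rw [Matrix.mulVec_mulVec]
    have h3 : cx u⁻¹ * cx u = 1 := by
      have h4 : cx (u⁻¹ * u) = cx u⁻¹ * cx u := Matrix.map_mul (f := algebraMap ℝ ℂ)
      rw [← h4, Matrix.nonsing_inv_mul _ hu]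
      exact Matrix.map_one (algebraMap ℝ ℂ) (map_zero _) (map_one _)
    rw [h3, Matrix.one_mulVec]
  rwa [h2] at h1

theorem continuous_pl (s : Ix k n) : Continuous (pl s : Fr k n → ℂ) := by
  unfold pl
  apply Continuous.matrix_det
  refine continuous_matrix fun a b => ?_
  exact (continuous_apply (s b)).comp (continuous_apply a)

theorem continuous_cj : Continuous (cj : Fr k n → Fr k n) := by
  refine continuous_pi fun a => continuous_pi fun i => ?_
  exact Complex.continuous_conj.comp ((continuous_apply i).comp (continuous_apply a))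

theorem tendsto_act {α : Type*} {l : Filter α} {g : α → Matrix (Fin n) (Fin n) ℂ}
    {g0 : Matrix (Fin n) (Fin n) ℂ} {B : α → Fr k n} {B0 : Fr k n} (hg : Tendsto g l (𝓝 g0))
    (hB : Tendsto B l (𝓝 B0)) : Tendsto (fun x => act (g x) (B x)) l (𝓝 (act g0 B0)) := by
  rw [tendsto_pi_nhds]
  intro a
  rw [tendsto_pi_nhds]
  intro i
  simp only [act, Matrix.mulVec, dotProduct]
  refine tendsto_finset_sum _ fun j _ => Tendsto.mul ?_ ?_
  · exact tendsto_pi_nhds.1 (tendsto_pi_nhds.1 hg i) j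
  · exact tendsto_pi_nhds.1 (tendsto_pi_nhds.1 hB a) j

theorem tendsto_cx_inv {α : Type*} {l : Filter α} {u : α → RM n} {u0 : RM n}
    (hu0 : IsUnit u0.det) (hu : Tendsto u l (𝓝 u0)) :
    Tendsto (fun x => cx (u x)⁻¹) l (𝓝 (cx u0⁻¹)) := by
  have hdet : Tendsto (fun x => (u x).det) l (𝓝 u0.det) :=
    ((continuous_id.matrix_det).tendsto u0).comp hu
  have hadj : Tendsto (fun x => (u x).adjugate) l (𝓝 u0.adjugate) :=
    ((continuous_id.matrix_adjugate).tendsto u0).comp hu
  have hinv : Tendsto (fun x => (u x)⁻¹) l (𝓝 u0⁻¹) := by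
    have h1 := (hdet.inv₀ hu0.ne_zero).smul hadj
    refine Tendsto.congr (fun x => ?_) (h1.trans (le_of_eq ?_))
    · rw [Matrix.inv_def, Ring.inverse_eq_inv']
    · rw [Matrix.inv_def, Ring.inverse_eq_inv']
  have hcx : Continuous fun v : RM n => cx v := by
    refine continuous_matrix fun i j => ?_
    exact Complex.continuous_ofReal.comp (continuous_id.matrix_elem i j)
  exact (hcx.tendsto _).comp hinv

theorem Ord_lim {α : Type*} {l : Filter α} [l.NeBot] {u : α → RM n} {u0 : RM n}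
    (hu0 : IsUnit u0.det) (hu : Tendsto u l (𝓝 u0)) {B : α → Fr k n} {B0 : Fr k n}
    (hB : Tendsto B l (𝓝 B0)) {a : ℕ} (h : ∀ᶠ x in l, Ord a (u x) (B x)) : Ord a u0 B0 := by
  intro s hs hw
  have h1 : Tendsto (fun x => pl s (act (cx (u x)⁻¹) (B x))) l
      (𝓝 (pl s (act (cx u0⁻¹) B0))) :=
    ((continuous_pl s).tendsto _).comp (tendsto_act (tendsto_cx_inv hu0 hu) hB)
  have h2 : Tendsto (fun x => pl s (act (cx (u x)⁻¹) (B x))) l (𝓝 0) :=
    tendsto_const_nhds.congr' (h.mono fun x hx => (hx s hs hw).symm)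
  exact tendsto_nhds_unique h1 h2

theorem tendsto_ev {α : Type*} {l : Filter α} {w : α → Cf k n} {w0 : Cf k n}
    (hw : Tendsto w l (𝓝 w0)) {B : α → Fr k n} {B0 : Fr k n} (hB : Tendsto B l (𝓝 B0)) :
    Tendsto (fun x => ev (w x) (B x)) l (𝓝 (ev w0 B0)) := by
  unfold ev
  refine tendsto_finset_sum _ fun s _ => Tendsto.mul ?_ ?_
  · exact tendsto_pi_nhds.1 hw s
  · exact ((continuous_pl s).tendsto _).comp hB

end

end Pool.TPC
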