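import Pool.Agent.TPC.Chn

/-! Reality of all complex solutions for general orders, from the case of simple boxes. -/

set_option autoImplicit false

open Matrix Filter Topology Pool.TPT Pool.CSC

namespace Pool.TPC

variable {k n : ℕ}

/-- the interface used by the cluster argument -/
structure Itf (k n : ℕ) (P : ℝ → Matrix (Fin n) (Fin n) ℝ)
    (ct : Matrix (Fin n) (Fin n) ℝ → ℕ → (Fin k → Fin n) → ℂ) : Prop where
  p0 : P 0 = 1
  ppos : ∀ t, 0 < t → Pos n (P t)
  pcont : Tendsto P (𝓝 0) (𝓝 1)
  cte : ∀ (u : Matrix (Fin n) (Fin n) ℝ), Uni u → ∀ (t : ℝ) (B : Fin k → Fin n → ℂ),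
    ev (ct (u * P t) 0) B =
      ∑ q ∈ Finset.range (k * (n - k) + 1), (t : ℂ) ^ q * ev (ct u q) B
  pers : ∀ {ι : Type} [Fintype ι], Fintype.card ι = k * (n - k) →
    ∀ (w : ι → (Fin k → Fin n) → ℂ) (W : ℕ → ι → (Fin k → Fin n) → ℂ),
    (∀ a s, Tendsto (fun ν => W ν a s) atTop (𝓝 (w a s))) →
    ∀ B : Fin k → Fin n → ℂ, LinearIndependent ℂ B → (∀ a, ev (w a) B = 0) → Iso w B →
    ∃ Bs : ℕ → Fin k → Fin n → ℂ, Tendsto Bs atTop (𝓝 B) ∧
      ∀ᶠ ν in atTop, ∀ a, ev (W ν a) (Bs ν) = 0
  fin : ∀ {ι : Type} [Fintype ι] (w : ι → (Fin k → Fin n) → ℂ) (g : (Fin k → Fin n) → ℂ)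
    (B : Fin k → Fin n → ℂ), LinearIndependent ℂ B → (∀ a, ev (w a) B = 0) → ¬ Iso w B →
    ∃ B' : Fin k → Fin n → ℂ, LinearIndependent ℂ B' ∧ (∀ a, ev (w a) B' = 0) ∧ ev g B' = 0
  gra : ∀ (M : ℕ) (u : ℕ → Matrix (Fin n) (Fin n) ℝ) (nn : ℕ → ℕ), Chn n M u →
    ∀ B : Fin k → Fin n → ℂ, LinearIndependent ℂ B → IsReal n (sp B) →
    (∀ i ≤ M, ∀ q < nn i, ev (ct (u i) q) B = 0) →
    ∑ i ∈ Finset.range (M + 1), nn i ≤ k * (n - k)
  lim : ∀ (Bs : ℕ → Fin k → Fin n → ℂ) (B : Fin k → Fin n → ℂ), Tendsto Bs atTop (𝓝 B) →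
    LinearIndependent ℂ B → (∃ᶠ ν in atTop, IsReal n (sp (Bs ν))) → IsReal n (sp B)
  bj : ∀ (j : ℕ) (u : ℕ → Matrix (Fin n) (Fin n) ℝ), Chn n j u → j ≤ k * (n - k) →
    ∀ B : Fin k → Fin n → ℂ, LinearIndependent ℂ B →
    (∀ q < k * (n - k) - j, ev (ct (u 0) q) B = 0) →
    (∀ i, 1 ≤ i → i ≤ j → ev (ct (u i) 0) B = 0) → IsReal n (sp B)

theorem reality {P : ℝ → Matrix (Fin n) (Fin n) ℝ}
    {ct : Matrix (Fin n) (Fin n) ℝ → ℕ → (Fin k → Fin n) → ℂ} (I : Itf k n P ct) :
    ∀ (D : ℕ) (e M : ℕ) (u : ℕ → Matrix (Fin n) (Fin n) ℝ) (nn : ℕ → ℕ), D = M + e → Chn n M u →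
    (∀ i, 1 ≤ i → i ≤ M → 1 ≤ nn i) → ∑ i ∈ Finset.range (M + 1), nn i = k * (n - k) →
    nn 0 + D = k * (n - k) → ∀ B : Fin k → Fin n → ℂ, LinearIndependent ℂ B →
    (∀ i ≤ M, ∀ q < nn i, ev (ct (u i) q) B = 0) → IsReal n (sp B) := by
  intro D
  induction D using Nat.strong_induction_on with
  | _ D ihD =>
  intro e
  induction e with
  | zero =>
    intro M u nn hD hC h1 hs h0 B hB hv
    obtain rfl : D = M := hD
    have hall : ∀ i, 1 ≤ i → i ≤ D → nn i = 1 := by
      intro i hi hiD
      by_contra hne
      have h2 : 2 ≤ nn i := by have := h1 i hi hiD; omega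
      have h3 : ∑ i ∈ Finset.range D, nn (i + 1) + nn 0 = nn 0 + D := by
        rw [h0, ← hs, Finset.sum_range_succ']
      have h4 : ∑ i ∈ Finset.range D, 1 < ∑ i ∈ Finset.range D, nn (i + 1) := by
        refine Finset.sum_lt_sum (fun j hj => ?_) ⟨i - 1, ?_, ?_⟩
        · rw [Finset.mem_range] at hj
          exact h1 (j + 1) (by omega) (by omega)
        · rw [Finset.mem_range]; omega
        · rw [show i - 1 + 1 = i by omega]; omega
      simp at h4
      omega
    refine I.bj D u hC (by omega) B hB (fun q hq => hv 0 (Nat.zero_le _) q (by omega))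
      fun i hi hiD => hv i hiD 0 ?_
    rw [hall i hi hiD]; norm_num
  | succ e ihe =>
    intro M u nn hD hC h1 hs h0 B hB hv
    have hM : 1 ≤ M := by
      by_contra hM
      have : M = 0 := by omega
      subst this
      simp at hs
      omega
    -- an index with multiplicity at least two
    obtain ⟨i, hi1, hiM, hi2⟩ : ∃ i, 1 ≤ i ∧ i ≤ M ∧ 2 ≤ nn i := by
      by_contra hcon
      push Not at hcon
      have h3 : ∑ i ∈ Finset.range M, nn (i + 1) + nn 0 = nn 0 + D := by
        rw [h0, ← hs, Finset.sum_range_succ']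
      have h4 : ∑ i ∈ Finset.range M, nn (i + 1) ≤ ∑ i ∈ Finset.range M, 1 := by
        refine Finset.sum_le_sum fun j hj => ?_
        rw [Finset.mem_range] at hj
        have := hcon (j + 1) (by omega) (by omega)
        omega
      simp at h4
      omega
    have hle : ∀ i ≤ M, nn i ≤ k * (n - k) := by
      intro i hi
      rw [← hs]
      exact Finset.single_le_sum (f := nn) (fun _ _ => Nat.zero_le _)
        (Finset.mem_range.2 (by omega))
    let ι : Type := Σ l : Fin (M + 1), Fin (nn l)
    have hcard : Fintype.card ι = k * (n - k) := by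
      rw [Fintype.card_sigma]
      simp only [Fintype.card_fin]
      rw [← hs, Fin.sum_univ_eq_sum_range]
    let w : ι → (Fin k → Fin n) → ℂ := fun a => ct (u a.1) a.2
    have hw : ∀ a, ev (w a) B = 0 := fun a => hv a.1 (by have := a.1.2; omega) a.2 a.2.2
    by_cases hiso : Iso w B
    · -- isolated: split the flag number `i`
      let W : ℕ → ι → (Fin k → Fin n) → ℂ := fun ν a =>
        if (a.1 : ℕ) = i ∧ (a.2 : ℕ) + 1 = nn i then
          ∑ r ∈ Finset.range (k * (n - k) + 1 - (nn i - 1)),
            ((1 / ((ν : ℝ) + 1) : ℝ) : ℂ) ^ r • ct (u i) (nn i - 1 + r)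
        else w a
      have hlim0 : Tendsto (fun ν : ℕ => (1 / ((ν : ℝ) + 1) : ℝ)) atTop (𝓝 0) :=
        tendsto_one_div_add_atTop_nhds_zero_nat
      have hWlim : ∀ a s, Tendsto (fun ν => W ν a s) atTop (𝓝 (w a s)) := by
        intro a s
        by_cases ha : (a.1 : ℕ) = i ∧ (a.2 : ℕ) + 1 = nn i
        · simp only [W, if_pos ha, Finset.sum_apply, Pi.smul_apply]
          have h2 : w a s = ∑ r ∈ Finset.range (k * (n - k) + 1 - (nn i - 1)),
              (0 : ℂ) ^ r • ct (u i) (nn i - 1 + r) s := by
            rw [Finset.sum_eq_single 0]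
            · simp only [pow_zero, one_smul, add_zero, w]
              have e1 : (a.2 : ℕ) = nn i - 1 := by omega
              rw [e1]
              have e2 : u a.1 = u i := congrArg u ha.1
              rw [e2]
            · intro r _ hr
              rw [zero_pow hr, zero_smul]
            · intro h3
              exfalso
              rw [Finset.mem_range] at h3
              have := hle i hiM
              omega
          rw [h2]
          refine tendsto_finsetSum _ fun r _ => ?_
          refine Tendsto.smul_const ?_ _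
          refine Tendsto.pow ?_ r
          exact_mod_cast (Complex.continuous_ofReal.tendsto 0).comp hlim0
        · simp only [W, if_neg ha]
          exact tendsto_const_nhds
      obtain ⟨Bs, hBs, hBW⟩ := I.pers hcard w W hWlim B hB hw hiso
      refine I.lim Bs B hBs hB (Eventually.frequently ?_)
      have hli : ∀ᶠ ν in atTop, LinearIndependent ℂ (Bs ν) :=
        hBs.eventually (isOpen_setOf_linearIndependent.mem_nhds hB)
      have hpq : ∀ᶠ ν : ℕ in atTop, i < M →
          Pos n ((P (1 / ((ν : ℝ) + 1)))⁻¹ * ((u i)⁻¹ * u (i + 1))) := by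
        by_cases hiM' : i < M
        · have h3 : Tendsto (fun ν : ℕ => P (1 / ((ν : ℝ) + 1))) atTop (𝓝 1) :=
            I.pcont.comp hlim0
          have hu3 : ∀ ν : ℕ, Uni (P (1 / ((ν : ℝ) + 1))) := fun ν =>
            (I.ppos _ (by positivity)).uni
          have h4 : Tendsto (fun ν : ℕ => (P (1 / ((ν : ℝ) + 1)))⁻¹ * ((u i)⁻¹ * u (i + 1)))
              atTop (𝓝 ((u i)⁻¹ * u (i + 1))) := by
            have h5 := tendsto_mul' (tendsto_inv (Eventually.of_forall hu3) Uni.one h3)
              (tendsto_const_nhds (x := (u i)⁻¹ * u (i + 1)))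
            simpa using h5
          filter_upwards [h4.eventually (pos_open (hC.pos i hiM'))] with ν hν _
          exact hν ((hu3 ν).inv.mul (hC.pos i hiM').uni)
        · exact Eventually.of_forall fun ν h => absurd h hiM'
      filter_upwards [hBW, hli, hpq] with ν hν hlν hpν
      have ht : (0 : ℝ) < 1 / ((ν : ℝ) + 1) := by positivity
      refine ihe (M + 1) (ins u i (u i) (u i * P (1 / ((ν : ℝ) + 1))))
        (ins nn i (nn i - 1) 1) (by omega) (hC.ins hiM (I.ppos _ ht) hpν) ?_ ?_ ?_ (Bs ν) hlν ?_
      · intro l hl hlM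
        unfold ins
        split_ifs with h3 h4 h5
        · exact h1 l hl (by omega)
        · omega
        · omega
        · exact h1 (l - 1) (by omega) (by omega)
      · obtain ⟨d, rfl⟩ : ∃ d, M = i + d := ⟨M - i, by omega⟩
        rw [sum_ins nn i (nn i - 1) 1 (by omega) d, hs]
      · simp only [ins, if_pos (by omega : 0 < i)]
        exact h0
      · -- the equations
        have hsame : ∀ l ≤ M, ∀ q < nn l, ¬ (l = i ∧ q + 1 = nn i) →
            ev (ct (u l) q) (Bs ν) = 0 := by
          intro l hl q hq hne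
          have := hν ⟨⟨l, by omega⟩, ⟨q, hq⟩⟩
          simp only [W, if_neg hne, w] at this
          exact this
        have hlast : ev (∑ r ∈ Finset.range (k * (n - k) + 1 - (nn i - 1)),
            ((1 / ((ν : ℝ) + 1) : ℝ) : ℂ) ^ r • ct (u i) (nn i - 1 + r)) (Bs ν) = 0 := by
          have := hν ⟨⟨i, by omega⟩, ⟨nn i - 1, show nn i - 1 < nn i by omega⟩⟩
          simp only [W] at this
          rwa [if_pos ⟨trivial, by omega⟩] at this
        intro l hl q hq
        unfold ins at hq ⊢
        split_ifs at hq ⊢ with h3 h4 h5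
        · exact hsame l (by omega) q hq (by omega)
        · exact hsame i hiM q (by omega) (by omega)
        · obtain rfl : q = 0 := by omega
          rw [I.cte (u i) (hC.uni i hiM)]
          have h6 : k * (n - k) + 1 = (nn i - 1) + (k * (n - k) + 1 - (nn i - 1)) := by
            have := hle i hiM
            omega
          rw [h6, Finset.sum_range_add, Finset.sum_eq_zero, zero_add]
          · rw [ev_sum] at hlast
            calc _ = (((1 / ((ν : ℝ) + 1) : ℝ) : ℂ)) ^ (nn i - 1) *
                ∑ r ∈ Finset.range (k * (n - k) + 1 - (nn i - 1)),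
                  ev (((1 / ((ν : ℝ) + 1) : ℝ) : ℂ) ^ r • ct (u i) (nn i - 1 + r)) (Bs ν) := by
                  rw [Finset.mul_sum]
                  refine Finset.sum_congr rfl fun r _ => ?_
                  rw [ev_smul, pow_add, mul_assoc]
              _ = 0 := by rw [hlast, mul_zero]
          · intro q hq'
            rw [Finset.mem_range] at hq'
            rw [hsame i hiM q (by omega) (by omega), mul_zero]
        · exact hsame (l - 1) (by omega) q hq (by omega)
    · -- not isolated: contradiction
      exfalso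
      obtain ⟨B', hB', hw', hg'⟩ := I.fin w (ct (u 0) (nn 0)) B hB hw hiso
      have hv' : ∀ i ≤ M, ∀ q < nn i, ev (ct (u i) q) B' = 0 := fun i hi q hq =>
        hw' ⟨⟨i, by omega⟩, ⟨q, hq⟩⟩
      have hreal : IsReal n (sp B') := by
        -- decrease the last multiplicity
        let nn' : ℕ → ℕ := fun l => if l = 0 then nn 0 + 1 else if l = M then nn M - 1 else nn l
        have hv2 : ∀ i ≤ M, ∀ q < nn' i, ev (ct (u i) q) B' = 0 := by
          intro i hi q hq
          simp only [nn'] at hq
          split_ifs at hq with h3 h4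
          · subst h3
            rcases Nat.lt_or_ge q (nn 0) with h5 | h5
            · exact hv' 0 (by omega) q h5
            · obtain rfl : q = nn 0 := by omega
              exact hg'
          · subst h4
            exact hv' i hi q (by omega)
          · exact hv' i hi q hq
        have hs' : ∑ i ∈ Finset.range (M + 1), nn' i = k * (n - k) := by
          obtain ⟨M', rfl⟩ : ∃ M', M = M' + 1 := ⟨M - 1, by omega⟩
          rw [← hs, Finset.sum_range_succ, Finset.sum_range_succ nn,
            Finset.sum_range_succ', Finset.sum_range_succ' nn]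
          have h3 : ∀ l ∈ Finset.range M', nn' (l + 1) = nn (l + 1) := by
            intro l hl
            rw [Finset.mem_range] at hl
            simp only [nn', if_neg (by omega : ¬ l + 1 = 0),
              if_neg (by omega : ¬ l + 1 = M' + 1)]
          rw [Finset.sum_congr rfl h3]
          have h4 : nn' 0 = nn 0 + 1 := by simp [nn']
          have h5 : nn' (M' + 1) = nn (M' + 1) - 1 := by simp [nn']
          have h6 := h1 (M' + 1) (by omega) le_rfl
          rw [h4, h5]
          omega
        by_cases hlastM : nn M = 1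
        · -- drop the last flag
          obtain ⟨M', rfl⟩ : ∃ M', M = M' + 1 := ⟨M - 1, by omega⟩
          have h5 : nn' (M' + 1) = 0 := by simp [nn', hlastM]
          rw [Finset.sum_range_succ, h5, add_zero] at hs'
          refine ihD (D - 1) (by omega) (D - 1 - M') M' u nn' (by omega) (hC.mono (by omega))
            ?_ hs' ?_ B' hB' fun i hi q hq => hv2 i (by omega) q hq
          · intro l hl hlM
            simp only [nn', if_neg (by omega : ¬ l = 0), if_neg (by omega : ¬ l = M' + 1)]
            exact h1 l hl (by omega)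
          · simp only [nn', if_true]
            omega
        · refine ihD (D - 1) (by omega) (D - 1 - M) M u nn' (by omega) hC ?_ hs' ?_ B' hB' hv2
          · intro l hl hlM
            simp only [nn', if_neg (by omega : ¬ l = 0)]
            split_ifs with h6
            · have := h1 M (by omega) le_rfl
              omega
            · exact h1 l hl hlM
          · simp only [nn', if_true]
            omega
      -- the sum of the orders is too large
      let nn2 : ℕ → ℕ := fun l => if l = 0 then nn 0 + 1 else nn l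
      have h7 := I.gra M u nn2 hC B' hB' hreal (by
        intro i hi q hq
        simp only [nn2] at hq
        split_ifs at hq with h3
        · subst h3
          rcases Nat.lt_or_ge q (nn 0) with h5 | h5
          · exact hv' 0 (by omega) q h5
          · obtain rfl : q = nn 0 := by omega
            exact hg'
        · exact hv' i hi q hq)
      have h8 : ∑ i ∈ Finset.range (M + 1), nn2 i = k * (n - k) + 1 := by
        rw [← hs, Finset.sum_range_succ', Finset.sum_range_succ' nn]
        have h3 : ∀ l ∈ Finset.range M, nn2 (l + 1) = nn (l + 1) := by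
          intro l hl
          simp only [nn2, if_neg (by omega : ¬ l + 1 = 0)]
        rw [Finset.sum_congr rfl h3]
        have h4 : nn2 0 = nn 0 + 1 := by simp [nn2]
        rw [h4]
        ring
      omega

end Pool.TPC
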