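import Pool.Agent.TPC.Size
import Pool.Agent.TPC.R
import Pool.Agent.TP.FinalA

/-! From the reality theorem for contact orders to Schubert conditions. -/

set_option autoImplicit false

open Module Finset Pool.CSC Pool.TP Matrix

namespace Pool.TPC

noncomputable section

variable {n k : ℕ}

/-- a frame of a subspace -/
theorem exists_frame_span {H : Submodule ℂ (Fin n → ℂ)} (hH : finrank ℂ ↥H = k) :
    ∃ B : Fin k → Fin n → ℂ, LinearIndependent ℂ B ∧ Submodule.span ℂ (Set.range B) = H := by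
  let b : Basis (Fin k) ℂ ↥H := (Module.finBasis ℂ ↥H).reindex (finCongr hH)
  refine ⟨fun a => (b a : Fin n → ℂ), ?_, ?_⟩
  · exact b.linearIndependent.map' H.subtype (Submodule.ker_subtype H)
  · have h1 : (Set.range fun a => (b a : Fin n → ℂ)) = H.subtype '' Set.range b := by
      rw [← Set.range_comp]
      rfl
    rw [h1, ← Submodule.map_span, b.span_eq, Submodule.map_top, Submodule.range_subtype]

/-- small weights vanish on Schubert varieties -/
theorem pl_zero_of_schub {u : Matrix (Fin n) (Fin n) ℝ} (hu : TPT.Uni u) (hkn : k ≤ n)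
    {B : Fin k → Fin n → ℂ} (hB : LinearIndependent ℂ B) {lam : Fin k → ℕ}
    (hle : ∀ i, lam i ≤ n - k)
    (hH : Submodule.span ℂ (Set.range B) ∈ schub k n lam (Pool.TP.flg u)) (s : Fin k → Fin n)
    (hs : StrictMono s) (hw : ∑ c, ((s c : ℕ) - (c : ℕ)) < ∑ i, lam i) : pl s (mv u B) = 0 := by
  obtain ⟨P, hP, -, -, hdim, hmin⟩ := exists_pivots (li_mv hu hB) rfl
  by_contra hne
  have h1 := hmin s hs hne
  have h2 := lam_le_size hu hP hdim hle hkn hH
  have h3 : ∑ c, ((P c : ℕ) - (c : ℕ)) ≤ ∑ c, ((s c : ℕ) - (c : ℕ)) :=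
    Finset.sum_le_sum fun c _ => Nat.sub_le_sub_right (Fin.le_def.1 (h1 c)) _
  omega

/-- the reality theorem for Schubert conditions from the one for contact orders -/
theorem realThm_of_itf {P : ℝ → Matrix (Fin n) (Fin n) ℝ}
    {ct : Matrix (Fin n) (Fin n) ℝ → ℕ → (Fin k → Fin n) → ℂ} (I : Itf k n P ct) (hkn : k ≤ n)
    (hct : ∀ u, TPT.Uni u → ∀ B : Fin k → Fin n → ℂ, LinearIndependent ℂ B → ∀ a : ℕ,
      (∀ s : Fin k → Fin n, StrictMono s → ∑ c, ((s c : ℕ) - (c : ℕ)) < a → pl s (mv u B) = 0) →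
      ∀ q < a, ev (ct u q) B = 0) : RealThm k n := by
  intro M u hU hP lam hlam hone H hH
  obtain ⟨B, hB, rfl⟩ := exists_frame_span (hH 0).1
  let u' : ℕ → Matrix (Fin n) (Fin n) ℝ := fun i => if h : i < M + 1 then u ⟨i, h⟩ else 1
  let nn : ℕ → ℕ := fun i => if h : i < M + 1 then ∑ a, lam ⟨i, h⟩ a else 0
  have hu' : ∀ i (h : i < M + 1), u' i = u ⟨i, h⟩ := fun i h => dif_pos h
  have hn' : ∀ i (h : i < M + 1), nn i = ∑ a, lam ⟨i, h⟩ a := fun i h => dif_pos h
  have hC : Chn n M u' := by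
    refine ⟨fun i hi => ?_, fun i hi => ?_⟩
    · rw [hu' i (by omega)]
      exact hU _
    · rw [hu' i (by omega), hu' (i + 1) (by omega)]
      exact hP _ _ (Fin.lt_def.2 (Nat.lt_succ_self i))
  have hsum : ∑ i ∈ Finset.range (M + 1), nn i = k * (n - k) := by
    rw [← hlam.sum, ← Fin.sum_univ_eq_sum_range]
    exact Finset.sum_congr rfl fun i _ => hn' i i.isLt
  have h1 : ∀ i, 1 ≤ i → i ≤ M → 1 ≤ nn i := by
    intro i _ hi
    rw [hn' i (by omega)]
    exact hone _
  have hD : M ≤ ∑ i ∈ Finset.range M, nn (i + 1) := by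
    have h2 : ∑ i ∈ Finset.range M, 1 ≤ ∑ i ∈ Finset.range M, nn (i + 1) :=
      Finset.sum_le_sum fun i hi => h1 (i + 1) (by omega) (by
        rw [Finset.mem_range] at hi
        omega)
    simpa using h2
  have hsum' : ∑ i ∈ Finset.range M, nn (i + 1) + nn 0 = k * (n - k) := by
    rw [← hsum, Finset.sum_range_succ']
  refine reality I (∑ i ∈ Finset.range M, nn (i + 1))
    (∑ i ∈ Finset.range M, nn (i + 1) - M) M u' nn (by omega) hC h1 hsum (by omega) B hB ?_
  intro i hi q hq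
  rw [hn' i (by omega)] at hq
  rw [hu' i (by omega)]
  exact hct _ (hU _) B hB _ (fun s hs hw =>
    pl_zero_of_schub (hU _) hkn hB (hlam.le _) (hH _) s hs hw) q hq

/-- (G) for contact orders -/
theorem gra_of_ord {ct : Matrix (Fin n) (Fin n) ℝ → ℕ → (Fin k → Fin n) → ℂ}
    (hct : ∀ u, TPT.Uni u → ∀ B : Fin k → Fin n → ℂ, LinearIndependent ℂ B → ∀ a : ℕ,
      (∀ q < a, ev (ct u q) B = 0) →
      ∀ s : Fin k → Fin n, StrictMono s → ∑ c, ((s c : ℕ) - (c : ℕ)) < a → pl s (mv u B) = 0)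
    (M : ℕ) (u : ℕ → Matrix (Fin n) (Fin n) ℝ) (nn : ℕ → ℕ) (hC : Chn n M u)
    (B : Fin k → Fin n → ℂ) (hB : LinearIndependent ℂ B) (hR : IsReal n (sp B))
    (hord : ∀ i ≤ M, ∀ q < nn i, ev (ct (u i) q) B = 0) :
    ∑ i ∈ Finset.range (M + 1), nn i ≤ k * (n - k) := by
  have hk : finrank ℂ ↥(sp B) = k := by
    rw [finrank_span_eq_card hB, Fintype.card_fin]
  have h1 := sum_con_le (g := fun i : Fin (M + 1) => u i) (H := sp B)
    (fun i => hC.uni i (Nat.le_of_lt_succ i.isLt))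
    (fun i j hij => by
      have h2 := hC.pos i (by have := j.isLt; omega)
      rwa [hij] at h2) hR hk
  refine le_trans ?_ h1
  rw [← Fin.sum_univ_eq_sum_range]
  refine Finset.sum_le_sum fun i _ => ?_
  have hu := hC.uni i (Nat.le_of_lt_succ i.isLt)
  obtain ⟨P, hP, hne, -, hdim, -⟩ := exists_pivots (li_mv hu hB) rfl
  refine le_trans ?_ (size_le_con hu hB hP hdim)
  by_contra hc
  exact hne (hct _ hu B hB (nn i) (hord i (Nat.le_of_lt_succ i.isLt)) P hP (by omega))

end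

end Pool.TPC
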