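import Pool.Agent.TPC.Ech

/-! Row CELL: the tangent space of a cell. -/

set_option autoImplicit false

namespace Pool.TPC

open Matrix Module Pool.CSC Pool.TPT Filter Topology

variable {k n : ℕ}

/-- the size of the position is the exact order -/
theorem size_eq {u : RM n} (hu : IsUnit u.det) {B : Fr k n} (hB : LinearIndependent ℂ B) {b : ℕ}
    (ho : Ord b u B) (hne : ∃ s : Ix k n, StrictMono s ∧ wt s = b ∧ pl s (act (cx u⁻¹) B) ≠ 0) :
    ∑ j ∈ Finset.range n, finrank ℂ ↥(sp B ⊓ flg u j) = b + ∑ b : Fin k, (b : ℕ) := by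
  have h1 := (Ord_iff_size hu hB b).1 ho
  refine le_antisymm ?_ h1
  by_contra hc
  obtain ⟨s, hs, hw, hp⟩ := hne
  refine hp ((Ord_iff_size hu hB (b + 1)).2 (by omega) s hs (by omega))

theorem cellT {u : RM n} (hu : IsUnit u.det) {B Z : Fr k n} (hB : LinearIndependent ℂ B) {b : ℕ}
    (ho : Ord b u B) (hne : ∃ s : Ix k n, StrictMono s ∧ wt s = b ∧ pl s (act (cx u⁻¹) B) ≠ 0)
    (hZ : ∀ s : Ix k n, StrictMono s → wt s < b →
      dpl s (act (cx u⁻¹) B) (act (cx u⁻¹) Z) = 0) : CellT u B Z := by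
  intro j c hc
  have hsz := size_eq hu hB ho hne
  let φ : ↥(sp B) →ₗ[ℂ] (Fin n → ℂ) ⧸ sp B :=
    (Basis.span hB).constr ℂ (fun a => (sp B).mkQ (Z a))
  have hφ : ∀ a (ha : B a ∈ sp B), φ ⟨B a, ha⟩ = (sp B).mkQ (Z a) := by
    intro a ha
    have h1 : (⟨B a, ha⟩ : ↥(sp B)) = Basis.span hB a := (Basis.span_apply hB a).symm
    rw [h1]
    exact Basis.constr_basis _ _ _ _
  have hsum : (∑ b, c b • B b) ∈ sp B :=
    Submodule.sum_mem _ fun b _ => Submodule.smul_mem _ _ (Submodule.subset_span ⟨b, rfl⟩)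
  have h1 := cell_mp (eqv u hu) hB (rfl : sp B = sp B) (Z := Z) (by
    intro s hs hw
    have h2 : ∀ j, finrank ℂ ↥(sp B ⊓ mp (eqv u hu) (E0 n j)) = finrank ℂ ↥(sp B ⊓ flg u j) :=
      fun j => by rw [flg_eq hu]
    simp only [h2] at hw
    rw [hsz, ← wt_add hs] at hw
    exact hZ s hs (by omega)) φ hφ j ⟨∑ b, c b • B b, hsum⟩ (by
    rw [← flg_eq hu]
    exact hc)
  have h2 : φ ⟨∑ b, c b • B b, hsum⟩ = (sp B).mkQ (∑ b, c b • Z b) := by
    have h3 : (⟨∑ b, c b • B b, hsum⟩ : ↥(sp B)) =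
        ∑ b, c b • (⟨B b, Submodule.subset_span ⟨b, rfl⟩⟩ : ↥(sp B)) := by
      refine Subtype.ext ?_
      rw [Submodule.coe_sum]
      rfl
    rw [h3, map_sum, map_sum]
    refine Finset.sum_congr rfl fun b _ => ?_
    rw [map_smul, map_smul, hφ]
  rw [h2, ← flg_eq hu] at h1
  obtain ⟨w, hw, hw2⟩ := h1
  rw [← sub_eq_zero, ← map_sub, ← LinearMap.mem_ker, Submodule.ker_mkQ] at hw2
  have h3 : ∑ b, c b • Z b = -(w - ∑ b, c b • Z b) + w := by abel
  rw [h3]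
  exact Submodule.add_mem_sup (Submodule.neg_mem _ hw2) hw

end Pool.TPC
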