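import Pool.Agent.TPC.Defs
import Pool.Agent.CTG.CptA

/-! Row CPT: compactness of the Grassmannian in terms of frames. -/

namespace Pool.TPC

open Matrix Module Pool.CSC Pool.TPT Filter Topology

variable {k n : ℕ}

theorem cpt {α : Type*} (B : α → Fr k n) (hB : ∀ x, LinearIndependent ℂ (B x)) :
    ∃ B' : α → Fr k n, (∀ x, LinearIndependent ℂ (B' x) ∧ sp (B' x) = sp (B x)) ∧
      ∀ U : Ultrafilter α, ∃ B0 : Fr k n, LinearIndependent ℂ B0 ∧ Tendsto B' U (𝓝 B0) := by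
  have hH : ∀ x, finrank ℂ ↥(sp (B x)) = k := by
    intro x
    rw [sp, finrank_span_eq_card (hB x), Fintype.card_fin]
  choose Bs hBs hsp using fun x => CTG.CpA.exists_frame (hH x)
  have hli : ∀ B : Fin k → EuclideanSpace ℂ (Fin n), B ∈ CTG.CpA.K k n →
      LinearIndependent ℂ fun a => CTG.CpA.eu n (B a) := by
    intro B hB
    have h1 := Orthonormal.linearIndependent hB
    exact h1.map' ((CTG.CpA.eu n : EuclideanSpace ℂ (Fin n) →L[ℂ] CTG.V n) :
      EuclideanSpace ℂ (Fin n) →ₗ[ℂ] CTG.V n) (LinearMap.ker_eq_bot.2 (CTG.CpA.eu n).injective)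
  refine ⟨fun x a => CTG.CpA.eu n (Bs x a), fun x => ⟨hli _ (hBs x), hsp x⟩, fun U => ?_⟩
  obtain ⟨B0, hB0, hle⟩ := (CTG.CpA.isCompact_K k n).ultrafilter_le_nhds (U.map Bs) (by
    rw [Filter.le_principal_iff]
    exact Filter.mem_map.2 (Filter.univ_mem' hBs))
  refine ⟨fun a => CTG.CpA.eu n (B0 a), hli _ hB0, ?_⟩
  have hc : Continuous fun B : Fin k → EuclideanSpace ℂ (Fin n) => fun a => CTG.CpA.eu n (B a) :=
    continuous_pi fun a => (CTG.CpA.eu n).continuous.comp (continuous_apply a)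
  exact (hc.tendsto B0).comp hle

end Pool.TPC
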