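import Pool.Agent.TPC.Defs
import Pool.Agent.TPC.CellU

/-! Row ECH: pivots, weights, orders of points of Schubert varieties. -/

set_option autoImplicit false

namespace Pool.TPC

open Matrix Module Pool.CSC Pool.TPT Filter Topology

variable {k n : ℕ}

theorem wt_add {s : Ix k n} (hs : StrictMono s) :
    wt s + ∑ b : Fin k, (b : ℕ) = ∑ b, (s b : ℕ) := by
  rw [wt, ← Finset.sum_add_distrib]
  exact Finset.sum_congr rfl fun b _ => Nat.sub_add_cancel (ge_self hs b)

theorem wt_mono {p s : Ix k n} (h : ∀ b, p b ≤ s b) : wt p ≤ wt s :=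
  Finset.sum_le_sum fun b _ => Nat.sub_le_sub_right (Fin.le_def.1 (h b)) _

/-- equal weight and comparable implies equal -/
theorem eq_of_wt {p s : Ix k n} (hp : StrictMono p) (hs : StrictMono s) (h : ∀ b, p b ≤ s b)
    (hw : wt p = wt s) : p = s := by
  refine (eq_of_le_of_sum h ?_).symm
  rw [← wt_add hp, ← wt_add hs, hw]

theorem s0_strictMono (hk : k ≤ n) : StrictMono (s0 hk : Ix k n) := fun _ _ h => h

theorem wt_s0 (hk : k ≤ n) : wt (s0 hk) = 0 :=
  Finset.sum_eq_zero fun _ _ => Nat.sub_self _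

/-- the only tuple of weight zero -/
theorem eq_s0 (hk : k ≤ n) {s : Ix k n} (hs : StrictMono s) (h : wt s = 0) : s = s0 hk := by
  symm
  refine eq_of_wt (s0_strictMono hk) hs (fun b => Fin.le_def.2 (ge_self hs b)) ?_
  rw [wt_s0, h]

theorem le_top {s : Ix k n} (hs : StrictMono s) (b : Fin k) :
    (s b : ℕ) + (k - 1 - b) ≤ n - 1 := by
  have key : ∀ m : ℕ, ∀ b : Fin k, (b : ℕ) + m = k - 1 → (s b : ℕ) + m ≤ n - 1 := by
    intro m
    induction m with
    | zero => intro b _; have := (s b).isLt; omega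
    | succ m ih =>
      intro b hb
      have hb' := b.isLt
      let c : Fin k := ⟨b + 1, by omega⟩
      have h1 := ih c (show (b : ℕ) + 1 + m = k - 1 by omega)
      have h2 : s b < s c := hs (Fin.lt_def.2 (Nat.lt_succ_self _))
      have h3 := Fin.lt_def.1 h2
      omega
  have hb' := b.isLt
  exact key _ b (by omega)

theorem wt_le (_hk : k ≤ n) {s : Ix k n} (hs : StrictMono s) : wt s ≤ k * (n - k) := by
  have h1 : wt s ≤ ∑ _b : Fin k, (n - k) := by
    refine Finset.sum_le_sum fun b _ => ?_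
    have h2 := le_top hs b
    have h3 := b.isLt
    omega
  simpa using h1

theorem eq_top_of_wt (hk : k ≤ n) {s : Ix k n} (hs : StrictMono s) (h : k * (n - k) ≤ wt s)
    (b : Fin k) : (s b : ℕ) = n - k + b := by
  have h0 : ∀ c : Fin k, (s c : ℕ) - c ≤ n - k := fun c => by
    have h2 := le_top hs c
    have h3 := c.isLt
    omega
  have h1 : ∀ c ∈ Finset.univ, (s c : ℕ) - (c : ℕ) = n - k := by
    refine (Finset.sum_eq_sum_iff_of_le fun c _ => h0 c).1 (le_antisymm
      (Finset.sum_le_sum fun c _ => h0 c) ?_)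
    refine le_trans ?_ h
    simp
  have h2 := h1 b (Finset.mem_univ b)
  have h3 := ge_self hs b
  omega

/-- the pivot tuple: all nonzero Pluecker coordinates lie above it -/
theorem exists_piv {B : Fr k n} (hB : LinearIndependent ℂ B) :
    ∃ p : Ix k n, StrictMono p ∧ pl p B ≠ 0 ∧
      ∀ s : Ix k n, StrictMono s → pl s B ≠ 0 → ∀ b, p b ≤ s b := by
  obtain ⟨P, hP, h1, -, -, h2⟩ := exists_pivots hB (rfl : sp B = sp B)
  exact ⟨P, hP, h1, h2⟩

/-- orders at the standard flag -/
theorem ord_iff_sz0 {B : Fr k n} (hB : LinearIndependent ℂ B) (a : ℕ) :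
    (∀ s : Ix k n, StrictMono s → wt s < a → pl s B = 0) ↔
      a + ∑ b : Fin k, (b : ℕ) ≤ sz0 (sp B) := by
  rw [le_sz0_iff hB (rfl : sp B = sp B)]
  refine forall_congr' fun s => forall_congr' fun hs => ?_
  rw [← wt_add hs]
  constructor
  · intro h h'
    exact h (by omega)
  · intro h h'
    exact h (by omega)

/-- the last `k` standard vectors -/
theorem sp_eq_top {B : Fr k n} (hk : k ≤ n) (hB : LinearIndependent ℂ B)
    (h : ∀ s : Ix k n, StrictMono s → wt s < k * (n - k) → pl s B = 0) : sp B = E0 n k := by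
  obtain ⟨P, hP, h1, h2⟩ := exists_piv hB
  obtain ⟨P', hP', h1', -, h3, -⟩ := exists_pivots hB (rfl : sp B = sp B)
  have h4 : k * (n - k) ≤ wt P' := by
    by_contra hc
    exact h1' (h P' hP' (not_le.1 hc))
  have h5 : finrank ℂ ↥(sp B ⊓ E0 n k) = k := by
    rw [h3 k]
    have h6 : (Finset.univ.filter fun a => n ≤ (P' a : ℕ) + k) = Finset.univ := by
      rw [Finset.filter_true_of_mem]
      intro a _
      rw [eq_top_of_wt hk hP' h4 a]
      omega
    rw [h6, Finset.card_univ, Fintype.card_fin]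
  have h6 : finrank ℂ ↥(sp B) = k := by
    rw [sp, finrank_span_eq_card hB, Fintype.card_fin]
  have h7 : sp B ≤ E0 n k := by
    rw [← inf_eq_left]
    exact Submodule.eq_of_le_of_finrank_eq inf_le_left (h5.trans h6.symm)
  refine Submodule.eq_of_le_of_finrank_le h7 ?_
  rw [h6]
  -- the dimension of `E0 n k` is at most `k`
  let T : ↥(E0 n k) →ₗ[ℂ] (Fin k → ℂ) :=
    { toFun := fun v c => (v : Fin n → ℂ) ⟨n - k + c, by have := c.isLt; omega⟩
      map_add' := fun _ _ => rfl
      map_smul' := fun _ _ => rfl }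
  have hT : Function.Injective T := by
    rw [← LinearMap.ker_eq_bot, LinearMap.ker_eq_bot']
    intro v hv
    refine Subtype.ext (funext fun i => ?_)
    by_cases hi : (i : ℕ) + k < n
    · exact v.2 i hi
    · have h8 := i.isLt
      have h9 := congrFun hv ⟨(i : ℕ) - (n - k), by omega⟩
      have h10 : (⟨n - k + ((i : ℕ) - (n - k)), by omega⟩ : Fin n) = i := Fin.ext (by
        show n - k + ((i : ℕ) - (n - k)) = i
        omega)
      have h11 : (v : Fin n → ℂ) (⟨n - k + ((i : ℕ) - (n - k)), by omega⟩ : Fin n) = 0 := h9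
      rw [h10] at h11
      exact h11
  have h8 := LinearMap.finrank_le_finrank_of_injective hT
  rwa [finrank_fin_fun] at h8

theorem isReal_E0 (n j : ℕ) : IsReal n (E0 n j) := by
  intro v hv i hi
  show (starRingEnd ℂ) (v i) = 0
  rw [hv i hi, map_zero]

/-- the matrix of the identity -/
theorem act_cx_one (B : Fr k n) : act (cx (1 : RM n)⁻¹) B = B := by
  have h : cx (1 : RM n)⁻¹ = 1 := by
    ext i j
    rw [cx, inv_one, Matrix.map_apply, Matrix.one_apply, Matrix.one_apply]
    split_ifs <;> simp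
  rw [h]
  funext a
  exact Matrix.one_mulVec _

/-- the space of maximal order is real -/
theorem real_of_top (hk : k ≤ n) {B : Fr k n} (hB : LinearIndependent ℂ B)
    (h : Ord (k * (n - k)) 1 B) : IsReal n (sp B) := by
  rw [sp_eq_top hk hB fun s hs hw => by
    have h1 := h s hs hw
    rwa [act_cx_one] at h1]
  exact isReal_E0 n k

theorem Ord_one_iff (hk : k ≤ n) (u : RM n) (B : Fr k n) :
    Ord 1 u B ↔ pl (s0 hk) (act (cx u⁻¹) B) = 0 := by
  constructor
  · intro h
    exact h _ (s0_strictMono hk) (by rw [wt_s0]; exact Nat.one_pos)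
  · intro h s hs hw
    rw [eq_s0 hk hs (by omega)]
    exact h

/-! ### the flag of a matrix -/

section flag

variable {u : RM n} (hu : IsUnit u.det)

theorem cx_mul' (u v : RM n) : cx (u * v) = cx u * cx v := by
  ext i j
  simp [cx, Matrix.mul_apply]

theorem cx_one' : cx (1 : RM n) = 1 := by
  ext i j
  rw [cx, Matrix.map_apply, Matrix.one_apply, Matrix.one_apply]
  split_ifs <;> simp

include hu in
theorem cx_inv_mul : cx u⁻¹ * cx u = 1 := by
  rw [← cx_mul', Matrix.nonsing_inv_mul _ hu, cx_one']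

include hu in
theorem cx_mul_inv : cx u * cx u⁻¹ = 1 := by
  rw [← cx_mul', Matrix.mul_nonsing_inv _ hu, cx_one']

/-- the linear equivalence of an invertible real matrix -/
noncomputable def eqv (u : RM n) (hu : IsUnit u.det) : (Fin n → ℂ) ≃ₗ[ℂ] (Fin n → ℂ) where
  toFun v := cx u *ᵥ v
  invFun v := cx u⁻¹ *ᵥ v
  map_add' v w := Matrix.mulVec_add _ v w
  map_smul' c v := Matrix.mulVec_smul _ c v
  left_inv v := by
    show cx u⁻¹ *ᵥ (cx u *ᵥ v) = v
    rw [Matrix.mulVec_mulVec, cx_inv_mul hu, Matrix.one_mulVec]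
  right_inv v := by
    show cx u *ᵥ (cx u⁻¹ *ᵥ v) = v
    rw [Matrix.mulVec_mulVec, cx_mul_inv hu, Matrix.one_mulVec]

theorem eqv_apply (v : Fin n → ℂ) : eqv u hu v = cx u *ᵥ v := rfl

theorem eqv_symm_apply (v : Fin n → ℂ) : (eqv u hu).symm v = cx u⁻¹ *ᵥ v := rfl

theorem E0_eq_span (n j : ℕ) :
    E0 n j = Submodule.span ℂ {v | ∃ i : Fin n, n - j ≤ (i : ℕ) ∧ v = Pi.single i 1} := by
  refine le_antisymm (fun v hv => ?_) ?_
  · have h1 : v = ∑ i, v i • (Pi.single i 1 : Fin n → ℂ) := by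
      funext l
      rw [Finset.sum_apply, Finset.sum_eq_single l]
      · simp
      · intro b _ hb
        simp [hb.symm]
      · intro h; exact absurd (Finset.mem_univ _) h
    rw [h1]
    refine Submodule.sum_mem _ fun i _ => ?_
    by_cases hi : n - j ≤ (i : ℕ)
    · exact Submodule.smul_mem _ _ (Submodule.subset_span ⟨i, hi, rfl⟩)
    · rw [hv i (by omega), zero_smul]
      exact Submodule.zero_mem _
  · rw [Submodule.span_le]
    rintro _ ⟨i, hi, rfl⟩ l hl
    rw [Pi.single_eq_of_ne]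
    rintro rfl
    omega

theorem flg_eq (j : ℕ) : flg u j = mp (eqv u hu) (E0 n j) := by
  rw [E0_eq_span, mp, Submodule.map_span, flg]
  congr 1
  ext v
  constructor
  · rintro ⟨i, hi, rfl⟩
    refine ⟨Pi.single i 1, ⟨i, hi, rfl⟩, ?_⟩
    show cx u *ᵥ Pi.single i 1 = _
    rw [Matrix.mulVec_single_one]
    rfl
  · rintro ⟨_, ⟨i, hi, rfl⟩, rfl⟩
    refine ⟨i, hi, ?_⟩
    show cx u *ᵥ Pi.single i 1 = _
    rw [Matrix.mulVec_single_one]
    rfl

include hu in
/-- the order in terms of the dimensions of the intersections with the flag -/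
theorem Ord_iff_size {B : Fr k n} (hB : LinearIndependent ℂ B) (a : ℕ) :
    Ord a u B ↔ a + ∑ b : Fin k, (b : ℕ) ≤
      ∑ j ∈ Finset.range n, finrank ℂ ↥(sp B ⊓ flg u j) := by
  have h1 : ∀ j, finrank ℂ ↥(sp B ⊓ flg u j) = finrank ℂ ↥(sp B ⊓ mp (eqv u hu) (E0 n j)) :=
    fun j => by rw [flg_eq hu]
  simp only [h1]
  rw [← sz0_mp_symm, span_mp_symm (eqv u hu) (rfl : sp B = _)]
  exact ord_iff_sz0 (B := act (cx u⁻¹) B) (li_symm (eqv u hu) hB) a

end flag

/-- order of a point of a Schubert variety -/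
theorem Ord_of_schub (hk : k ≤ n) {u : RM n} (hu : IsUnit u.det) {lam : Fin k → ℕ}
    (_h1 : Antitone lam) (h2 : ∀ i, lam i ≤ n - k) {B : Fr k n} (hB : LinearIndependent ℂ B)
    (hH : sp B ∈ schub k n lam (flg u)) : Ord (∑ i, lam i) u B := by
  rw [Ord_iff_size hu hB]
  have h3 : flg u = fun j => mp (eqv u hu) (E0 n j) := funext fun j => flg_eq hu j
  rw [h3] at hH
  have h4 := size_ge_of_schub (eqv u hu) hk h2 hH
  rw [h3, add_comm]
  exact h4

end Pool.TPC
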