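import Pool.Agent.CTG.GD

/-! Row FIN, first part. A bounded polynomial function on an algebraic set takes finitely many
values. -/

namespace Pool.TPC

open MvPolynomial in
/-- a polynomial function which is bounded on the zero set of a family of polynomials takes finitely
many values there -/
theorem fin_values {κ : Type} [Finite κ] (S : Set (MvPolynomial κ ℂ)) (g : MvPolynomial κ ℂ)
    (hb : ∃ c : ℝ, ∀ x : κ → ℂ, (∀ p ∈ S, eval x p = 0) → ‖eval x g‖ ≤ c) :
    {w : ℂ | ∃ x : κ → ℂ, (∀ p ∈ S, eval x p = 0) ∧ eval x g = w}.Finite := by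
  classical
  obtain ⟨c, hc⟩ := hb
  let r : MvPolynomial κ ℂ →ₐ[ℂ] MvPolynomial (Unit ⊕ κ) ℂ := rename Sum.inr
  have hr : ∀ (a : Unit → ℂ) (x : κ → ℂ) (p : MvPolynomial κ ℂ),
      eval (Sum.elim a x) (r p) = eval x p := by
    intro a x p
    simp only [r, eval_rename, Sum.elim_comp_inr]
  let S' : Set (MvPolynomial (Unit ⊕ κ) ℂ) := (r '' S) ∪ {X (Sum.inl ()) - r g}
  have hS' : ∀ (a : Unit → ℂ) (x : κ → ℂ), (∀ p ∈ S', eval (Sum.elim a x) p = 0) ↔
      (∀ p ∈ S, eval x p = 0) ∧ eval x g = a () := by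
    intro a x
    constructor
    · intro h
      refine ⟨fun p hp => ?_, ?_⟩
      · rw [← hr a x p]
        exact h _ (Or.inl ⟨p, hp, rfl⟩)
      · have h1 := h _ (Or.inr rfl)
        rw [map_sub, hr, eval_X, Sum.elim_inl, sub_eq_zero] at h1
        exact h1.symm
    · rintro ⟨h1, h2⟩ p (⟨q, hq, rfl⟩ | hp)
      · rw [hr]
        exact h1 q hq
      · rw [Set.mem_singleton_iff] at hp
        rw [hp, map_sub, hr, eval_X, Sum.elim_inl, h2, sub_self]
  obtain ⟨P, hP, hd⟩ := Pool.CTG.gen_dich S'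
  let q : Polynomial ℂ := aeval (fun _ : Unit => (Polynomial.X : Polynomial ℂ)) P
  have hq : ∀ w : ℂ, Polynomial.eval w q = eval (fun _ : Unit => w) P := by
    intro w
    have h1 : (Polynomial.evalRingHom w).comp
        ((aeval (fun _ : Unit => (Polynomial.X : Polynomial ℂ)) :
          MvPolynomial Unit ℂ →ₐ[ℂ] Polynomial ℂ) : MvPolynomial Unit ℂ →+* Polynomial ℂ) =
        eval (fun _ : Unit => w) := by
      ext <;> simp
    exact RingHom.congr_fun h1 P
  have hq0 : q ≠ 0 := by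
    intro h0
    apply hP
    refine MvPolynomial.funext fun a => ?_
    rw [map_zero]
    have h1 : a = fun _ : Unit => a () := by
      funext i
      rfl
    rw [h1, ← hq, h0, Polynomial.eval_zero]
  have hroots : {w : ℂ | eval (fun _ : Unit => w) P = 0}.Finite := by
    refine (q.rootSet_finite ℂ).subset fun w hw => ?_
    rw [Polynomial.mem_rootSet]
    refine ⟨hq0, ?_⟩
    have h1 : Polynomial.eval w q = 0 := by
      rw [hq]
      exact hw
    simpa using h1
  rcases hd with hd | hd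
  · exfalso
    have hinf : {w : ℂ | c < ‖w‖}.Infinite := by
      have h1 : Set.range (fun m : ℕ => ((m : ℂ) + ((|c| : ℝ) : ℂ) + 1)) ⊆ {w : ℂ | c < ‖w‖} := by
        rintro _ ⟨m, rfl⟩
        have h2 : ((m : ℂ) + ((|c| : ℝ) : ℂ) + 1) = (((m : ℝ) + |c| + 1 : ℝ) : ℂ) := by
          push_cast
          ring
        show c < ‖((m : ℂ) + ((|c| : ℝ) : ℂ) + 1)‖
        have h4 : (0 : ℝ) ≤ (m : ℝ) := Nat.cast_nonneg m
        have h5 := le_abs_self c
        have h6 := abs_nonneg c
        rw [h2, Complex.norm_real, Real.norm_eq_abs, abs_of_nonneg (by linarith)]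
        linarith
      refine Set.Infinite.mono h1 (Set.infinite_range_of_injective ?_)
      intro m m' h
      have h2 : (m : ℂ) = (m' : ℂ) := by
        have h3 : (m : ℂ) + ((|c| : ℝ) : ℂ) + 1 = (m' : ℂ) + ((|c| : ℝ) : ℂ) + 1 := h
        linear_combination h3
      exact_mod_cast h2
    refine hinf (hroots.subset fun w hw => ?_)
    by_contra h0
    obtain ⟨x, hx⟩ := hd (fun _ => w) h0
    obtain ⟨h1, h2⟩ := (hS' _ _).1 hx
    have h3 := hc x h1
    rw [h2] at h3
    exact absurd h3 (not_le.2 hw)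
  · refine hroots.subset ?_
    rintro w ⟨x, hx, hxw⟩
    by_contra h0
    obtain ⟨p, hp, hp0⟩ := hd (fun _ => w) h0 x
    exact hp0 ((hS' _ _).2 ⟨hx, hxw⟩ p hp)

end Pool.TPC
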