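import Pool.Agent.TPC.GTTb

/-! Theorem T' for real subspaces: the sum of the sizes is at most `k (n - k)`, and in the case of
equality the only vector tangent to all the Schubert cells is zero. -/

namespace Pool.TPC

open Module Pool.CSC Pool.TPT Matrix

namespace GTT

variable {n k : ℕ}

/-- the matrix of a cotangent vector -/
noncomputable def mt (H : Submodule ℂ (Fin n → ℂ)) (x : ((Fin n → ℂ) ⧸ H) →ₗ[ℂ] ↥H) :
    Matrix (Fin n) (Fin n) ℂ :=
  LinearMap.toMatrix' (H.subtype ∘ₗ x ∘ₗ H.mkQ)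

lemma mt_mulVec (H : Submodule ℂ (Fin n → ℂ)) (x : ((Fin n → ℂ) ⧸ H) →ₗ[ℂ] ↥H) (v : Fin n → ℂ) :
    mt H x *ᵥ v = (x (H.mkQ v) : Fin n → ℂ) := by
  rw [mt, ← Matrix.toLin'_apply, Matrix.toLin'_toMatrix']
  rfl

lemma mt_eq_zero {H : Submodule ℂ (Fin n → ℂ)} {x : ((Fin n → ℂ) ⧸ H) →ₗ[ℂ] ↥H}
    (h : mt H x = 0) : x = 0 := by
  apply LinearMap.ext
  intro q
  obtain ⟨v, rfl⟩ := H.mkQ_surjective q
  apply Subtype.ext
  rw [← mt_mulVec, h, Matrix.zero_mulVec]
  rfl

lemma mt_sum (H : Submodule ℂ (Fin n → ℂ)) {ι : Type*} (s : Finset ι)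
    (x : ι → ((Fin n → ℂ) ⧸ H) →ₗ[ℂ] ↥H) : mt H (∑ i ∈ s, x i) = ∑ i ∈ s, mt H (x i) := by
  classical
  induction s using Finset.induction_on with
  | empty =>
    rw [Finset.sum_empty, Finset.sum_empty]
    ext i j
    simp [mt, LinearMap.toMatrix'_apply]
  | insert a s ha ih =>
    rw [Finset.sum_insert ha, Finset.sum_insert ha, ← ih]
    simp only [mt]
    rw [← map_add]
    congr 1

/-- the triangular shape of a conormal vector -/
lemma CC_slow {H : Submodule ℂ (Fin n → ℂ)} {u : RM n} (hu : Uni u)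
    {x : ((Fin n → ℂ) ⧸ H) →ₗ[ℂ] ↥H} (hx : x ∈ CC n (flg u) H) (i j : Fin n) (hij : i ≤ j) :
    (cx u⁻¹ * mt H x * cx u) i j = 0 := by
  have hdet := det_ne_zero_of_uni hu
  have h1 : (fun r => ((u r j : ℝ) : ℂ)) ∈ flg u (n - 1 - j + 1) :=
    Submodule.subset_span ⟨j, by omega, rfl⟩
  have h2 := hx (n - 1 - j) (by omega) _ h1
  rw [← mt_mulVec, mem_flg hdet] at h2
  have h3 := h2 i (by have := Fin.le_def.1 hij; omega)
  rw [Matrix.mulVec_mulVec] at h3
  rw [← h3, Matrix.mul_apply]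
  rfl

/-- conormal vectors of a positive list of flags are independent -/
theorem indep {H : Submodule ℂ (Fin n → ℂ)} (hH : IsReal n H) {M : ℕ} {g : ℕ → RM n}
    (huni : ∀ i ≤ M, Uni (g i)) (hpos : ∀ i < M, ∃ a, Pos n a ∧ g (i + 1) = g i * a)
    (x : ℕ → (((Fin n → ℂ) ⧸ H) →ₗ[ℂ] ↥H)) (hx : ∀ i ≤ M, x i ∈ CC n (flg (g i)) H)
    (hsum : ∑ i ∈ Finset.range (M + 1), x i = 0) : ∀ i ≤ M, x i = 0 := by
  have hXH : ∀ i, ∀ v ∈ H, mt H (x i) *ᵥ v = 0 := by
    intro i v hv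
    have h0 : H.mkQ v = 0 := (Submodule.Quotient.mk_eq_zero H).2 hv
    rw [mt_mulVec, h0, map_zero]
    rfl
  have hXr : ∀ i v, mt H (x i) *ᵥ v ∈ H := by
    intro i v
    rw [mt_mulVec]
    exact (x i (H.mkQ v)).2
  have hmul : ∀ i j, (reM (mt H (x i)) * reM (mt H (x j)) = 0 ∧
      reM (mt H (x i)) * imM (mt H (x j)) = 0) ∧ (imM (mt H (x i)) * reM (mt H (x j)) = 0 ∧
      imM (mt H (x i)) * imM (mt H (x j)) = 0) := fun i j => re_im_mul hH (hXH i) (hXr j)
  have hs : ∑ i ∈ Finset.range (M + 1), mt H (x i) = 0 := by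
    rw [← mt_sum, hsum]
    ext i j
    simp [mt, LinearMap.toMatrix'_apply]
  have hgg : ∀ i ≤ M, cx (g i) * cx (g i)⁻¹ = 1 := by
    intro i hi
    rw [← cx_mul, Matrix.mul_nonsing_inv _ (Ne.isUnit (det_ne_zero_of_uni (huni i hi))), cx_one]
  have hconj : ∀ i ≤ M, mt H (x i) * cx (g i) =
      cx (g i) * (cx (g i)⁻¹ * mt H (x i) * cx (g i)) := by
    intro i hi
    rw [← Matrix.mul_assoc, ← Matrix.mul_assoc, hgg i hi, Matrix.one_mul]
  have hre : ∀ i ≤ M, reM (mt H (x i)) = 0 := by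
    apply theoremT' huni hpos (x := fun i => reM (mt H (x i)))
    · intro i hi
      refine ⟨reM (cx (g i)⁻¹ * mt H (x i) * cx (g i)), ?_, ?_⟩
      · intro p q hpq
        rw [reM, Matrix.map_apply, CC_slow (huni i hi) (hx i hi) p q hpq, Complex.zero_re]
      · rw [← reM_mul_cx, hconj i hi, reM_cx_mul]
    · intro i _ j _
      exact (hmul i j).1.1
    · have : ∑ i ∈ Finset.range (M + 1), reM (mt H (x i)) =
          reM (∑ i ∈ Finset.range (M + 1), mt H (x i)) := by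
        ext p q
        simp [reM, Matrix.sum_apply]
      rw [this, hs]
      ext p q
      simp [reM]
  have him : ∀ i ≤ M, imM (mt H (x i)) = 0 := by
    apply theoremT' huni hpos (x := fun i => imM (mt H (x i)))
    · intro i hi
      refine ⟨imM (cx (g i)⁻¹ * mt H (x i) * cx (g i)), ?_, ?_⟩
      · intro p q hpq
        rw [imM, Matrix.map_apply, CC_slow (huni i hi) (hx i hi) p q hpq, Complex.zero_im]
      · rw [← imM_mul_cx, hconj i hi, imM_cx_mul]
    · intro i _ j _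
      exact (hmul i j).2.2
    · have : ∑ i ∈ Finset.range (M + 1), imM (mt H (x i)) =
          imM (∑ i ∈ Finset.range (M + 1), mt H (x i)) := by
        ext p q
        simp [imM, Matrix.sum_apply]
      rw [this, hs]
      ext p q
      simp [imM]
  intro i hi
  exact mt_eq_zero (eq_zero_of_re_im (hre i hi) (him i hi))

lemma finrank_Vn : finrank ℂ (Fin n → ℂ) = n := finrank_fin_fun ℂ

end GTT

open Pool.TPC.GTT

variable {n k : ℕ}

/-- (G): for a real subspace of dimension `k` the sum of the sizes for a positive list of flags is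
at most `k (n - k)`; the size is the sum of the dimensions of the intersections with the members
of the flag, minus `k (k - 1) / 2` -/
theorem G_sizes {H : Submodule ℂ (Fin n → ℂ)} (hH : IsReal n H) (hk : finrank ℂ ↥H = k)
    {M : ℕ} {g : ℕ → RM n} (huni : ∀ i ≤ M, Uni (g i))
    (hpos : ∀ i < M, ∃ a, Pos n a ∧ g (i + 1) = g i * a) :
    ∑ i ∈ Finset.range (M + 1), ∑ a ∈ Finset.range n, finrank ℂ ↥(H ⊓ flg (g i) a) ≤
      k * (n - k) + (M + 1) * k.choose 2 :=
  G_gen finrank_Vn hk (F := fun i => flg (g i))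
    (fun i hi => isFlag_flg (det_ne_zero_of_uni (huni i hi))) (indep hH huni hpos)

/-- (TT): if the sum of the sizes is `k (n - k)` then a vector which is tangent to the Schubert
cells of `H` for all the flags is zero -/
theorem TT_sizes {H : Submodule ℂ (Fin n → ℂ)} (hH : IsReal n H) (hk : finrank ℂ ↥H = k)
    {M : ℕ} {g : ℕ → RM n} (huni : ∀ i ≤ M, Uni (g i))
    (hpos : ∀ i < M, ∃ a, Pos n a ∧ g (i + 1) = g i * a)
    (heq : k * (n - k) + (M + 1) * k.choose 2 ≤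
      ∑ i ∈ Finset.range (M + 1), ∑ a ∈ Finset.range n, finrank ℂ ↥(H ⊓ flg (g i) a))
    {φ : ↥H →ₗ[ℂ] (Fin n → ℂ) ⧸ H}
    (hφ : ∀ i ≤ M, ∀ a < n, ∀ v : ↥H, (v : Fin n → ℂ) ∈ flg (g i) a →
      φ v ∈ (flg (g i) a).map H.mkQ) : φ = 0 :=
  TT_gen finrank_Vn hk (F := fun i => flg (g i))
    (fun i hi => isFlag_flg (det_ne_zero_of_uni (huni i hi))) (indep hH huni hpos) heq hφ

end Pool.TPC
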