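import Pool.Agent.TPC.GTT
import Pool.Agent.TPC.Ech
import Pool.Agent.TPC.CellT
import Pool.Agent.TPC.Chn

/-! Theorem T' at real planes, with contact orders of frames. -/

namespace Pool.TPC

open Module Pool.CSC Pool.TPT Matrix

variable {n k : ℕ}

lemma sum_val_choose : ∑ b : Fin k, (b : ℕ) = k.choose 2 := by
  rw [← Finset.sum_range (fun i => i), Finset.sum_range_id, Nat.choose_two_right]

lemma chn_step {M : ℕ} {u : ℕ → RM n} (hC : Chn n M u) :
    ∀ i < M, ∃ a, Pos n a ∧ u (i + 1) = u i * a := by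
  intro i hi
  refine ⟨_, hC.pos i hi, ?_⟩
  rw [← Matrix.mul_assoc, Matrix.mul_nonsing_inv _ (Ne.isUnit (GTT.det_ne_zero_of_uni
    (hC.uni i hi.le))), Matrix.one_mul]

/-- (G) for contact orders -/
theorem G_ord {M : ℕ} {u : ℕ → RM n} (hC : Chn n M u) {B : Fr k n} (hB : LinearIndependent ℂ B)
    (hr : IsReal n (sp B)) {nn : ℕ → ℕ} (ho : ∀ i ≤ M, Ord (nn i) (u i) B) :
    ∑ i ∈ Finset.range (M + 1), nn i ≤ k * (n - k) := by
  have hk : finrank ℂ ↥(sp B) = k := by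
    rw [finrank_span_eq_card hB, Fintype.card_fin]
  have h1 := G_sizes hr hk hC.uni (chn_step hC)
  have h2 : ∑ i ∈ Finset.range (M + 1), (nn i + k.choose 2) ≤
      ∑ i ∈ Finset.range (M + 1), ∑ a ∈ Finset.range n, finrank ℂ ↥(sp B ⊓ flg (u i) a) := by
    apply Finset.sum_le_sum
    intro i hi
    have h3 := (Ord_iff_size (Ne.isUnit (GTT.det_ne_zero_of_uni (hC.uni i (by have := Finset.mem_range.1 hi; omega)))) hB _).1
      (ho i (by have := Finset.mem_range.1 hi; omega))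
    rwa [sum_val_choose] at h3
  rw [Finset.sum_add_distrib, Finset.sum_const, Finset.card_range, smul_eq_mul] at h2
  omega

/-- (TT) for contact orders -/
theorem TT_ord {M : ℕ} {u : ℕ → RM n} (hC : Chn n M u) {B : Fr k n} (hB : LinearIndependent ℂ B)
    (hr : IsReal n (sp B)) {nn : ℕ → ℕ} (ho : ∀ i ≤ M, Ord (nn i) (u i) B)
    (hs : k * (n - k) ≤ ∑ i ∈ Finset.range (M + 1), nn i) {Z : Fr k n}
    (hZ : ∀ i ≤ M, CellT (u i) B Z) (b : Fin k) : Z b ∈ sp B := by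
  have hk : finrank ℂ ↥(sp B) = k := by
    rw [finrank_span_eq_card hB, Fintype.card_fin]
  have h2 : ∑ i ∈ Finset.range (M + 1), (nn i + k.choose 2) ≤
      ∑ i ∈ Finset.range (M + 1), ∑ a ∈ Finset.range n, finrank ℂ ↥(sp B ⊓ flg (u i) a) := by
    apply Finset.sum_le_sum
    intro i hi
    have h3 := (Ord_iff_size (Ne.isUnit (GTT.det_ne_zero_of_uni (hC.uni i (by have := Finset.mem_range.1 hi; omega)))) hB _).1
      (ho i (by have := Finset.mem_range.1 hi; omega))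
    rwa [sum_val_choose] at h3
  rw [Finset.sum_add_distrib, Finset.sum_const, Finset.card_range, smul_eq_mul] at h2
  let bs := Basis.span hB
  let φ : ↥(sp B) →ₗ[ℂ] (Fin n → ℂ) ⧸ (sp B) := bs.constr ℂ fun a => (sp B).mkQ (Z a)
  have hφ : ∀ a (ha : B a ∈ sp B), φ ⟨B a, ha⟩ = (sp B).mkQ (Z a) := by
    intro a ha
    have h4 : (⟨B a, ha⟩ : ↥(sp B)) = bs a := (Basis.span_apply hB a).symm
    rw [h4, Basis.constr_basis]
  have hφ' : ∀ (c : Fin k → ℂ) (hc : ∑ b, c b • B b ∈ sp B),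
      φ ⟨∑ b, c b • B b, hc⟩ = (sp B).mkQ (∑ b, c b • Z b) := by
    intro c hc
    have h4 : (⟨∑ b, c b • B b, hc⟩ : ↥(sp B)) = ∑ b, c b • (⟨B b, Submodule.subset_span ⟨b, rfl⟩⟩ :
        ↥(sp B)) := Subtype.ext (by simp)
    rw [h4, map_sum, map_sum]
    apply Finset.sum_congr rfl
    intro b _
    rw [map_smul, map_smul, hφ]
  have h5 : φ = 0 := by
    apply TT_sizes hr hk hC.uni (chn_step hC) (by omega)
    intro i hi a _ v hv
    obtain ⟨c, hc⟩ := (Submodule.mem_span_range_iff_exists_fun ℂ).1 v.2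
    have h6 := hZ i hi a c (by rw [hc]; exact hv)
    have h7 : v = ⟨∑ b, c b • B b, by rw [hc]; exact v.2⟩ := Subtype.ext hc.symm
    rw [h7, hφ']
    obtain ⟨y, hy, z, hz, hyz⟩ := Submodule.mem_sup.1 h6
    refine ⟨z, hz, ?_⟩
    rw [← hyz, map_add]
    have h8 : (sp B).mkQ y = 0 := (Submodule.Quotient.mk_eq_zero _).2 hy
    rw [h8, zero_add]
  have h9 := hφ b (Submodule.subset_span ⟨b, rfl⟩)
  rw [h5, LinearMap.zero_apply] at h9
  exact (Submodule.Quotient.mk_eq_zero _).1 h9.symm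

end Pool.TPC
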