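import Mathlib
import Pool.Agent.Helper53.CSC.Two

/-! Conormal spaces of Schubert cells: lower bound of the dimension. -/

namespace Pool.TPC.GTT

open Module Pool.CSC

variable {K V : Type*} [Field K] [AddCommGroup V] [Module K V] [FiniteDimensional K V] {n k : ℕ}

/-- the conormal space of the cell of `H` for the flag `F`, as a subspace of `Hom(E/H, H)` -/
def CC (n : ℕ) (F : ℕ → Submodule K V) (H : Submodule K V) :
    Submodule K ((V ⧸ H) →ₗ[K] ↥H) where
  carrier := {x | ∀ a < n, ∀ v ∈ F (a + 1), (x (H.mkQ v) : V) ∈ F a}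
  add_mem' := by
    intro x y hx hy a ha v hv
    exact (F a).add_mem (hx a ha v hv) (hy a ha v hv)
  zero_mem' := by
    intro a _ v _
    exact (F a).zero_mem
  smul_mem' := by
    intro c x hx a ha v hv
    exact (F a).smul_mem c (hx a ha v hv)

omit [FiniteDimensional K V] in
lemma mem_CC {F : ℕ → Submodule K V} {H : Submodule K V}
    {x : (V ⧸ H) →ₗ[K] ↥H} :
    x ∈ CC n F H ↔ ∀ a < n, ∀ v ∈ F (a + 1), (x (H.mkQ v) : V) ∈ F a := Iff.rfl

/-- the dimension jump -/
lemma jump {F : ℕ → Submodule K V} (hF : IsFlag n F) (H : Submodule K V)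
    {t : ℕ} (ht : t < n) :
    finrank K ↥(H ⊓ F t) ≤ finrank K ↥(H ⊓ F (t + 1)) ∧
      finrank K ↥(H ⊓ F (t + 1)) ≤ finrank K ↥(H ⊓ F t) + 1 := by
  have hmono : H ⊓ F t ≤ H ⊓ F (t + 1) := inf_le_inf_left _ (hF.mono t (t + 1) (by omega) ht)
  refine ⟨Submodule.finrank_mono hmono, ?_⟩
  have h1 := finrank_inf_ge' (H ⊓ F (t + 1)) (F t) (F (t + 1)) inf_le_right
    (hF.mono t (t + 1) (by omega) ht)
  rw [hF.dim t (by omega), hF.dim (t + 1) ht] at h1
  have h2 : finrank K ↥(H ⊓ F (t + 1) ⊓ F t) ≤ finrank K ↥(H ⊓ F t) :=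
    Submodule.finrank_mono (inf_le_inf_right _ inf_le_left)
  omega

/-- adapted basis -/
lemma exists_adapt {F : ℕ → Submodule K V} (hF : IsFlag n F)
    (H : Submodule K V) :
    ∃ w : Fin n → V, ∀ a : Fin n, w a ∈ F (a + 1) ∧ w a ∉ F a ∧
      (finrank K ↥(H ⊓ F (a + 1)) ≠ finrank K ↥(H ⊓ F a) → w a ∈ H) := by
  have key : ∀ a : Fin n, ∃ v : V, v ∈ F (a + 1) ∧ v ∉ F a ∧
      (finrank K ↥(H ⊓ F (a + 1)) ≠ finrank K ↥(H ⊓ F a) → v ∈ H) := by
    intro a
    by_cases h : finrank K ↥(H ⊓ F (a + 1)) = finrank K ↥(H ⊓ F a)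
    · obtain ⟨v, hv, hv'⟩ : ∃ v ∈ F (a + 1), v ∉ F a := by
        by_contra hc
        push Not at hc
        have h3 : F (a + 1) ≤ F a := hc
        have h4 := Submodule.finrank_mono h3
        rw [hF.dim _ (by omega), hF.dim _ (by omega)] at h4
        omega
      exact ⟨v, hv, hv', fun h' => absurd h h'⟩
    · obtain ⟨v, hv, hv'⟩ : ∃ v ∈ H ⊓ F (a + 1), v ∉ H ⊓ F a := by
        by_contra hc
        push Not at hc
        have h3 : H ⊓ F (a + 1) ≤ H ⊓ F a := hc
        have h4 := Submodule.finrank_mono h3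
        have h5 := (jump hF H a.2).1
        omega
      exact ⟨v, hv.2, fun h' => hv' ⟨hv.1, h'⟩, fun _ => hv.1⟩
  choose w hw using key
  exact ⟨w, hw⟩

/-- `H ∩ F a` is spanned by the adapted vectors -/
lemma span_adapt {F : ℕ → Submodule K V} (hF : IsFlag n F)
    (H : Submodule K V) {w : Fin n → V}
    (hw : ∀ a : Fin n, w a ∈ F (a + 1) ∧ w a ∉ F a ∧
      (finrank K ↥(H ⊓ F (a + 1)) ≠ finrank K ↥(H ⊓ F a) → w a ∈ H)) (t : ℕ) (ht : t ≤ n) :
    H ⊓ F t = Submodule.span K {v | ∃ a : Fin n, (a : ℕ) < t ∧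
      finrank K ↥(H ⊓ F (a + 1)) ≠ finrank K ↥(H ⊓ F a) ∧ v = w a} := by
  induction t with
  | zero =>
    have h0 : F 0 = ⊥ := Submodule.finrank_eq_zero.1 (hF.dim 0 (Nat.zero_le _))
    rw [h0, inf_bot_eq]
    symm
    rw [Submodule.span_eq_bot]
    rintro v ⟨a, ha, _⟩
    omega
  | succ t ih =>
    have ih := ih (by omega)
    apply le_antisymm
    · by_cases h : finrank K ↥(H ⊓ F (t + 1)) = finrank K ↥(H ⊓ F t)
      · have h2 : H ⊓ F t = H ⊓ F (t + 1) := Submodule.eq_of_le_of_finrank_eq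
          (inf_le_inf_left _ (hF.mono t (t + 1) (by omega) ht)) h.symm
        rw [← h2, ih]
        apply Submodule.span_mono
        rintro v ⟨a, ha, ha', rfl⟩
        exact ⟨a, by omega, ha', rfl⟩
      · have hjj := jump hF H (t := t) (by omega)
        have hwt := hw ⟨t, by omega⟩
        simp only at hwt
        have hmem : w ⟨t, by omega⟩ ∈ H ⊓ F (t + 1) := ⟨hwt.2.2 h, hwt.1⟩
        have h6 : H ⊓ F t < H ⊓ F t ⊔ Submodule.span K {w ⟨t, by omega⟩} := by
          refine lt_of_le_of_ne le_sup_left fun he => hwt.2.1 ?_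
          have : w ⟨t, by omega⟩ ∈ H ⊓ F t := by
            rw [he]
            exact Submodule.mem_sup_right (Submodule.mem_span_singleton_self _)
          exact this.2
        have h7 := Submodule.finrank_lt_finrank_of_lt h6
        have h8 : H ⊓ F t ⊔ Submodule.span K {w ⟨t, by omega⟩} ≤ H ⊓ F (t + 1) := by
          refine sup_le (inf_le_inf_left _ (hF.mono t (t + 1) (by omega) ht)) ?_
          rw [Submodule.span_le, Set.singleton_subset_iff]
          exact hmem
        have h9 : H ⊓ F t ⊔ Submodule.span K {w ⟨t, by omega⟩} = H ⊓ F (t + 1) :=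
          Submodule.eq_of_le_of_finrank_le h8 (by omega)
        rw [← h9, ih]
        refine sup_le (Submodule.span_mono ?_) ?_
        · rintro v ⟨a, ha, ha', rfl⟩
          exact ⟨a, by omega, ha', rfl⟩
        · rw [Submodule.span_le, Set.singleton_subset_iff]
          exact Submodule.subset_span ⟨⟨t, by omega⟩, by simp, h, rfl⟩
    · rw [Submodule.span_le]
      rintro v ⟨a, ha, ha', rfl⟩
      exact ⟨(hw a).2.2 ha', hF.mono _ _ (by omega) ht (hw a).1⟩

/-- the number of jumps below `t` -/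
lemma card_jumps {F : ℕ → Submodule K V} (hF : IsFlag n F)
    (H : Submodule K V) (t : ℕ) (ht : t ≤ n) :
    ((Finset.univ : Finset (Fin n)).filter fun a : Fin n => (a : ℕ) < t ∧
      finrank K ↥(H ⊓ F (a + 1)) ≠ finrank K ↥(H ⊓ F a)).card = finrank K ↥(H ⊓ F t) := by
  induction t with
  | zero =>
    have h0 : F 0 = ⊥ := Submodule.finrank_eq_zero.1 (hF.dim 0 (Nat.zero_le _))
    rw [h0, inf_bot_eq, finrank_bot]
    simp
  | succ t ih =>
    have ih := ih (by omega)
    by_cases h : finrank K ↥(H ⊓ F (t + 1)) = finrank K ↥(H ⊓ F t)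
    · rw [h, ← ih]
      congr 1
      ext a
      simp only [Finset.mem_filter, Finset.mem_univ, true_and]
      constructor
      · rintro ⟨h1, h2⟩
        refine ⟨?_, h2⟩
        rcases Nat.lt_or_ge a t with h3 | h3
        · exact h3
        · have : (a : ℕ) = t := by omega
          rw [this] at h2
          exact absurd h h2
      · rintro ⟨h1, h2⟩
        exact ⟨by omega, h2⟩
    · have hjj := jump hF H (t := t) (by omega)
      have h10 : finrank K ↥(H ⊓ F (t + 1)) = finrank K ↥(H ⊓ F t) + 1 := by omega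
      rw [h10, ← ih]
      have h11 : ((Finset.univ : Finset (Fin n)).filter fun a : Fin n => (a : ℕ) < t + 1 ∧
          finrank K ↥(H ⊓ F (a + 1)) ≠ finrank K ↥(H ⊓ F a)) =
          insert ⟨t, by omega⟩ ((Finset.univ : Finset (Fin n)).filter fun a : Fin n => (a : ℕ) < t ∧
          finrank K ↥(H ⊓ F (a + 1)) ≠ finrank K ↥(H ⊓ F a)) := by
        ext a
        simp only [Finset.mem_filter, Finset.mem_univ, true_and, Finset.mem_insert]
        constructor
        · rintro ⟨h1, h2⟩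
          rcases Nat.lt_or_ge a t with h3 | h3
          · exact Or.inr ⟨h3, h2⟩
          · left
            ext
            simp only
            omega
        · rintro (h1 | ⟨h1, h2⟩)
          · rw [h1]
            exact ⟨by simp, h⟩
          · exact ⟨by omega, h2⟩
      rw [h11, Finset.card_insert_of_notMem]
      simp

/-- the sum of the dimensions at the jumps -/
lemma sum_jumps {F : ℕ → Submodule K V} (hF : IsFlag n F)
    (H : Submodule K V) (t : ℕ) (ht : t ≤ n) :
    ∑ a ∈ Finset.range t, (if finrank K ↥(H ⊓ F (a + 1)) ≠ finrank K ↥(H ⊓ F a) then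
      finrank K ↥(H ⊓ F a) else 0) = (finrank K ↥(H ⊓ F t)).choose 2 := by
  induction t with
  | zero =>
    have h0 : F 0 = ⊥ := Submodule.finrank_eq_zero.1 (hF.dim 0 (Nat.zero_le _))
    rw [h0, inf_bot_eq, finrank_bot]
    simp
  | succ t ih =>
    have ih := ih (by omega)
    rw [Finset.sum_range_succ, ih]
    by_cases h : finrank K ↥(H ⊓ F (t + 1)) = finrank K ↥(H ⊓ F t)
    · rw [if_neg (by simpa using h), h, add_zero]
    · have hjj := jump hF H (t := t) (by omega)
      have h10 : finrank K ↥(H ⊓ F (t + 1)) = finrank K ↥(H ⊓ F t) + 1 := by omega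
      rw [if_pos h, h10, Nat.choose_succ_succ, Nat.choose_one_right, add_comm]

/-- lower bound of the dimension of the conormal space -/
theorem dim_CC (hn : finrank K V = n) {F : ℕ → Submodule K V} (hF : IsFlag n F)
    (H : Submodule K V) :
    ∑ a ∈ Finset.range n, finrank K ↥(H ⊓ F a) ≤
      finrank K ↥(CC n F H) + (finrank K ↥H).choose 2 := by
  classical
  obtain ⟨w, hw⟩ := exists_adapt hF H
  have hFn : F n = ⊤ := by
    apply Submodule.eq_top_of_finrank_eq
    rw [hF.dim n le_rfl, hn]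
  -- the flag itself
  have hFt : ∀ t ≤ n, F t = Submodule.span K {v | ∃ a : Fin n, (a : ℕ) < t ∧ v = w a} := by
    intro t ht
    have h1 := span_adapt hF ⊤ (w := w) (fun a => ⟨(hw a).1, (hw a).2.1, fun _ => trivial⟩) t ht
    rw [top_inf_eq] at h1
    rw [h1]
    congr 1
    ext v
    constructor
    · rintro ⟨a, ha, _, rfl⟩
      exact ⟨a, ha, rfl⟩
    · rintro ⟨a, ha, rfl⟩
      refine ⟨a, ha, ?_, rfl⟩
      rw [top_inf_eq, top_inf_eq, hF.dim _ (by omega), hF.dim _ (by omega)]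
      omega
  have hspan : ⊤ ≤ Submodule.span K (Set.range w) := by
    rw [← hFn, hFt n le_rfl]
    apply Submodule.span_mono
    rintro v ⟨a, _, rfl⟩
    exact ⟨a, rfl⟩
  have hcard : Fintype.card (Fin n) = finrank K V := by
    rw [hn, Fintype.card_fin]
  let b : Basis (Fin n) K V := basisOfTopLeSpanOfCardEqFinrank w hspan hcard
  have hb : ∀ a, b a = w a := fun a => by
    simp [b]
  have hco : ∀ p q : Fin n, b.coord q (w p) = if p = q then 1 else 0 := by
    intro p q
    rw [← hb p, Basis.coord_apply, Basis.repr_self, Finsupp.single_apply]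
  have hHspan := span_adapt hF H hw n le_rfl
  rw [hFn, inf_top_eq] at hHspan
  have hcH : ∀ q : Fin n, finrank K ↥(H ⊓ F (q + 1)) = finrank K ↥(H ⊓ F q) →
      H ≤ LinearMap.ker (b.coord q) := by
    intro q hq
    rw [hHspan, Submodule.span_le]
    rintro v ⟨a, _, ha, rfl⟩
    rw [SetLike.mem_coe, LinearMap.mem_ker, hco, if_neg]
    rintro rfl
    exact ha hq
  have hcF : ∀ (q : Fin n) (t : ℕ), t ≤ n → t ≤ q → ∀ v ∈ F t, b.coord q v = 0 := by
    intro q t ht htq v hv
    have h1 : F t ≤ LinearMap.ker (b.coord q) := by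
      rw [hFt t ht, Submodule.span_le]
      rintro v ⟨a, ha, rfl⟩
      rw [SetLike.mem_coe, LinearMap.mem_ker, hco, if_neg]
      rintro rfl
      omega
    exact h1 hv
  let J := {pq : Fin n × Fin n // finrank K ↥(H ⊓ F (pq.1 + 1)) ≠ finrank K ↥(H ⊓ F pq.1) ∧
    finrank K ↥(H ⊓ F (pq.2 + 1)) = finrank K ↥(H ⊓ F pq.2) ∧ (pq.1 : ℕ) < pq.2}
  let x : J → ((V ⧸ H) →ₗ[K] ↥H) := fun j =>
    (H.liftQ (b.coord j.1.2) (hcH j.1.2 j.2.2.1)).smulRight
      (⟨w j.1.1, (hw j.1.1).2.2 j.2.1⟩ : ↥H)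
  have hxa : ∀ (j : J) (v : V), (x j (H.mkQ v) : V) =
      b.coord j.1.2 v • w j.1.1 := by
    intro j v
    simp [x]
  have hxC : ∀ j, x j ∈ CC n F H := by
    intro j a ha v hv
    rw [hxa]
    rcases Nat.lt_or_ge j.1.2 (a + 1) with h1 | h1
    · apply Submodule.smul_mem
      have := j.2.2.2
      exact hF.mono _ _ (by omega) (by omega) (hw j.1.1).1
    · rw [hcF _ (a + 1) (by omega) h1 v hv, zero_smul]
      exact Submodule.zero_mem _
  have hli0 : LinearIndependent K x := by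
    refine (Fintype.linearIndependent_iff (ι := J) (R := K) (v := x)).2 fun g hg j0 => ?_
    have h1 := congrArg (fun y : (V ⧸ H) →ₗ[K] ↥H =>
      b.coord j0.1.1 ((y (H.mkQ (w j0.1.2)) : ↥H) : V)) hg
    simp only [LinearMap.sum_apply, LinearMap.smul_apply, LinearMap.zero_apply, Submodule.coe_zero, map_zero] at h1
    rw [Submodule.coe_sum, map_sum] at h1
    simp only [Submodule.coe_smul, hxa, hco, map_smul, smul_eq_mul] at h1
    rw [Finset.sum_eq_single j0] at h1
    · simpa using h1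
    · intro j _ hj
      by_cases h2 : j0.1.2 = j.1.2
      · by_cases h3 : j.1.1 = j0.1.1
        · exact absurd (Subtype.ext (Prod.ext h3 h2.symm)) hj
        · rw [if_neg h3]
          ring
      · rw [if_neg h2]
        ring
    · intro h
      exact absurd (Finset.mem_univ _) h
  have hli : LinearIndependent K (fun j : J => (⟨x j, hxC j⟩ : ↥(CC n F H))) :=
    LinearIndependent.of_comp (CC n F H).subtype hli0
  have hJ : Fintype.card J ≤ finrank K ↥(CC n F H) := hli.fintype_card_le_finrank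
  have hJc : Fintype.card J = ∑ a ∈ Finset.range n,
      (if finrank K ↥(H ⊓ F (a + 1)) ≠ finrank K ↥(H ⊓ F a) then 0 else
      finrank K ↥(H ⊓ F a)) := by
    rw [Fintype.card_subtype, Finset.card_filter, Fintype.sum_prod_type_right,
      Finset.sum_range]
    apply Finset.sum_congr rfl
    intro q _
    by_cases h : finrank K ↥(H ⊓ F ((q : ℕ) + 1)) = finrank K ↥(H ⊓ F q)
    · rw [if_neg (by simpa using h), ← card_jumps hF H q (by omega), Finset.card_filter]
      apply Finset.sum_congr rfl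
      intro p _
      simp only [h, true_and]
      congr 1
      rw [and_comm]
    · rw [if_pos h]
      apply Finset.sum_eq_zero
      intro p _
      rw [if_neg]
      rintro ⟨_, h2, _⟩
      exact h h2
  have hsum := sum_jumps hF H n le_rfl
  rw [hFn, inf_top_eq] at hsum
  rw [← hsum]
  have : ∑ a ∈ Finset.range n, finrank K ↥(H ⊓ F a) = Fintype.card J +
      ∑ a ∈ Finset.range n, (if finrank K ↥(H ⊓ F (a + 1)) ≠ finrank K ↥(H ⊓ F a) then
      finrank K ↥(H ⊓ F a) else 0) := by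
    rw [hJc, ← Finset.sum_add_distrib]
    apply Finset.sum_congr rfl
    intro a _
    split_ifs <;> simp
  omega

/-- the sum map -/
noncomputable def sumMap (n : ℕ) (H : Submodule K V) (M : ℕ) (F : ℕ → ℕ → Submodule K V) :
    ((i : Fin (M + 1)) → ↥(CC n (F i) H)) →ₗ[K] ((V ⧸ H) →ₗ[K] ↥H) :=
  ∑ i : Fin (M + 1), (CC n (F i) H).subtype ∘ₗ LinearMap.proj i

omit [FiniteDimensional K V] in
lemma sumMap_apply (H : Submodule K V) (M : ℕ) (F : ℕ → ℕ → Submodule K V)
    (x : (i : Fin (M + 1)) → ↥(CC n (F i) H)) :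
    sumMap n H M F x = ∑ i, (x i : (V ⧸ H) →ₗ[K] ↥H) := by
  simp [sumMap, LinearMap.sum_apply]

omit [FiniteDimensional K V] in
lemma sumMap_injective {H : Submodule K V} {M : ℕ} {F : ℕ → ℕ → Submodule K V}
    (hind : ∀ x : ℕ → ((V ⧸ H) →ₗ[K] ↥H), (∀ i ≤ M, x i ∈ CC n (F i) H) →
      ∑ i ∈ Finset.range (M + 1), x i = 0 → ∀ i ≤ M, x i = 0) :
    Function.Injective (sumMap n H M F) := by
  rw [injective_iff_map_eq_zero]
  intro x hx
  rw [sumMap_apply] at hx
  let y : ℕ → ((V ⧸ H) →ₗ[K] ↥H) := fun i =>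
    if h : i < M + 1 then (x ⟨i, h⟩ : (V ⧸ H) →ₗ[K] ↥H) else 0
  have hy : ∀ i : Fin (M + 1), y i = (x i : (V ⧸ H) →ₗ[K] ↥H) := by
    intro i
    simp only [y]
    rw [dif_pos i.2]
  have h1 := hind y (fun i hi => by
    have h2 := hy ⟨i, by omega⟩
    simp only at h2
    rw [h2]
    exact (x ⟨i, by omega⟩).2) (by
    rw [Finset.sum_range]
    rw [← hx]
    exact Finset.sum_congr rfl fun i _ => hy i)
  funext i
  apply Subtype.ext
  rw [← hy i, h1 i (by omega)]
  rfl

lemma finrank_hom (hn : finrank K V = n) {H : Submodule K V} (hk : finrank K ↥H = k) :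
    finrank K ((V ⧸ H) →ₗ[K] ↥H) = k * (n - k) := by
  rw [Module.finrank_linearMap, Submodule.finrank_quotient, hk, hn, mul_comm]

/-- the dimension of the source of the sum map -/
lemma le_finrank_source (hn : finrank K V = n) {H : Submodule K V} (hk : finrank K ↥H = k)
    {M : ℕ} {F : ℕ → ℕ → Submodule K V} (hF : ∀ i ≤ M, IsFlag n (F i)) :
    ∑ i ∈ Finset.range (M + 1), ∑ a ∈ Finset.range n, finrank K ↥(H ⊓ F i a) ≤
      finrank K ((i : Fin (M + 1)) → ↥(CC n (F i) H)) + (M + 1) * k.choose 2 := by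
  have hfree : ∀ i : Fin (M + 1), Module.Free K ↥(CC n (F i) H) := fun i =>
    Module.Free.of_divisionRing K ↥(CC n (F i) H)
  rw [Module.finrank_pi_fintype, Finset.sum_range]
  have h1 : (M + 1) * k.choose 2 = ∑ _i : Fin (M + 1), k.choose 2 := by
    rw [Finset.sum_const, Finset.card_univ, Fintype.card_fin, smul_eq_mul]
  rw [h1, ← Finset.sum_add_distrib]
  apply Finset.sum_le_sum
  intro i _
  have h2 := dim_CC hn (hF i (by omega)) H
  rwa [hk] at h2

/-- (G): the sum of the sizes, if the conormal spaces are independent -/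
theorem G_gen (hn : finrank K V = n) {H : Submodule K V} (hk : finrank K ↥H = k)
    {M : ℕ} {F : ℕ → ℕ → Submodule K V} (hF : ∀ i ≤ M, IsFlag n (F i))
    (hind : ∀ x : ℕ → ((V ⧸ H) →ₗ[K] ↥H), (∀ i ≤ M, x i ∈ CC n (F i) H) →
      ∑ i ∈ Finset.range (M + 1), x i = 0 → ∀ i ≤ M, x i = 0) :
    ∑ i ∈ Finset.range (M + 1), ∑ a ∈ Finset.range n, finrank K ↥(H ⊓ F i a) ≤
      k * (n - k) + (M + 1) * k.choose 2 := by
  have h1 := le_finrank_source hn hk hF
  have h2 := LinearMap.finrank_le_finrank_of_injective (sumMap_injective hind)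
  rw [finrank_hom hn hk] at h2
  omega

/-- a tangent vector of the cell is orthogonal to the conormal space -/
lemma trace_zero (hn : finrank K V = n) {F : ℕ → Submodule K V} (hF : IsFlag n F)
    {H : Submodule K V} {x : (V ⧸ H) →ₗ[K] ↥H} (hx : x ∈ CC n F H)
    {φ : ↥H →ₗ[K] V ⧸ H}
    (hφ : ∀ a < n, ∀ v : ↥H, (v : V) ∈ F a → φ v ∈ (F a).map H.mkQ) :
    LinearMap.trace K ↥H (x ∘ₗ φ) = 0 := by
  have hFn : F n = ⊤ := by
    apply Submodule.eq_top_of_finrank_eq
    rw [hF.dim n le_rfl, hn]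
  have hF0 : F 0 = ⊥ := Submodule.finrank_eq_zero.1 (hF.dim 0 (Nat.zero_le _))
  have hφ' : ∀ a ≤ n, ∀ v : ↥H, (v : V) ∈ F a → φ v ∈ (F a).map H.mkQ := by
    intro a ha v hv
    rcases Nat.lt_or_ge a n with h | h
    · exact hφ a h v hv
    · have : a = n := by omega
      rw [this, hFn, Submodule.map_top, Submodule.range_mkQ]
      trivial
  have hstep : ∀ a < n, ∀ v : ↥H, (v : V) ∈ F (a + 1) →
      ((x ∘ₗ φ) v : V) ∈ F a := by
    intro a ha v hv
    obtain ⟨w, hw, hw'⟩ := hφ' (a + 1) (by omega) v hv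
    rw [LinearMap.comp_apply, ← hw']
    exact hx a ha w hw
  have hpow : ∀ j ≤ n, ∀ v : ↥H, (((x ∘ₗ φ) ^ j) v : V) ∈ F (n - j) := by
    intro j
    induction j with
    | zero =>
      intro _ v
      rw [Nat.sub_zero, hFn]
      trivial
    | succ j ih =>
      intro hj v
      rw [pow_succ', Module.End.mul_apply]
      apply hstep (n - (j + 1)) (by omega)
      rw [show n - (j + 1) + 1 = n - j by omega]
      exact ih (by omega) v
  have hnil : IsNilpotent (x ∘ₗ φ) := by
    refine ⟨n, ?_⟩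
    apply LinearMap.ext
    intro v
    apply Subtype.ext
    have := hpow n le_rfl v
    rw [Nat.sub_self, hF0] at this
    simpa using this
  exact (LinearMap.isNilpotent_trace_of_isNilpotent hnil).eq_zero

/-- a tangent vector orthogonal to everything is zero -/
lemma eq_zero_of_trace {H : Submodule K V} {φ : ↥H →ₗ[K] V ⧸ H}
    (h : ∀ x : (V ⧸ H) →ₗ[K] ↥H, LinearMap.trace K ↥H (x ∘ₗ φ) = 0) : φ = 0 := by
  by_contra hne
  obtain ⟨v, hv⟩ : ∃ v, φ v ≠ 0 := by
    by_contra hc
    push Not at hc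
    exact hne (LinearMap.ext hc)
  obtain ⟨α, hα⟩ := Module.Projective.exists_dual_ne_zero K hv
  have h1 := h (α.smulRight v)
  have h2 : (α.smulRight v) ∘ₗ φ = (α ∘ₗ φ).smulRight v := by
    ext w
    simp
  rw [h2, LinearMap.trace_smulRight] at h1
  exact hα h1

/-- (TT): in the case of equality a vector tangent to all the cells is zero -/
theorem TT_gen (hn : finrank K V = n) {H : Submodule K V} (hk : finrank K ↥H = k)
    {M : ℕ} {F : ℕ → ℕ → Submodule K V} (hF : ∀ i ≤ M, IsFlag n (F i))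
    (hind : ∀ x : ℕ → ((V ⧸ H) →ₗ[K] ↥H), (∀ i ≤ M, x i ∈ CC n (F i) H) →
      ∑ i ∈ Finset.range (M + 1), x i = 0 → ∀ i ≤ M, x i = 0)
    (heq : k * (n - k) + (M + 1) * k.choose 2 ≤
      ∑ i ∈ Finset.range (M + 1), ∑ a ∈ Finset.range n, finrank K ↥(H ⊓ F i a))
    {φ : ↥H →ₗ[K] V ⧸ H}
    (hφ : ∀ i ≤ M, ∀ a < n, ∀ v : ↥H, (v : V) ∈ F i a → φ v ∈ (F i a).map H.mkQ) : φ = 0 := by
  apply eq_zero_of_trace
  have h1 := le_finrank_source hn hk hF
  have h2 := LinearMap.finrank_le_finrank_of_injective (sumMap_injective hind)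
  have h3 := finrank_hom hn hk
  have h4 : finrank K ((i : Fin (M + 1)) → ↥(CC n (F i) H)) = finrank K ((V ⧸ H) →ₗ[K] ↥H) := by
    omega
  have h5 : Function.Surjective (sumMap n H M F) := by
    have h6 := LinearMap.finrank_range_of_inj (sumMap_injective hind)
    rw [h4] at h6
    exact LinearMap.range_eq_top.1 (Submodule.eq_top_of_finrank_eq h6)
  intro x
  obtain ⟨y, rfl⟩ := h5 x
  rw [sumMap_apply]
  have h6 : (∑ i, (y i : (V ⧸ H) →ₗ[K] ↥H)) ∘ₗ φ = ∑ i, (y i : (V ⧸ H) →ₗ[K] ↥H) ∘ₗ φ := by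
    ext v
    simp [LinearMap.sum_apply]
  rw [h6, map_sum]
  apply Finset.sum_eq_zero
  intro i _
  exact trace_zero hn (hF i (by omega)) (y i).2 (hφ i (by omega))

end Pool.TPC.GTT
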