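import Pool.Agent.TPC.GTTa
import Pool.Agent.TPC.Defs
import Pool.Agent.TPT.Main

/-! Theorem T' for real subspaces in complex form: sums of sizes and tangent vectors. -/

namespace Pool.TPC.GTT

open Module Pool.CSC Pool.TPT Pool.TPC Matrix

variable {n k : ℕ}

/-- real part of a complex matrix -/
def reM (X : Matrix (Fin n) (Fin n) ℂ) : Matrix (Fin n) (Fin n) ℝ := X.map Complex.re

/-- imaginary part of a complex matrix -/
def imM (X : Matrix (Fin n) (Fin n) ℂ) : Matrix (Fin n) (Fin n) ℝ := X.map Complex.im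

lemma cx_mul (A B : Matrix (Fin n) (Fin n) ℝ) : cx (A * B) = cx A * cx B := by
  ext i j
  simp [cx, Matrix.mul_apply]

lemma reM_mul_cx (X : Matrix (Fin n) (Fin n) ℂ) (A : Matrix (Fin n) (Fin n) ℝ) :
    reM (X * cx A) = reM X * A := by
  ext i j
  simp [cx, reM, Matrix.mul_apply]

lemma imM_mul_cx (X : Matrix (Fin n) (Fin n) ℂ) (A : Matrix (Fin n) (Fin n) ℝ) :
    imM (X * cx A) = imM X * A := by
  ext i j
  simp [cx, imM, Matrix.mul_apply]

lemma reM_cx_mul (X : Matrix (Fin n) (Fin n) ℂ) (A : Matrix (Fin n) (Fin n) ℝ) :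
    reM (cx A * X) = A * reM X := by
  ext i j
  simp [cx, reM, Matrix.mul_apply]

lemma imM_cx_mul (X : Matrix (Fin n) (Fin n) ℂ) (A : Matrix (Fin n) (Fin n) ℝ) :
    imM (cx A * X) = A * imM X := by
  ext i j
  simp [cx, imM, Matrix.mul_apply]

lemma eq_zero_of_re_im {X : Matrix (Fin n) (Fin n) ℂ} (h1 : reM X = 0) (h2 : imM X = 0) :
    X = 0 := by
  ext i j
  apply Complex.ext
  · exact congrFun (congrFun h1 i) j
  · exact congrFun (congrFun h2 i) j

/-- products of real and imaginary parts -/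
lemma re_im_mul {H : Submodule ℂ (Fin n → ℂ)} (hH : IsReal n H)
    {X Y : Matrix (Fin n) (Fin n) ℂ} (hX : ∀ v ∈ H, X *ᵥ v = 0) (hY : ∀ v, Y *ᵥ v ∈ H) :
    (reM X * reM Y = 0 ∧ reM X * imM Y = 0) ∧ (imM X * reM Y = 0 ∧ imM X * imM Y = 0) := by
  -- columns of `Y`
  have hcol : ∀ j, (fun i => Y i j) ∈ H := by
    intro j
    have := hY (Pi.single j 1)
    rwa [Matrix.mulVec_single_one] at this
  have hre : ∀ j, (fun i => ((Y i j).re : ℂ)) ∈ H := by
    intro j
    have h1 := hcol j
    have h2 := hH _ h1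
    have h3 := H.smul_mem (1 / 2 : ℂ) (H.add_mem h1 h2)
    convert h3 using 1
    funext i
    simp only [Pi.smul_apply, Pi.add_apply, smul_eq_mul]
    rw [Complex.add_conj]
    push_cast
    ring
  have him : ∀ j, (fun i => ((Y i j).im : ℂ)) ∈ H := by
    intro j
    have h1 := hcol j
    have h2 := hH _ h1
    have h3 := H.smul_mem (-Complex.I / 2 : ℂ) (H.sub_mem h1 h2)
    convert h3 using 1
    funext i
    simp only [Pi.smul_apply, Pi.sub_apply, smul_eq_mul]
    rw [Complex.sub_conj]
    have : -Complex.I / 2 * (((2 * (Y i j).im : ℝ) : ℂ) * Complex.I) =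
      -(Complex.I * Complex.I) * ((Y i j).im : ℂ) := by
      push_cast
      ring
    rw [this, Complex.I_mul_I]
    ring
  have key : ∀ c : Fin n → ℝ, (fun i => ((c i : ℝ) : ℂ)) ∈ H →
      (∀ i, ∑ j, (X i j).re * c j = 0) ∧ ∀ i, ∑ j, (X i j).im * c j = 0 := by
    intro c hc
    have h1 := hX _ hc
    constructor
    · intro i
      have h2 := congrArg Complex.re (congrFun h1 i)
      simpa [Matrix.mulVec, dotProduct] using h2
    · intro i
      have h2 := congrArg Complex.im (congrFun h1 i)
      simpa [Matrix.mulVec, dotProduct] using h2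
  refine ⟨⟨?_, ?_⟩, ?_, ?_⟩
  · ext i j
    exact (key _ (hre j)).1 i
  · ext i j
    exact (key _ (him j)).1 i
  · ext i j
    exact (key _ (hre j)).2 i
  · ext i j
    exact (key _ (him j)).2 i

lemma det_ne_zero_of_uni {u : Matrix (Fin n) (Fin n) ℝ} (hu : Uni u) : u.det ≠ 0 := by
  rw [hu.det]
  exact one_ne_zero

lemma cx_one : cx (1 : Matrix (Fin n) (Fin n) ℝ) = 1 := by
  ext i j
  by_cases h : i = j
  · subst h
    simp [cx]
  · simp [cx, h]

/-- coordinates of the vectors of the flag -/
lemma mem_flg {u : Matrix (Fin n) (Fin n) ℝ} (hu : u.det ≠ 0) (j : ℕ) (v : Fin n → ℂ) :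
    v ∈ flg u j ↔ ∀ i : Fin n, (i : ℕ) + j < n → (cx u⁻¹ *ᵥ v) i = 0 := by
  have huu : cx u * cx u⁻¹ = 1 := by
    rw [← cx_mul, Matrix.mul_nonsing_inv _ (Ne.isUnit hu), cx_one]
  have huu' : cx u⁻¹ * cx u = 1 := by
    rw [← cx_mul, Matrix.nonsing_inv_mul _ (Ne.isUnit hu), cx_one]
  constructor
  · intro hv
    induction hv using Submodule.span_induction with
    | mem x hx =>
      obtain ⟨c, hc, rfl⟩ := hx
      intro i hi
      have h1 : (fun r => ((u r c : ℝ) : ℂ)) = cx u *ᵥ Pi.single c 1 := by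
        rw [Matrix.mulVec_single_one]
        rfl
      rw [h1, Matrix.mulVec_mulVec, huu', Matrix.one_mulVec, Pi.single_apply, if_neg]
      rintro rfl
      omega
    | zero => intro i _; rw [Matrix.mulVec_zero]; rfl
    | add x y _ _ hx hy =>
      intro i hi
      rw [Matrix.mulVec_add, Pi.add_apply, hx i hi, hy i hi, add_zero]
    | smul c x _ hx =>
      intro i hi
      rw [Matrix.mulVec_smul, Pi.smul_apply, hx i hi, smul_zero]
  · intro h
    have h1 : v = ∑ i, (cx u⁻¹ *ᵥ v) i • (fun r => ((u r i : ℝ) : ℂ)) := by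
      have h2 : v = cx u *ᵥ (cx u⁻¹ *ᵥ v) := by
        rw [Matrix.mulVec_mulVec, huu, Matrix.one_mulVec]
      conv_lhs => rw [h2]
      funext r
      simp only [Matrix.mulVec, dotProduct, Finset.sum_apply, Pi.smul_apply, smul_eq_mul, cx,
        Matrix.map_apply]
      apply Finset.sum_congr rfl
      intro i _
      rw [mul_comm]
    rw [h1]
    apply Submodule.sum_mem
    intro i _
    by_cases hi : (i : ℕ) + j < n
    · rw [h i hi, zero_smul]
      exact Submodule.zero_mem _
    · exact Submodule.smul_mem _ _ (Submodule.subset_span ⟨i, by omega, rfl⟩)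

lemma isFlag_flg {u : Matrix (Fin n) (Fin n) ℝ} (hu : u.det ≠ 0) : IsFlag n (flg u) where
  mono := by
    intro i j hij hj
    apply Submodule.span_mono
    rintro v ⟨c, hc, rfl⟩
    exact ⟨c, by omega, rfl⟩
  dim := by
    intro j hj
    have hli : LinearIndependent ℂ (fun (i : Fin n) (r : Fin n) => ((u r i : ℝ) : ℂ)) := by
      have h1 : (cx u).det ≠ 0 := by
        have : (cx u).det = ((u.det : ℝ) : ℂ) := by
          have := RingHom.map_det Complex.ofRealHom u
          rw [show (Complex.ofRealHom u.det : ℂ) = ((u.det : ℝ) : ℂ) from rfl] at this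
          rw [this]
          rfl
        rw [this]
        exact_mod_cast hu
      have h2 := Matrix.linearIndependent_rows_of_det_ne_zero (A := (cx u)ᵀ)
        (by rwa [Matrix.det_transpose])
      exact h2
    have h3 : flg u j = Submodule.span ℂ (Set.range
        (fun (c : Fin j) (r : Fin n) => ((u r ⟨n - j + c, by omega⟩ : ℝ) : ℂ))) := by
      unfold flg
      congr 1
      ext v
      constructor
      · rintro ⟨i, hi, rfl⟩
        refine ⟨⟨i - (n - j), by omega⟩, ?_⟩
        have h4 : (⟨n - j + (i - (n - j)), by omega⟩ : Fin n) = i := Fin.ext (by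
          simp only
          omega)
        funext r
        simp only [h4]
      · rintro ⟨c, rfl⟩
        exact ⟨⟨n - j + c, by omega⟩, by simp only; omega, rfl⟩
    rw [h3, finrank_span_eq_card, Fintype.card_fin]
    apply hli.comp (fun c : Fin j => (⟨n - j + c, by omega⟩ : Fin n))
    intro c c' h
    have := congrArg Fin.val h
    simp only at this
    ext
    omega

end Pool.TPC.GTT
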