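import Pool.Agent.TPC.GTT2
import Pool.Agent.TPC.Contact

/-! The sum of the contact orders of a real plane with a chain of flags, in the form of the
interface `Itf.gra`. -/

namespace Pool.TPC

open Module Pool.CSC Pool.TPT Matrix

variable {n k : ℕ}

theorem li_act_uni {u : RM n} (hu : Uni u) {B : Fr k n} (hB : LinearIndependent ℂ B) :
    LinearIndependent ℂ (act (cx u⁻¹) B) := by
  have hd := Ne.isUnit (GTT.det_ne_zero_of_uni hu)
  exact hB.map' ((eqv u hd).symm : (Fin n → ℂ) →ₗ[ℂ] (Fin n → ℂ)) (eqv u hd).symm.ker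

theorem gra_ctf (M : ℕ) (u : ℕ → Matrix (Fin n) (Fin n) ℝ) (nn : ℕ → ℕ) (hC : Chn n M u)
    (B : Fin k → Fin n → ℂ) (hB : LinearIndependent ℂ B) (hr : IsReal n (sp B))
    (h : ∀ i ≤ M, ∀ q < nn i, ev (ctf (u i) q) B = 0) :
    ∑ i ∈ Finset.range (M + 1), nn i ≤ k * (n - k) :=
  G_ord hC hB hr fun i hi => (Ord_iff_ctf B (li_act_uni (hC.uni i hi) hB) _).2 (h i hi)

end Pool.TPC
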