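import Pool.Agent.TPC.Contact
import Pool.Agent.TPC.Bridge
import Pool.Agent.TPC.BJBase
import Pool.Agent.TPC.FinGr
import Pool.Agent.TPT.PersGr
import Pool.Agent.TPT.Mul
import Pool.Agent.TPC.PasL
import Pool.Agent.TPC.Gra

/-! The interface of the cluster argument for the contact forms. -/

set_option autoImplicit false

open Matrix Filter Topology Pool.TPT Pool.CSC

namespace Pool.TPC

variable {k n : ℕ}

/-- orders and contact forms -/
theorem ctf_zero_iff {u : RM n} (hu : Uni u) {B : Fr k n} (hB : LinearIndependent ℂ B) (a : ℕ) :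
    (∀ q < a, ev (ctf u q) B = 0) ↔
      ∀ s : Fin k → Fin n, StrictMono s → ∑ c, ((s c : ℕ) - (c : ℕ)) < a →
        pl s (mv u B) = 0 :=
  (Ord_iff_ctf B (BJ.li_act hu hB) a).symm

theorem pers_seq {ι : Type} [Fintype ι] (hcard : Fintype.card ι = k * (n - k))
    (w : ι → (Fin k → Fin n) → ℂ) (W : ℕ → ι → (Fin k → Fin n) → ℂ)
    (hW : ∀ a s, Tendsto (fun ν => W ν a s) atTop (𝓝 (w a s)))
    (B : Fin k → Fin n → ℂ) (hB : LinearIndependent ℂ B) (h0 : ∀ a, ev (w a) B = 0)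
    (hiso : Iso w B) :
    ∃ Bs : ℕ → Fin k → Fin n → ℂ, Tendsto Bs atTop (𝓝 B) ∧
      ∀ᶠ ν in atTop, ∀ a, ev (W ν a) (Bs ν) = 0 := by
  have hW' : Tendsto W atTop (𝓝 w) :=
    tendsto_pi_nhds.2 fun a => tendsto_pi_nhds.2 fun s => hW a s
  have h1 : ∀ U ∈ 𝓝 B, ∀ᶠ ν in atTop, ∃ B' ∈ U, ∀ a, ev (W ν a) B' = 0 := by
    intro U hU
    filter_upwards [hW'.eventually (Pool.Agent.TPT.pers_gr hcard w B hB h0 hiso hU)] with ν hν
    obtain ⟨B', h2, -, h3⟩ := hν
    exact ⟨B', h2, h3⟩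
  let S : ℕ → Set (Fin k → Fin n → ℂ) := fun ν => {B' | ∀ a, ev (W ν a) B' = 0}
  have h2 : ∀ ν, ∃ B' : Fin k → Fin n → ℂ, (S ν).Nonempty → B' ∈ S ν ∧
      dist B B' < Metric.infDist B (S ν) + 1 / ((ν : ℝ) + 1) := by
    intro ν
    by_cases hne : (S ν).Nonempty
    · obtain ⟨B', h3, h4⟩ := (Metric.infDist_lt_iff hne).1
        (lt_add_of_pos_right (Metric.infDist B (S ν)) (by positivity : 0 < 1 / ((ν : ℝ) + 1)))
      exact ⟨B', fun _ => ⟨h3, h4⟩⟩
    · exact ⟨B, fun h => absurd h hne⟩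
  choose Bs hBs using h2
  have hne : ∀ᶠ ν in atTop, (S ν).Nonempty := by
    filter_upwards [h1 Set.univ univ_mem] with ν hν
    obtain ⟨B', -, h3⟩ := hν
    exact ⟨B', h3⟩
  refine ⟨Bs, ?_, ?_⟩
  · rw [tendsto_iff_dist_tendsto_zero]
    have h3 : Tendsto (fun ν => Metric.infDist B (S ν)) atTop (𝓝 0) := by
      rw [Metric.tendsto_atTop']
      intro ε hε
      obtain ⟨N, hN⟩ := eventually_atTop.1 (h1 (Metric.ball B ε) (Metric.ball_mem_nhds B hε))
      refine ⟨N, fun ν hν => ?_⟩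
      obtain ⟨B', h4, h5⟩ := hN ν hν.le
      rw [Real.dist_eq, sub_zero, abs_of_nonneg Metric.infDist_nonneg]
      have hm : B' ∈ S ν := h5
      refine (Metric.infDist_lt_iff ⟨B', hm⟩).2 ⟨B', hm, ?_⟩
      rw [dist_comm]
      exact h4
    have h4 : Tendsto (fun ν : ℕ => Metric.infDist B (S ν) + 1 / ((ν : ℝ) + 1)) atTop (𝓝 0) := by
      have h5 := h3.add tendsto_one_div_add_atTop_nhds_zero_nat
      rwa [add_zero] at h5
    refine squeeze_zero' (Eventually.of_forall fun _ => dist_nonneg) ?_ h4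
    filter_upwards [hne] with ν hν
    rw [dist_comm]
    exact (hBs ν hν).2.le
  · filter_upwards [hne] with ν hν
    exact (hBs ν hν).1

/-- the interface, given the case of simple boxes -/
theorem itf (hbj : ∀ (j : ℕ) (u : ℕ → Matrix (Fin n) (Fin n) ℝ), Chn n j u → j ≤ k * (n - k) →
      ∀ B : Fin k → Fin n → ℂ, LinearIndependent ℂ B →
      (∀ q < k * (n - k) - j, ev (ctf (u 0) q) B = 0) →
      (∀ i, 1 ≤ i → i ≤ j → ev (ctf (u i) 0) B = 0) → IsReal n (sp B)) :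
    Itf k n (Pas n) ctf where
  p0 := Pas_zero
  ppos := fun _ ht => pos_Pas ht
  pcont := by
    have h := (continuous_Pas (n := n)).tendsto 0
    rwa [Pas_zero] at h
  cte := fun u _ t B => cte u t B
  pers := fun hcard w W hW B hB h0 hiso => pers_seq hcard w W hW B hB h0 hiso
  fin := fun w g _ hB hw hI => fin_gr w g hB hw hI
  gra := fun M u nn hC B hB hr h => gra_ctf M u nn hC B hB hr h
  lim := fun _ _ h1 h2 h3 => rlim h1 h2 h3
  bj := hbj

/-- the reality theorem, given the case of simple boxes -/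
theorem realThm_of_bj (hkn : k ≤ n)
    (hbj : ∀ (j : ℕ) (u : ℕ → Matrix (Fin n) (Fin n) ℝ), Chn n j u → j ≤ k * (n - k) →
      ∀ B : Fin k → Fin n → ℂ, LinearIndependent ℂ B →
      (∀ q < k * (n - k) - j, ev (ctf (u 0) q) B = 0) →
      (∀ i, 1 ≤ i → i ≤ j → ev (ctf (u i) 0) B = 0) → IsReal n (sp B)) :
    Pool.TP.RealThm k n :=
  realThm_of_itf (itf hbj) hkn fun _ hu _ hB a h => (ctf_zero_iff hu hB a).2 h

end Pool.TPC
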