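import Mathlib

/-! Lemma U: two different `k`-planes converging to the same plane and killed by nearby systems of
alternating forms give a tangent vector. -/

set_option autoImplicit false

open Filter Topology

namespace Pool.TPC.LemU

variable {k n : ℕ}

/-- the minor in the columns `s` -/
noncomputable def mn (s : Fin k → Fin n) (B : Fin k → Fin n → ℂ) : ℂ :=
  (Matrix.of fun a b => B a (s b)).det

/-- the minor as a multilinear map -/
noncomputable def mnM (s : Fin k → Fin n) :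
    MultilinearMap ℂ (fun _ : Fin k => Fin n → ℂ) ℂ :=
  (Matrix.detRowAlternating (n := Fin k) (R := ℂ)).toMultilinearMap.compLinearMap
    (fun _ => LinearMap.funLeft ℂ ℂ s)

lemma mnM_apply (s : Fin k → Fin n) (B : Fin k → Fin n → ℂ) : mnM s B = mn s B := rfl

lemma mn_cont (s : Fin k → Fin n) : Continuous (mn s : (Fin k → Fin n → ℂ) → ℂ) := by
  unfold mn
  refine Continuous.matrix_det ?_
  refine continuous_matrix fun i j => ?_
  simp only [Matrix.of_apply]
  fun_prop

/-- the minor as a continuous multilinear map -/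
noncomputable def mnC (s : Fin k → Fin n) :
    ContinuousMultilinearMap ℂ (fun _ : Fin k => Fin n → ℂ) ℂ :=
  { mnM s with cont := mn_cont s }

lemma mnC_apply (s : Fin k → Fin n) (B : Fin k → Fin n → ℂ) : mnC s B = mn s B := rfl

/-- difference quotients of a minor -/
lemma mn_dq {α : Type*} {F : Filter α} (s : Fin k → Fin n) (M M' : α → Fin k → Fin n → ℂ)
    (M0 N : Fin k → Fin n → ℂ)
    (r : α → ℝ) (hr : ∀ l, r l = ‖M l - M' l‖) (hpos : ∀ᶠ l in F, 0 < r l)
    (hM : Tendsto M F (𝓝 M0)) (hM' : Tendsto M' F (𝓝 M0))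
    (hN : Tendsto (fun l => ((r l : ℂ)⁻¹) • (M l - M' l)) F (𝓝 N)) :
    Tendsto (fun l => ((r l : ℂ)⁻¹) * (mn s (M l) - mn s (M' l))) F
      (𝓝 (∑ b, mn s (Function.update M0 b (N b)))) := by
  have h1 := (mnC s).hasStrictFDerivAt (x := M0)
  have h2 := h1.isLittleO
  have h3 : Tendsto (fun l => (M l, M' l)) F (𝓝 (M0, M0)) := hM.prodMk_nhds hM'
  have h4 := h2.comp_tendsto h3
  have h5 : Tendsto (fun l => ((r l : ℂ)⁻¹) * (mn s (M l) - mn s (M' l) -
      (mnC s).linearDeriv M0 (M l - M' l))) F (𝓝 0) := by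
    rw [tendsto_zero_iff_norm_tendsto_zero]
    have h6 := h4.norm_norm.tendsto_div_nhds_zero
    refine h6.congr' ?_
    filter_upwards [hpos] with l hl
    simp only [Function.comp_apply, norm_mul, norm_inv, Complex.norm_real, Real.norm_eq_abs,
      ← hr l, mnC_apply]
    rw [abs_of_pos hl]
    field_simp
  have h7 : Tendsto (fun l => (mnC s).linearDeriv M0 (((r l : ℂ)⁻¹) • (M l - M' l))) F
      (𝓝 ((mnC s).linearDeriv M0 N)) :=
    ((mnC s).linearDeriv M0).continuous.continuousAt.tendsto.comp hN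
  have h8 := h5.add h7
  rw [zero_add, ContinuousMultilinearMap.linearDeriv_apply] at h8
  refine h8.congr fun l => ?_
  rw [map_smul, smul_eq_mul]
  ring

lemma mn_mul (s : Fin k → Fin n) (A : Matrix (Fin k) (Fin k) ℂ) (B : Fin k → Fin n → ℂ) :
    mn s (fun a j => ∑ c, A a c * B c j) = A.det * mn s B := by
  unfold mn
  rw [← Matrix.det_mul]
  rfl

/-- some minor of a linearly independent family is nonzero -/
lemma exists_minor (B : Fin k → Fin n → ℂ) (h : LinearIndependent ℂ B) :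
    ∃ s : Fin k → Fin n, mn s B ≠ 0 := by
  classical
  let v : Fin n → (Fin k → ℂ) := fun j a => B a j
  have hspan : Submodule.span ℂ (Set.range v) = ⊤ := by
    by_contra hne
    obtain ⟨f, hf0, hf⟩ := Submodule.exists_le_ker_of_lt_top _ (lt_top_iff_ne_top.2 hne)
    apply hf0
    have h1 : ∑ a, f (Pi.single a 1) • B a = 0 := by
      funext j
      have h2 : f (v j) = 0 := hf (Submodule.subset_span ⟨j, rfl⟩)
      have h3 : v j = ∑ a, B a j • (Pi.single a 1 : Fin k → ℂ) := by
        rw [← pi_eq_sum_univ' (v j)]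
      rw [h3, map_sum] at h2
      simp only [map_smul, smul_eq_mul] at h2
      simp only [Finset.sum_apply, Pi.smul_apply, smul_eq_mul, Pi.zero_apply]
      rw [← h2]
      exact Finset.sum_congr rfl fun a _ => mul_comm _ _
    have h4 := (Fintype.linearIndependent_iff.1 h) _ h1
    refine (Pi.basisFun ℂ (Fin k)).ext fun a => ?_
    simpa using h4 a
  obtain ⟨κ, a, _, hsp, hli⟩ := exists_linearIndependent' ℂ v
  rw [hspan] at hsp
  have hbas : Module.Basis κ ℂ (Fin k → ℂ) := Module.Basis.mk hli (by rw [hsp])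
  have : Fintype κ := FiniteDimensional.fintypeBasisIndex hbas
  have hcard : Fintype.card κ = k := by
    rw [← Module.finrank_eq_card_basis hbas, Module.finrank_fin_fun]
  let e : Fin k ≃ κ := (Fintype.equivFinOfCardEq hcard).symm
  refine ⟨fun b => a (e b), ?_⟩
  have h5 : LinearIndependent ℂ (fun b => v (a (e b))) := hli.comp _ e.injective
  have h6 : LinearIndependent ℂ (Matrix.of fun (b : Fin k) (c : Fin k) => B c (a (e b))).row := h5
  rw [Matrix.linearIndependent_rows_iff_isUnit, Matrix.isUnit_iff_isUnit_det] at h6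
  have h7 : (Matrix.of fun (b : Fin k) (c : Fin k) => B c (a (e b))).det =
      mn (fun b => a (e b)) B := by
    unfold mn
    rw [← Matrix.det_transpose]
    rfl
  rw [← h7]
  exact h6.ne_zero

/-- continuity of the inverse matrix at an invertible matrix -/
lemma tendsto_minv {α : Type*} {F : Filter α} {C : α → Matrix (Fin k) (Fin k) ℂ}
    {C0 : Matrix (Fin k) (Fin k) ℂ}
    (h : Tendsto C F (𝓝 C0)) (h0 : C0.det ≠ 0) :
    Tendsto (fun l => (C l)⁻¹) F (𝓝 C0⁻¹) := by
  have h1 : Tendsto (fun l => (C l).det) F (𝓝 C0.det) :=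
    (Continuous.matrix_det continuous_id).continuousAt.tendsto.comp h
  have h2 : Tendsto (fun l => (C l).adjugate) F (𝓝 C0.adjugate) :=
    (Continuous.matrix_adjugate continuous_id).continuousAt.tendsto.comp h
  have h3 := (h1.inv₀ h0).smul h2
  simp only [Matrix.inv_def, Ring.inverse_eq_inv']
  exact h3

lemma span_mul {A : Matrix (Fin k) (Fin k) ℂ} (hA : A.det ≠ 0) (B : Fin k → Fin n → ℂ) :
    Submodule.span ℂ (Set.range fun a j => ∑ c, A a c * B c j) =
      Submodule.span ℂ (Set.range B) := by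
  have key : ∀ (A : Matrix (Fin k) (Fin k) ℂ) (B : Fin k → Fin n → ℂ),
      Submodule.span ℂ (Set.range fun a j => ∑ c, A a c * B c j) ≤
        Submodule.span ℂ (Set.range B) := by
    intro A B
    rw [Submodule.span_le]
    rintro _ ⟨a, rfl⟩
    have : (fun j => ∑ c, A a c * B c j) = ∑ c, A a c • B c := by
      funext j
      simp
    simp only [SetLike.mem_coe]
    rw [this]
    exact Submodule.sum_mem _ fun c _ => Submodule.smul_mem _ _ (Submodule.subset_span ⟨c, rfl⟩)
  refine le_antisymm (key A B) ?_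
  have h1 := key A⁻¹ (fun a j => ∑ c, A a c * B c j)
  have h2 : (fun a j => ∑ c, A⁻¹ a c * ∑ d, A c d * B d j) = B := by
    funext a j
    have h3 : (A⁻¹ * A) = 1 := Matrix.nonsing_inv_mul _ (Ne.isUnit hA)
    calc ∑ c, A⁻¹ a c * ∑ d, A c d * B d j
        = ∑ d, (A⁻¹ * A) a d * B d j := by
          simp only [Matrix.mul_apply, Finset.sum_mul, Finset.mul_sum]
          rw [Finset.sum_comm]
          refine Finset.sum_congr rfl fun d _ => Finset.sum_congr rfl fun c _ => by ring
      _ = B a j := by rw [h3]; simp [Matrix.one_apply]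
  rw [h2] at h1
  exact h1

/-- normalisation of a frame: the same minor block as `B0` -/
noncomputable def nrm (J : Fin k → Fin n) (B0 B : Fin k → Fin n → ℂ) : Fin k → Fin n → ℂ :=
  fun a j => ∑ c, ((Matrix.of fun a b => B0 a (J b)) * (Matrix.of fun a b => B a (J b))⁻¹) a c *
    B c j

lemma nrm_J {J : Fin k → Fin n} {B0 B : Fin k → Fin n → ℂ} (h : mn J B ≠ 0) (a b : Fin k) :
    nrm J B0 B a (J b) = B0 a (J b) := by
  have h1 : ((Matrix.of fun a b => B0 a (J b)) * (Matrix.of fun a b => B a (J b))⁻¹) *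
      (Matrix.of fun a b => B a (J b)) = (Matrix.of fun a b => B0 a (J b)) := by
    rw [Matrix.mul_assoc, Matrix.nonsing_inv_mul _ (Ne.isUnit h), Matrix.mul_one]
  have h2 := congrFun (congrFun h1 a) b
  rw [Matrix.mul_apply] at h2
  exact h2

lemma nrm_det {J : Fin k → Fin n} {B0 B : Fin k → Fin n → ℂ} (h0 : mn J B0 ≠ 0)
    (h : mn J B ≠ 0) :
    ((Matrix.of fun a b => B0 a (J b)) * (Matrix.of fun a b => B a (J b))⁻¹).det ≠ 0 := by
  rw [Matrix.det_mul]
  refine mul_ne_zero h0 ?_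
  rw [Matrix.det_nonsing_inv, Ring.inverse_eq_inv']
  exact inv_ne_zero h

lemma nrm_span {J : Fin k → Fin n} {B0 B : Fin k → Fin n → ℂ} (h0 : mn J B0 ≠ 0)
    (h : mn J B ≠ 0) :
    Submodule.span ℂ (Set.range (nrm J B0 B)) = Submodule.span ℂ (Set.range B) :=
  span_mul (nrm_det h0 h) B

/-- a linearly independent frame of the same space normalises to `B0` -/
lemma nrm_eq {J : Fin k → Fin n} {B0 B0' : Fin k → Fin n → ℂ} (h0 : mn J B0 ≠ 0)
    (h0' : mn J B0' ≠ 0)
    (hsp : Submodule.span ℂ (Set.range B0') = Submodule.span ℂ (Set.range B0)) :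
    nrm J B0 B0' = B0 := by
  have h1 := nrm_span h0 h0'
  rw [hsp] at h1
  funext a
  have h2 : nrm J B0 B0' a - B0 a ∈ Submodule.span ℂ (Set.range B0) := by
    refine Submodule.sub_mem _ ?_ (Submodule.subset_span ⟨a, rfl⟩)
    rw [← h1]
    exact Submodule.subset_span ⟨a, rfl⟩
  obtain ⟨x, hx⟩ := (Submodule.mem_span_range_iff_exists_fun ℂ).1 h2
  have h3 : Matrix.vecMul x (Matrix.of fun a b => B0 a (J b)) = 0 := by
    funext d
    have h4 := congrFun hx (J d)
    simp only [Pi.sub_apply] at h4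
    rw [nrm_J h0', sub_self] at h4
    simpa [Matrix.vecMul, dotProduct] using h4
  have h5 : x = 0 := Matrix.eq_zero_of_vecMul_eq_zero h0 h3
  rw [h5] at hx
  simp only [Pi.zero_apply, zero_smul, Finset.sum_const_zero] at hx
  exact (sub_eq_zero.1 hx.symm)

lemma minor_ne_of_span {J : Fin k → Fin n} {B0 B0' : Fin k → Fin n → ℂ} (h0 : mn J B0 ≠ 0)
    (hli' : LinearIndependent ℂ B0')
    (hsp : Submodule.span ℂ (Set.range B0') = Submodule.span ℂ (Set.range B0)) :
    mn J B0' ≠ 0 := by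
  intro h
  obtain ⟨v, hv0, hv⟩ := Matrix.exists_vecMul_eq_zero_iff.2 h
  have h1 : ∑ a, v a • B0' a ∈ Submodule.span ℂ (Set.range B0) := by
    rw [← hsp]
    exact Submodule.sum_mem _ fun a _ => Submodule.smul_mem _ _ (Submodule.subset_span ⟨a, rfl⟩)
  obtain ⟨x, hx⟩ := (Submodule.mem_span_range_iff_exists_fun ℂ).1 h1
  have h3 : Matrix.vecMul x (Matrix.of fun a b => B0 a (J b)) = 0 := by
    funext d
    have h4 := congrFun hx (J d)
    have h5 := congrFun hv d
    simp only [Matrix.vecMul, dotProduct, Matrix.of_apply, Pi.zero_apply] at h5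
    simp only [Finset.sum_apply, Pi.smul_apply, smul_eq_mul] at h4
    simp only [Matrix.vecMul, dotProduct, Matrix.of_apply, Pi.zero_apply]
    rw [h4, h5]
  have h5 : x = 0 := Matrix.eq_zero_of_vecMul_eq_zero h0 h3
  rw [h5] at hx
  simp only [Pi.zero_apply, zero_smul, Finset.sum_const_zero] at hx
  exact hv0 (funext fun a => (Fintype.linearIndependent_iff.1 hli') v hx.symm a)

lemma nrm_tendsto {α : Type*} {F : Filter α} {J : Fin k → Fin n} {B0 B0' : Fin k → Fin n → ℂ}
    {B : α → Fin k → Fin n → ℂ} (hB : Tendsto B F (𝓝 B0')) (h0 : mn J B0' ≠ 0) :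
    Tendsto (fun x => nrm J B0 (B x)) F (𝓝 (nrm J B0 B0')) := by
  have hsub : Continuous fun B : Fin k → Fin n → ℂ =>
      (Matrix.of fun a b => B a (J b) : Matrix (Fin k) (Fin k) ℂ) := by
    refine continuous_matrix fun i j => ?_
    simp only [Matrix.of_apply]
    fun_prop
  have h1 := tendsto_minv ((hsub.tendsto _).comp hB) h0
  have h2 : Tendsto (fun x => (Matrix.of fun a b => B0 a (J b)) *
      (Matrix.of fun a b => B x a (J b))⁻¹) F
      (𝓝 ((Matrix.of fun a b => B0 a (J b)) * (Matrix.of fun a b => B0' a (J b))⁻¹)) :=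
    ((continuous_const.matrix_mul continuous_id).tendsto _).comp h1
  refine tendsto_pi_nhds.2 fun a => tendsto_pi_nhds.2 fun j => ?_
  refine tendsto_finsetSum _ fun c _ => ?_
  refine Tendsto.mul ?_ (tendsto_pi_nhds.1 (tendsto_pi_nhds.1 hB c) j)
  exact ((continuous_id.matrix_elem a c).tendsto _).comp h2

lemma nrm_form {J : Fin k → Fin n} {B0 B : Fin k → Fin n → ℂ} {w : (Fin k → Fin n) → ℂ}
    (h : ∑ s, w s * mn s B = 0) : ∑ s, w s * mn s (nrm J B0 B) = 0 := by
  unfold nrm
  simp only [mn_mul]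
  have h1 : ∀ c : ℂ, ∑ s, w s * (c * mn s B) = c * ∑ s, w s * mn s B := by
    intro c
    rw [Finset.mul_sum]
    exact Finset.sum_congr rfl fun s _ => by ring
  rw [h1, h, mul_zero]

/-- **Lemma U**, filter version. -/
theorem lemUf {α ι : Type*} {F : Filter α} [F.NeBot] (w : α → ι → (Fin k → Fin n) → ℂ)
    (w0 : ι → (Fin k → Fin n) → ℂ)
    (hw : ∀ a s, Tendsto (fun l => w l a s) F (𝓝 (w0 a s)))
    (B B' : α → Fin k → Fin n → ℂ) (B0 B0' : Fin k → Fin n → ℂ)
    (hB : Tendsto B F (𝓝 B0)) (hB' : Tendsto B' F (𝓝 B0'))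
    (hli : LinearIndependent ℂ B0) (hli' : LinearIndependent ℂ B0')
    (hsp : Submodule.span ℂ (Set.range B0') = Submodule.span ℂ (Set.range B0))
    (hne : ∀ᶠ l in F, Submodule.span ℂ (Set.range (B l)) ≠ Submodule.span ℂ (Set.range (B' l)))
    (hz : ∀ᶠ l in F, ∀ a, ∑ s, w l a s * (Matrix.of fun x y => B l x (s y)).det = 0)
    (hz' : ∀ᶠ l in F, ∀ a, ∑ s, w l a s * (Matrix.of fun x y => B' l x (s y)).det = 0) :
    ∃ Z : Fin k → Fin n → ℂ, (∃ b, Z b ∉ Submodule.span ℂ (Set.range B0)) ∧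
      ∀ a, ∑ b, ∑ s, w0 a s *
        (Matrix.of fun x y => Function.update B0 b (Z b) x (s y)).det = 0 := by
  classical
  obtain ⟨J, hJ⟩ := exists_minor B0 hli
  have hJ' : mn J B0' ≠ 0 := minor_ne_of_span hJ hli' hsp
  obtain ⟨U, hU⟩ : ∃ U : Ultrafilter α, (U : Filter α) ≤ F := ⟨Ultrafilter.of F, Ultrafilter.of_le F⟩
  generalize hMdef : (fun l => nrm J B0 (B l)) = M
  generalize hMdef' : (fun l => nrm J B0 (B' l)) = M'
  have eM : ∀ l, M l = nrm J B0 (B l) := fun l => (congrFun hMdef l).symm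
  have eM' : ∀ l, M' l = nrm J B0 (B' l) := fun l => (congrFun hMdef' l).symm
  have hM : Tendsto M U (𝓝 B0) := by
    have h1 := nrm_tendsto (B0 := B0) (hB.mono_left hU) hJ
    rw [nrm_eq hJ hJ rfl, hMdef] at h1
    exact h1
  have hM' : Tendsto M' U (𝓝 B0) := by
    have h1 := nrm_tendsto (B0 := B0) (hB'.mono_left hU) hJ'
    rw [nrm_eq hJ hJ' hsp, hMdef'] at h1
    exact h1
  have hd : ∀ᶠ l in (U : Filter α), mn J (B l) ≠ 0 :=
    (((mn_cont J).tendsto _).comp (hB.mono_left hU)).eventually_ne hJ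
  have hd' : ∀ᶠ l in (U : Filter α), mn J (B' l) ≠ 0 :=
    (((mn_cont J).tendsto _).comp (hB'.mono_left hU)).eventually_ne hJ'
  generalize hr : (fun l => ‖M l - M' l‖) = r
  have er : ∀ l, r l = ‖M l - M' l‖ := fun l => (congrFun hr l).symm
  have hrpos : ∀ᶠ l in (U : Filter α), 0 < r l := by
    filter_upwards [hd, hd', hne.filter_mono hU] with l h1 h2 h3
    rw [er]
    refine norm_pos_iff.2 (sub_ne_zero.2 fun h4 => h3 ?_)
    rw [← nrm_span hJ h1, ← nrm_span hJ h2, ← eM, ← eM', h4]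
  generalize hD : (fun l => ((r l : ℂ)⁻¹) • (M l - M' l)) = D
  have eD : ∀ l, D l = ((r l : ℂ)⁻¹) • (M l - M' l) := fun l => (congrFun hD l).symm
  have hD1 : ∀ᶠ l in (U : Filter α), D l ∈ Metric.sphere (0 : Fin k → Fin n → ℂ) 1 := by
    filter_upwards [hrpos] with l hl
    rw [mem_sphere_zero_iff_norm, eD, norm_smul, norm_inv, Complex.norm_real, Real.norm_eq_abs,
      abs_of_pos hl, ← er]
    exact inv_mul_cancel₀ hl.ne'
  obtain ⟨N, hN1, hNl⟩ := (isCompact_sphere (0 : Fin k → Fin n → ℂ) 1).ultrafilter_le_nhds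
    (U.map D) (le_principal_iff.2 hD1)
  have hNt : Tendsto D U (𝓝 N) := hNl
  have hNJ : ∀ a b, N a (J b) = 0 := by
    intro a b
    have h1 : Tendsto (fun l => D l a (J b)) U (𝓝 (N a (J b))) :=
      tendsto_pi_nhds.1 (tendsto_pi_nhds.1 hNt a) (J b)
    refine tendsto_nhds_unique h1 ?_
    refine Tendsto.congr' ?_ tendsto_const_nhds
    filter_upwards [hd, hd'] with l h2 h3
    rw [eD]
    simp only [Pi.smul_apply, Pi.sub_apply, smul_eq_mul]
    rw [eM, eM', nrm_J h2, nrm_J h3, sub_self, mul_zero]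
  refine ⟨N, ?_, ?_⟩
  · by_contra hcon
    push Not at hcon
    have hN0 : N = 0 := by
      funext b
      obtain ⟨x, hx⟩ := (Submodule.mem_span_range_iff_exists_fun ℂ).1 (hcon b)
      have h1 : Matrix.vecMul x (Matrix.of fun a b => B0 a (J b)) = 0 := by
        funext d
        have h2 := hNJ b d
        rw [← hx] at h2
        simpa [Matrix.vecMul, dotProduct] using h2
      have h3 : x = 0 := Matrix.eq_zero_of_vecMul_eq_zero hJ h1
      rw [← hx, h3]
      simp
    rw [hN0] at hN1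
    simp at hN1
  · intro a
    have h1 : ∀ s, Tendsto (fun l => ((r l : ℂ)⁻¹) * (mn s (M l) - mn s (M' l))) U
        (𝓝 (∑ b, mn s (Function.update B0 b (N b)))) := fun s =>
      mn_dq s M M' B0 N r er hrpos hM hM' (by rw [hD]; exact hNt)
    have h2 : Tendsto (fun l => ∑ s, w l a s * (((r l : ℂ)⁻¹) *
        (mn s (M l) - mn s (M' l)))) U
        (𝓝 (∑ s, w0 a s * ∑ b, mn s (Function.update B0 b (N b)))) :=
      tendsto_finsetSum _ fun s _ => ((hw a s).mono_left hU).mul (h1 s)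
    have h3 : ∀ᶠ l in (U : Filter α), ∑ s, w l a s * (((r l : ℂ)⁻¹) *
        (mn s (M l) - mn s (M' l))) = 0 := by
      filter_upwards [hz.filter_mono hU, hz'.filter_mono hU] with l h4 h5
      have h6 : ∑ s, w l a s * mn s (M l) = 0 := by
        rw [eM]; exact nrm_form (h4 a)
      have h7 : ∑ s, w l a s * mn s (M' l) = 0 := by
        rw [eM']; exact nrm_form (h5 a)
      calc ∑ s, w l a s * (((r l : ℂ)⁻¹) * (mn s (M l) - mn s (M' l)))
          = ((r l : ℂ)⁻¹) * (∑ s, w l a s * mn s (M l) - ∑ s, w l a s * mn s (M' l)) := by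
            rw [← Finset.sum_sub_distrib, Finset.mul_sum]
            exact Finset.sum_congr rfl fun s _ => by ring
        _ = 0 := by rw [h6, h7, sub_zero, mul_zero]
    have h8 : ∑ s, w0 a s * ∑ b, mn s (Function.update B0 b (N b)) = 0 := by
      refine tendsto_nhds_unique h2 ?_
      refine Tendsto.congr' ?_ tendsto_const_nhds
      filter_upwards [h3] with l h9
      exact h9.symm
    rw [Finset.sum_comm, ← h8]
    refine Finset.sum_congr rfl fun s _ => ?_
    rw [Finset.mul_sum]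
    rfl

/-- **Lemma U**. -/
theorem lemU {ι : Type*} (w : ℕ → ι → (Fin k → Fin n) → ℂ) (w0 : ι → (Fin k → Fin n) → ℂ)
    (hw : ∀ a s, Tendsto (fun l => w l a s) atTop (𝓝 (w0 a s)))
    (B B' : ℕ → Fin k → Fin n → ℂ) (B0 B0' : Fin k → Fin n → ℂ)
    (hB : Tendsto B atTop (𝓝 B0)) (hB' : Tendsto B' atTop (𝓝 B0'))
    (hli : LinearIndependent ℂ B0) (hli' : LinearIndependent ℂ B0')
    (hsp : Submodule.span ℂ (Set.range B0') = Submodule.span ℂ (Set.range B0))
    (hne : ∀ l, Submodule.span ℂ (Set.range (B l)) ≠ Submodule.span ℂ (Set.range (B' l)))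
    (hz : ∀ l a, ∑ s, w l a s * (Matrix.of fun x y => B l x (s y)).det = 0)
    (hz' : ∀ l a, ∑ s, w l a s * (Matrix.of fun x y => B' l x (s y)).det = 0) :
    ∃ Z : Fin k → Fin n → ℂ, (∃ b, Z b ∉ Submodule.span ℂ (Set.range B0)) ∧
      ∀ a, ∑ b, ∑ s, w0 a s *
        (Matrix.of fun x y => Function.update B0 b (Z b) x (s y)).det = 0 :=
  lemUf w w0 hw B B' B0 B0' hB hB' hli hli' hsp (Eventually.of_forall hne)
    (Eventually.of_forall hz) (Eventually.of_forall hz')

end Pool.TPC.LemU
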