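import Pool.Agent.TPC.Plu
import Pool.Agent.TPC.Conj
import Pool.Agent.TPC.LemU

/-! Local uniqueness at a real limit: solutions close to a real solution are real. -/

namespace Pool.TPC

open Filter Topology Pool.CSC

variable {k n : ℕ}

/-- the derivative of a form at the frame `B` in the direction `Z` -/
noncomputable def dev (w : (Fin k → Fin n) → ℂ) (B Z : Fin k → Fin n → ℂ) : ℂ :=
  ∑ b, ev w (Function.update B b (Z b))

/-- Lemma U in terms of `ev` and `dev` -/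
theorem lemmaU {K : Type*} (W : ℕ → K → (Fin k → Fin n) → ℂ) (w : K → (Fin k → Fin n) → ℂ)
    (hW : ∀ a s, Tendsto (fun ν => W ν a s) atTop (𝓝 (w a s)))
    {Bs Bs' : ℕ → Fin k → Fin n → ℂ} {B B' : Fin k → Fin n → ℂ}
    (hB : LinearIndependent ℂ B) (hB' : LinearIndependent ℂ B')
    (hs : Submodule.span ℂ (Set.range B') = Submodule.span ℂ (Set.range B))
    (ht : Tendsto Bs atTop (𝓝 B)) (ht' : Tendsto Bs' atTop (𝓝 B'))
    (h0 : ∀ ν a, ev (W ν a) (Bs ν) = 0) (h0' : ∀ ν a, ev (W ν a) (Bs' ν) = 0)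
    (hne : ∀ ν, Submodule.span ℂ (Set.range (Bs' ν)) ≠ Submodule.span ℂ (Set.range (Bs ν))) :
    ∃ Z : Fin k → Fin n → ℂ, (∀ a, dev (w a) B Z = 0) ∧
      ∃ b, Z b ∉ Submodule.span ℂ (Set.range B) := by
  obtain ⟨Z, hZ1, hZ2⟩ := LemU.lemU W w hW Bs Bs' B B' ht ht' hB hB' hs (fun ν => (hne ν).symm) h0 h0'
  exact ⟨Z, hZ2, hZ1⟩

/-- **local uniqueness**, one family of forms -/
theorem LU_abs {K : Type*} (W : ℕ → K → (Fin k → Fin n) → ℂ) (w : K → (Fin k → Fin n) → ℂ)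
    (hW : ∀ a s, Tendsto (fun ν => W ν a s) atTop (𝓝 (w a s)))
    (hr : ∀ ν a s, (starRingEnd ℂ) (W ν a s) = W ν a s)
    {Bs : ℕ → Fin k → Fin n → ℂ} {B : Fin k → Fin n → ℂ}
    (hB : LinearIndependent ℂ B) (ht : Tendsto Bs atTop (𝓝 B))
    (hBr : IsReal n (Submodule.span ℂ (Set.range B)))
    (h0 : ∀ᶠ ν in atTop, ∀ a, ev (W ν a) (Bs ν) = 0)
    (hZ : ∀ Z : Fin k → Fin n → ℂ, (∀ a, dev (w a) B Z = 0) →
      ∀ b, Z b ∈ Submodule.span ℂ (Set.range B)) :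
    ∀ᶠ ν in atTop, IsReal n (Submodule.span ℂ (Set.range (Bs ν))) := by
  by_contra hcon
  rw [Filter.not_eventually] at hcon
  have h1 := hcon.and_eventually h0
  obtain ⟨f, hf, hf2⟩ := Filter.extraction_of_frequently_atTop h1
  have hcj : Submodule.span ℂ (Set.range (cj B)) = Submodule.span ℂ (Set.range B) :=
    isReal_iff_span_cj.1 hBr
  obtain ⟨Z, hZ0, b, hb⟩ := lemmaU (fun ν => W (f ν)) w
    (fun a s => (hW a s).comp hf.tendsto_atTop)
    (Bs := fun ν => Bs (f ν)) (Bs' := fun ν => cj (Bs (f ν))) hB (li_cj hB) hcj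
    (ht.comp hf.tendsto_atTop) (tendsto_cj (ht.comp hf.tendsto_atTop))
    (fun ν a => (hf2 ν).2 a) (fun ν a => (ev_cj_eq_zero (hr (f ν) a)).2 ((hf2 ν).2 a))
    (fun ν => span_cj_ne (hf2 ν).1)
  exact hb (hZ Z hZ0 b)

/-- **local uniqueness**, finitely many families of forms: eventually each frame satisfies one of
the families -/
theorem LU_abs_fam {I : Type*} [Finite I] {K : I → Type*}
    (W : (i : I) → ℕ → K i → (Fin k → Fin n) → ℂ) (w : (i : I) → K i → (Fin k → Fin n) → ℂ)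
    (hW : ∀ i a s, Tendsto (fun ν => W i ν a s) atTop (𝓝 (w i a s)))
    (hr : ∀ i ν a s, (starRingEnd ℂ) (W i ν a s) = W i ν a s)
    {Bs : ℕ → Fin k → Fin n → ℂ} {B : Fin k → Fin n → ℂ}
    (hB : LinearIndependent ℂ B) (ht : Tendsto Bs atTop (𝓝 B))
    (hBr : IsReal n (Submodule.span ℂ (Set.range B)))
    (h0 : ∀ᶠ ν in atTop, ∃ i, ∀ a, ev (W i ν a) (Bs ν) = 0)
    (hZ : ∀ i, (∃ᶠ ν in atTop, ∀ a, ev (W i ν a) (Bs ν) = 0) →
      ∀ Z : Fin k → Fin n → ℂ, (∀ a, dev (w i a) B Z = 0) →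
      ∀ b, Z b ∈ Submodule.span ℂ (Set.range B)) :
    ∀ᶠ ν in atTop, IsReal n (Submodule.span ℂ (Set.range (Bs ν))) := by
  by_contra hcon
  rw [Filter.not_eventually] at hcon
  have h1 := hcon.and_eventually h0
  have h2 : ∃ i, ∃ᶠ ν in atTop, ¬ IsReal n (Submodule.span ℂ (Set.range (Bs ν))) ∧
      ∀ a, ev (W i ν a) (Bs ν) = 0 := by
    by_contra h3
    have h4 := Filter.eventually_all.2 fun i => Filter.not_frequently.1 fun h => h3 ⟨i, h⟩
    obtain ⟨ν, ⟨hν1, i, hν2⟩, hν3⟩ := (h1.and_eventually h4).exists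
    exact hν3 i ⟨hν1, hν2⟩
  obtain ⟨i, h2⟩ := h2
  obtain ⟨f, hf, hf2⟩ := Filter.extraction_of_frequently_atTop h2
  have h5 := LU_abs (fun ν => W i (f ν)) (w i) (fun a s => (hW i a s).comp hf.tendsto_atTop)
    (fun ν a s => hr i (f ν) a s) (Bs := fun ν => Bs (f ν)) hB (ht.comp hf.tendsto_atTop) hBr
    (Filter.Eventually.of_forall fun ν a => (hf2 ν).2 a)
    (hZ i (h2.mono fun ν hν => hν.2))
  obtain ⟨ν, hν⟩ := h5.exists
  exact (hf2 ν).1 hν

end Pool.TPC
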