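import Pool.Agent.TPC.TC
import Pool.Agent.TPC.LUabs
import Pool.Agent.TPC.Ech
import Pool.Agent.TPC.Contact
import Pool.Agent.TPC.Chn

/-! Local uniqueness: reality is an open condition at positive lists. -/

set_option autoImplicit false

namespace Pool.TPC

open Matrix Module Pool.CSC Pool.TPT Filter Topology

variable {k n : ℕ}

namespace LUo

/-- the coefficients of a single Pluecker coordinate -/
noncomputable def one (s : Ix k n) : Cf k n := Pi.single s 1

theorem ev_one (s : Ix k n) (B : Fr k n) : ev (one s) B = pl s B := by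
  rw [ev, Finset.sum_eq_single s]
  · simp [one]
  · intro t _ ht
    simp [one, Pi.single_eq_of_ne ht]
  · simp

theorem act_update (g : Matrix (Fin n) (Fin n) ℂ) (B : Fr k n) (b : Fin k) (z : Fin n → ℂ) :
    act g (Function.update B b z) = Function.update (act g B) b (g *ᵥ z) := by
  funext a
  by_cases h : a = b
  · subst h
    simp [act]
  · simp [act, Function.update_of_ne h]

theorem dev_pull (g : Matrix (Fin n) (Fin n) ℂ) (w : Cf k n) (B Z : Fr k n) :
    dev (pull g w) B Z = dev w (act g B) (act g Z) := by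
  unfold dev
  refine Finset.sum_congr rfl fun b _ => ?_
  rw [ct_ev_pull, act_update]
  rfl

theorem dev_one (s : Ix k n) (B Z : Fr k n) : dev (one s) B Z = dpl s B Z := by
  unfold dev dpl
  exact Finset.sum_congr rfl fun b _ => ev_one s _

theorem dev_fw_zero (hk : k ≤ n) (B Z : Fr k n) : dev (fw 0) B Z = dpl (s0 hk) B Z := by
  unfold dev dpl
  exact Finset.sum_congr rfl fun b _ => ev_fw_zero hk _

theorem pull_real {u : RM n} {w : Cf k n} (hw : ∀ s, (starRingEnd ℂ) (w s) = w s) (s : Ix k n) :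
    (starRingEnd ℂ) (pull (cx u) w s) = pull (cx u) w s := by
  simp only [pull, map_sum, map_mul, map_prod, hw, cx, Matrix.map_apply, Complex.conj_ofReal]

theorem one_real (s t : Ix k n) : (starRingEnd ℂ) (one s t) = one s t := by
  unfold one
  by_cases h : t = s
  · subst h
    simp
  · simp [Pi.single_eq_of_ne h]

theorem li_act {u : RM n} (hu : IsUnit u.det) {B : Fr k n} (hB : LinearIndependent ℂ B) :
    LinearIndependent ℂ (act (cx u⁻¹) B) :=
  li_symm (eqv u hu) hB

theorem ev_lim {W : ℕ → Cf k n} {w : Cf k n} (hW : ∀ s, Tendsto (fun ν => W ν s) atTop (𝓝 (w s)))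
    {Bs : ℕ → Fr k n} {B : Fr k n} (hB : Tendsto Bs atTop (𝓝 B)) (h : ∀ ν, ev (W ν) (Bs ν) = 0) :
    ev w B = 0 := by
  have h1 : Tendsto (fun ν => ev (W ν) (Bs ν)) atTop (𝓝 (ev w B)) := by
    unfold ev
    exact tendsto_finset_sum _ fun s _ => (hW s).mul (((continuous_pl s).tendsto B).comp hB)
  simp only [h] at h1
  exact (tendsto_nhds_unique h1 tendsto_const_nhds)

end LUo

open LUo

/-- **LU_open** -/
theorem luo (hk : k ≤ n) (M a : ℕ) (vs : ℕ → ℕ → RM n) (v : ℕ → RM n) (Bs : ℕ → Fr k n)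
    (B : Fr k n) (haM : a + M = k * (n - k)) (hv : Chn n M v)
    (_hvs : ∀ ν i, 1 ≤ i → i ≤ M → Uni (vs ν i))
    (hlim : ∀ i, 1 ≤ i → i ≤ M → Tendsto (fun ν => vs ν i) atTop (𝓝 (v i)))
    (hBs : Tendsto Bs atTop (𝓝 B)) (hli : ∀ ν, LinearIndependent ℂ (Bs ν))
    (hB : LinearIndependent ℂ B)
    (h0 : ∀ ν, ∀ q < a, ev (ctf (v 0) q) (Bs ν) = 0)
    (h1 : ∀ ν i, 1 ≤ i → i ≤ M → ev (ctf (vs ν i) 0) (Bs ν) = 0)
    (hr : IsReal n (sp B)) : ∀ᶠ ν in atTop, IsReal n (sp (Bs ν)) := by
  have hu : ∀ i ≤ M, IsUnit (v i).det := fun i hi => (hv.uni i hi).isUnit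
  -- the conditions in terms of Pluecker coordinates
  have e0 : ∀ ν, ∀ s : Ix k n, StrictMono s → wt s < a → pl s (act (cx (v 0)⁻¹) (Bs ν)) = 0 := by
    intro ν
    rw [ord_iff_fw (LUo.li_act (hu 0 (Nat.zero_le _)) (hli ν))]
    intro q hq
    rw [← ev_ctf]
    exact h0 ν q hq
  have hct : ∀ i, 1 ≤ i → i ≤ M → ∀ s, Tendsto (fun ν => ctf (vs ν i) 0 s) atTop
      (𝓝 (ctf (k := k) (v i) 0 s)) := fun i hi hi' s => tendsto_ctf (hu i hi') (hlim i hi hi') 0 s
  -- the conditions of the limit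
  have f0 : ∀ s : Ix k n, StrictMono s → wt s < a → pl s (act (cx (v 0)⁻¹) B) = 0 := by
    rw [ord_iff_fw (LUo.li_act (hu 0 (Nat.zero_le _)) hB)]
    intro q hq
    rw [← ev_ctf]
    exact ev_lim (W := fun _ => ctf (v 0) q) (fun s => tendsto_const_nhds) hBs
      (fun ν => h0 ν q hq)
  have f1 : ∀ i, 1 ≤ i → i ≤ M → pl (s0 hk) (act (cx (v i)⁻¹) B) = 0 := by
    intro i hi hi'
    rw [← ev_fw_zero hk, ← ev_ctf]
    exact ev_lim (hct i hi hi') hBs (fun ν => h1 ν i hi hi')
  -- local uniqueness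
  refine LU_abs (K := {s : Ix k n // StrictMono s ∧ wt s < a} ⊕ Fin M)
    (fun ν x => Sum.elim (fun s => pull (cx (v 0)⁻¹) (one s.1))
      (fun i : Fin M => ctf (vs ν (i + 1)) 0) x)
    (fun x => Sum.elim (fun s => pull (cx (v 0)⁻¹) (one s.1))
      (fun i : Fin M => ctf (v (i + 1)) 0) x) ?_ ?_ hB hBs hr ?_ ?_
  · rintro (s | i) t
    · exact tendsto_const_nhds
    · exact hct _ (by omega) (by have := i.isLt; omega) t
  · rintro ν (s | i) t
    · exact pull_real (one_real _) t
    · exact ctf_real _ _ _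
  · refine Filter.Eventually.of_forall fun ν => ?_
    rintro (s | i)
    · simp only [Sum.elim_inl]
      rw [ct_ev_pull, ev_one]
      exact e0 ν s.1 s.2.1 s.2.2
    · simp only [Sum.elim_inr]
      exact h1 ν _ (by omega) (by have := i.isLt; omega)
  · intro Z hZ b
    have g0 : ∀ s : Ix k n, StrictMono s → wt s < a →
        dpl s (act (cx (v 0)⁻¹) B) (act (cx (v 0)⁻¹) Z) = 0 := by
      intro s hs hw
      have := hZ (Sum.inl ⟨s, hs, hw⟩)
      simp only [Sum.elim_inl] at this
      rwa [dev_pull, dev_one] at this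
    have g1 : ∀ i, 1 ≤ i → i ≤ M →
        dpl (s0 hk) (act (cx (v i)⁻¹) B) (act (cx (v i)⁻¹) Z) = 0 := by
      intro i hi hi'
      have := hZ (Sum.inr ⟨i - 1, by omega⟩)
      simp only [Sum.elim_inr, Nat.sub_add_cancel hi] at this
      rwa [ctf, dev_pull, dev_fw_zero hk] at this
    refine TC (m := M + 1) hk (g := fun i : Fin (M + 1) => v i)
      (fun i => hv.uni i (Nat.le_of_lt_succ i.isLt))
      (fun i j hij => by
        rw [← hij]
        exact hv.pos i (by have := j.isLt; omega))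
      (mm := fun i : Fin (M + 1) => if (i : ℕ) = 0 then a else 1) ?_ hB hr ?_ ?_ b
    · rw [Fin.sum_univ_succ]
      simp only [Fin.val_zero, if_true, Fin.val_succ, Nat.add_eq_zero_iff, one_ne_zero, and_false,
        if_false, Finset.sum_const, Finset.card_univ, Fintype.card_fin, smul_eq_mul, mul_one]
      exact haM.ge
    · intro i s hs hlt
      rw [← wt_add hs] at hlt
      by_cases hi : (i : ℕ) = 0
      · rw [if_pos hi] at hlt
        rw [hi]
        exact f0 s hs (by omega)
      · rw [if_neg hi] at hlt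
        have := eq_s0 hk hs (by omega)
        rw [this]
        exact f1 i (by omega) (by have := i.isLt; omega)
    · intro i s hs hlt
      rw [← wt_add hs] at hlt
      by_cases hi : (i : ℕ) = 0
      · rw [if_pos hi] at hlt
        rw [hi]
        exact g0 s hs (by omega)
      · rw [if_neg hi] at hlt
        have := eq_s0 hk hs (by omega)
        rw [this]
        exact g1 i (by omega) (by have := i.isLt; omega)

end Pool.TPC
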