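import Pool.Agent.TPC.ItfInst
import Pool.Agent.TPC.BJInst
import Pool.Agent.TP.Final

/-! The reality theorem for positive lists of flags and the cosecant conjecture. -/

set_option autoImplicit false

open Matrix Filter Topology Module Pool.CSC

namespace Pool.TPC

variable {k n : ℕ}

/-- all points of positive Schubert problems are real -/
theorem realThm (hkn : k ≤ n) : Pool.TP.RealThm k n := realThm_of_bj hkn BJ.bj_ctf

/-- the cosecant conjecture -/
theorem cosecant {k n m : ℕ} (hk : 1 ≤ k) (hkn : k < n)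
    {lam : Fin m → Fin k → ℕ} (hlam : IsProblem k n m lam) :
    ∃ d, (∀ d', IsGenericNumber k n m lam d' ↔ d' = d) ∧
      ∀ (I : Fin m → Set ℝ) (F : Fin m → ℕ → Submodule ℂ (Fin n → ℂ)),
        (∀ l, (I l).OrdConnected) → Pairwise (fun l l' => Disjoint (I l) (I l')) →
        (∀ l, Cosecant n (I l) (F l)) →
        (⋂ l, schub k n (lam l) (F l)).encard = d ∧
          ∀ H ∈ ⋂ l, schub k n (lam l) (F l), IsReal n H ∧
            ∀ φ : ↥H →ₗ[ℂ] (Fin n → ℂ) ⧸ H,
              (∀ l, TangentTo k n (lam l) (F l) H φ) → φ = 0 :=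
  Pool.TP.main_of_real hk hkn (realThm hkn.le) hlam

end Pool.TPC
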