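import Pool.Agent.TPC.Cell
import Pool.Agent.TP.Gtt

/-! The size of the position of a subspace with respect to the flag of a real unipotent matrix:
it is at most the dimension of the conormal space, and at least `|λ|` on the Schubert variety of
`λ`. -/

set_option autoImplicit false

open Module Finset Pool.CSC Pool.TP Matrix

namespace Pool.TPC

noncomputable section

variable {n k : ℕ}

theorem Fl0_eq (j : ℕ) : Fl0 n j = E0 n j := by
  ext v
  rw [mem_Fl0, mem_E0]
  refine forall_congr' fun i => ?_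
  rw [show (i : ℕ) < n - j ↔ (i : ℕ) + j < n by omega]

/-- the frame `u⁻¹ B` -/
def mv (u : Matrix (Fin n) (Fin n) ℝ) (B : Fin k → Fin n → ℂ) : Fin k → Fin n → ℂ :=
  fun a => cm u⁻¹ *ᵥ B a

theorem cm_mul_inv {u : Matrix (Fin n) (Fin n) ℝ} (hu : TPT.Uni u) (v : Fin n → ℂ) :
    cm u *ᵥ (cm u⁻¹ *ᵥ v) = v := by
  rw [Matrix.mulVec_mulVec, ← cm_mul, Matrix.mul_nonsing_inv _ hu.isUnit]
  have : cm (1 : Matrix (Fin n) (Fin n) ℝ) = 1 := by
    ext i j
    by_cases h : i = j <;> simp [cm, Matrix.one_apply, h]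
  rw [this, Matrix.one_mulVec]

/-- the dimensions of intersections with the flag of `u` -/
theorem finrank_flg {u : Matrix (Fin n) (Fin n) ℝ} (hu : TPT.Uni u) (B : Fin k → Fin n → ℂ)
    (j : ℕ) : finrank ℂ ↥(Submodule.span ℂ (Set.range B) ⊓ flg u j) =
      finrank ℂ ↥(Submodule.span ℂ (Set.range (mv u B)) ⊓ E0 n j) := by
  have hdet : u.det ≠ 0 := by
    rw [UU.det hu]
    exact one_ne_zero
  have hinj : Function.Injective (Matrix.mulVecLin (cm u)) := cm_mulVec_inj hdet
  have h1 : Submodule.span ℂ (Set.range B) =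
      (Submodule.span ℂ (Set.range (mv u B))).map (Matrix.mulVecLin (cm u)) := by
    rw [Submodule.map_span, ← Set.range_comp]
    congr 2
    funext a
    exact (cm_mul_inv hu (B a)).symm
  rw [h1, flg, Fl0_eq, ← Submodule.map_inf _ hinj]
  exact ((Submodule.equivMapOfInjective _ hinj _).finrank_eq).symm

theorem li_mv {u : Matrix (Fin n) (Fin n) ℝ} (hu : TPT.Uni u) {B : Fin k → Fin n → ℂ}
    (hB : LinearIndependent ℂ B) : LinearIndependent ℂ (mv u B) := by
  have hdet : u.det ≠ 0 := by
    rw [UU.det hu]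
    exact one_ne_zero
  have hinj : Function.Injective (Matrix.mulVecLin (cm u)) := cm_mulVec_inj hdet
  have h1 : B = (Matrix.mulVecLin (cm u)) ∘ mv u B := by
    funext a
    exact (cm_mul_inv hu (B a)).symm
  rw [h1] at hB
  exact LinearIndependent.of_comp _ hB

/-- upper sets of indices -/
theorem card_ge (c : Fin k) : (univ.filter fun a : Fin k => c ≤ a).card = k - c := by
  have : (univ.filter fun a : Fin k => c ≤ a) = Finset.Ici c := by
    ext a
    simp
  rw [this, Fin.card_Ici]

/-- the size of the position is at most the dimension of the conormal space -/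
theorem size_le_con {u : Matrix (Fin n) (Fin n) ℝ} (hu : TPT.Uni u) {B : Fin k → Fin n → ℂ}
    (hB : LinearIndependent ℂ B) {P : Fin k → Fin n} (hP : StrictMono P)
    (hdim : ∀ j, finrank ℂ ↥(Submodule.span ℂ (Set.range (mv u B)) ⊓ E0 n j) =
      (univ.filter fun a => n ≤ (P a : ℕ) + j).card) :
    ∑ c, ((P c : ℕ) - (c : ℕ)) ≤ finrank ℂ (con (Submodule.span ℂ (Set.range B)) (flg u)) := by
  have hk : finrank ℂ ↥(Submodule.span ℂ (Set.range B)) = k := by
    rw [finrank_span_eq_card hB, Fintype.card_fin]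
  have hkn : k ≤ n := by
    have := Submodule.finrank_le (Submodule.span ℂ (Set.range B))
    rw [hk, finrank_V] at this
    exact this
  have h1 := le_finrank_con hk (isFlag_uni hu) (fun i : Fin k => n - (P i.rev : ℕ))
    (fun i => Nat.sub_le _ _) (fun i => ?_)
  · refine le_trans (le_of_eq ?_) h1
    rw [← Equiv.sum_comp Fin.revPerm fun c : Fin k => ((P c : ℕ) - (c : ℕ))]
    refine Finset.sum_congr rfl fun i _ => ?_
    have h2 := ge_self hP i.rev
    have h3 := (P i.rev).isLt
    have h4 := i.isLt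
    rw [Fin.revPerm_apply]
    rw [Fin.val_rev] at h2 ⊢
    omega
  · rw [finrank_flg hu, hdim]
    have h2 : (univ.filter fun a : Fin k => i.rev ≤ a) ⊆
        univ.filter fun a => n ≤ (P a : ℕ) + (n - (P i.rev : ℕ)) := by
      intro a ha
      rw [Finset.mem_filter] at ha ⊢
      have h3 : (P i.rev : ℕ) ≤ P a := Fin.le_def.1 (hP.monotone ha.2)
      exact ⟨mem_univ _, by omega⟩
    have h3 := Finset.card_le_card h2
    rw [card_ge, Fin.val_rev] at h3
    have := i.isLt
    omega

/-- the size of the position on a Schubert variety -/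
theorem lam_le_size {u : Matrix (Fin n) (Fin n) ℝ} (hu : TPT.Uni u) {B : Fin k → Fin n → ℂ}
    {P : Fin k → Fin n} (hP : StrictMono P)
    (hdim : ∀ j, finrank ℂ ↥(Submodule.span ℂ (Set.range (mv u B)) ⊓ E0 n j) =
      (univ.filter fun a => n ≤ (P a : ℕ) + j).card) {lam : Fin k → ℕ} (hle : ∀ i, lam i ≤ n - k)
    (hkn : k ≤ n) (hH : Submodule.span ℂ (Set.range B) ∈ schub k n lam (flg u)) :
    ∑ i, lam i ≤ ∑ c, ((P c : ℕ) - (c : ℕ)) := by
  rw [← Equiv.sum_comp Fin.revPerm fun c : Fin k => ((P c : ℕ) - (c : ℕ))]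
  refine Finset.sum_le_sum fun i _ => ?_
  rw [Fin.revPerm_apply]
  have h1 := hH.2 i
  rw [finrank_flg hu, hdim] at h1
  have h2 : n ≤ (P i.rev : ℕ) + sidx k n lam i := by
    by_contra hc
    have h3 : (univ.filter fun a => n ≤ (P a : ℕ) + sidx k n lam i) ⊆
        (univ.filter fun a : Fin k => i.rev ≤ a).erase i.rev := by
      intro a ha
      rw [Finset.mem_filter] at ha
      rw [Finset.mem_erase, Finset.mem_filter]
      refine ⟨?_, mem_univ _, ?_⟩
      · rintro rfl
        exact hc ha.2
      · by_contra hlt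
        have h4 : (P a : ℕ) < P i.rev := Fin.lt_def.1 (hP (not_le.1 hlt))
        omega
    have h4 := Finset.card_le_card h3
    rw [Finset.card_erase_of_mem (by simp), card_ge, Fin.val_rev] at h4
    have := i.isLt
    omega
  have h3 := hle i
  have h4 := i.isLt
  have h5 := ge_self hP i.rev
  rw [Fin.val_rev] at h5 ⊢
  unfold sidx at h2
  omega

end

end Pool.TPC
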