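import Pool.Agent.TP.Gtt
import Pool.Agent.TPC.CellU

/-! The tangent criterion: at a real solution of a positive problem, a tangent vector which kills
the conditions is zero. -/

set_option autoImplicit false

open Module Finset

namespace Pool.TPC

noncomputable section

variable {n k m : ℕ}

/-- the linear equivalence of an invertible real matrix -/
def eM (u : Matrix (Fin n) (Fin n) ℝ) (hu : u.det ≠ 0) : (Fin n → ℂ) ≃ₗ[ℂ] (Fin n → ℂ) where
  toFun v := (TP.cm u).mulVec v
  map_add' v w := Matrix.mulVec_add _ _ _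
  map_smul' c v := Matrix.mulVec_smul _ _ _
  invFun v := (TP.cm u⁻¹).mulVec v
  left_inv v := by
    have h : TP.cm u⁻¹ * TP.cm u = 1 := by
      rw [TP.cm, TP.cm, ← Matrix.map_mul, Matrix.nonsing_inv_mul _ (isUnit_iff_ne_zero.2 hu)]
      exact Matrix.map_one _ (map_zero _) (map_one _)
    change (TP.cm u⁻¹).mulVec ((TP.cm u).mulVec v) = v
    rw [Matrix.mulVec_mulVec, h, Matrix.one_mulVec]
  right_inv v := by
    have h : TP.cm u * TP.cm u⁻¹ = 1 := by
      rw [TP.cm, TP.cm, ← Matrix.map_mul, Matrix.mul_nonsing_inv _ (isUnit_iff_ne_zero.2 hu)]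
      exact Matrix.map_one _ (map_zero _) (map_one _)
    change (TP.cm u).mulVec ((TP.cm u⁻¹).mulVec v) = v
    rw [Matrix.mulVec_mulVec, h, Matrix.one_mulVec]

theorem flg_eq_mp (u : Matrix (Fin n) (Fin n) ℝ) (hu : u.det ≠ 0) (j : ℕ) :
    TP.flg u j = mp (eM u hu) (E0 n j) := by
  have h : TP.Fl0 n j = E0 n j := by
    ext v
    rw [TP.mem_Fl0, mem_E0]
    constructor
    · intro h i hi
      exact h i (by omega)
    · intro h i hi
      exact h i (by omega)
  rw [TP.flg, h]
  rfl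

theorem strictMono_add {P : Fin k → Fin n} (hP : StrictMono P) {a b : Fin k} (hab : a ≤ b) :
    (P a : ℕ) + b ≤ P b + a := by
  have key : ∀ d : ℕ, ∀ b : Fin k, (b : ℕ) = a + d → (P a : ℕ) + d ≤ P b := by
    intro d
    induction d with
    | zero =>
      intro b hb
      have : b = a := Fin.ext (by omega)
      rw [this, add_zero]
    | succ d ih =>
      intro b hb
      have hd : (a : ℕ) + d < k := by have := b.isLt; omega
      have h1 := ih ⟨(a : ℕ) + d, hd⟩ rfl
      have h2 : P ⟨(a : ℕ) + d, hd⟩ < P b := hP (Fin.lt_def.2 (by simp only; omega))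
      rw [Fin.lt_def] at h2
      omega
  have h := Fin.le_def.1 hab
  have := key ((b : ℕ) - a) b (by omega)
  omega

/-- the partition of a pivot set -/
theorem pivots_antitone {P : Fin k → Fin n} (hP : StrictMono P) :
    Antitone fun i : Fin k => (P i.rev : ℕ) - (i.rev : ℕ) := by
  intro i j hij
  have h1 := strictMono_add hP (Fin.rev_le_rev.2 hij)
  simp only
  omega

theorem pivots_le {P : Fin k → Fin n} (hP : StrictMono P) (c : Fin k) :
    (P c : ℕ) - (c : ℕ) ≤ n - k := by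
  have hk : 0 < k := c.pos
  have h1 := strictMono_add hP (a := c) (b := ⟨k - 1, by omega⟩)
    (Fin.le_def.2 (by have := c.isLt; simp only; omega))
  have h2 := (P ⟨k - 1, by omega⟩).isLt
  have := c.isLt
  simp only at h1
  omega

/-- **tangent criterion** -/
theorem TC (hkn : k ≤ n) {g : Fin m → Matrix (Fin n) (Fin n) ℝ} (hU : ∀ i, TPT.Uni (g i))
    (hP : ∀ i j : Fin m, (i : ℕ) + 1 = j → TPT.Pos n ((g i)⁻¹ * g j)) {mm : Fin m → ℕ}
    (hs : k * (n - k) ≤ ∑ i, mm i) {B Z : Fin k → Fin n → ℂ} (hB : LinearIndependent ℂ B)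
    (hr : CSC.IsReal n (Submodule.span ℂ (Set.range B)))
    (ho : ∀ i, ∀ s : Fin k → Fin n, StrictMono s →
      ∑ c, (s c : ℕ) < ∑ c : Fin k, (c : ℕ) + mm i →
      pl s (fun a => (TP.cm (g i)⁻¹).mulVec (B a)) = 0)
    (hZ : ∀ i, ∀ s : Fin k → Fin n, StrictMono s →
      ∑ c, (s c : ℕ) < ∑ c : Fin k, (c : ℕ) + mm i →
      dpl s (fun a => (TP.cm (g i)⁻¹).mulVec (B a)) (fun a => (TP.cm (g i)⁻¹).mulVec (Z a)) = 0)
    (b : Fin k) : Z b ∈ Submodule.span ℂ (Set.range B) := by
  classical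
  have hdet : ∀ i, (g i).det ≠ 0 := fun i => by
    rw [TP.UU.det (hU i)]
    exact one_ne_zero
  set H : Submodule ℂ (Fin n → ℂ) := Submodule.span ℂ (Set.range B) with hH
  have hfk : finrank ℂ ↥H = k := by rw [hH, finrank_span_eq_card hB, Fintype.card_fin]
  -- pivots
  choose P hP1 hP2 hP3 hP4 hP5 using fun i =>
    exists_pivots (li_symm (eM (g i) (hdet i)) hB) (span_mp_symm (eM (g i) (hdet i)) hH)
  set lam : Fin m → Fin k → ℕ := fun i c => (P i c.rev : ℕ) - (c.rev : ℕ) with hlam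
  have hanti : ∀ i, Antitone (lam i) := fun i => pivots_antitone (hP1 i)
  have hle : ∀ i c, lam i c ≤ n - k := fun i c => pivots_le (hP1 i) c.rev
  have hflg : ∀ i, (fun j => mp (eM (g i) (hdet i)) (E0 n j)) = TP.flg (g i) := by
    intro i
    funext j
    rw [flg_eq_mp]
  have hmem : ∀ i, H ∈ CSC.schub k n (lam i) (TP.flg (g i)) := by
    intro i
    rw [← hflg i, schub_iff (eM (g i) (hdet i)) hkn (hle i) hB hH]
    intro s hs hne c
    have h1 := Fin.le_def.1 (hP5 i s hs hne c)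
    have h2 := ge_self (hP1 i) c
    simp only [hlam, Fin.rev_rev]
    omega
  have hsum : ∀ i, ∑ c : Fin k, (c : ℕ) + ∑ c, lam i c = ∑ c, (P i c : ℕ) := by
    intro i
    have h2 : ∑ c, lam i c = ∑ c : Fin k, ((P i c : ℕ) - (c : ℕ)) :=
      Equiv.sum_comp Fin.revPerm fun c : Fin k => ((P i c : ℕ) - (c : ℕ))
    rw [h2, ← Finset.sum_add_distrib]
    refine Finset.sum_congr rfl fun c _ => ?_
    have := ge_self (hP1 i) c
    omega
  have hge : ∀ i, mm i ≤ ∑ c, lam i c := by
    intro i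
    by_contra hlt
    apply hP2 i
    apply ho i (P i) (hP1 i)
    rw [← hsum i]
    omega
  have hG := TP.sum_lam_le hU hP hr hfk hanti hle hmem
  have hall : ∑ i, ∑ c, lam i c = ∑ i, mm i :=
    le_antisymm (hG.trans hs) (Finset.sum_le_sum fun i _ => hge i)
  have heq : ∀ i, mm i = ∑ c, lam i c := by
    intro i
    by_contra hne
    have h1 := Finset.sum_lt_sum (fun i (_ : i ∈ Finset.univ) => hge i)
      ⟨i, Finset.mem_univ i, lt_of_le_of_ne (hge i) hne⟩
    omega
  have hprob : CSC.IsProblem k n m lam := ⟨hanti, hle, le_antisymm hG (by rw [hall]; exact hs)⟩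
  -- the tangent vector
  set φ : ↥H →ₗ[ℂ] (Fin n → ℂ) ⧸ H := (Basis.span hB).constr ℂ fun a => H.mkQ (Z a) with hφ
  have hBH : ∀ a, B a ∈ H := fun a => Submodule.subset_span ⟨a, rfl⟩
  have hφB : ∀ a (ha : B a ∈ H), φ ⟨B a, ha⟩ = H.mkQ (Z a) := by
    intro a ha
    have h1 : (⟨B a, ha⟩ : ↥H) = Basis.span hB a := (Basis.span_apply hB a).symm
    rw [h1, hφ, Basis.constr_basis]
  have hφ0 : φ = 0 := by
    refine TP.trans_real hU hP hr hprob hfk hmem φ fun i => ?_
    intro c _ x hx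
    rw [← hflg i] at hx ⊢
    refine cell_mp (eM (g i) (hdet i)) hB hH (fun s hs hlt => ?_) φ hφB _ x hx
    refine hZ i s hs ?_
    rw [← sz0_mp_symm, ← hP3 i, ← hsum i, ← heq i] at hlt
    exact hlt
  have h1 := hφB b (hBH b)
  rw [hφ0, LinearMap.zero_apply] at h1
  rw [← Submodule.ker_mkQ H, LinearMap.mem_ker]
  exact h1.symm

end

end Pool.TPC
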